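import Pool.Agent.R602.AM.Stm

/-!
# Piece AMU: increasing sequences of finite subsets of an amorphous set
-/

set_option autoImplicit false
set_option linter.all false

namespace Pool.Agent.R602.AM

open FirstOrder FirstOrder.Language Pool.Agent.Helper672.ZFA

universe u

variable {M : Type u} [L.Structure M] [hM : IsModel M] {α : Type u} [ITy M α]

open Classical in
theorem amu_main : S_AMU M := by
  intro α _ hA F hF hfin hinc
  by_contra hB
  have hmB : ∀ a, a ∈ (sep M fun a => ∃ n, a ∈ F n) ↔ ∃ n, a ∈ F n := fun a => mem_sep (by
      (repeat' first
        | (with_reducible assumption)
        | (with_reducible exact IntF.id) | (with_reducible exact IntF.fst')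
        | (with_reducible exact IntF.snd') | (with_reducible exact IntF.const _)
        | (with_reducible exact Int.const _)
        | (with_reducible apply IntF.fst) | (with_reducible apply IntF.snd)
        | (with_reducible apply Int.and) | (with_reducible apply Int.or) | (with_reducible apply Int.not)
        | (with_reducible apply Int.ne) | (with_reducible apply Int.iff) | (with_reducible apply Int.imp)
        | (with_reducible apply Int.ex) | (with_reducible apply Int.all) | (with_reducible apply Int.eq)
        | (with_reducible apply Int.mem) | (with_reducible apply Int.subset) | (with_reducible apply Int.fin)
        | (with_reducible_and_instances apply Int.leN) | (with_reducible_and_instances apply Int.ltN)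
        | (with_reducible apply IntF.pair) | (with_reducible apply IntF.succ) | (with_reducible apply IntF.sep)
        | (with_reducible apply IntF.insert) | (with_reducible apply IntF.singleton)
        | (with_reducible apply IntF.union) | (with_reducible apply IntF.inter) | (with_reducible apply IntF.sdiff)
        | (with_reducible apply int_dm) | (with_reducible apply int_rn) | (with_reducible apply int_idm)
        | (with_reducible apply int_ivr) | (with_reducible apply int_cmp) | (with_reducible apply int_img)
        | (with_reducible apply int_cl) | (with_reducible apply int_Bk)
        | (with_reducible ((refine IntF.comp₂ ?_ ?_ ?_); assumption))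
        | (with_reducible ((refine Int.comp₂ ?_ ?_ ?_); assumption))
        | (with_reducible ((refine IntF.comp ?_ ?_); assumption))
        | (with_reducible ((refine Int.comp ?_ ?_); assumption))
        | (with_reducible apply IntF.app)))
  -- monotonicity
  have hmono : ∀ n : INat M, ∀ m : INat M, m ≤ n → F m ⊆ F n := by
    refine INat.ind (by
        (repeat' first
          | (with_reducible assumption)
          | (with_reducible exact IntF.id) | (with_reducible exact IntF.fst')
          | (with_reducible exact IntF.snd') | (with_reducible exact IntF.const _)
          | (with_reducible exact Int.const _)
          | (with_reducible apply IntF.fst) | (with_reducible apply IntF.snd)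
          | (with_reducible apply Int.and) | (with_reducible apply Int.or) | (with_reducible apply Int.not)
          | (with_reducible apply Int.ne) | (with_reducible apply Int.iff) | (with_reducible apply Int.imp)
          | (with_reducible apply Int.ex) | (with_reducible apply Int.all) | (with_reducible apply Int.eq)
          | (with_reducible apply Int.mem) | (with_reducible apply Int.subset) | (with_reducible apply Int.fin)
          | (with_reducible_and_instances apply Int.leN) | (with_reducible_and_instances apply Int.ltN)
          | (with_reducible apply IntF.pair) | (with_reducible apply IntF.succ) | (with_reducible apply IntF.sep)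
          | (with_reducible apply IntF.insert) | (with_reducible apply IntF.singleton)
          | (with_reducible apply IntF.union) | (with_reducible apply IntF.inter) | (with_reducible apply IntF.sdiff)
          | (with_reducible apply int_dm) | (with_reducible apply int_rn) | (with_reducible apply int_idm)
          | (with_reducible apply int_ivr) | (with_reducible apply int_cmp) | (with_reducible apply int_img)
          | (with_reducible apply int_cl) | (with_reducible apply int_Bk)
          | (with_reducible ((refine IntF.comp₂ ?_ ?_ ?_); assumption))
          | (with_reducible ((refine Int.comp₂ ?_ ?_ ?_); assumption))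
          | (with_reducible ((refine IntF.comp ?_ ?_); assumption))
          | (with_reducible ((refine Int.comp ?_ ?_); assumption))
          | (with_reducible apply IntF.app))) ?_ ?_
    · intro m hm
      have : m = 0 := le_antisymm hm (INat.zero_le m)
      rw [this]
      exact fun _ h => h
    · intro n ih m hm
      rcases hm.lt_or_eq with h | h
      · exact fun x hx => hinc n x (ih m (INat.lt_succ_iff.1 h) x hx)
      · rw [h]
        exact fun _ h => h
  -- first occurrence
  let Q : INat M → Prop := fun n => ∃ a, a ∈ F n ∧ ∀ m, m < n → a ∉ F m
  have hQdef : ∀ n, Q n ↔ ∃ a, a ∈ F n ∧ ∀ m, m < n → a ∉ F m := fun n => Iff.rfl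
  have hQ : Int M Q := by
    change Int M (fun n : INat M => ∃ a, a ∈ F n ∧ ∀ m, m < n → a ∉ F m)
    exact (by
        (repeat' first
          | (with_reducible assumption)
          | (with_reducible exact IntF.id) | (with_reducible exact IntF.fst')
          | (with_reducible exact IntF.snd') | (with_reducible exact IntF.const _)
          | (with_reducible exact Int.const _)
          | (with_reducible apply IntF.fst) | (with_reducible apply IntF.snd)
          | (with_reducible apply Int.and) | (with_reducible apply Int.or) | (with_reducible apply Int.not)
          | (with_reducible apply Int.ne) | (with_reducible apply Int.iff) | (with_reducible apply Int.imp)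
          | (with_reducible apply Int.ex) | (with_reducible apply Int.all) | (with_reducible apply Int.eq)
          | (with_reducible apply Int.mem) | (with_reducible apply Int.subset) | (with_reducible apply Int.fin)
          | (with_reducible_and_instances apply Int.leN) | (with_reducible_and_instances apply Int.ltN)
          | (with_reducible apply IntF.pair) | (with_reducible apply IntF.succ) | (with_reducible apply IntF.sep)
          | (with_reducible apply IntF.insert) | (with_reducible apply IntF.singleton)
          | (with_reducible apply IntF.union) | (with_reducible apply IntF.inter) | (with_reducible apply IntF.sdiff)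
          | (with_reducible apply int_dm) | (with_reducible apply int_rn) | (with_reducible apply int_idm)
          | (with_reducible apply int_ivr) | (with_reducible apply int_cmp) | (with_reducible apply int_img)
          | (with_reducible apply int_cl) | (with_reducible apply int_Bk)
          | (with_reducible ((refine IntF.comp₂ ?_ ?_ ?_); assumption))
          | (with_reducible ((refine Int.comp₂ ?_ ?_ ?_); assumption))
          | (with_reducible ((refine IntF.comp ?_ ?_); assumption))
          | (with_reducible ((refine Int.comp ?_ ?_); assumption))
          | (with_reducible apply IntF.app)))
  have hunb : ∀ N : INat M, ∃ n, N < n ∧ Q n := by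
    intro N
    have h1 : ∃ a, (∃ n, a ∈ F n) ∧ a ∉ F N := by
      by_contra hn
      push Not at hn
      refine hB ((hfin N).subset fun a ha => ?_)
      rw [hmB] at ha
      exact hn a ha
    obtain ⟨a, ha1, ha2⟩ := h1
    obtain ⟨n, hn, hmin⟩ := INat.exists_least (p := fun n : INat M => a ∈ F n) (by
        (repeat' first
          | (with_reducible assumption)
          | (with_reducible exact IntF.id) | (with_reducible exact IntF.fst')
          | (with_reducible exact IntF.snd') | (with_reducible exact IntF.const _)
          | (with_reducible exact Int.const _)
          | (with_reducible apply IntF.fst) | (with_reducible apply IntF.snd)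
          | (with_reducible apply Int.and) | (with_reducible apply Int.or) | (with_reducible apply Int.not)
          | (with_reducible apply Int.ne) | (with_reducible apply Int.iff) | (with_reducible apply Int.imp)
          | (with_reducible apply Int.ex) | (with_reducible apply Int.all) | (with_reducible apply Int.eq)
          | (with_reducible apply Int.mem) | (with_reducible apply Int.subset) | (with_reducible apply Int.fin)
          | (with_reducible_and_instances apply Int.leN) | (with_reducible_and_instances apply Int.ltN)
          | (with_reducible apply IntF.pair) | (with_reducible apply IntF.succ) | (with_reducible apply IntF.sep)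
          | (with_reducible apply IntF.insert) | (with_reducible apply IntF.singleton)
          | (with_reducible apply IntF.union) | (with_reducible apply IntF.inter) | (with_reducible apply IntF.sdiff)
          | (with_reducible apply int_dm) | (with_reducible apply int_rn) | (with_reducible apply int_idm)
          | (with_reducible apply int_ivr) | (with_reducible apply int_cmp) | (with_reducible apply int_img)
          | (with_reducible apply int_cl) | (with_reducible apply int_Bk)
          | (with_reducible ((refine IntF.comp₂ ?_ ?_ ?_); assumption))
          | (with_reducible ((refine Int.comp₂ ?_ ?_ ?_); assumption))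
          | (with_reducible ((refine IntF.comp ?_ ?_); assumption))
          | (with_reducible ((refine Int.comp ?_ ?_); assumption))
          | (with_reducible apply IntF.app))) ha1
    refine ⟨n, ?_, a, hn, fun m hm hma => absurd (hmin m hma) (not_le.2 hm)⟩
    by_contra hle
    exact ha2 (hmono N n (not_lt.1 hle) a hn)
  -- parity
  let fl : INat M → INat M → INat M := fun n x => if Q n then (if x = 0 then 1 else 0) else x
  have hfl : IntF M (fun q : INat M × INat M => fl q.1 q.2) := by
    have h1 : Int M (fun q : INat M × INat M => Q q.1) := hQ.comp IntF.fst'
    have h2 : Int M (fun q : INat M × INat M => q.2 = 0) := (by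
        (repeat' first
          | (with_reducible assumption)
          | (with_reducible exact IntF.id) | (with_reducible exact IntF.fst')
          | (with_reducible exact IntF.snd') | (with_reducible exact IntF.const _)
          | (with_reducible exact Int.const _)
          | (with_reducible apply IntF.fst) | (with_reducible apply IntF.snd)
          | (with_reducible apply Int.and) | (with_reducible apply Int.or) | (with_reducible apply Int.not)
          | (with_reducible apply Int.ne) | (with_reducible apply Int.iff) | (with_reducible apply Int.imp)
          | (with_reducible apply Int.ex) | (with_reducible apply Int.all) | (with_reducible apply Int.eq)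
          | (with_reducible apply Int.mem) | (with_reducible apply Int.subset) | (with_reducible apply Int.fin)
          | (with_reducible_and_instances apply Int.leN) | (with_reducible_and_instances apply Int.ltN)
          | (with_reducible apply IntF.pair) | (with_reducible apply IntF.succ) | (with_reducible apply IntF.sep)
          | (with_reducible apply IntF.insert) | (with_reducible apply IntF.singleton)
          | (with_reducible apply IntF.union) | (with_reducible apply IntF.inter) | (with_reducible apply IntF.sdiff)
          | (with_reducible apply int_dm) | (with_reducible apply int_rn) | (with_reducible apply int_idm)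
          | (with_reducible apply int_ivr) | (with_reducible apply int_cmp) | (with_reducible apply int_img)
          | (with_reducible apply int_cl) | (with_reducible apply int_Bk)
          | (with_reducible ((refine IntF.comp₂ ?_ ?_ ?_); assumption))
          | (with_reducible ((refine Int.comp₂ ?_ ?_ ?_); assumption))
          | (with_reducible ((refine IntF.comp ?_ ?_); assumption))
          | (with_reducible ((refine Int.comp ?_ ?_); assumption))
          | (with_reducible apply IntF.app)))
    exact IntF.ite h1 (IntF.ite h2 (IntF.const _) (IntF.const _)) IntF.snd'
  let p : INat M → INat M := fun n => irec 0 fl n
  have hp : IntF M p := by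
    change IntF M (fun n => irec 0 fl n)
    refine IntF.irec (a := fun _ : INat M => (0 : INat M)) (f := fun _ : INat M => fl)
      (IntF.const _) ?_ IntF.id
    have h3 : IntF M (fun q : (INat M × INat M) × INat M => (q.1.2, q.2)) := (by
        (repeat' first
          | (with_reducible assumption)
          | (with_reducible exact IntF.id) | (with_reducible exact IntF.fst')
          | (with_reducible exact IntF.snd') | (with_reducible exact IntF.const _)
          | (with_reducible exact Int.const _)
          | (with_reducible apply IntF.fst) | (with_reducible apply IntF.snd)
          | (with_reducible apply Int.and) | (with_reducible apply Int.or) | (with_reducible apply Int.not)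
          | (with_reducible apply Int.ne) | (with_reducible apply Int.iff) | (with_reducible apply Int.imp)
          | (with_reducible apply Int.ex) | (with_reducible apply Int.all) | (with_reducible apply Int.eq)
          | (with_reducible apply Int.mem) | (with_reducible apply Int.subset) | (with_reducible apply Int.fin)
          | (with_reducible_and_instances apply Int.leN) | (with_reducible_and_instances apply Int.ltN)
          | (with_reducible apply IntF.pair) | (with_reducible apply IntF.succ) | (with_reducible apply IntF.sep)
          | (with_reducible apply IntF.insert) | (with_reducible apply IntF.singleton)
          | (with_reducible apply IntF.union) | (with_reducible apply IntF.inter) | (with_reducible apply IntF.sdiff)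
          | (with_reducible apply int_dm) | (with_reducible apply int_rn) | (with_reducible apply int_idm)
          | (with_reducible apply int_ivr) | (with_reducible apply int_cmp) | (with_reducible apply int_img)
          | (with_reducible apply int_cl) | (with_reducible apply int_Bk)
          | (with_reducible ((refine IntF.comp₂ ?_ ?_ ?_); assumption))
          | (with_reducible ((refine Int.comp₂ ?_ ?_ ?_); assumption))
          | (with_reducible ((refine IntF.comp ?_ ?_); assumption))
          | (with_reducible ((refine Int.comp ?_ ?_); assumption))
          | (with_reducible apply IntF.app)))
    exact IntF.comp (g := fun q : INat M × INat M => fl q.1 q.2) hfl h3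
  have hps : ∀ n, p n.succ = fl n (p n) := fun n => irec_succ hfl n
  have hpQ : ∀ n, Q n → (p n.succ = 0 ↔ p n ≠ 0) := by
    intro n hn
    rw [hps]
    change (if Q n then (if p n = 0 then (1 : INat M) else 0) else p n) = 0 ↔ _
    rw [if_pos hn]
    by_cases h0 : p n = 0
    · rw [if_pos h0]
      have : (1 : INat M) ≠ 0 := INat.succ_ne_zero 0
      exact ⟨fun h => absurd h this, fun h => absurd h0 h⟩
    · rw [if_neg h0]
      exact ⟨fun _ => h0, fun _ => rfl⟩
  have hpn : ∀ n, ¬ Q n → p n.succ = p n := by
    intro n hn
    rw [hps]
    change (if Q n then (if p n = 0 then (1 : INat M) else 0) else p n) = _
    rw [if_neg hn]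
  have hconst : ∀ n1 : INat M, ∀ n : INat M, n1 < n → (∀ k, n1 < k → k < n → ¬ Q k) →
      p n = p n1.succ := by
    intro n1
    refine INat.ind (by
        (repeat' first
          | (with_reducible assumption)
          | (with_reducible exact IntF.id) | (with_reducible exact IntF.fst')
          | (with_reducible exact IntF.snd') | (with_reducible exact IntF.const _)
          | (with_reducible exact Int.const _)
          | (with_reducible apply IntF.fst) | (with_reducible apply IntF.snd)
          | (with_reducible apply Int.and) | (with_reducible apply Int.or) | (with_reducible apply Int.not)
          | (with_reducible apply Int.ne) | (with_reducible apply Int.iff) | (with_reducible apply Int.imp)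
          | (with_reducible apply Int.ex) | (with_reducible apply Int.all) | (with_reducible apply Int.eq)
          | (with_reducible apply Int.mem) | (with_reducible apply Int.subset) | (with_reducible apply Int.fin)
          | (with_reducible_and_instances apply Int.leN) | (with_reducible_and_instances apply Int.ltN)
          | (with_reducible apply IntF.pair) | (with_reducible apply IntF.succ) | (with_reducible apply IntF.sep)
          | (with_reducible apply IntF.insert) | (with_reducible apply IntF.singleton)
          | (with_reducible apply IntF.union) | (with_reducible apply IntF.inter) | (with_reducible apply IntF.sdiff)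
          | (with_reducible apply int_dm) | (with_reducible apply int_rn) | (with_reducible apply int_idm)
          | (with_reducible apply int_ivr) | (with_reducible apply int_cmp) | (with_reducible apply int_img)
          | (with_reducible apply int_cl) | (with_reducible apply int_Bk)
          | (with_reducible ((refine IntF.comp₂ ?_ ?_ ?_); assumption))
          | (with_reducible ((refine Int.comp₂ ?_ ?_ ?_); assumption))
          | (with_reducible ((refine IntF.comp ?_ ?_); assumption))
          | (with_reducible ((refine Int.comp ?_ ?_); assumption))
          | (with_reducible apply IntF.app))) ?_ ?_
    · intro h
      exact absurd h INat.not_lt_zero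
    · intro n ih hlt hk
      rcases (INat.lt_succ_iff.1 hlt).lt_or_eq with h | h
      · rw [hpn n (hk n h (INat.lt_succ_self n)), ih h fun k h1 h2 =>
          hk k h1 (h2.trans (INat.lt_succ_self n))]
      · rw [h]
  -- both parities occur beyond any bound
  have hnext : ∀ N : INat M, ∃ n, N < n ∧ Q n ∧ ∀ k, N < k → k < n → ¬ Q k := by
    intro N
    obtain ⟨n, ⟨h1, h2⟩, hmin⟩ := INat.exists_least (p := fun n : INat M => N < n ∧ Q n)
      (Int.and (by
          (repeat' first
            | (with_reducible assumption)
            | (with_reducible exact IntF.id) | (with_reducible exact IntF.fst')
            | (with_reducible exact IntF.snd') | (with_reducible exact IntF.const _)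
            | (with_reducible exact Int.const _)
            | (with_reducible apply IntF.fst) | (with_reducible apply IntF.snd)
            | (with_reducible apply Int.and) | (with_reducible apply Int.or) | (with_reducible apply Int.not)
            | (with_reducible apply Int.ne) | (with_reducible apply Int.iff) | (with_reducible apply Int.imp)
            | (with_reducible apply Int.ex) | (with_reducible apply Int.all) | (with_reducible apply Int.eq)
            | (with_reducible apply Int.mem) | (with_reducible apply Int.subset) | (with_reducible apply Int.fin)
            | (with_reducible_and_instances apply Int.leN) | (with_reducible_and_instances apply Int.ltN)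
            | (with_reducible apply IntF.pair) | (with_reducible apply IntF.succ) | (with_reducible apply IntF.sep)
            | (with_reducible apply IntF.insert) | (with_reducible apply IntF.singleton)
            | (with_reducible apply IntF.union) | (with_reducible apply IntF.inter) | (with_reducible apply IntF.sdiff)
            | (with_reducible apply int_dm) | (with_reducible apply int_rn) | (with_reducible apply int_idm)
            | (with_reducible apply int_ivr) | (with_reducible apply int_cmp) | (with_reducible apply int_img)
            | (with_reducible apply int_cl) | (with_reducible apply int_Bk)
            | (with_reducible ((refine IntF.comp₂ ?_ ?_ ?_); assumption))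
            | (with_reducible ((refine Int.comp₂ ?_ ?_ ?_); assumption))
            | (with_reducible ((refine IntF.comp ?_ ?_); assumption))
            | (with_reducible ((refine Int.comp ?_ ?_); assumption))
            | (with_reducible apply IntF.app))) hQ) (hunb N)
    exact ⟨n, h1, h2, fun k hk1 hk2 hk3 => absurd (hmin k ⟨hk1, hk3⟩) (not_le.2 hk2)⟩
  have hboth : ∀ N : INat M, (∃ n, N < n ∧ Q n ∧ p n = 0) ∧ ∃ n, N < n ∧ Q n ∧ p n ≠ 0 := by
    intro N
    obtain ⟨n1, h1, h2, _⟩ := hnext N
    obtain ⟨n2, k1, k2, k3⟩ := hnext n1
    have h4 := hconst n1 n2 k1 k3
    have h5 := hpQ n1 h2
    rw [← h4] at h5
    by_cases h6 : p n1 = 0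
    · exact ⟨⟨n1, h1, h2, h6⟩, n2, h1.trans k1, k2, fun h => (h5.1 h) h6⟩
    · exact ⟨⟨n2, h1.trans k1, k2, h5.2 h6⟩, n1, h1, h2, h6⟩
  -- the two infinite sets
  have hbdd : ∀ s : IPow M α, IFin s → (∀ a, a ∈ s → ∃ n, a ∈ F n) →
      ∃ N, ∀ a, a ∈ s → a ∈ F N := by
    intro s hs h
    refine IFin.exists_bound (r := fun (a : α) (n : INat M) => a ∈ F n) (by
        (repeat' first
          | (with_reducible assumption)
          | (with_reducible exact IntF.id) | (with_reducible exact IntF.fst')
          | (with_reducible exact IntF.snd') | (with_reducible exact IntF.const _)
          | (with_reducible exact Int.const _)
          | (with_reducible apply IntF.fst) | (with_reducible apply IntF.snd)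
          | (with_reducible apply Int.and) | (with_reducible apply Int.or) | (with_reducible apply Int.not)
          | (with_reducible apply Int.ne) | (with_reducible apply Int.iff) | (with_reducible apply Int.imp)
          | (with_reducible apply Int.ex) | (with_reducible apply Int.all) | (with_reducible apply Int.eq)
          | (with_reducible apply Int.mem) | (with_reducible apply Int.subset) | (with_reducible apply Int.fin)
          | (with_reducible_and_instances apply Int.leN) | (with_reducible_and_instances apply Int.ltN)
          | (with_reducible apply IntF.pair) | (with_reducible apply IntF.succ) | (with_reducible apply IntF.sep)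
          | (with_reducible apply IntF.insert) | (with_reducible apply IntF.singleton)
          | (with_reducible apply IntF.union) | (with_reducible apply IntF.inter) | (with_reducible apply IntF.sdiff)
          | (with_reducible apply int_dm) | (with_reducible apply int_rn) | (with_reducible apply int_idm)
          | (with_reducible apply int_ivr) | (with_reducible apply int_cmp) | (with_reducible apply int_img)
          | (with_reducible apply int_cl) | (with_reducible apply int_Bk)
          | (with_reducible ((refine IntF.comp₂ ?_ ?_ ?_); assumption))
          | (with_reducible ((refine Int.comp₂ ?_ ?_ ?_); assumption))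
          | (with_reducible ((refine IntF.comp ?_ ?_); assumption))
          | (with_reducible ((refine Int.comp ?_ ?_); assumption))
          | (with_reducible apply IntF.app))) ?_ ⟨0⟩ hs h
    intro b c
    refine ⟨max b c, fun a ha => ?_⟩
    rcases ha with ha | ha
    · exact hmono _ _ (le_max_left b c) a ha
    · exact hmono _ _ (le_max_right b c) a ha
  let A0 : IPow M α := sep M fun a => ∃ n, (a ∈ F n ∧ ∀ m, m < n → a ∉ F m) ∧ p n = 0
  have hA0 : ∀ a, a ∈ A0 ↔ ∃ n, (a ∈ F n ∧ ∀ m, m < n → a ∉ F m) ∧ p n = 0 :=
    fun a => mem_sep (by
        (repeat' first
          | (with_reducible assumption)
          | (with_reducible exact IntF.id) | (with_reducible exact IntF.fst')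
          | (with_reducible exact IntF.snd') | (with_reducible exact IntF.const _)
          | (with_reducible exact Int.const _)
          | (with_reducible apply IntF.fst) | (with_reducible apply IntF.snd)
          | (with_reducible apply Int.and) | (with_reducible apply Int.or) | (with_reducible apply Int.not)
          | (with_reducible apply Int.ne) | (with_reducible apply Int.iff) | (with_reducible apply Int.imp)
          | (with_reducible apply Int.ex) | (with_reducible apply Int.all) | (with_reducible apply Int.eq)
          | (with_reducible apply Int.mem) | (with_reducible apply Int.subset) | (with_reducible apply Int.fin)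
          | (with_reducible_and_instances apply Int.leN) | (with_reducible_and_instances apply Int.ltN)
          | (with_reducible apply IntF.pair) | (with_reducible apply IntF.succ) | (with_reducible apply IntF.sep)
          | (with_reducible apply IntF.insert) | (with_reducible apply IntF.singleton)
          | (with_reducible apply IntF.union) | (with_reducible apply IntF.inter) | (with_reducible apply IntF.sdiff)
          | (with_reducible apply int_dm) | (with_reducible apply int_rn) | (with_reducible apply int_idm)
          | (with_reducible apply int_ivr) | (with_reducible apply int_cmp) | (with_reducible apply int_img)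
          | (with_reducible apply int_cl) | (with_reducible apply int_Bk)
          | (with_reducible ((refine IntF.comp₂ ?_ ?_ ?_); assumption))
          | (with_reducible ((refine Int.comp₂ ?_ ?_ ?_); assumption))
          | (with_reducible ((refine IntF.comp ?_ ?_); assumption))
          | (with_reducible ((refine Int.comp ?_ ?_); assumption))
          | (with_reducible apply IntF.app)))
  rcases hA.2 A0 with h | h
  · obtain ⟨N, hN⟩ := hbdd A0 h (fun a ha => by
      obtain ⟨n, hn, _⟩ := (hA0 a).1 ha
      exact ⟨n, hn.1⟩)
    obtain ⟨n, h1, ⟨a, h2⟩, h3⟩ := (hboth N).1
    have h4 : a ∈ A0 := (hA0 a).2 ⟨n, h2, h3⟩
    exact h2.2 N h1 (hN a h4)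
  · let A1 : IPow M α := sep M fun a => ∃ n, (a ∈ F n ∧ ∀ m, m < n → a ∉ F m) ∧ p n ≠ 0
    have hA1 : ∀ a, a ∈ A1 ↔ ∃ n, (a ∈ F n ∧ ∀ m, m < n → a ∉ F m) ∧ p n ≠ 0 :=
      fun a => mem_sep (by
          (repeat' first
            | (with_reducible assumption)
            | (with_reducible exact IntF.id) | (with_reducible exact IntF.fst')
            | (with_reducible exact IntF.snd') | (with_reducible exact IntF.const _)
            | (with_reducible exact Int.const _)
            | (with_reducible apply IntF.fst) | (with_reducible apply IntF.snd)
            | (with_reducible apply Int.and) | (with_reducible apply Int.or) | (with_reducible apply Int.not)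
            | (with_reducible apply Int.ne) | (with_reducible apply Int.iff) | (with_reducible apply Int.imp)
            | (with_reducible apply Int.ex) | (with_reducible apply Int.all) | (with_reducible apply Int.eq)
            | (with_reducible apply Int.mem) | (with_reducible apply Int.subset) | (with_reducible apply Int.fin)
            | (with_reducible_and_instances apply Int.leN) | (with_reducible_and_instances apply Int.ltN)
            | (with_reducible apply IntF.pair) | (with_reducible apply IntF.succ) | (with_reducible apply IntF.sep)
            | (with_reducible apply IntF.insert) | (with_reducible apply IntF.singleton)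
            | (with_reducible apply IntF.union) | (with_reducible apply IntF.inter) | (with_reducible apply IntF.sdiff)
            | (with_reducible apply int_dm) | (with_reducible apply int_rn) | (with_reducible apply int_idm)
            | (with_reducible apply int_ivr) | (with_reducible apply int_cmp) | (with_reducible apply int_img)
            | (with_reducible apply int_cl) | (with_reducible apply int_Bk)
            | (with_reducible ((refine IntF.comp₂ ?_ ?_ ?_); assumption))
            | (with_reducible ((refine Int.comp₂ ?_ ?_ ?_); assumption))
            | (with_reducible ((refine IntF.comp ?_ ?_); assumption))
            | (with_reducible ((refine Int.comp ?_ ?_); assumption))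
            | (with_reducible apply IntF.app)))
    have hA1f : IFin A1 := h.subset fun a ha => by
      rw [mem_sdiff]
      refine ⟨by simp, fun ha0 => ?_⟩
      obtain ⟨n, h1, h2⟩ := (hA1 a).1 ha
      obtain ⟨m, k1, k2⟩ := (hA0 a).1 ha0
      have : n = m := by
        rcases lt_trichotomy n m with h | h | h
        · exact absurd h1.1 (k1.2 n h)
        · exact h
        · exact absurd k1.1 (h1.2 m h)
      rw [this] at h2
      exact h2 k2
    obtain ⟨N, hN⟩ := hbdd A1 hA1f (fun a ha => by
      obtain ⟨n, hn, _⟩ := (hA1 a).1 ha
      exact ⟨n, hn.1⟩)
    obtain ⟨n, h1, ⟨a, h2⟩, h3⟩ := (hboth N).2
    have h4 : a ∈ A1 := (hA1 a).2 ⟨n, h2, h3⟩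
    exact h2.2 N h1 (hN a h4)

end Pool.Agent.R602.AM
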