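import Pool.Agent.Helper672.ZFA.Arith

/-!
# Amorphous sets in a model of set theory: basic notions

Everything is internal to a model `M` of Zermelo set theory with atoms (`IsModel M`), in the
framework `Pool.Agent.Helper672.ZFA`.
-/

set_option autoImplicit false
set_option linter.all false

namespace Pool.Agent.R602.AM

open FirstOrder FirstOrder.Language Pool.Agent.Helper672.ZFA

universe u

variable {M : Type u} [L.Structure M] [hM : IsModel M] {α β γ ν : Type u}
  [ITy M α] [ITy M β] [ITy M γ] [ITy M ν]

/-- The internal type `α` is amorphous in the model. -/
def Amor (M : Type u) [L.Structure M] [IsModel M] (α : Type u) [ITy M α] : Prop :=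
  ¬ IFin (iuniv M α) ∧ ∀ s : IPow M α, IFin s ∨ IFin (iuniv M α \ s)

/-- The domain of a relation. -/
noncomputable def dm (σ : IPow M (α × α)) : IPow M α := sep M fun a => ∃ b, (a, b) ∈ σ

/-- The range of a relation. -/
noncomputable def rn (σ : IPow M (α × α)) : IPow M α := sep M fun b => ∃ a, (a, b) ∈ σ

/-- The identity on a set. -/
noncomputable def idm (s : IPow M α) : IPow M (α × α) := sep M fun p => p.1 ∈ s ∧ p.1 = p.2

/-- The inverse relation. -/
noncomputable def ivr (σ : IPow M (α × α)) : IPow M (α × α) := sep M fun p => (p.2, p.1) ∈ σ

/-- The composition: first `σ`, then `ρ`. -/
noncomputable def cmp (σ ρ : IPow M (α × α)) : IPow M (α × α) :=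
  sep M fun p => ∃ b, (p.1, b) ∈ σ ∧ (b, p.2) ∈ ρ

/-- The image of a set under a relation. -/
noncomputable def img (σ : IPow M (α × α)) (s : IPow M α) : IPow M α :=
  sep M fun b => ∃ a, a ∈ s ∧ (a, b) ∈ σ

/-- The closure: the elements whose orbit over `s` is not cofinite. -/
noncomputable def cl (Γ : IPow M (IPow M (α × α))) (s : IPow M α) : IPow M α :=
  sep M fun a => ¬ ∃ U : IPow M α, IFin U ∧ ∀ b, b ∉ U → insert (a, b) (idm s) ∈ Γ

/-- The block of `x` over `D`. -/
noncomputable def Bk (Γ : IPow M (IPow M (α × α))) (D : IPow M α) (x : α) : IPow M α :=
  cl Γ (insert x D) \ D

theorem mem_dm {σ : IPow M (α × α)} {a : α} : a ∈ dm σ ↔ ∃ b, (a, b) ∈ σ :=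
  mem_sep (by
      (repeat' first
        | (with_reducible assumption)
        | (with_reducible exact IntF.id) | (with_reducible exact IntF.fst')
        | (with_reducible exact IntF.snd') | (with_reducible exact IntF.const _)
        | (with_reducible exact Int.const _)
        | (with_reducible apply IntF.fst) | (with_reducible apply IntF.snd)
        | (with_reducible apply Int.and) | (with_reducible apply Int.or) | (with_reducible apply Int.not)
        | (with_reducible apply Int.ne) | (with_reducible apply Int.iff) | (with_reducible apply Int.imp)
        | (with_reducible apply Int.ex) | (with_reducible apply Int.all) | (with_reducible apply Int.eq)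
        | (with_reducible apply Int.mem) | (with_reducible apply Int.subset) | (with_reducible apply Int.fin)
        | (with_reducible_and_instances apply Int.leN) | (with_reducible_and_instances apply Int.ltN)
        | (with_reducible apply IntF.pair) | (with_reducible apply IntF.succ) | (with_reducible apply IntF.sep)
        | (with_reducible apply IntF.insert) | (with_reducible apply IntF.singleton)
        | (with_reducible apply IntF.union) | (with_reducible apply IntF.inter) | (with_reducible apply IntF.sdiff)
        | (with_reducible apply int_dm) | (with_reducible apply int_rn) | (with_reducible apply int_idm)
        | (with_reducible apply int_ivr) | (with_reducible apply int_cmp) | (with_reducible apply int_img)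
        | (with_reducible apply int_cl) | (with_reducible apply int_Bk)
        | (with_reducible ((refine IntF.comp₂ ?_ ?_ ?_); assumption))
        | (with_reducible ((refine Int.comp₂ ?_ ?_ ?_); assumption))
        | (with_reducible ((refine IntF.comp ?_ ?_); assumption))
        | (with_reducible ((refine Int.comp ?_ ?_); assumption))
        | (with_reducible apply IntF.app)))

theorem mem_rn {σ : IPow M (α × α)} {b : α} : b ∈ rn σ ↔ ∃ a, (a, b) ∈ σ :=
  mem_sep (by
      (repeat' first
        | (with_reducible assumption)
        | (with_reducible exact IntF.id) | (with_reducible exact IntF.fst')
        | (with_reducible exact IntF.snd') | (with_reducible exact IntF.const _)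
        | (with_reducible exact Int.const _)
        | (with_reducible apply IntF.fst) | (with_reducible apply IntF.snd)
        | (with_reducible apply Int.and) | (with_reducible apply Int.or) | (with_reducible apply Int.not)
        | (with_reducible apply Int.ne) | (with_reducible apply Int.iff) | (with_reducible apply Int.imp)
        | (with_reducible apply Int.ex) | (with_reducible apply Int.all) | (with_reducible apply Int.eq)
        | (with_reducible apply Int.mem) | (with_reducible apply Int.subset) | (with_reducible apply Int.fin)
        | (with_reducible_and_instances apply Int.leN) | (with_reducible_and_instances apply Int.ltN)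
        | (with_reducible apply IntF.pair) | (with_reducible apply IntF.succ) | (with_reducible apply IntF.sep)
        | (with_reducible apply IntF.insert) | (with_reducible apply IntF.singleton)
        | (with_reducible apply IntF.union) | (with_reducible apply IntF.inter) | (with_reducible apply IntF.sdiff)
        | (with_reducible apply int_dm) | (with_reducible apply int_rn) | (with_reducible apply int_idm)
        | (with_reducible apply int_ivr) | (with_reducible apply int_cmp) | (with_reducible apply int_img)
        | (with_reducible apply int_cl) | (with_reducible apply int_Bk)
        | (with_reducible ((refine IntF.comp₂ ?_ ?_ ?_); assumption))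
        | (with_reducible ((refine Int.comp₂ ?_ ?_ ?_); assumption))
        | (with_reducible ((refine IntF.comp ?_ ?_); assumption))
        | (with_reducible ((refine Int.comp ?_ ?_); assumption))
        | (with_reducible apply IntF.app)))

theorem mem_idm {s : IPow M α} {p : α × α} : p ∈ idm s ↔ p.1 ∈ s ∧ p.1 = p.2 :=
  mem_sep (by
      (repeat' first
        | (with_reducible assumption)
        | (with_reducible exact IntF.id) | (with_reducible exact IntF.fst')
        | (with_reducible exact IntF.snd') | (with_reducible exact IntF.const _)
        | (with_reducible exact Int.const _)
        | (with_reducible apply IntF.fst) | (with_reducible apply IntF.snd)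
        | (with_reducible apply Int.and) | (with_reducible apply Int.or) | (with_reducible apply Int.not)
        | (with_reducible apply Int.ne) | (with_reducible apply Int.iff) | (with_reducible apply Int.imp)
        | (with_reducible apply Int.ex) | (with_reducible apply Int.all) | (with_reducible apply Int.eq)
        | (with_reducible apply Int.mem) | (with_reducible apply Int.subset) | (with_reducible apply Int.fin)
        | (with_reducible_and_instances apply Int.leN) | (with_reducible_and_instances apply Int.ltN)
        | (with_reducible apply IntF.pair) | (with_reducible apply IntF.succ) | (with_reducible apply IntF.sep)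
        | (with_reducible apply IntF.insert) | (with_reducible apply IntF.singleton)
        | (with_reducible apply IntF.union) | (with_reducible apply IntF.inter) | (with_reducible apply IntF.sdiff)
        | (with_reducible apply int_dm) | (with_reducible apply int_rn) | (with_reducible apply int_idm)
        | (with_reducible apply int_ivr) | (with_reducible apply int_cmp) | (with_reducible apply int_img)
        | (with_reducible apply int_cl) | (with_reducible apply int_Bk)
        | (with_reducible ((refine IntF.comp₂ ?_ ?_ ?_); assumption))
        | (with_reducible ((refine Int.comp₂ ?_ ?_ ?_); assumption))
        | (with_reducible ((refine IntF.comp ?_ ?_); assumption))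
        | (with_reducible ((refine Int.comp ?_ ?_); assumption))
        | (with_reducible apply IntF.app)))

theorem mem_ivr {σ : IPow M (α × α)} {p : α × α} : p ∈ ivr σ ↔ (p.2, p.1) ∈ σ :=
  mem_sep (by
      (repeat' first
        | (with_reducible assumption)
        | (with_reducible exact IntF.id) | (with_reducible exact IntF.fst')
        | (with_reducible exact IntF.snd') | (with_reducible exact IntF.const _)
        | (with_reducible exact Int.const _)
        | (with_reducible apply IntF.fst) | (with_reducible apply IntF.snd)
        | (with_reducible apply Int.and) | (with_reducible apply Int.or) | (with_reducible apply Int.not)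
        | (with_reducible apply Int.ne) | (with_reducible apply Int.iff) | (with_reducible apply Int.imp)
        | (with_reducible apply Int.ex) | (with_reducible apply Int.all) | (with_reducible apply Int.eq)
        | (with_reducible apply Int.mem) | (with_reducible apply Int.subset) | (with_reducible apply Int.fin)
        | (with_reducible_and_instances apply Int.leN) | (with_reducible_and_instances apply Int.ltN)
        | (with_reducible apply IntF.pair) | (with_reducible apply IntF.succ) | (with_reducible apply IntF.sep)
        | (with_reducible apply IntF.insert) | (with_reducible apply IntF.singleton)
        | (with_reducible apply IntF.union) | (with_reducible apply IntF.inter) | (with_reducible apply IntF.sdiff)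
        | (with_reducible apply int_dm) | (with_reducible apply int_rn) | (with_reducible apply int_idm)
        | (with_reducible apply int_ivr) | (with_reducible apply int_cmp) | (with_reducible apply int_img)
        | (with_reducible apply int_cl) | (with_reducible apply int_Bk)
        | (with_reducible ((refine IntF.comp₂ ?_ ?_ ?_); assumption))
        | (with_reducible ((refine Int.comp₂ ?_ ?_ ?_); assumption))
        | (with_reducible ((refine IntF.comp ?_ ?_); assumption))
        | (with_reducible ((refine Int.comp ?_ ?_); assumption))
        | (with_reducible apply IntF.app)))

theorem mem_cmp {σ ρ : IPow M (α × α)} {p : α × α} :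
    p ∈ cmp σ ρ ↔ ∃ b, (p.1, b) ∈ σ ∧ (b, p.2) ∈ ρ :=
  mem_sep (by
      (repeat' first
        | (with_reducible assumption)
        | (with_reducible exact IntF.id) | (with_reducible exact IntF.fst')
        | (with_reducible exact IntF.snd') | (with_reducible exact IntF.const _)
        | (with_reducible exact Int.const _)
        | (with_reducible apply IntF.fst) | (with_reducible apply IntF.snd)
        | (with_reducible apply Int.and) | (with_reducible apply Int.or) | (with_reducible apply Int.not)
        | (with_reducible apply Int.ne) | (with_reducible apply Int.iff) | (with_reducible apply Int.imp)
        | (with_reducible apply Int.ex) | (with_reducible apply Int.all) | (with_reducible apply Int.eq)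
        | (with_reducible apply Int.mem) | (with_reducible apply Int.subset) | (with_reducible apply Int.fin)
        | (with_reducible_and_instances apply Int.leN) | (with_reducible_and_instances apply Int.ltN)
        | (with_reducible apply IntF.pair) | (with_reducible apply IntF.succ) | (with_reducible apply IntF.sep)
        | (with_reducible apply IntF.insert) | (with_reducible apply IntF.singleton)
        | (with_reducible apply IntF.union) | (with_reducible apply IntF.inter) | (with_reducible apply IntF.sdiff)
        | (with_reducible apply int_dm) | (with_reducible apply int_rn) | (with_reducible apply int_idm)
        | (with_reducible apply int_ivr) | (with_reducible apply int_cmp) | (with_reducible apply int_img)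
        | (with_reducible apply int_cl) | (with_reducible apply int_Bk)
        | (with_reducible ((refine IntF.comp₂ ?_ ?_ ?_); assumption))
        | (with_reducible ((refine Int.comp₂ ?_ ?_ ?_); assumption))
        | (with_reducible ((refine IntF.comp ?_ ?_); assumption))
        | (with_reducible ((refine Int.comp ?_ ?_); assumption))
        | (with_reducible apply IntF.app)))

theorem mem_img {σ : IPow M (α × α)} {s : IPow M α} {b : α} :
    b ∈ img σ s ↔ ∃ a, a ∈ s ∧ (a, b) ∈ σ :=
  mem_sep (by
      (repeat' first
        | (with_reducible assumption)
        | (with_reducible exact IntF.id) | (with_reducible exact IntF.fst')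
        | (with_reducible exact IntF.snd') | (with_reducible exact IntF.const _)
        | (with_reducible exact Int.const _)
        | (with_reducible apply IntF.fst) | (with_reducible apply IntF.snd)
        | (with_reducible apply Int.and) | (with_reducible apply Int.or) | (with_reducible apply Int.not)
        | (with_reducible apply Int.ne) | (with_reducible apply Int.iff) | (with_reducible apply Int.imp)
        | (with_reducible apply Int.ex) | (with_reducible apply Int.all) | (with_reducible apply Int.eq)
        | (with_reducible apply Int.mem) | (with_reducible apply Int.subset) | (with_reducible apply Int.fin)
        | (with_reducible_and_instances apply Int.leN) | (with_reducible_and_instances apply Int.ltN)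
        | (with_reducible apply IntF.pair) | (with_reducible apply IntF.succ) | (with_reducible apply IntF.sep)
        | (with_reducible apply IntF.insert) | (with_reducible apply IntF.singleton)
        | (with_reducible apply IntF.union) | (with_reducible apply IntF.inter) | (with_reducible apply IntF.sdiff)
        | (with_reducible apply int_dm) | (with_reducible apply int_rn) | (with_reducible apply int_idm)
        | (with_reducible apply int_ivr) | (with_reducible apply int_cmp) | (with_reducible apply int_img)
        | (with_reducible apply int_cl) | (with_reducible apply int_Bk)
        | (with_reducible ((refine IntF.comp₂ ?_ ?_ ?_); assumption))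
        | (with_reducible ((refine Int.comp₂ ?_ ?_ ?_); assumption))
        | (with_reducible ((refine IntF.comp ?_ ?_); assumption))
        | (with_reducible ((refine Int.comp ?_ ?_); assumption))
        | (with_reducible apply IntF.app)))

theorem int_dm {σ : γ → IPow M (α × α)} (hσ : IntF M σ) : IntF M (fun c => dm (σ c)) := by
  unfold dm
  exact (by
      (repeat' first
        | (with_reducible assumption)
        | (with_reducible exact IntF.id) | (with_reducible exact IntF.fst')
        | (with_reducible exact IntF.snd') | (with_reducible exact IntF.const _)
        | (with_reducible exact Int.const _)
        | (with_reducible apply IntF.fst) | (with_reducible apply IntF.snd)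
        | (with_reducible apply Int.and) | (with_reducible apply Int.or) | (with_reducible apply Int.not)
        | (with_reducible apply Int.ne) | (with_reducible apply Int.iff) | (with_reducible apply Int.imp)
        | (with_reducible apply Int.ex) | (with_reducible apply Int.all) | (with_reducible apply Int.eq)
        | (with_reducible apply Int.mem) | (with_reducible apply Int.subset) | (with_reducible apply Int.fin)
        | (with_reducible_and_instances apply Int.leN) | (with_reducible_and_instances apply Int.ltN)
        | (with_reducible apply IntF.pair) | (with_reducible apply IntF.succ) | (with_reducible apply IntF.sep)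
        | (with_reducible apply IntF.insert) | (with_reducible apply IntF.singleton)
        | (with_reducible apply IntF.union) | (with_reducible apply IntF.inter) | (with_reducible apply IntF.sdiff)
        | (with_reducible apply int_dm) | (with_reducible apply int_rn) | (with_reducible apply int_idm)
        | (with_reducible apply int_ivr) | (with_reducible apply int_cmp) | (with_reducible apply int_img)
        | (with_reducible apply int_cl) | (with_reducible apply int_Bk)
        | (with_reducible ((refine IntF.comp₂ ?_ ?_ ?_); assumption))
        | (with_reducible ((refine Int.comp₂ ?_ ?_ ?_); assumption))
        | (with_reducible ((refine IntF.comp ?_ ?_); assumption))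
        | (with_reducible ((refine Int.comp ?_ ?_); assumption))
        | (with_reducible apply IntF.app)))

theorem int_rn {σ : γ → IPow M (α × α)} (hσ : IntF M σ) : IntF M (fun c => rn (σ c)) := by
  unfold rn
  exact (by
      (repeat' first
        | (with_reducible assumption)
        | (with_reducible exact IntF.id) | (with_reducible exact IntF.fst')
        | (with_reducible exact IntF.snd') | (with_reducible exact IntF.const _)
        | (with_reducible exact Int.const _)
        | (with_reducible apply IntF.fst) | (with_reducible apply IntF.snd)
        | (with_reducible apply Int.and) | (with_reducible apply Int.or) | (with_reducible apply Int.not)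
        | (with_reducible apply Int.ne) | (with_reducible apply Int.iff) | (with_reducible apply Int.imp)
        | (with_reducible apply Int.ex) | (with_reducible apply Int.all) | (with_reducible apply Int.eq)
        | (with_reducible apply Int.mem) | (with_reducible apply Int.subset) | (with_reducible apply Int.fin)
        | (with_reducible_and_instances apply Int.leN) | (with_reducible_and_instances apply Int.ltN)
        | (with_reducible apply IntF.pair) | (with_reducible apply IntF.succ) | (with_reducible apply IntF.sep)
        | (with_reducible apply IntF.insert) | (with_reducible apply IntF.singleton)
        | (with_reducible apply IntF.union) | (with_reducible apply IntF.inter) | (with_reducible apply IntF.sdiff)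
        | (with_reducible apply int_dm) | (with_reducible apply int_rn) | (with_reducible apply int_idm)
        | (with_reducible apply int_ivr) | (with_reducible apply int_cmp) | (with_reducible apply int_img)
        | (with_reducible apply int_cl) | (with_reducible apply int_Bk)
        | (with_reducible ((refine IntF.comp₂ ?_ ?_ ?_); assumption))
        | (with_reducible ((refine Int.comp₂ ?_ ?_ ?_); assumption))
        | (with_reducible ((refine IntF.comp ?_ ?_); assumption))
        | (with_reducible ((refine Int.comp ?_ ?_); assumption))
        | (with_reducible apply IntF.app)))

theorem int_idm {s : γ → IPow M α} (hs : IntF M s) : IntF M (fun c => idm (s c)) := by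
  unfold idm
  exact (by
      (repeat' first
        | (with_reducible assumption)
        | (with_reducible exact IntF.id) | (with_reducible exact IntF.fst')
        | (with_reducible exact IntF.snd') | (with_reducible exact IntF.const _)
        | (with_reducible exact Int.const _)
        | (with_reducible apply IntF.fst) | (with_reducible apply IntF.snd)
        | (with_reducible apply Int.and) | (with_reducible apply Int.or) | (with_reducible apply Int.not)
        | (with_reducible apply Int.ne) | (with_reducible apply Int.iff) | (with_reducible apply Int.imp)
        | (with_reducible apply Int.ex) | (with_reducible apply Int.all) | (with_reducible apply Int.eq)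
        | (with_reducible apply Int.mem) | (with_reducible apply Int.subset) | (with_reducible apply Int.fin)
        | (with_reducible_and_instances apply Int.leN) | (with_reducible_and_instances apply Int.ltN)
        | (with_reducible apply IntF.pair) | (with_reducible apply IntF.succ) | (with_reducible apply IntF.sep)
        | (with_reducible apply IntF.insert) | (with_reducible apply IntF.singleton)
        | (with_reducible apply IntF.union) | (with_reducible apply IntF.inter) | (with_reducible apply IntF.sdiff)
        | (with_reducible apply int_dm) | (with_reducible apply int_rn) | (with_reducible apply int_idm)
        | (with_reducible apply int_ivr) | (with_reducible apply int_cmp) | (with_reducible apply int_img)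
        | (with_reducible apply int_cl) | (with_reducible apply int_Bk)
        | (with_reducible ((refine IntF.comp₂ ?_ ?_ ?_); assumption))
        | (with_reducible ((refine Int.comp₂ ?_ ?_ ?_); assumption))
        | (with_reducible ((refine IntF.comp ?_ ?_); assumption))
        | (with_reducible ((refine Int.comp ?_ ?_); assumption))
        | (with_reducible apply IntF.app)))

theorem int_ivr {σ : γ → IPow M (α × α)} (hσ : IntF M σ) : IntF M (fun c => ivr (σ c)) := by
  unfold ivr
  exact (by
      (repeat' first
        | (with_reducible assumption)
        | (with_reducible exact IntF.id) | (with_reducible exact IntF.fst')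
        | (with_reducible exact IntF.snd') | (with_reducible exact IntF.const _)
        | (with_reducible exact Int.const _)
        | (with_reducible apply IntF.fst) | (with_reducible apply IntF.snd)
        | (with_reducible apply Int.and) | (with_reducible apply Int.or) | (with_reducible apply Int.not)
        | (with_reducible apply Int.ne) | (with_reducible apply Int.iff) | (with_reducible apply Int.imp)
        | (with_reducible apply Int.ex) | (with_reducible apply Int.all) | (with_reducible apply Int.eq)
        | (with_reducible apply Int.mem) | (with_reducible apply Int.subset) | (with_reducible apply Int.fin)
        | (with_reducible_and_instances apply Int.leN) | (with_reducible_and_instances apply Int.ltN)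
        | (with_reducible apply IntF.pair) | (with_reducible apply IntF.succ) | (with_reducible apply IntF.sep)
        | (with_reducible apply IntF.insert) | (with_reducible apply IntF.singleton)
        | (with_reducible apply IntF.union) | (with_reducible apply IntF.inter) | (with_reducible apply IntF.sdiff)
        | (with_reducible apply int_dm) | (with_reducible apply int_rn) | (with_reducible apply int_idm)
        | (with_reducible apply int_ivr) | (with_reducible apply int_cmp) | (with_reducible apply int_img)
        | (with_reducible apply int_cl) | (with_reducible apply int_Bk)
        | (with_reducible ((refine IntF.comp₂ ?_ ?_ ?_); assumption))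
        | (with_reducible ((refine Int.comp₂ ?_ ?_ ?_); assumption))
        | (with_reducible ((refine IntF.comp ?_ ?_); assumption))
        | (with_reducible ((refine Int.comp ?_ ?_); assumption))
        | (with_reducible apply IntF.app)))

theorem int_cmp {σ ρ : γ → IPow M (α × α)} (hσ : IntF M σ) (hρ : IntF M ρ) :
    IntF M (fun c => cmp (σ c) (ρ c)) := by
  unfold cmp
  exact (by
      (repeat' first
        | (with_reducible assumption)
        | (with_reducible exact IntF.id) | (with_reducible exact IntF.fst')
        | (with_reducible exact IntF.snd') | (with_reducible exact IntF.const _)
        | (with_reducible exact Int.const _)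
        | (with_reducible apply IntF.fst) | (with_reducible apply IntF.snd)
        | (with_reducible apply Int.and) | (with_reducible apply Int.or) | (with_reducible apply Int.not)
        | (with_reducible apply Int.ne) | (with_reducible apply Int.iff) | (with_reducible apply Int.imp)
        | (with_reducible apply Int.ex) | (with_reducible apply Int.all) | (with_reducible apply Int.eq)
        | (with_reducible apply Int.mem) | (with_reducible apply Int.subset) | (with_reducible apply Int.fin)
        | (with_reducible_and_instances apply Int.leN) | (with_reducible_and_instances apply Int.ltN)
        | (with_reducible apply IntF.pair) | (with_reducible apply IntF.succ) | (with_reducible apply IntF.sep)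
        | (with_reducible apply IntF.insert) | (with_reducible apply IntF.singleton)
        | (with_reducible apply IntF.union) | (with_reducible apply IntF.inter) | (with_reducible apply IntF.sdiff)
        | (with_reducible apply int_dm) | (with_reducible apply int_rn) | (with_reducible apply int_idm)
        | (with_reducible apply int_ivr) | (with_reducible apply int_cmp) | (with_reducible apply int_img)
        | (with_reducible apply int_cl) | (with_reducible apply int_Bk)
        | (with_reducible ((refine IntF.comp₂ ?_ ?_ ?_); assumption))
        | (with_reducible ((refine Int.comp₂ ?_ ?_ ?_); assumption))
        | (with_reducible ((refine IntF.comp ?_ ?_); assumption))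
        | (with_reducible ((refine Int.comp ?_ ?_); assumption))
        | (with_reducible apply IntF.app)))

theorem int_img {σ : γ → IPow M (α × α)} {s : γ → IPow M α} (hσ : IntF M σ) (hs : IntF M s) :
    IntF M (fun c => img (σ c) (s c)) := by
  unfold img
  exact (by
      (repeat' first
        | (with_reducible assumption)
        | (with_reducible exact IntF.id) | (with_reducible exact IntF.fst')
        | (with_reducible exact IntF.snd') | (with_reducible exact IntF.const _)
        | (with_reducible exact Int.const _)
        | (with_reducible apply IntF.fst) | (with_reducible apply IntF.snd)
        | (with_reducible apply Int.and) | (with_reducible apply Int.or) | (with_reducible apply Int.not)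
        | (with_reducible apply Int.ne) | (with_reducible apply Int.iff) | (with_reducible apply Int.imp)
        | (with_reducible apply Int.ex) | (with_reducible apply Int.all) | (with_reducible apply Int.eq)
        | (with_reducible apply Int.mem) | (with_reducible apply Int.subset) | (with_reducible apply Int.fin)
        | (with_reducible_and_instances apply Int.leN) | (with_reducible_and_instances apply Int.ltN)
        | (with_reducible apply IntF.pair) | (with_reducible apply IntF.succ) | (with_reducible apply IntF.sep)
        | (with_reducible apply IntF.insert) | (with_reducible apply IntF.singleton)
        | (with_reducible apply IntF.union) | (with_reducible apply IntF.inter) | (with_reducible apply IntF.sdiff)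
        | (with_reducible apply int_dm) | (with_reducible apply int_rn) | (with_reducible apply int_idm)
        | (with_reducible apply int_ivr) | (with_reducible apply int_cmp) | (with_reducible apply int_img)
        | (with_reducible apply int_cl) | (with_reducible apply int_Bk)
        | (with_reducible ((refine IntF.comp₂ ?_ ?_ ?_); assumption))
        | (with_reducible ((refine Int.comp₂ ?_ ?_ ?_); assumption))
        | (with_reducible ((refine IntF.comp ?_ ?_); assumption))
        | (with_reducible ((refine Int.comp ?_ ?_); assumption))
        | (with_reducible apply IntF.app)))

theorem int_cl {Γ : γ → IPow M (IPow M (α × α))} {s : γ → IPow M α} (hΓ : IntF M Γ)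
    (hs : IntF M s) : IntF M (fun c => cl (Γ c) (s c)) := by
  unfold cl
  exact (by
      (repeat' first
        | (with_reducible assumption)
        | (with_reducible exact IntF.id) | (with_reducible exact IntF.fst')
        | (with_reducible exact IntF.snd') | (with_reducible exact IntF.const _)
        | (with_reducible exact Int.const _)
        | (with_reducible apply IntF.fst) | (with_reducible apply IntF.snd)
        | (with_reducible apply Int.and) | (with_reducible apply Int.or) | (with_reducible apply Int.not)
        | (with_reducible apply Int.ne) | (with_reducible apply Int.iff) | (with_reducible apply Int.imp)
        | (with_reducible apply Int.ex) | (with_reducible apply Int.all) | (with_reducible apply Int.eq)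
        | (with_reducible apply Int.mem) | (with_reducible apply Int.subset) | (with_reducible apply Int.fin)
        | (with_reducible_and_instances apply Int.leN) | (with_reducible_and_instances apply Int.ltN)
        | (with_reducible apply IntF.pair) | (with_reducible apply IntF.succ) | (with_reducible apply IntF.sep)
        | (with_reducible apply IntF.insert) | (with_reducible apply IntF.singleton)
        | (with_reducible apply IntF.union) | (with_reducible apply IntF.inter) | (with_reducible apply IntF.sdiff)
        | (with_reducible apply int_dm) | (with_reducible apply int_rn) | (with_reducible apply int_idm)
        | (with_reducible apply int_ivr) | (with_reducible apply int_cmp) | (with_reducible apply int_img)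
        | (with_reducible apply int_cl) | (with_reducible apply int_Bk)
        | (with_reducible ((refine IntF.comp₂ ?_ ?_ ?_); assumption))
        | (with_reducible ((refine Int.comp₂ ?_ ?_ ?_); assumption))
        | (with_reducible ((refine IntF.comp ?_ ?_); assumption))
        | (with_reducible ((refine Int.comp ?_ ?_); assumption))
        | (with_reducible apply IntF.app)))

theorem mem_cl {Γ : IPow M (IPow M (α × α))} {s : IPow M α} {a : α} :
    a ∈ cl Γ s ↔ ¬ ∃ U : IPow M α, IFin U ∧ ∀ b, b ∉ U → insert (a, b) (idm s) ∈ Γ :=
  mem_sep (by
      (repeat' first
        | (with_reducible assumption)
        | (with_reducible exact IntF.id) | (with_reducible exact IntF.fst')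
        | (with_reducible exact IntF.snd') | (with_reducible exact IntF.const _)
        | (with_reducible exact Int.const _)
        | (with_reducible apply IntF.fst) | (with_reducible apply IntF.snd)
        | (with_reducible apply Int.and) | (with_reducible apply Int.or) | (with_reducible apply Int.not)
        | (with_reducible apply Int.ne) | (with_reducible apply Int.iff) | (with_reducible apply Int.imp)
        | (with_reducible apply Int.ex) | (with_reducible apply Int.all) | (with_reducible apply Int.eq)
        | (with_reducible apply Int.mem) | (with_reducible apply Int.subset) | (with_reducible apply Int.fin)
        | (with_reducible_and_instances apply Int.leN) | (with_reducible_and_instances apply Int.ltN)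
        | (with_reducible apply IntF.pair) | (with_reducible apply IntF.succ) | (with_reducible apply IntF.sep)
        | (with_reducible apply IntF.insert) | (with_reducible apply IntF.singleton)
        | (with_reducible apply IntF.union) | (with_reducible apply IntF.inter) | (with_reducible apply IntF.sdiff)
        | (with_reducible apply int_dm) | (with_reducible apply int_rn) | (with_reducible apply int_idm)
        | (with_reducible apply int_ivr) | (with_reducible apply int_cmp) | (with_reducible apply int_img)
        | (with_reducible apply int_cl) | (with_reducible apply int_Bk)
        | (with_reducible ((refine IntF.comp₂ ?_ ?_ ?_); assumption))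
        | (with_reducible ((refine Int.comp₂ ?_ ?_ ?_); assumption))
        | (with_reducible ((refine IntF.comp ?_ ?_); assumption))
        | (with_reducible ((refine Int.comp ?_ ?_); assumption))
        | (with_reducible apply IntF.app)))

theorem mem_Bk {Γ : IPow M (IPow M (α × α))} {D : IPow M α} {x a : α} :
    a ∈ Bk Γ D x ↔ a ∈ cl Γ (insert x D) ∧ a ∉ D := by
  unfold Bk
  rw [mem_sdiff]

theorem int_Bk {Γ : γ → IPow M (IPow M (α × α))} {D : γ → IPow M α} {x : γ → α}
    (hΓ : IntF M Γ) (hD : IntF M D) (hx : IntF M x) : IntF M (fun c => Bk (Γ c) (D c) (x c)) := by
  unfold Bk
  exact (by
      (repeat' first
        | (with_reducible assumption)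
        | (with_reducible exact IntF.id) | (with_reducible exact IntF.fst')
        | (with_reducible exact IntF.snd') | (with_reducible exact IntF.const _)
        | (with_reducible exact Int.const _)
        | (with_reducible apply IntF.fst) | (with_reducible apply IntF.snd)
        | (with_reducible apply Int.and) | (with_reducible apply Int.or) | (with_reducible apply Int.not)
        | (with_reducible apply Int.ne) | (with_reducible apply Int.iff) | (with_reducible apply Int.imp)
        | (with_reducible apply Int.ex) | (with_reducible apply Int.all) | (with_reducible apply Int.eq)
        | (with_reducible apply Int.mem) | (with_reducible apply Int.subset) | (with_reducible apply Int.fin)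
        | (with_reducible_and_instances apply Int.leN) | (with_reducible_and_instances apply Int.ltN)
        | (with_reducible apply IntF.pair) | (with_reducible apply IntF.succ) | (with_reducible apply IntF.sep)
        | (with_reducible apply IntF.insert) | (with_reducible apply IntF.singleton)
        | (with_reducible apply IntF.union) | (with_reducible apply IntF.inter) | (with_reducible apply IntF.sdiff)
        | (with_reducible apply int_dm) | (with_reducible apply int_rn) | (with_reducible apply int_idm)
        | (with_reducible apply int_ivr) | (with_reducible apply int_cmp) | (with_reducible apply int_img)
        | (with_reducible apply int_cl) | (with_reducible apply int_Bk)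
        | (with_reducible ((refine IntF.comp₂ ?_ ?_ ?_); assumption))
        | (with_reducible ((refine Int.comp₂ ?_ ?_ ?_); assumption))
        | (with_reducible ((refine IntF.comp ?_ ?_); assumption))
        | (with_reducible ((refine Int.comp ?_ ?_); assumption))
        | (with_reducible apply IntF.app)))

/-- A homogeneous system of finite partial bijections. -/
structure HSys (Γ : IPow M (IPow M (α × α))) : Prop where
  fin : ∀ σ, σ ∈ Γ → IFin σ
  inj : ∀ σ, σ ∈ Γ → ∀ a b c d, (a, b) ∈ σ → (c, d) ∈ σ → (a = c ↔ b = d)
  idm : ∀ s, IFin s → idm s ∈ Γ
  ivr : ∀ σ, σ ∈ Γ → ivr σ ∈ Γ
  cmp : ∀ σ ρ, σ ∈ Γ → ρ ∈ Γ → cmp σ ρ ∈ Γ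
  sub : ∀ σ τ, σ ∈ Γ → τ ⊆ σ → τ ∈ Γ
  forth : ∀ σ a, σ ∈ Γ → ∃ b, insert (a, b) σ ∈ Γ
  clf : ∀ s, IFin s → IFin (cl Γ s)
  gen : ∀ σ a b, σ ∈ Γ → a ∉ cl Γ (dm σ) → b ∉ cl Γ (rn σ) → insert (a, b) σ ∈ Γ

/-- The closure is degenerate. -/
def Deg (Γ : IPow M (IPow M (α × α))) : Prop :=
  ∀ s a b, IFin s → ∀ x, x ∈ cl Γ (insert a (insert b s)) →
    x ∈ cl Γ (insert a s) ∨ x ∈ cl Γ (insert b s)

/-- The set `X'` is the image of `X` under the (finite partial) map `σ`. -/
def Act (σ : IPow M (α × α)) (X X' : IPow M (ν × α)) : Prop :=
  ∀ v a b, ((a, b) ∈ σ ∨ (a ∉ dm σ ∧ b ∉ rn σ)) → ((v, a) ∈ X ↔ (v, b) ∈ X')

/-- The function `f` is compatible with the maps in `Γ`. -/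
def Cpt (Γ : IPow M (IPow M (α × α))) (f : IPow M (ν × α) → IPow M (ν × α)) : Prop :=
  ∀ σ, σ ∈ Γ → ∀ X X' Y Y', Act σ X X' → Act σ Y Y' → (f X = Y ↔ f X' = Y')

/-- The set of the elements whose slices differ from the generic ones. -/
noncomputable def sp (X : IPow M (ν × α)) : IPow M α :=
  sep M fun a => ∃ v, ¬ ∃ U : IPow M α, IFin U ∧ ∀ b, b ∉ U → ((v, a) ∈ X ↔ (v, b) ∈ X)

theorem mem_sp {X : IPow M (ν × α)} {a : α} : a ∈ sp X ↔
    ∃ v, ¬ ∃ U : IPow M α, IFin U ∧ ∀ b, b ∉ U → ((v, a) ∈ X ↔ (v, b) ∈ X) :=
  mem_sep (by
      (repeat' first
        | (with_reducible assumption)
        | (with_reducible exact IntF.id) | (with_reducible exact IntF.fst')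
        | (with_reducible exact IntF.snd') | (with_reducible exact IntF.const _)
        | (with_reducible exact Int.const _)
        | (with_reducible apply IntF.fst) | (with_reducible apply IntF.snd)
        | (with_reducible apply Int.and) | (with_reducible apply Int.or) | (with_reducible apply Int.not)
        | (with_reducible apply Int.ne) | (with_reducible apply Int.iff) | (with_reducible apply Int.imp)
        | (with_reducible apply Int.ex) | (with_reducible apply Int.all) | (with_reducible apply Int.eq)
        | (with_reducible apply Int.mem) | (with_reducible apply Int.subset) | (with_reducible apply Int.fin)
        | (with_reducible_and_instances apply Int.leN) | (with_reducible_and_instances apply Int.ltN)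
        | (with_reducible apply IntF.pair) | (with_reducible apply IntF.succ) | (with_reducible apply IntF.sep)
        | (with_reducible apply IntF.insert) | (with_reducible apply IntF.singleton)
        | (with_reducible apply IntF.union) | (with_reducible apply IntF.inter) | (with_reducible apply IntF.sdiff)
        | (with_reducible apply int_dm) | (with_reducible apply int_rn) | (with_reducible apply int_idm)
        | (with_reducible apply int_ivr) | (with_reducible apply int_cmp) | (with_reducible apply int_img)
        | (with_reducible apply int_cl) | (with_reducible apply int_Bk)
        | (with_reducible ((refine IntF.comp₂ ?_ ?_ ?_); assumption))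
        | (with_reducible ((refine Int.comp₂ ?_ ?_ ?_); assumption))
        | (with_reducible ((refine IntF.comp ?_ ?_); assumption))
        | (with_reducible ((refine Int.comp ?_ ?_); assumption))
        | (with_reducible apply IntF.app)))

theorem int_sp {X : γ → IPow M (ν × α)} (hX : IntF M X) : IntF M (fun c => sp (X c)) := by
  unfold sp
  exact (by
      (repeat' first
        | (with_reducible assumption)
        | (with_reducible exact IntF.id) | (with_reducible exact IntF.fst')
        | (with_reducible exact IntF.snd') | (with_reducible exact IntF.const _)
        | (with_reducible exact Int.const _)
        | (with_reducible apply IntF.fst) | (with_reducible apply IntF.snd)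
        | (with_reducible apply Int.and) | (with_reducible apply Int.or) | (with_reducible apply Int.not)
        | (with_reducible apply Int.ne) | (with_reducible apply Int.iff) | (with_reducible apply Int.imp)
        | (with_reducible apply Int.ex) | (with_reducible apply Int.all) | (with_reducible apply Int.eq)
        | (with_reducible apply Int.mem) | (with_reducible apply Int.subset) | (with_reducible apply Int.fin)
        | (with_reducible_and_instances apply Int.leN) | (with_reducible_and_instances apply Int.ltN)
        | (with_reducible apply IntF.pair) | (with_reducible apply IntF.succ) | (with_reducible apply IntF.sep)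
        | (with_reducible apply IntF.insert) | (with_reducible apply IntF.singleton)
        | (with_reducible apply IntF.union) | (with_reducible apply IntF.inter) | (with_reducible apply IntF.sdiff)
        | (with_reducible apply int_dm) | (with_reducible apply int_rn) | (with_reducible apply int_idm)
        | (with_reducible apply int_ivr) | (with_reducible apply int_cmp) | (with_reducible apply int_img)
        | (with_reducible apply int_cl) | (with_reducible apply int_Bk)
        | (with_reducible ((refine IntF.comp₂ ?_ ?_ ?_); assumption))
        | (with_reducible ((refine Int.comp₂ ?_ ?_ ?_); assumption))
        | (with_reducible ((refine IntF.comp ?_ ?_); assumption))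
        | (with_reducible ((refine Int.comp ?_ ?_); assumption))
        | (with_reducible apply IntF.app)))

theorem int_act {σ : γ → IPow M (α × α)} {X X' : γ → IPow M (ν × α)} (hσ : IntF M σ)
    (hX : IntF M X) (hX' : IntF M X') : Int M (fun c => Act (σ c) (X c) (X' c)) := by
  unfold Act
  exact (by
      (repeat' first
        | (with_reducible assumption)
        | (with_reducible exact IntF.id) | (with_reducible exact IntF.fst')
        | (with_reducible exact IntF.snd') | (with_reducible exact IntF.const _)
        | (with_reducible exact Int.const _)
        | (with_reducible apply IntF.fst) | (with_reducible apply IntF.snd)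
        | (with_reducible apply Int.and) | (with_reducible apply Int.or) | (with_reducible apply Int.not)
        | (with_reducible apply Int.ne) | (with_reducible apply Int.iff) | (with_reducible apply Int.imp)
        | (with_reducible apply Int.ex) | (with_reducible apply Int.all) | (with_reducible apply Int.eq)
        | (with_reducible apply Int.mem) | (with_reducible apply Int.subset) | (with_reducible apply Int.fin)
        | (with_reducible_and_instances apply Int.leN) | (with_reducible_and_instances apply Int.ltN)
        | (with_reducible apply IntF.pair) | (with_reducible apply IntF.succ) | (with_reducible apply IntF.sep)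
        | (with_reducible apply IntF.insert) | (with_reducible apply IntF.singleton)
        | (with_reducible apply IntF.union) | (with_reducible apply IntF.inter) | (with_reducible apply IntF.sdiff)
        | (with_reducible apply int_dm) | (with_reducible apply int_rn) | (with_reducible apply int_idm)
        | (with_reducible apply int_ivr) | (with_reducible apply int_cmp) | (with_reducible apply int_img)
        | (with_reducible apply int_cl) | (with_reducible apply int_Bk)
        | (with_reducible ((refine IntF.comp₂ ?_ ?_ ?_); assumption))
        | (with_reducible ((refine Int.comp₂ ?_ ?_ ?_); assumption))
        | (with_reducible ((refine IntF.comp ?_ ?_); assumption))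
        | (with_reducible ((refine Int.comp ?_ ?_); assumption))
        | (with_reducible apply IntF.app)))

end Pool.Agent.R602.AM
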