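import Pool.Agent.R602.AM.Stm

/-!
# Piece CARD: internal cardinality of finite sets
-/

set_option autoImplicit false
set_option linter.all false

namespace Pool.Agent.R602.AM

open FirstOrder FirstOrder.Language Pool.Agent.Helper672.ZFA

universe u

variable {M : Type u} [L.Structure M] [hM : IsModel M] {κ γ : Type u} [ITy M κ] [ITy M γ]

namespace CardP

/-- the sets with `n` elements -/
noncomputable def cs (κ : Type u) [ITy M κ] (n : INat M) : IPow M (IPow M κ) :=
  irec {∅} (fun _ X => sep M fun s => ∃ a, a ∈ s ∧ s \ {a} ∈ X) n

theorem step_int : IntF M (fun q : INat M × IPow M (IPow M κ) =>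
    (sep M fun s : IPow M κ => ∃ a, a ∈ s ∧ s \ {a} ∈ q.2)) := (by
        (repeat' first
          | (with_reducible assumption)
          | (with_reducible exact IntF.id) | (with_reducible exact IntF.fst')
          | (with_reducible exact IntF.snd') | (with_reducible exact IntF.const _)
          | (with_reducible exact Int.const _)
          | (with_reducible apply IntF.fst) | (with_reducible apply IntF.snd)
          | (with_reducible apply Int.and) | (with_reducible apply Int.or) | (with_reducible apply Int.not)
          | (with_reducible apply Int.ne) | (with_reducible apply Int.iff) | (with_reducible apply Int.imp)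
          | (with_reducible apply Int.ex) | (with_reducible apply Int.all) | (with_reducible apply Int.eq)
          | (with_reducible apply Int.mem) | (with_reducible apply Int.subset) | (with_reducible apply Int.fin)
          | (with_reducible_and_instances apply Int.leN) | (with_reducible_and_instances apply Int.ltN)
          | (with_reducible apply IntF.pair) | (with_reducible apply IntF.succ) | (with_reducible apply IntF.sep)
          | (with_reducible apply IntF.insert) | (with_reducible apply IntF.singleton)
          | (with_reducible apply IntF.union) | (with_reducible apply IntF.inter) | (with_reducible apply IntF.sdiff)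
          | (with_reducible apply int_dm) | (with_reducible apply int_rn) | (with_reducible apply int_idm)
          | (with_reducible apply int_ivr) | (with_reducible apply int_cmp) | (with_reducible apply int_img)
          | (with_reducible apply int_cl) | (with_reducible apply int_Bk)
          | (with_reducible ((refine IntF.comp₂ ?_ ?_ ?_); assumption))
          | (with_reducible ((refine Int.comp₂ ?_ ?_ ?_); assumption))
          | (with_reducible ((refine IntF.comp ?_ ?_); assumption))
          | (with_reducible ((refine Int.comp ?_ ?_); assumption))
          | (with_reducible apply IntF.app)))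

theorem int_cs {f : γ → INat M} (hf : IntF M f) : IntF M (fun c => cs (M := M) κ (f c)) := by
  unfold cs
  exact IntF.irec (a := fun _ : γ => ({∅} : IPow M (IPow M κ)))
    (f := fun (_ : γ) _ X => sep M fun s => ∃ a, a ∈ s ∧ s \ {a} ∈ X) (IntF.const _) (by
        (repeat' first
          | (with_reducible assumption)
          | (with_reducible exact IntF.id) | (with_reducible exact IntF.fst')
          | (with_reducible exact IntF.snd') | (with_reducible exact IntF.const _)
          | (with_reducible exact Int.const _)
          | (with_reducible apply IntF.fst) | (with_reducible apply IntF.snd)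
          | (with_reducible apply Int.and) | (with_reducible apply Int.or) | (with_reducible apply Int.not)
          | (with_reducible apply Int.ne) | (with_reducible apply Int.iff) | (with_reducible apply Int.imp)
          | (with_reducible apply Int.ex) | (with_reducible apply Int.all) | (with_reducible apply Int.eq)
          | (with_reducible apply Int.mem) | (with_reducible apply Int.subset) | (with_reducible apply Int.fin)
          | (with_reducible_and_instances apply Int.leN) | (with_reducible_and_instances apply Int.ltN)
          | (with_reducible apply IntF.pair) | (with_reducible apply IntF.succ) | (with_reducible apply IntF.sep)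
          | (with_reducible apply IntF.insert) | (with_reducible apply IntF.singleton)
          | (with_reducible apply IntF.union) | (with_reducible apply IntF.inter) | (with_reducible apply IntF.sdiff)
          | (with_reducible apply int_dm) | (with_reducible apply int_rn) | (with_reducible apply int_idm)
          | (with_reducible apply int_ivr) | (with_reducible apply int_cmp) | (with_reducible apply int_img)
          | (with_reducible apply int_cl) | (with_reducible apply int_Bk)
          | (with_reducible ((refine IntF.comp₂ ?_ ?_ ?_); assumption))
          | (with_reducible ((refine Int.comp₂ ?_ ?_ ?_); assumption))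
          | (with_reducible ((refine IntF.comp ?_ ?_); assumption))
          | (with_reducible ((refine Int.comp ?_ ?_); assumption))
          | (with_reducible apply IntF.app))) hf

theorem mem_cs_zero {s : IPow M κ} : s ∈ cs (M := M) κ 0 ↔ s = ∅ := by
  unfold cs
  rw [irec_zero step_int, mem_singleton]

theorem mem_cs_succ {s : IPow M κ} {n : INat M} :
    s ∈ cs (M := M) κ n.succ ↔ ∃ a, a ∈ s ∧ s \ {a} ∈ cs (M := M) κ n := by
  unfold cs
  rw [irec_succ step_int, mem_sep (by
      (repeat' first
        | (with_reducible assumption)
        | (with_reducible exact IntF.id) | (with_reducible exact IntF.fst')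
        | (with_reducible exact IntF.snd') | (with_reducible exact IntF.const _)
        | (with_reducible exact Int.const _)
        | (with_reducible apply IntF.fst) | (with_reducible apply IntF.snd)
        | (with_reducible apply Int.and) | (with_reducible apply Int.or) | (with_reducible apply Int.not)
        | (with_reducible apply Int.ne) | (with_reducible apply Int.iff) | (with_reducible apply Int.imp)
        | (with_reducible apply Int.ex) | (with_reducible apply Int.all) | (with_reducible apply Int.eq)
        | (with_reducible apply Int.mem) | (with_reducible apply Int.subset) | (with_reducible apply Int.fin)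
        | (with_reducible_and_instances apply Int.leN) | (with_reducible_and_instances apply Int.ltN)
        | (with_reducible apply IntF.pair) | (with_reducible apply IntF.succ) | (with_reducible apply IntF.sep)
        | (with_reducible apply IntF.insert) | (with_reducible apply IntF.singleton)
        | (with_reducible apply IntF.union) | (with_reducible apply IntF.inter) | (with_reducible apply IntF.sdiff)
        | (with_reducible apply int_dm) | (with_reducible apply int_rn) | (with_reducible apply int_idm)
        | (with_reducible apply int_ivr) | (with_reducible apply int_cmp) | (with_reducible apply int_img)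
        | (with_reducible apply int_cl) | (with_reducible apply int_Bk)
        | (with_reducible ((refine IntF.comp₂ ?_ ?_ ?_); assumption))
        | (with_reducible ((refine Int.comp₂ ?_ ?_ ?_); assumption))
        | (with_reducible ((refine IntF.comp ?_ ?_); assumption))
        | (with_reducible ((refine Int.comp ?_ ?_); assumption))
        | (with_reducible apply IntF.app)))]

theorem rem : ∀ n : INat M, ∀ s : IPow M κ, s ∈ cs (M := M) κ n.succ → ∀ a, a ∈ s →
    s \ {a} ∈ cs (M := M) κ n := by
  refine INat.ind (by
      (repeat' first
        | (with_reducible (refine int_cs ?_))
        | (with_reducible assumption)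
        | (with_reducible exact IntF.id) | (with_reducible exact IntF.fst')
        | (with_reducible exact IntF.snd') | (with_reducible exact IntF.const _)
        | (with_reducible exact Int.const _)
        | (with_reducible apply IntF.fst) | (with_reducible apply IntF.snd)
        | (with_reducible apply Int.and) | (with_reducible apply Int.or) | (with_reducible apply Int.not)
        | (with_reducible apply Int.ne) | (with_reducible apply Int.iff) | (with_reducible apply Int.imp)
        | (with_reducible apply Int.ex) | (with_reducible apply Int.all) | (with_reducible apply Int.eq)
        | (with_reducible apply Int.mem) | (with_reducible apply Int.subset) | (with_reducible apply Int.fin)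
        | (with_reducible_and_instances apply Int.leN) | (with_reducible_and_instances apply Int.ltN)
        | (with_reducible apply IntF.pair) | (with_reducible apply IntF.succ) | (with_reducible apply IntF.sep)
        | (with_reducible apply IntF.insert) | (with_reducible apply IntF.singleton)
        | (with_reducible apply IntF.union) | (with_reducible apply IntF.inter) | (with_reducible apply IntF.sdiff)
        | (with_reducible apply int_dm) | (with_reducible apply int_rn) | (with_reducible apply int_idm)
        | (with_reducible apply int_ivr) | (with_reducible apply int_cmp) | (with_reducible apply int_img)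
        | (with_reducible apply int_cl) | (with_reducible apply int_Bk)
        | (with_reducible ((refine IntF.comp₂ ?_ ?_ ?_); assumption))
        | (with_reducible ((refine Int.comp₂ ?_ ?_ ?_); assumption))
        | (with_reducible ((refine IntF.comp ?_ ?_); assumption))
        | (with_reducible ((refine Int.comp ?_ ?_); assumption))
        | (with_reducible apply IntF.app))) ?_ ?_
  · intro s hs a ha
    rw [mem_cs_succ] at hs
    obtain ⟨b, hb, h1⟩ := hs
    rw [mem_cs_zero] at h1 ⊢
    refine IPow.ext' fun x => ⟨fun hx => ?_, fun hx => absurd hx (by simp)⟩
    rw [mem_sdiff, mem_singleton] at hx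
    have hne : ∀ y, y ∈ s → y = b := by
      intro y hy
      by_contra hyb
      have : y ∈ s \ {b} := by
        rw [mem_sdiff, mem_singleton]
        exact ⟨hy, hyb⟩
      rw [h1] at this
      exact absurd this (by simp)
    exact absurd ((hne x hx.1).trans (hne a ha).symm) hx.2
  · intro n ih s hs a ha
    rw [mem_cs_succ] at hs
    obtain ⟨b, hb, h1⟩ := hs
    by_cases hab : a = b
    · rw [hab]
      exact h1
    · have h2 : a ∈ s \ {b} := by
        rw [mem_sdiff, mem_singleton]
        exact ⟨ha, hab⟩
      have h3 := ih _ h1 a h2
      rw [mem_cs_succ]
      refine ⟨b, ?_, ?_⟩
      · rw [mem_sdiff, mem_singleton]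
        exact ⟨hb, fun h => hab h.symm⟩
      · have e : (s \ {a}) \ {b} = (s \ {b}) \ {a} := IPow.ext' fun x => by
          simp only [mem_sdiff, mem_singleton]
          tauto
        rw [e]
        exact h3

theorem uniq : ∀ n : INat M, ∀ (m : INat M) (s : IPow M κ), s ∈ cs (M := M) κ n →
    s ∈ cs (M := M) κ m → n = m := by
  refine INat.ind (by
      (repeat' first
        | (with_reducible (refine int_cs ?_))
        | (with_reducible assumption)
        | (with_reducible exact IntF.id) | (with_reducible exact IntF.fst')
        | (with_reducible exact IntF.snd') | (with_reducible exact IntF.const _)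
        | (with_reducible exact Int.const _)
        | (with_reducible apply IntF.fst) | (with_reducible apply IntF.snd)
        | (with_reducible apply Int.and) | (with_reducible apply Int.or) | (with_reducible apply Int.not)
        | (with_reducible apply Int.ne) | (with_reducible apply Int.iff) | (with_reducible apply Int.imp)
        | (with_reducible apply Int.ex) | (with_reducible apply Int.all) | (with_reducible apply Int.eq)
        | (with_reducible apply Int.mem) | (with_reducible apply Int.subset) | (with_reducible apply Int.fin)
        | (with_reducible_and_instances apply Int.leN) | (with_reducible_and_instances apply Int.ltN)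
        | (with_reducible apply IntF.pair) | (with_reducible apply IntF.succ) | (with_reducible apply IntF.sep)
        | (with_reducible apply IntF.insert) | (with_reducible apply IntF.singleton)
        | (with_reducible apply IntF.union) | (with_reducible apply IntF.inter) | (with_reducible apply IntF.sdiff)
        | (with_reducible apply int_dm) | (with_reducible apply int_rn) | (with_reducible apply int_idm)
        | (with_reducible apply int_ivr) | (with_reducible apply int_cmp) | (with_reducible apply int_img)
        | (with_reducible apply int_cl) | (with_reducible apply int_Bk)
        | (with_reducible ((refine IntF.comp₂ ?_ ?_ ?_); assumption))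
        | (with_reducible ((refine Int.comp₂ ?_ ?_ ?_); assumption))
        | (with_reducible ((refine IntF.comp ?_ ?_); assumption))
        | (with_reducible ((refine Int.comp ?_ ?_); assumption))
        | (with_reducible apply IntF.app))) ?_ ?_
  · intro m s h1 h2
    rw [mem_cs_zero] at h1
    rcases INat.eq_zero_or_succ m with rfl | ⟨k, rfl⟩
    · rfl
    · rw [mem_cs_succ, h1] at h2
      obtain ⟨a, ha, _⟩ := h2
      exact absurd ha (by simp)
  · intro n ih m s h1 h2
    rcases INat.eq_zero_or_succ m with rfl | ⟨k, rfl⟩
    · rw [mem_cs_zero] at h2
      rw [mem_cs_succ, h2] at h1
      obtain ⟨a, ha, _⟩ := h1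
      exact absurd ha (by simp)
    · have h3 := h1
      rw [mem_cs_succ] at h3
      obtain ⟨a, ha, h4⟩ := h3
      rw [ih k _ h4 (rem k s h2 a ha)]

theorem ex : ∀ s : IPow M κ, IFin s → ∃ n : INat M, s ∈ cs (M := M) κ n := by
  refine IFin.ind (by
      (repeat' first
        | (with_reducible (refine int_cs ?_))
        | (with_reducible assumption)
        | (with_reducible exact IntF.id) | (with_reducible exact IntF.fst')
        | (with_reducible exact IntF.snd') | (with_reducible exact IntF.const _)
        | (with_reducible exact Int.const _)
        | (with_reducible apply IntF.fst) | (with_reducible apply IntF.snd)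
        | (with_reducible apply Int.and) | (with_reducible apply Int.or) | (with_reducible apply Int.not)
        | (with_reducible apply Int.ne) | (with_reducible apply Int.iff) | (with_reducible apply Int.imp)
        | (with_reducible apply Int.ex) | (with_reducible apply Int.all) | (with_reducible apply Int.eq)
        | (with_reducible apply Int.mem) | (with_reducible apply Int.subset) | (with_reducible apply Int.fin)
        | (with_reducible_and_instances apply Int.leN) | (with_reducible_and_instances apply Int.ltN)
        | (with_reducible apply IntF.pair) | (with_reducible apply IntF.succ) | (with_reducible apply IntF.sep)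
        | (with_reducible apply IntF.insert) | (with_reducible apply IntF.singleton)
        | (with_reducible apply IntF.union) | (with_reducible apply IntF.inter) | (with_reducible apply IntF.sdiff)
        | (with_reducible apply int_dm) | (with_reducible apply int_rn) | (with_reducible apply int_idm)
        | (with_reducible apply int_ivr) | (with_reducible apply int_cmp) | (with_reducible apply int_img)
        | (with_reducible apply int_cl) | (with_reducible apply int_Bk)
        | (with_reducible ((refine IntF.comp₂ ?_ ?_ ?_); assumption))
        | (with_reducible ((refine Int.comp₂ ?_ ?_ ?_); assumption))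
        | (with_reducible ((refine IntF.comp ?_ ?_); assumption))
        | (with_reducible ((refine Int.comp ?_ ?_); assumption))
        | (with_reducible apply IntF.app))) ?_ ?_
  · exact ⟨0, mem_cs_zero.2 rfl⟩
  · rintro s a _ ha ⟨n, hn⟩
    refine ⟨n.succ, mem_cs_succ.2 ⟨a, by simp, ?_⟩⟩
    have e : (insert a s : IPow M κ) \ {a} = s := IPow.ext' fun x => by
      rw [mem_sdiff, mem_singleton, mem_insert]
      constructor
      · rintro ⟨h | h, h'⟩
        · exact absurd h h'
        · exact h
      · intro h
        exact ⟨Or.inr h, fun h' => ha (h' ▸ h)⟩
    rw [e]
    exact hn

theorem key : ∀ n : INat M, ∀ (s t : IPow M κ) (φ : IPow M (κ × κ)), s ∈ cs (M := M) κ n →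
    (∀ y, y ∈ t → ∃ x, x ∈ s ∧ (x, y) ∈ φ) →
    (∀ x y y', x ∈ s → (x, y) ∈ φ → (x, y') ∈ φ → y = y') →
    ∃ m : INat M, m ≤ n ∧ t ∈ cs (M := M) κ m := by
  refine INat.ind (by
      (repeat' first
        | (with_reducible (refine int_cs ?_))
        | (with_reducible assumption)
        | (with_reducible exact IntF.id) | (with_reducible exact IntF.fst')
        | (with_reducible exact IntF.snd') | (with_reducible exact IntF.const _)
        | (with_reducible exact Int.const _)
        | (with_reducible apply IntF.fst) | (with_reducible apply IntF.snd)
        | (with_reducible apply Int.and) | (with_reducible apply Int.or) | (with_reducible apply Int.not)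
        | (with_reducible apply Int.ne) | (with_reducible apply Int.iff) | (with_reducible apply Int.imp)
        | (with_reducible apply Int.ex) | (with_reducible apply Int.all) | (with_reducible apply Int.eq)
        | (with_reducible apply Int.mem) | (with_reducible apply Int.subset) | (with_reducible apply Int.fin)
        | (with_reducible_and_instances apply Int.leN) | (with_reducible_and_instances apply Int.ltN)
        | (with_reducible apply IntF.pair) | (with_reducible apply IntF.succ) | (with_reducible apply IntF.sep)
        | (with_reducible apply IntF.insert) | (with_reducible apply IntF.singleton)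
        | (with_reducible apply IntF.union) | (with_reducible apply IntF.inter) | (with_reducible apply IntF.sdiff)
        | (with_reducible apply int_dm) | (with_reducible apply int_rn) | (with_reducible apply int_idm)
        | (with_reducible apply int_ivr) | (with_reducible apply int_cmp) | (with_reducible apply int_img)
        | (with_reducible apply int_cl) | (with_reducible apply int_Bk)
        | (with_reducible ((refine IntF.comp₂ ?_ ?_ ?_); assumption))
        | (with_reducible ((refine Int.comp₂ ?_ ?_ ?_); assumption))
        | (with_reducible ((refine IntF.comp ?_ ?_); assumption))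
        | (with_reducible ((refine Int.comp ?_ ?_); assumption))
        | (with_reducible apply IntF.app))) ?_ ?_
  · intro s t φ hs h1 _
    rw [mem_cs_zero] at hs
    refine ⟨0, le_rfl, mem_cs_zero.2 (IPow.ext' fun y => ⟨fun hy => ?_, fun hy => absurd hy (by simp)⟩)⟩
    obtain ⟨x, hx, _⟩ := h1 y hy
    rw [hs] at hx
    exact absurd hx (by simp)
  · intro n ih s t φ hs h1 h2
    rw [mem_cs_succ] at hs
    obtain ⟨a, ha, h3⟩ := hs
    have hsub : ∀ x, x ∈ s \ {a} → x ∈ s := fun x hx => by
      rw [mem_sdiff] at hx
      exact hx.1
    by_cases h4 : ∃ y, y ∈ t ∧ (a, y) ∈ φ
    · obtain ⟨y, hy, hay⟩ := h4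
      obtain ⟨m, hm, h5⟩ := ih (s \ {a}) (t \ {y}) φ h3 (fun z hz => by
        rw [mem_sdiff, mem_singleton] at hz
        obtain ⟨x, hx, hxz⟩ := h1 z hz.1
        refine ⟨x, ?_, hxz⟩
        rw [mem_sdiff, mem_singleton]
        refine ⟨hx, fun hxa => hz.2 ?_⟩
        rw [hxa] at hxz
        exact h2 a z y ha hxz hay) (fun x y y' hx => h2 x y y' (hsub x hx))
      exact ⟨m.succ, INat.succ_le_iff.2 (INat.lt_succ_iff.2 hm), mem_cs_succ.2 ⟨y, hy, h5⟩⟩
    · obtain ⟨m, hm, h5⟩ := ih (s \ {a}) t φ h3 (fun z hz => by
        obtain ⟨x, hx, hxz⟩ := h1 z hz
        refine ⟨x, ?_, hxz⟩
        rw [mem_sdiff, mem_singleton]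
        refine ⟨hx, fun hxa => h4 ⟨z, hz, ?_⟩⟩
        rw [hxa] at hxz
        exact hxz) (fun x y y' hx => h2 x y y' (hsub x hx))
      exact ⟨m, hm.trans (INat.le_succ_self n), h5⟩

theorem subs {n m : INat M} {s s' : IPow M κ} (hs : s ∈ cs (M := M) κ n) (h : s' ⊆ s)
    (hs' : s' ∈ cs (M := M) κ m) : m ≤ n := by
  obtain ⟨k, hk, h1⟩ := key n s s' (idm s) hs (fun y hy => ⟨y, h y hy, by
    rw [mem_idm]
    exact ⟨h y hy, rfl⟩⟩) (fun x y y' _ h1 h2 => by
      rw [mem_idm] at h1 h2
      exact h1.2.symm.trans h2.2)
  rw [uniq m k s' hs' h1]
  exact hk

/-- the cardinality -/
noncomputable def cd (s : IPow M κ) : INat M := the (fun n => s ∈ cs (M := M) κ n) 0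

theorem int_cd : IntF M (cd : IPow M κ → INat M) := by
  unfold cd
  exact IntF.the (γ := IPow M κ) (p := fun s n => s ∈ cs (M := M) κ n) (d := fun _ => 0)
    (by
        (repeat' first
          | (with_reducible (refine int_cs ?_))
          | (with_reducible assumption)
          | (with_reducible exact IntF.id) | (with_reducible exact IntF.fst')
          | (with_reducible exact IntF.snd') | (with_reducible exact IntF.const _)
          | (with_reducible exact Int.const _)
          | (with_reducible apply IntF.fst) | (with_reducible apply IntF.snd)
          | (with_reducible apply Int.and) | (with_reducible apply Int.or) | (with_reducible apply Int.not)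
          | (with_reducible apply Int.ne) | (with_reducible apply Int.iff) | (with_reducible apply Int.imp)
          | (with_reducible apply Int.ex) | (with_reducible apply Int.all) | (with_reducible apply Int.eq)
          | (with_reducible apply Int.mem) | (with_reducible apply Int.subset) | (with_reducible apply Int.fin)
          | (with_reducible_and_instances apply Int.leN) | (with_reducible_and_instances apply Int.ltN)
          | (with_reducible apply IntF.pair) | (with_reducible apply IntF.succ) | (with_reducible apply IntF.sep)
          | (with_reducible apply IntF.insert) | (with_reducible apply IntF.singleton)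
          | (with_reducible apply IntF.union) | (with_reducible apply IntF.inter) | (with_reducible apply IntF.sdiff)
          | (with_reducible apply int_dm) | (with_reducible apply int_rn) | (with_reducible apply int_idm)
          | (with_reducible apply int_ivr) | (with_reducible apply int_cmp) | (with_reducible apply int_img)
          | (with_reducible apply int_cl) | (with_reducible apply int_Bk)
          | (with_reducible ((refine IntF.comp₂ ?_ ?_ ?_); assumption))
          | (with_reducible ((refine Int.comp₂ ?_ ?_ ?_); assumption))
          | (with_reducible ((refine IntF.comp ?_ ?_); assumption))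
          | (with_reducible ((refine Int.comp ?_ ?_); assumption))
          | (with_reducible apply IntF.app))) (IntF.const _)

theorem cd_eq {s : IPow M κ} {n : INat M} (h : s ∈ cs (M := M) κ n) : cd s = n :=
  the_eq ⟨n, h, fun m hm => uniq m n s hm h⟩ h

end CardP

open CardP in
theorem card_main : S_CARD M := by
  intro κ _
  refine ⟨cd, int_cd, fun s s' t φ hs hss h1 h2 => ?_⟩
  obtain ⟨n, hn⟩ := CardP.ex s hs
  obtain ⟨m', hm'⟩ := CardP.ex s' (hs.subset hss)
  obtain ⟨m, hm, hmt⟩ := key m' s' t φ hm' h1 h2
  have h3 : m' ≤ n := subs hn hss hm'
  rw [cd_eq hn, cd_eq hmt]
  refine ⟨hm.trans h3, fun he => ?_⟩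
  have h4 : m' = n := le_antisymm h3 (he ▸ hm)
  refine IPow.ext' fun x => ⟨fun hx => hss x hx, fun hx => ?_⟩
  by_contra hx'
  rcases INat.eq_zero_or_succ n with rfl | ⟨k, rfl⟩
  · rw [mem_cs_zero] at hn
    rw [hn] at hx
    exact absurd hx (by simp)
  · have h5 := rem k s hn x hx
    have h6 : m' ≤ k := subs h5 (fun y hy => by
      rw [mem_sdiff, mem_singleton]
      exact ⟨hss y hy, fun h => hx' (h ▸ hy)⟩) hm'
    rw [h4] at h6
    exact absurd (INat.lt_succ_self k) (not_lt.2 h6)

end Pool.Agent.R602.AM
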