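import Pool.Agent.R602.AM.Stm

/-!
# Piece CL: properties of the closure
-/

set_option autoImplicit false
set_option linter.all false

namespace Pool.Agent.R602.AM

open FirstOrder FirstOrder.Language Pool.Agent.Helper672.ZFA

universe u

variable {M : Type u} [L.Structure M] [hM : IsModel M] {α : Type u} [ITy M α]

namespace ClP0

theorem fin_rn {σ : IPow M (α × α)} (h : IFin σ) : IFin (rn σ) := by
  have hf : IntF M (fun q : α × α => q.2) := IntF.snd'
  refine (h.image hf).subset fun b hb => ?_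
  rw [mem_rn] at hb
  obtain ⟨a, ha⟩ := hb
  rw [mem_iimage hf]
  exact ⟨(a, b), ha, rfl⟩

theorem fin_dm {σ : IPow M (α × α)} (h : IFin σ) : IFin (dm σ) := by
  have hf : IntF M (fun q : α × α => q.1) := IntF.fst'
  refine (h.image hf).subset fun a ha => ?_
  rw [mem_dm] at ha
  obtain ⟨b, hb⟩ := ha
  rw [mem_iimage hf]
  exact ⟨(a, b), hb, rfl⟩

theorem img_sub {σ : IPow M (α × α)} {s : IPow M α} : img σ s ⊆ rn σ := fun b hb => by
  rw [mem_img] at hb
  obtain ⟨a, _, h⟩ := hb
  rw [mem_rn]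
  exact ⟨a, h⟩

/-- a finite set misses a point -/
theorem miss (hA : Amor M α) {U : IPow M α} (hU : IFin U) : ∃ b, b ∉ U := by
  by_contra h
  push Not at h
  exact hA.1 (hU.subset fun x _ => h x)

theorem notmem_cl {Γ : IPow M (IPow M (α × α))} {s : IPow M α} {a : α} (h : a ∉ cl Γ s) :
    ∃ U : IPow M α, IFin U ∧ ∀ b, b ∉ U → insert (a, b) (idm s) ∈ Γ := by
  rw [mem_cl] at h
  exact not_not.1 h

theorem sub (hA : Amor M α) {Γ : IPow M (IPow M (α × α))} (hΓ : HSys Γ) (s : IPow M α) :
    s ⊆ cl Γ s := by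
  intro a ha
  by_contra h
  obtain ⟨U, hU, h1⟩ := notmem_cl h
  obtain ⟨b, hb⟩ := miss hA (hU.insert a)
  rw [mem_insert, not_or] at hb
  have h2 := hΓ.inj _ (h1 b hb.2) a a a b (mem_insert.2 (Or.inr (mem_idm.2 ⟨ha, rfl⟩)))
    (mem_insert.2 (Or.inl rfl))
  exact hb.1 (h2.1 rfl).symm

theorem mono {Γ : IPow M (IPow M (α × α))} (hΓ : HSys Γ) (s t : IPow M α) (h : s ⊆ t) :
    cl Γ s ⊆ cl Γ t := by
  intro a ha
  by_contra h'
  obtain ⟨U, hU, h1⟩ := notmem_cl h'
  rw [mem_cl] at ha
  refine ha ⟨U, hU, fun b hb => hΓ.sub _ _ (h1 b hb) fun q hq => ?_⟩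
  rcases mem_insert.1 hq with h2 | h2
  · exact mem_insert.2 (Or.inl h2)
  · rw [mem_idm] at h2
    exact mem_insert.2 (Or.inr (mem_idm.2 ⟨h _ h2.1, h2.2⟩))

theorem extdom {Γ : IPow M (IPow M (α × α))} (hΓ : HSys Γ) : ∀ s : IPow M α, IFin s →
    ∀ σ, σ ∈ Γ → ∃ τ, τ ∈ Γ ∧ σ ⊆ τ ∧ s ⊆ dm τ := by
  refine IFin.ind (by
      (repeat' first
        | (with_reducible assumption)
        | (with_reducible exact IntF.id) | (with_reducible exact IntF.fst')
        | (with_reducible exact IntF.snd') | (with_reducible exact IntF.const _)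
        | (with_reducible exact Int.const _)
        | (with_reducible apply IntF.fst) | (with_reducible apply IntF.snd)
        | (with_reducible apply Int.and) | (with_reducible apply Int.or) | (with_reducible apply Int.not)
        | (with_reducible apply Int.ne) | (with_reducible apply Int.iff) | (with_reducible apply Int.imp)
        | (with_reducible apply Int.ex) | (with_reducible apply Int.all) | (with_reducible apply Int.eq)
        | (with_reducible apply Int.mem) | (with_reducible apply Int.subset) | (with_reducible apply Int.fin)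
        | (with_reducible_and_instances apply Int.leN) | (with_reducible_and_instances apply Int.ltN)
        | (with_reducible apply IntF.pair) | (with_reducible apply IntF.succ) | (with_reducible apply IntF.sep)
        | (with_reducible apply IntF.insert) | (with_reducible apply IntF.singleton)
        | (with_reducible apply IntF.union) | (with_reducible apply IntF.inter) | (with_reducible apply IntF.sdiff)
        | (with_reducible apply int_dm) | (with_reducible apply int_rn) | (with_reducible apply int_idm)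
        | (with_reducible apply int_ivr) | (with_reducible apply int_cmp) | (with_reducible apply int_img)
        | (with_reducible apply int_cl) | (with_reducible apply int_Bk)
        | (with_reducible ((refine IntF.comp₂ ?_ ?_ ?_); assumption))
        | (with_reducible ((refine Int.comp₂ ?_ ?_ ?_); assumption))
        | (with_reducible ((refine IntF.comp ?_ ?_); assumption))
        | (with_reducible ((refine Int.comp ?_ ?_); assumption))
        | (with_reducible apply IntF.app))) ?_ ?_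
  · intro σ hσ
    exact ⟨σ, hσ, fun _ h => h, fun x hx => absurd hx (by simp)⟩
  · intro s a _ _ ih σ hσ
    obtain ⟨τ, h1, h2, h3⟩ := ih σ hσ
    obtain ⟨b, hb⟩ := hΓ.forth τ a h1
    refine ⟨insert (a, b) τ, hb, fun q hq => mem_insert.2 (Or.inr (h2 q hq)), fun x hx => ?_⟩
    rw [mem_dm]
    rcases mem_insert.1 hx with rfl | hx
    · exact ⟨b, mem_insert.2 (Or.inl rfl)⟩
    · have := h3 x hx
      rw [mem_dm] at this
      obtain ⟨y, hy⟩ := this
      exact ⟨y, mem_insert.2 (Or.inr hy)⟩

theorem ext {Γ : IPow M (IPow M (α × α))} (hΓ : HSys Γ) (σ : IPow M (α × α)) (s t : IPow M α)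
    (hσ : σ ∈ Γ) (hs : IFin s) (ht : IFin t) : ∃ τ, τ ∈ Γ ∧ σ ⊆ τ ∧ s ⊆ dm τ ∧ t ⊆ rn τ := by
  obtain ⟨τ, h1, h2, h3⟩ := extdom hΓ s hs σ hσ
  obtain ⟨ρ, k1, k2, k3⟩ := extdom hΓ t ht (ivr τ) (hΓ.ivr τ h1)
  have h4 : τ ⊆ ivr ρ := fun q hq => by
    rw [mem_ivr]
    exact k2 _ (mem_ivr.2 hq)
  refine ⟨ivr ρ, hΓ.ivr ρ k1, fun q hq => h4 q (h2 q hq), fun x hx => ?_, fun y hy => ?_⟩
  · have := h3 x hx
    rw [mem_dm] at this ⊢
    obtain ⟨z, hz⟩ := this
    exact ⟨z, h4 _ hz⟩
  · have := k3 y hy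
    rw [mem_dm] at this
    rw [mem_rn]
    obtain ⟨z, hz⟩ := this
    exact ⟨z, mem_ivr.2 hz⟩

theorem tr1 (hA : Amor M α) {Γ : IPow M (IPow M (α × α))} (hΓ : HSys Γ) (σ : IPow M (α × α))
    (hσ : σ ∈ Γ) (s : IPow M α) (hs : s ⊆ dm σ) (a b : α) (hab : (a, b) ∈ σ) (ha : a ∉ cl Γ s) :
    b ∉ cl Γ (img σ s) := by
  have hσf := hΓ.fin σ hσ
  have hsf : IFin s := (fin_dm hσf).subset hs
  have hif : IFin (img σ s) := (fin_rn hσf).subset img_sub
  obtain ⟨U, hU, h1⟩ := notmem_cl ha
  let σ' : IPow M (α × α) := sep M fun q => q ∈ σ ∧ q.1 ∈ s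
  have hσ' : ∀ q, q ∈ σ' ↔ q ∈ σ ∧ q.1 ∈ s := fun q => mem_sep (by
      (repeat' first
        | (with_reducible assumption)
        | (with_reducible exact IntF.id) | (with_reducible exact IntF.fst')
        | (with_reducible exact IntF.snd') | (with_reducible exact IntF.const _)
        | (with_reducible exact Int.const _)
        | (with_reducible apply IntF.fst) | (with_reducible apply IntF.snd)
        | (with_reducible apply Int.and) | (with_reducible apply Int.or) | (with_reducible apply Int.not)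
        | (with_reducible apply Int.ne) | (with_reducible apply Int.iff) | (with_reducible apply Int.imp)
        | (with_reducible apply Int.ex) | (with_reducible apply Int.all) | (with_reducible apply Int.eq)
        | (with_reducible apply Int.mem) | (with_reducible apply Int.subset) | (with_reducible apply Int.fin)
        | (with_reducible_and_instances apply Int.leN) | (with_reducible_and_instances apply Int.ltN)
        | (with_reducible apply IntF.pair) | (with_reducible apply IntF.succ) | (with_reducible apply IntF.sep)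
        | (with_reducible apply IntF.insert) | (with_reducible apply IntF.singleton)
        | (with_reducible apply IntF.union) | (with_reducible apply IntF.inter) | (with_reducible apply IntF.sdiff)
        | (with_reducible apply int_dm) | (with_reducible apply int_rn) | (with_reducible apply int_idm)
        | (with_reducible apply int_ivr) | (with_reducible apply int_cmp) | (with_reducible apply int_img)
        | (with_reducible apply int_cl) | (with_reducible apply int_Bk)
        | (with_reducible ((refine IntF.comp₂ ?_ ?_ ?_); assumption))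
        | (with_reducible ((refine Int.comp₂ ?_ ?_ ?_); assumption))
        | (with_reducible ((refine IntF.comp ?_ ?_); assumption))
        | (with_reducible ((refine Int.comp ?_ ?_); assumption))
        | (with_reducible apply IntF.app)))
  have hdm : dm σ' = s := IPow.ext' fun x => by
    rw [mem_dm]
    constructor
    · rintro ⟨y, hy⟩
      exact ((hσ' _).1 hy).2
    · intro hx
      have := hs x hx
      rw [mem_dm] at this
      obtain ⟨y, hy⟩ := this
      exact ⟨y, (hσ' _).2 ⟨hy, hx⟩⟩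
  have hrn : rn σ' = img σ s := IPow.ext' fun y => by
    rw [mem_rn, mem_img]
    constructor
    · rintro ⟨x, hx⟩
      have := (hσ' _).1 hx
      exact ⟨x, this.2, this.1⟩
    · rintro ⟨x, hx, h⟩
      exact ⟨x, (hσ' _).2 ⟨h, hx⟩⟩
  have hσ'Γ : σ' ∈ Γ := hΓ.sub σ σ' hσ fun q hq => ((hσ' q).1 hq).1
  obtain ⟨c, hc⟩ := miss hA (hU.union (hΓ.clf s hsf))
  rw [mem_union, not_or] at hc
  rw [mem_cl]
  refine not_not.2 ⟨cl Γ (img σ s), hΓ.clf _ hif, fun d hd => ?_⟩
  have g1 : insert (c, d) σ' ∈ Γ := hΓ.gen σ' c d hσ'Γ (by rw [hdm]; exact hc.2)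
    (by rw [hrn]; exact hd)
  have g2 : insert (a, c) (idm s) ∈ Γ := h1 c hc.1
  have g3 : insert (a, b) σ' ∈ Γ := hΓ.sub σ _ hσ fun q hq => by
    rcases mem_insert.1 hq with h | h
    · rw [h]; exact hab
    · exact ((hσ' q).1 h).1
  have g4 := hΓ.cmp _ _ (hΓ.cmp _ _ (hΓ.ivr _ g3) g2) g1
  refine hΓ.sub _ _ g4 fun q hq => ?_
  rw [mem_cmp]
  rcases mem_insert.1 hq with h | h
  · refine ⟨c, ?_, ?_⟩
    · rw [mem_cmp]
      refine ⟨a, ?_, mem_insert.2 (Or.inl rfl)⟩
      rw [mem_ivr, h]
      exact mem_insert.2 (Or.inl rfl)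
    · rw [h]
      exact mem_insert.2 (Or.inl rfl)
  · rw [mem_idm, mem_img] at h
    obtain ⟨⟨x, hx, hxy⟩, he⟩ := h
    refine ⟨x, ?_, ?_⟩
    · rw [mem_cmp]
      refine ⟨x, ?_, mem_insert.2 (Or.inr (mem_idm.2 ⟨hx, rfl⟩))⟩
      rw [mem_ivr]
      exact mem_insert.2 (Or.inr ((hσ' _).2 ⟨hxy, hx⟩))
    · rw [← he]
      exact mem_insert.2 (Or.inr ((hσ' _).2 ⟨hxy, hx⟩))

theorem tr (hA : Amor M α) {Γ : IPow M (IPow M (α × α))} (hΓ : HSys Γ) (σ : IPow M (α × α))
    (hσ : σ ∈ Γ) (s : IPow M α) (hs : s ⊆ dm σ) (a b : α) (hab : (a, b) ∈ σ) :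
    a ∈ cl Γ s ↔ b ∈ cl Γ (img σ s) := by
  constructor
  · intro ha
    by_contra hb
    have h1 := tr1 hA hΓ (ivr σ) (hΓ.ivr σ hσ) (img σ s) (fun y hy => by
      have := img_sub y hy
      rw [mem_rn] at this
      obtain ⟨x, hx⟩ := this
      rw [mem_dm]
      exact ⟨x, mem_ivr.2 hx⟩) b a (mem_ivr.2 hab) hb
    have h2 : img (ivr σ) (img σ s) = s := IPow.ext' fun x => by
      rw [mem_img]
      constructor
      · rintro ⟨y, hy, hyx⟩
        rw [mem_img] at hy
        obtain ⟨x', hx', h⟩ := hy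
        rw [mem_ivr] at hyx
        have := (hΓ.inj σ hσ x y x' y hyx h).2 rfl
        rw [this]
        exact hx'
      · intro hx
        have := hs x hx
        rw [mem_dm] at this
        obtain ⟨y, hy⟩ := this
        exact ⟨y, mem_img.2 ⟨x, hx, hy⟩, mem_ivr.2 hy⟩
    rw [h2] at h1
    exact h1 ha
  · intro hb
    by_contra ha
    exact tr1 hA hΓ σ hσ s hs a b hab ha hb

theorem img_idm {σ : IPow M (α × α)} {Γ : IPow M (IPow M (α × α))} (hΓ : HSys Γ) (hσ : σ ∈ Γ)
    {s : IPow M α} (h : idm s ⊆ σ) : img σ s = s := IPow.ext' fun y => by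
  rw [mem_img]
  constructor
  · rintro ⟨x, hx, hxy⟩
    have h1 : (x, x) ∈ σ := h _ (mem_idm.2 ⟨hx, rfl⟩)
    have := (hΓ.inj σ hσ x y x x hxy h1).1 rfl
    rw [this]
    exact hx
  · intro hy
    exact ⟨y, hy, h _ (mem_idm.2 ⟨hy, rfl⟩)⟩

theorem idem (hA : Amor M α) {Γ : IPow M (IPow M (α × α))} (hΓ : HSys Γ) (s : IPow M α)
    (hs : IFin s) : cl Γ (cl Γ s) = cl Γ s := by
  refine IPow.ext' fun a => ⟨fun ha => ?_, fun ha => sub hA hΓ _ a ha⟩
  by_contra h
  obtain ⟨U, hU, h1⟩ := notmem_cl h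
  have hcf := hΓ.clf s hs
  obtain ⟨b, hb⟩ := miss hA (hU.union (hΓ.clf _ hcf))
  rw [mem_union, not_or] at hb
  obtain ⟨τ, k1, k2, k3, _⟩ := ext hΓ _ (cl Γ s) ∅ (h1 b hb.1) hcf IFin.empty
  have hid : idm s ⊆ τ := fun q hq => k2 q (mem_insert.2 (Or.inr hq))
  have hsd : s ⊆ dm τ := fun x hx => mem_dm.2 ⟨x, hid _ (mem_idm.2 ⟨hx, rfl⟩)⟩
  have hab : (a, b) ∈ τ := k2 _ (mem_insert.2 (Or.inl rfl))
  have himg : img τ (cl Γ s) ⊆ cl Γ s := by
    intro y hy
    rw [mem_img] at hy
    obtain ⟨x, hx, hxy⟩ := hy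
    have := (tr hA hΓ τ k1 s hsd x y hxy).1 hx
    rw [img_idm hΓ k1 hid] at this
    exact this
  have h2 := (tr hA hΓ τ k1 (cl Γ s) k3 a b hab).1 ha
  exact hb.2 (mono hΓ _ _ himg b h2)

theorem extcl (hA : Amor M α) {Γ : IPow M (IPow M (α × α))} (hΓ : HSys Γ) (σ : IPow M (α × α))
    (hσ : σ ∈ Γ) : ∃ τ, τ ∈ Γ ∧ σ ⊆ τ ∧ dm τ = cl Γ (dm σ) ∧ rn τ = cl Γ (rn σ) := by
  have hσf := hΓ.fin σ hσ
  obtain ⟨τ, k1, k2, k3, k4⟩ := ext hΓ σ (cl Γ (dm σ)) (cl Γ (rn σ)) hσ
    (hΓ.clf _ (fin_dm hσf)) (hΓ.clf _ (fin_rn hσf))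
  have himg : img τ (dm σ) = rn σ := IPow.ext' fun y => by
    rw [mem_img, mem_rn]
    constructor
    · rintro ⟨x, hx, hxy⟩
      rw [mem_dm] at hx
      obtain ⟨y', hy'⟩ := hx
      have := (hΓ.inj τ k1 x y x y' hxy (k2 _ hy')).1 rfl
      rw [this]
      exact ⟨x, hy'⟩
    · rintro ⟨x, hx⟩
      exact ⟨x, mem_dm.2 ⟨y, hx⟩, k2 _ hx⟩
  have hdd : dm σ ⊆ dm τ := fun x hx => by
    rw [mem_dm] at hx ⊢
    obtain ⟨y, hy⟩ := hx
    exact ⟨y, k2 _ hy⟩
  have htr : ∀ x y, (x, y) ∈ τ → (x ∈ cl Γ (dm σ) ↔ y ∈ cl Γ (rn σ)) := by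
    intro x y hxy
    have := tr hA hΓ τ k1 (dm σ) hdd x y hxy
    rwa [himg] at this
  let τ' : IPow M (α × α) := sep M fun q => q ∈ τ ∧ q.1 ∈ cl Γ (dm σ)
  have hτ' : ∀ q, q ∈ τ' ↔ q ∈ τ ∧ q.1 ∈ cl Γ (dm σ) := fun q => mem_sep (by
      (repeat' first
        | (with_reducible assumption)
        | (with_reducible exact IntF.id) | (with_reducible exact IntF.fst')
        | (with_reducible exact IntF.snd') | (with_reducible exact IntF.const _)
        | (with_reducible exact Int.const _)
        | (with_reducible apply IntF.fst) | (with_reducible apply IntF.snd)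
        | (with_reducible apply Int.and) | (with_reducible apply Int.or) | (with_reducible apply Int.not)
        | (with_reducible apply Int.ne) | (with_reducible apply Int.iff) | (with_reducible apply Int.imp)
        | (with_reducible apply Int.ex) | (with_reducible apply Int.all) | (with_reducible apply Int.eq)
        | (with_reducible apply Int.mem) | (with_reducible apply Int.subset) | (with_reducible apply Int.fin)
        | (with_reducible_and_instances apply Int.leN) | (with_reducible_and_instances apply Int.ltN)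
        | (with_reducible apply IntF.pair) | (with_reducible apply IntF.succ) | (with_reducible apply IntF.sep)
        | (with_reducible apply IntF.insert) | (with_reducible apply IntF.singleton)
        | (with_reducible apply IntF.union) | (with_reducible apply IntF.inter) | (with_reducible apply IntF.sdiff)
        | (with_reducible apply int_dm) | (with_reducible apply int_rn) | (with_reducible apply int_idm)
        | (with_reducible apply int_ivr) | (with_reducible apply int_cmp) | (with_reducible apply int_img)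
        | (with_reducible apply int_cl) | (with_reducible apply int_Bk)
        | (with_reducible ((refine IntF.comp₂ ?_ ?_ ?_); assumption))
        | (with_reducible ((refine Int.comp₂ ?_ ?_ ?_); assumption))
        | (with_reducible ((refine IntF.comp ?_ ?_); assumption))
        | (with_reducible ((refine Int.comp ?_ ?_); assumption))
        | (with_reducible apply IntF.app)))
  refine ⟨τ', hΓ.sub τ τ' k1 fun q hq => ((hτ' q).1 hq).1, fun q hq => (hτ' q).2 ⟨k2 q hq, ?_⟩,
    IPow.ext' fun x => ?_, IPow.ext' fun y => ?_⟩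
  · exact sub hA hΓ _ _ (mem_dm.2 ⟨q.2, hq⟩)
  · rw [mem_dm]
    constructor
    · rintro ⟨y, hy⟩
      exact ((hτ' _).1 hy).2
    · intro hx
      have := k3 x hx
      rw [mem_dm] at this
      obtain ⟨y, hy⟩ := this
      exact ⟨y, (hτ' _).2 ⟨hy, hx⟩⟩
  · rw [mem_rn]
    constructor
    · rintro ⟨x, hx⟩
      have := (hτ' _).1 hx
      exact (htr x y this.1).1 this.2
    · intro hy
      have := k4 y hy
      rw [mem_rn] at this
      obtain ⟨x, hx⟩ := this
      exact ⟨x, (hτ' _).2 ⟨hx, (htr x y hx).2 hy⟩⟩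

end ClP0

theorem cl_main : S_CL M := by
  intro α _ Γ hA hΓ
  exact ⟨ClP0.sub hA hΓ, ClP0.mono hΓ, ClP0.idem hA hΓ, ClP0.tr hA hΓ, ClP0.ext hΓ,
    ClP0.extcl hA hΓ⟩

end Pool.Agent.R602.AM
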