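import Pool.Agent.R602.AM.Stm

/-!
# Piece DEG: consequences of degeneracy
-/

set_option autoImplicit false
set_option linter.all false

namespace Pool.Agent.R602.AM

open FirstOrder FirstOrder.Language Pool.Agent.Helper672.ZFA

universe u

variable {M : Type u} [L.Structure M] [hM : IsModel M]

namespace DegAux

variable {α : Type u} [ITy M α] {Γ : IPow M (IPow M (α × α))}

theorem un (hd : Deg Γ) (s : IPow M α) (hs : IFin s) : ∀ t x, IFin t → x ∈ cl Γ (s ∪ t) →
    (x ∈ cl Γ t ∨ ∃ a, a ∈ s ∧ x ∈ cl Γ (insert a t)) := by
  refine IFin.ind (p := fun s => ∀ t x, IFin t → x ∈ cl Γ (s ∪ t) →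
    (x ∈ cl Γ t ∨ ∃ a, a ∈ s ∧ x ∈ cl Γ (insert a t))) (by
        (repeat' first
          | (with_reducible assumption)
          | (with_reducible exact IntF.id) | (with_reducible exact IntF.fst')
          | (with_reducible exact IntF.snd') | (with_reducible exact IntF.const _)
          | (with_reducible exact Int.const _)
          | (with_reducible apply IntF.fst) | (with_reducible apply IntF.snd)
          | (with_reducible apply Int.and) | (with_reducible apply Int.or) | (with_reducible apply Int.not)
          | (with_reducible apply Int.ne) | (with_reducible apply Int.iff) | (with_reducible apply Int.imp)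
          | (with_reducible apply Int.ex) | (with_reducible apply Int.all) | (with_reducible apply Int.eq)
          | (with_reducible apply Int.mem) | (with_reducible apply Int.subset) | (with_reducible apply Int.fin)
          | (with_reducible_and_instances apply Int.leN) | (with_reducible_and_instances apply Int.ltN)
          | (with_reducible apply IntF.pair) | (with_reducible apply IntF.succ) | (with_reducible apply IntF.sep)
          | (with_reducible apply IntF.insert) | (with_reducible apply IntF.singleton)
          | (with_reducible apply IntF.union) | (with_reducible apply IntF.inter) | (with_reducible apply IntF.sdiff)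
          | (with_reducible apply int_dm) | (with_reducible apply int_rn) | (with_reducible apply int_idm)
          | (with_reducible apply int_ivr) | (with_reducible apply int_cmp) | (with_reducible apply int_img)
          | (with_reducible apply int_cl) | (with_reducible apply int_Bk)
          | (with_reducible ((refine IntF.comp₂ ?_ ?_ ?_); assumption))
          | (with_reducible ((refine Int.comp₂ ?_ ?_ ?_); assumption))
          | (with_reducible ((refine IntF.comp ?_ ?_); assumption))
          | (with_reducible ((refine Int.comp ?_ ?_); assumption))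
          | (with_reducible apply IntF.app))) ?_ ?_ s hs
  · intro t x _ hx
    have e : (∅ : IPow M α) ∪ t = t := IPow.ext' fun z => by simp
    rw [e] at hx
    exact Or.inl hx
  · intro s a hs ha ih t x ht hx
    have e : (Insert.insert a s : IPow M α) ∪ t = s ∪ Insert.insert a t := IPow.ext' fun z => by
      simp only [mem_union, mem_insert]
      tauto
    rw [e] at hx
    rcases ih _ x (ht.insert a) hx with h | ⟨b, hb, h⟩
    · exact Or.inr ⟨a, by simp, h⟩
    · rcases hd t b a ht x h with h | h
      · exact Or.inr ⟨b, mem_insert.2 (Or.inr hb), h⟩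
      · exact Or.inr ⟨a, by simp, h⟩

end DegAux

theorem deg_main : S_DEG M := by
  intro α _ Γ hA hS hc he hd
  have clle : ∀ s t : IPow M α, IFin t → s ⊆ cl Γ t → cl Γ s ⊆ cl Γ t := by
    intro s t ht h z hz
    have := hc.mono _ _ h z hz
    rwa [hc.idem t ht] at this
  have inssub : ∀ (s t : IPow M α) a, s ⊆ t → a ∈ t → (Insert.insert a s : IPow M α) ⊆ t := by
    intro s t a h ha z hz
    rcases mem_insert.1 hz with rfl | hz
    · exact ha
    · exact h z hz
  have self : ∀ D x, cl Γ D = D → x ∉ D → x ∈ Bk Γ D x := by
    intro D x hD hx
    rw [mem_Bk]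
    exact ⟨hc.sub _ _ (by simp), hx⟩
  have eq : ∀ D x y, IFin D → cl Γ D = D → x ∉ D → y ∈ Bk Γ D x → Bk Γ D y = Bk Γ D x := by
    intro D x y hDf hD hx hy
    rw [mem_Bk] at hy
    have h1 : x ∈ cl Γ (Insert.insert y D) := he D y x hDf (by rw [hD]; exact hy.2) hy.1
    have h2 : cl Γ (Insert.insert y D) = cl Γ (Insert.insert x D) := by
      apply IPow.ext'
      intro z
      constructor
      · exact fun hz => clle _ _ (hDf.insert x) (inssub _ _ _ (fun w hw => hc.sub _ _
          (mem_insert.2 (Or.inr hw))) hy.1) z hz
      · exact fun hz => clle _ _ (hDf.insert y) (inssub _ _ _ (fun w hw => hc.sub _ _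
          (mem_insert.2 (Or.inr hw))) h1) z hz
    unfold Bk
    rw [h2]
  refine ⟨fun s t x hs ht hx => DegAux.un hd s hs t x ht hx, ?_, ?_, self, eq, ?_⟩
  · intro D E x hDf hEf hD hE hDE hx
    apply IPow.ext'
    intro z
    rw [mem_union, mem_Bk]
    constructor
    · intro hz
      have e : (Insert.insert x E : IPow M α) = E ∪ Insert.insert x D := IPow.ext' fun w => by
        simp only [mem_union, mem_insert]
        constructor
        · tauto
        · rintro (h | h | h)
          · exact Or.inr h
          · exact Or.inl h
          · exact Or.inr (hDE w h)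
      rw [e] at hz
      have key : z ∈ cl Γ (Insert.insert x D) → z ∈ E ∨ (z ∈ cl Γ (Insert.insert x D) ∧ z ∉ D) := by
        intro h
        by_cases hzD : z ∈ D
        · exact Or.inl (hDE z hzD)
        · exact Or.inr ⟨h, hzD⟩
      rcases DegAux.un hd E hEf _ z (hDf.insert x) hz with h | ⟨a, ha, h⟩
      · exact key h
      · rcases hd D a x hDf z h with h | h
        · left
          have := hc.mono _ E (inssub _ _ _ hDE ha) z h
          rwa [hE] at this
        · exact key h
    · rintro (h | h)
      · exact hc.sub _ _ (mem_insert.2 (Or.inr h))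
      · exact hc.mono _ _ (inssub _ _ _ (fun w hw => mem_insert.2 (Or.inr (hDE w hw))) (by simp)) z h.1
  · intro D E x hDf hEf hD hE hDE hx z hz hzE
    rw [mem_Bk] at hz
    have h1 : x ∈ cl Γ (Insert.insert z D) := he D z x hDf (by rw [hD]; exact hz.2) hz.1
    have h2 := hc.mono _ E (inssub _ _ _ hDE hzE) x h1
    rw [hE] at h2
    exact hx h2
  · intro D E x hDf hEf hD hE hDE hx
    apply IPow.ext'
    intro z
    constructor
    · intro hz
      have hzE : z ∈ E := by
        have := hc.mono _ E (fun w hw => (mem_sdiff.1 hw).1) z hz
        rwa [hE] at this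
      rw [mem_sdiff]
      refine ⟨hzE, fun hzB => ?_⟩
      have e : (E \ Bk Γ D x) = (E \ Bk Γ D x) ∪ D := IPow.ext' fun w => by
        simp only [mem_union, mem_sdiff, mem_Bk]
        constructor
        · exact Or.inl
        · rintro (h | h)
          · exact h
          · exact ⟨hDE w h, fun h1 => h1.2 h⟩
      rw [e] at hz
      have hzD : z ∉ D := (mem_Bk.1 hzB).2
      rcases DegAux.un hd _ (hEf.subset fun w hw => (mem_sdiff.1 hw).1) D z hDf hz with h | ⟨a, ha, h⟩
      · rw [hD] at h
        exact hzD h
      · rw [mem_sdiff] at ha
        by_cases haD : a ∈ D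
        · have := hc.mono _ D (inssub _ _ _ (fun w hw => hw) haD) z h
          rw [hD] at this
          exact hzD this
        · have h1 : z ∈ Bk Γ D a := mem_Bk.2 ⟨h, hzD⟩
          have h2 := eq D a z hDf hD haD h1
          have h3 := eq D x z hDf hD hx hzB
          have h4 := self D a hD haD
          rw [← h2, h3] at h4
          exact ha.2 h4
    · exact fun hz => hc.sub _ _ hz

end Pool.Agent.R602.AM
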