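import Pool.Agent.R602.AM.Stm

/-!
# Piece EX: the exchange property
-/

set_option autoImplicit false
set_option linter.all false

namespace Pool.Agent.R602.AM

open FirstOrder FirstOrder.Language Pool.Agent.Helper672.ZFA

universe u

variable {M : Type u} [L.Structure M] [hM : IsModel M]

theorem ex_main (hC : S_CARD M) : S_EX M := by
  intro α _ Γ hA hS hc S a b hSf ha hab
  by_cases hb : b ∈ cl Γ S
  · exact hc.mono _ _ (fun z hz => mem_insert.2 (Or.inr hz)) b hb
  by_contra hba
  obtain ⟨c, -, hcard⟩ := hC α
  -- the orbit of `a`
  set C : α → IPow M α := fun b' => sep M fun a' =>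
    Insert.insert (a, a') (Insert.insert (b, b') (idm S)) ∈ Γ with hCdef
  have memC : ∀ b' a', a' ∈ C b' ↔ Insert.insert (a, a') (Insert.insert (b, b') (idm S)) ∈ Γ := by
    intro b' a'
    exact mem_sep (by
        (repeat' first
          | (with_reducible assumption)
          | (with_reducible exact IntF.id) | (with_reducible exact IntF.fst')
          | (with_reducible exact IntF.snd') | (with_reducible exact IntF.const _)
          | (with_reducible exact Int.const _)
          | (with_reducible apply IntF.fst) | (with_reducible apply IntF.snd)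
          | (with_reducible apply Int.and) | (with_reducible apply Int.or) | (with_reducible apply Int.not)
          | (with_reducible apply Int.ne) | (with_reducible apply Int.iff) | (with_reducible apply Int.imp)
          | (with_reducible apply Int.ex) | (with_reducible apply Int.all) | (with_reducible apply Int.eq)
          | (with_reducible apply Int.mem) | (with_reducible apply Int.subset) | (with_reducible apply Int.fin)
          | (with_reducible_and_instances apply Int.leN) | (with_reducible_and_instances apply Int.ltN)
          | (with_reducible apply IntF.pair) | (with_reducible apply IntF.succ) | (with_reducible apply IntF.sep)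
          | (with_reducible apply IntF.insert) | (with_reducible apply IntF.singleton)
          | (with_reducible apply IntF.union) | (with_reducible apply IntF.inter) | (with_reducible apply IntF.sdiff)
          | (with_reducible apply int_dm) | (with_reducible apply int_rn) | (with_reducible apply int_idm)
          | (with_reducible apply int_ivr) | (with_reducible apply int_cmp) | (with_reducible apply int_img)
          | (with_reducible apply int_cl) | (with_reducible apply int_Bk)
          | (with_reducible ((refine IntF.comp₂ ?_ ?_ ?_); assumption))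
          | (with_reducible ((refine Int.comp₂ ?_ ?_ ?_); assumption))
          | (with_reducible ((refine IntF.comp ?_ ?_); assumption))
          | (with_reducible ((refine Int.comp ?_ ?_); assumption))
          | (with_reducible apply IntF.app)))
  have functional : ∀ σ, σ ∈ Γ → ∀ x y y', (x, y) ∈ σ → (x, y') ∈ σ → y = y' := fun σ hσ x y y' h h' =>
    (hS.inj σ hσ _ _ _ _ h h').1 rfl
  -- (i)
  have hi : ∀ b' a', a' ∈ C b' → a' ∈ cl Γ (Insert.insert b' S) := by
    intro b' a' h
    have hσ := (memC b' a').1 h
    set σ := (Insert.insert (a, a') (Insert.insert (b, b') (idm S)) : IPow M (α × α)) with hσd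
    have m1 : (a, a') ∈ σ := by simp [hσd]
    have m2 : (b, b') ∈ σ := by simp [hσd]
    have m3 : ∀ x, x ∈ S → (x, x) ∈ σ := fun x hx => by
      rw [hσd, mem_insert, mem_insert, mem_idm]
      exact Or.inr (Or.inr ⟨hx, rfl⟩)
    have h1 := (hc.tr σ hσ (Insert.insert b S) (by
      intro x hx
      rcases mem_insert.1 hx with rfl | hx
      · exact mem_dm.2 ⟨_, m2⟩
      · exact mem_dm.2 ⟨_, m3 x hx⟩) a a' m1).1 hab
    have h2 : img σ (Insert.insert b S) = Insert.insert b' S := by
      apply IPow.ext'
      intro z
      rw [mem_img, mem_insert]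
      constructor
      · rintro ⟨x, hx, hxz⟩
        rcases mem_insert.1 hx with rfl | hx
        · exact Or.inl (functional σ hσ _ _ _ hxz m2)
        · right
          rw [functional σ hσ _ _ _ hxz (m3 x hx)]
          exact hx
      · rintro (rfl | hz)
        · exact ⟨b, by simp, m2⟩
        · exact ⟨z, mem_insert.2 (Or.inr hz), m3 z hz⟩
    rwa [h2] at h1
  -- (ii)
  have hii : ∀ b' a', a' ∈ C b' → a' ∉ cl Γ S := by
    intro b' a' h
    have hσ := (memC b' a').1 h
    set σ := (Insert.insert (a, a') (Insert.insert (b, b') (idm S)) : IPow M (α × α)) with hσd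
    have m1 : (a, a') ∈ σ := by simp [hσd]
    have m3 : ∀ x, x ∈ S → (x, x) ∈ σ := fun x hx => by
      rw [hσd, mem_insert, mem_insert, mem_idm]
      exact Or.inr (Or.inr ⟨hx, rfl⟩)
    have h1 := hc.tr σ hσ S (fun x hx => mem_dm.2 ⟨_, m3 x hx⟩) a a' m1
    have h2 : img σ S = S := by
      apply IPow.ext'
      intro z
      rw [mem_img]
      constructor
      · rintro ⟨x, hx, hxz⟩
        rw [functional σ hσ _ _ _ hxz (m3 x hx)]
        exact hx
      · exact fun hz => ⟨z, hz, m3 z hz⟩
    rw [h2] at h1
    exact fun h3 => ha (h1.2 h3)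
  have hfin : ∀ b', IFin (C b') := fun b' =>
    (hS.clf _ (hSf.insert b')).subset fun z hz => hi b' z hz
  have hdmid : dm (idm S) = S := IPow.ext' fun z => by
    rw [mem_dm]
    constructor
    · rintro ⟨y, hy⟩
      exact (mem_idm.1 hy).1
    · exact fun hz => ⟨z, mem_idm.2 ⟨hz, rfl⟩⟩
  have hrnid : rn (idm S) = S := IPow.ext' fun z => by
    rw [mem_rn]
    constructor
    · rintro ⟨y, hy⟩
      have := mem_idm.1 hy
      exact (show y = z from this.2) ▸ this.1
    · exact fun hz => ⟨z, mem_idm.2 ⟨hz, rfl⟩⟩
  have hdmin : ∀ (σ : IPow M (α × α)) x y, dm (Insert.insert (x, y) σ) = Insert.insert x (dm σ) := by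
    intro σ x y
    apply IPow.ext'
    intro z
    rw [mem_dm, mem_insert, mem_dm]
    constructor
    · rintro ⟨w, hw⟩
      rcases mem_insert.1 hw with h | h
      · rw [Prod.mk.injEq] at h
        exact Or.inl h.1
      · exact Or.inr ⟨w, h⟩
    · rintro (rfl | ⟨w, hw⟩)
      · exact ⟨y, by simp⟩
      · exact ⟨w, mem_insert.2 (Or.inr hw)⟩
  have hrnin : ∀ (σ : IPow M (α × α)) x y, rn (Insert.insert (x, y) σ) = Insert.insert y (rn σ) := by
    intro σ x y
    apply IPow.ext'
    intro z
    rw [mem_rn, mem_insert, mem_rn]
    constructor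
    · rintro ⟨w, hw⟩
      rcases mem_insert.1 hw with h | h
      · rw [Prod.mk.injEq] at h
        exact Or.inl h.2
      · exact Or.inr ⟨w, h⟩
    · rintro (rfl | ⟨w, hw⟩)
      · exact ⟨x, by simp⟩
      · exact ⟨w, mem_insert.2 (Or.inr hw)⟩
  -- (iii)
  have hiii : ∀ a' b', a' ∉ cl Γ S → b' ∉ cl Γ (Insert.insert a' S) → a' ∈ C b' := by
    intro a' b' h1 h2
    have h3 := hS.gen (idm S) a a' (hS.idm S hSf) (by rw [hdmid]; exact ha) (by rw [hrnid]; exact h1)
    have h4 := hS.gen _ b b' h3 (by rw [hdmin, hdmid]; exact hba) (by rw [hrnin, hrnid]; exact h2)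
    rw [memC]
    have e : (Insert.insert (a, a') (Insert.insert (b, b') (idm S)) : IPow M (α × α)) =
        Insert.insert (b, b') (Insert.insert (a, a') (idm S)) := IPow.ext' fun z => by
      simp only [mem_insert]
      tauto
    rw [e]
    exact h4
  -- choose `w`
  have notall : ∀ s : IPow M α, IFin s → ∃ z, z ∉ s := by
    intro s hs
    by_contra hno
    push Not at hno
    exact hA.1 (hs.subset fun z _ => hno z)
  obtain ⟨w, hw⟩ := notall _ ((hfin b).union (hS.clf S hSf))
  rw [mem_union, not_or] at hw
  set Q : IPow M α := Insert.insert w (C b) with hQ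
  have hQf : IFin Q := (hfin b).insert w
  have hQcl : ∀ z, z ∈ Q → z ∉ cl Γ S := by
    intro z hz
    rcases mem_insert.1 hz with rfl | hz
    · exact hw.2
    · exact hii b z hz
  have hintf : IntF M (fun z : α => cl Γ (Insert.insert z S)) := (by
      (repeat' first
        | (with_reducible assumption)
        | (with_reducible exact IntF.id) | (with_reducible exact IntF.fst')
        | (with_reducible exact IntF.snd') | (with_reducible exact IntF.const _)
        | (with_reducible exact Int.const _)
        | (with_reducible apply IntF.fst) | (with_reducible apply IntF.snd)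
        | (with_reducible apply Int.and) | (with_reducible apply Int.or) | (with_reducible apply Int.not)
        | (with_reducible apply Int.ne) | (with_reducible apply Int.iff) | (with_reducible apply Int.imp)
        | (with_reducible apply Int.ex) | (with_reducible apply Int.all) | (with_reducible apply Int.eq)
        | (with_reducible apply Int.mem) | (with_reducible apply Int.subset) | (with_reducible apply Int.fin)
        | (with_reducible_and_instances apply Int.leN) | (with_reducible_and_instances apply Int.ltN)
        | (with_reducible apply IntF.pair) | (with_reducible apply IntF.succ) | (with_reducible apply IntF.sep)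
        | (with_reducible apply IntF.insert) | (with_reducible apply IntF.singleton)
        | (with_reducible apply IntF.union) | (with_reducible apply IntF.inter) | (with_reducible apply IntF.sdiff)
        | (with_reducible apply int_dm) | (with_reducible apply int_rn) | (with_reducible apply int_idm)
        | (with_reducible apply int_ivr) | (with_reducible apply int_cmp) | (with_reducible apply int_img)
        | (with_reducible apply int_cl) | (with_reducible apply int_Bk)
        | (with_reducible ((refine IntF.comp₂ ?_ ?_ ?_); assumption))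
        | (with_reducible ((refine Int.comp₂ ?_ ?_ ?_); assumption))
        | (with_reducible ((refine IntF.comp ?_ ?_); assumption))
        | (with_reducible ((refine Int.comp ?_ ?_); assumption))
        | (with_reducible apply IntF.app)))
  have hUf : IFin (isUnion (iimage (fun z : α => cl Γ (Insert.insert z S)) Q)) := by
    refine IFin.isUnion (hQf.image hintf) ?_
    intro s hs
    rw [mem_iimage hintf] at hs
    obtain ⟨z, _, rfl⟩ := hs
    exact hS.clf _ (hSf.insert z)
  obtain ⟨b1, hb1⟩ := notall _ (hUf.union (hS.clf S hSf))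
  rw [mem_union, not_or] at hb1
  have hb2 : ∀ z, z ∈ Q → b1 ∉ cl Γ (Insert.insert z S) := by
    intro z hz h
    apply hb1.1
    rw [mem_isUnion]
    refine ⟨cl Γ (Insert.insert z S), ?_, h⟩
    rw [mem_iimage hintf]
    exact ⟨z, hz, rfl⟩
  have hQC : ∀ z, z ∈ Q → z ∈ C b1 := fun z hz => hiii z b1 (hQcl z hz) (hb2 z hz)
  have hsub : C b ⊆ C b1 := fun z hz => hQC z (mem_insert.2 (Or.inr hz))
  -- the first inequality
  have h1 := hcard (C b1) (C b) (C b) (idm (C b)) (hfin b1) hsub
    (fun y hy => ⟨y, hy, mem_idm.2 ⟨hy, rfl⟩⟩)
    (fun x y y' _ h h' => (mem_idm.1 h).2.symm.trans (mem_idm.1 h').2)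
  -- the second inequality
  have h2 := hS.gen (idm S) b b1 (hS.idm S hSf) (by rw [hdmid]; exact hb)
    (by rw [hrnid]; exact hb1.2)
  obtain ⟨τ, hτ, hτ1, hτ2, hτ3⟩ := hc.ext _ (C b) (C b1) h2 (hfin b) (hfin b1)
  have h3 := hcard (C b) (C b) (C b1) τ (hfin b) (fun _ h => h) (by
    intro y hy
    obtain ⟨x, hx⟩ := mem_rn.1 (hτ3 y hy)
    refine ⟨x, ?_, hx⟩
    rw [memC]
    have h4 := hS.cmp _ _ ((memC b1 y).1 hy) (hS.ivr τ hτ)
    refine hS.sub _ _ h4 ?_
    intro p hp
    rw [mem_cmp]
    rcases mem_insert.1 hp with rfl | hp
    · exact ⟨y, by simp, mem_ivr.2 hx⟩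
    · rcases mem_insert.1 hp with rfl | hp
      · exact ⟨b1, mem_insert.2 (Or.inr (mem_insert.2 (Or.inl rfl))), mem_ivr.2 (hτ1 _ (mem_insert.2 (Or.inl rfl)))⟩
      · have h5 := mem_idm.1 hp
        refine ⟨p.1, mem_insert.2 (Or.inr (mem_insert.2 (Or.inr (mem_idm.2 ⟨h5.1, rfl⟩)))), mem_ivr.2 ?_⟩
        refine hτ1 _ (mem_insert.2 (Or.inr (mem_idm.2 ⟨?_, h5.2.symm⟩)))
        rw [← h5.2]
        exact h5.1)
    (fun x y y' _ h h' => functional τ hτ x y y' h h')
  have h6 : c (C b) = c (C b1) := le_antisymm h1.1 h3.1
  have h7 := h1.2 h6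
  have h8 : w ∈ C b1 := hQC w (by simp [hQ])
  rw [← h7] at h8
  exact hw.1 h8

end Pool.Agent.R602.AM
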