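import Pool.Agent.R602.AM.Stm

/-!
# Piece FINJ: an abstract criterion for injectivity of a surjection
-/

set_option autoImplicit false
set_option linter.all false

namespace Pool.Agent.R602.AM

open FirstOrder FirstOrder.Language Pool.Agent.Helper672.ZFA

universe u

variable {M : Type u} [L.Structure M] [hM : IsModel M]

theorem finj_main (hC : S_CARD M) : S_FINJ M := by
  intro β κ _ _ f ρ T N hf hρ hT hsurj hN hle heq hfib
  obtain ⟨c, hc, hcard⟩ := hC β
  -- the graph of `f`
  let φ : IPow M (β × β) := sep M fun q => f q.1 = q.2
  have hφ : ∀ X Y, (X, Y) ∈ φ ↔ f X = Y := fun X Y => mem_sep (by
      (repeat' first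
        | (with_reducible assumption)
        | (with_reducible exact IntF.id) | (with_reducible exact IntF.fst')
        | (with_reducible exact IntF.snd') | (with_reducible exact IntF.const _)
        | (with_reducible exact Int.const _)
        | (with_reducible apply IntF.fst) | (with_reducible apply IntF.snd)
        | (with_reducible apply Int.and) | (with_reducible apply Int.or) | (with_reducible apply Int.not)
        | (with_reducible apply Int.ne) | (with_reducible apply Int.iff) | (with_reducible apply Int.imp)
        | (with_reducible apply Int.ex) | (with_reducible apply Int.all) | (with_reducible apply Int.eq)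
        | (with_reducible apply Int.mem) | (with_reducible apply Int.subset) | (with_reducible apply Int.fin)
        | (with_reducible_and_instances apply Int.leN) | (with_reducible_and_instances apply Int.ltN)
        | (with_reducible apply IntF.pair) | (with_reducible apply IntF.succ) | (with_reducible apply IntF.sep)
        | (with_reducible apply IntF.insert) | (with_reducible apply IntF.singleton)
        | (with_reducible apply IntF.union) | (with_reducible apply IntF.inter) | (with_reducible apply IntF.sdiff)
        | (with_reducible apply int_dm) | (with_reducible apply int_rn) | (with_reducible apply int_idm)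
        | (with_reducible apply int_ivr) | (with_reducible apply int_cmp) | (with_reducible apply int_img)
        | (with_reducible apply int_cl) | (with_reducible apply int_Bk)
        | (with_reducible ((refine IntF.comp₂ ?_ ?_ ?_); assumption))
        | (with_reducible ((refine Int.comp₂ ?_ ?_ ?_); assumption))
        | (with_reducible ((refine IntF.comp ?_ ?_); assumption))
        | (with_reducible ((refine Int.comp ?_ ?_); assumption))
        | (with_reducible apply IntF.app)))
  have hfun : ∀ x y y', (x, y) ∈ φ → (x, y') ∈ φ → y = y' := by
    intro x y y' h1 h2
    rw [hφ] at h1 h2
    rw [← h1, h2]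
  have hfibm : ∀ t X, X ∈ (sep M fun X => T X = t) ↔ T X = t := fun t X => mem_sep (by
      (repeat' first
        | (with_reducible assumption)
        | (with_reducible exact IntF.id) | (with_reducible exact IntF.fst')
        | (with_reducible exact IntF.snd') | (with_reducible exact IntF.const _)
        | (with_reducible exact Int.const _)
        | (with_reducible apply IntF.fst) | (with_reducible apply IntF.snd)
        | (with_reducible apply Int.and) | (with_reducible apply Int.or) | (with_reducible apply Int.not)
        | (with_reducible apply Int.ne) | (with_reducible apply Int.iff) | (with_reducible apply Int.imp)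
        | (with_reducible apply Int.ex) | (with_reducible apply Int.all) | (with_reducible apply Int.eq)
        | (with_reducible apply Int.mem) | (with_reducible apply Int.subset) | (with_reducible apply Int.fin)
        | (with_reducible_and_instances apply Int.leN) | (with_reducible_and_instances apply Int.ltN)
        | (with_reducible apply IntF.pair) | (with_reducible apply IntF.succ) | (with_reducible apply IntF.sep)
        | (with_reducible apply IntF.insert) | (with_reducible apply IntF.singleton)
        | (with_reducible apply IntF.union) | (with_reducible apply IntF.inter) | (with_reducible apply IntF.sdiff)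
        | (with_reducible apply int_dm) | (with_reducible apply int_rn) | (with_reducible apply int_idm)
        | (with_reducible apply int_ivr) | (with_reducible apply int_cmp) | (with_reducible apply int_img)
        | (with_reducible apply int_cl) | (with_reducible apply int_Bk)
        | (with_reducible ((refine IntF.comp₂ ?_ ?_ ?_); assumption))
        | (with_reducible ((refine Int.comp₂ ?_ ?_ ?_); assumption))
        | (with_reducible ((refine IntF.comp ?_ ?_); assumption))
        | (with_reducible ((refine Int.comp ?_ ?_); assumption))
        | (with_reducible apply IntF.app)))
  -- no bad elements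
  have nobad : ∀ Y, (∃ X, f X = Y ∧ T X ≠ T Y) → False := by
    intro Y0 hY0
    have hex : ∃ m : INat M, ∀ Y, (∃ X, f X = Y ∧ T X ≠ T Y) → ρ Y ≤ m := ⟨N, fun Y _ => hN Y⟩
    obtain ⟨m, hm, hmin⟩ := INat.exists_least
      (p := fun m : INat M => ∀ Y, (∃ X, f X = Y ∧ T X ≠ T Y) → ρ Y ≤ m) (by
          (repeat' first
            | (with_reducible assumption)
            | (with_reducible exact IntF.id) | (with_reducible exact IntF.fst')
            | (with_reducible exact IntF.snd') | (with_reducible exact IntF.const _)
            | (with_reducible exact Int.const _)
            | (with_reducible apply IntF.fst) | (with_reducible apply IntF.snd)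
            | (with_reducible apply Int.and) | (with_reducible apply Int.or) | (with_reducible apply Int.not)
            | (with_reducible apply Int.ne) | (with_reducible apply Int.iff) | (with_reducible apply Int.imp)
            | (with_reducible apply Int.ex) | (with_reducible apply Int.all) | (with_reducible apply Int.eq)
            | (with_reducible apply Int.mem) | (with_reducible apply Int.subset) | (with_reducible apply Int.fin)
            | (with_reducible_and_instances apply Int.leN) | (with_reducible_and_instances apply Int.ltN)
            | (with_reducible apply IntF.pair) | (with_reducible apply IntF.succ) | (with_reducible apply IntF.sep)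
            | (with_reducible apply IntF.insert) | (with_reducible apply IntF.singleton)
            | (with_reducible apply IntF.union) | (with_reducible apply IntF.inter) | (with_reducible apply IntF.sdiff)
            | (with_reducible apply int_dm) | (with_reducible apply int_rn) | (with_reducible apply int_idm)
            | (with_reducible apply int_ivr) | (with_reducible apply int_cmp) | (with_reducible apply int_img)
            | (with_reducible apply int_cl) | (with_reducible apply int_Bk)
            | (with_reducible ((refine IntF.comp₂ ?_ ?_ ?_); assumption))
            | (with_reducible ((refine Int.comp₂ ?_ ?_ ?_); assumption))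
            | (with_reducible ((refine IntF.comp ?_ ?_); assumption))
            | (with_reducible ((refine Int.comp ?_ ?_); assumption))
            | (with_reducible apply IntF.app))) hex
    have hatt : ∃ Y, (∃ X, f X = Y ∧ T X ≠ T Y) ∧ ρ Y = m := by
      by_contra hn
      have hlt : ∀ Y, (∃ X, f X = Y ∧ T X ≠ T Y) → ρ Y < m := by
        intro Y hY
        exact lt_of_le_of_ne (hm Y hY) fun h => hn ⟨Y, hY, h⟩
      rcases INat.eq_zero_or_succ m with rfl | ⟨k, rfl⟩
      · exact INat.not_lt_zero (hlt Y0 hY0)
      · have h1 := hmin k fun Y hY => INat.lt_succ_iff.1 (hlt Y hY)
        exact absurd (INat.lt_succ_self k) (not_lt.2 h1)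
    obtain ⟨Y, ⟨X, hXY, hTX⟩, hρY⟩ := hatt
    have hρX : m < ρ X := by
      rw [← hρY, ← hXY]
      refine lt_of_le_of_ne (hle X) fun h => hTX ?_
      rw [← hXY]
      exact (heq X h).symm
    let Q : IPow M β := sep M fun Z => T Z = T X ∧ ρ X ≤ ρ Z
    have hQ : ∀ Z, Z ∈ Q ↔ T Z = T X ∧ ρ X ≤ ρ Z := fun Z => mem_sep (by
        (repeat' first
          | (with_reducible assumption)
          | (with_reducible exact IntF.id) | (with_reducible exact IntF.fst')
          | (with_reducible exact IntF.snd') | (with_reducible exact IntF.const _)
          | (with_reducible exact Int.const _)
          | (with_reducible apply IntF.fst) | (with_reducible apply IntF.snd)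
          | (with_reducible apply Int.and) | (with_reducible apply Int.or) | (with_reducible apply Int.not)
          | (with_reducible apply Int.ne) | (with_reducible apply Int.iff) | (with_reducible apply Int.imp)
          | (with_reducible apply Int.ex) | (with_reducible apply Int.all) | (with_reducible apply Int.eq)
          | (with_reducible apply Int.mem) | (with_reducible apply Int.subset) | (with_reducible apply Int.fin)
          | (with_reducible_and_instances apply Int.leN) | (with_reducible_and_instances apply Int.ltN)
          | (with_reducible apply IntF.pair) | (with_reducible apply IntF.succ) | (with_reducible apply IntF.sep)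
          | (with_reducible apply IntF.insert) | (with_reducible apply IntF.singleton)
          | (with_reducible apply IntF.union) | (with_reducible apply IntF.inter) | (with_reducible apply IntF.sdiff)
          | (with_reducible apply int_dm) | (with_reducible apply int_rn) | (with_reducible apply int_idm)
          | (with_reducible apply int_ivr) | (with_reducible apply int_cmp) | (with_reducible apply int_img)
          | (with_reducible apply int_cl) | (with_reducible apply int_Bk)
          | (with_reducible ((refine IntF.comp₂ ?_ ?_ ?_); assumption))
          | (with_reducible ((refine Int.comp₂ ?_ ?_ ?_); assumption))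
          | (with_reducible ((refine IntF.comp ?_ ?_); assumption))
          | (with_reducible ((refine Int.comp ?_ ?_); assumption))
          | (with_reducible apply IntF.app)))
    have hQf : IFin Q := by
      refine (hfib (T X)).subset fun Z hZ => ?_
      rw [hfibm]
      exact ((hQ Z).1 hZ).1
    have hgood : ∀ W, f W ∈ Q → W ∈ Q := by
      intro W hW
      rw [hQ] at hW ⊢
      constructor
      · by_contra hne
        have hbad : ∃ X, f X = f W ∧ T X ≠ T (f W) := ⟨W, rfl, fun h => hne (h.trans hW.1)⟩
        have h1 := hm _ hbad
        exact absurd (hρX.trans_le (hW.2.trans h1)) (lt_irrefl _)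
      · exact hW.2.trans (hle W)
    let Q' : IPow M β := sep M fun Z => Z ∈ Q ∧ f Z ∈ Q
    have hQ' : ∀ Z, Z ∈ Q' ↔ Z ∈ Q ∧ f Z ∈ Q := fun Z => mem_sep (by
        (repeat' first
          | (with_reducible assumption)
          | (with_reducible exact IntF.id) | (with_reducible exact IntF.fst')
          | (with_reducible exact IntF.snd') | (with_reducible exact IntF.const _)
          | (with_reducible exact Int.const _)
          | (with_reducible apply IntF.fst) | (with_reducible apply IntF.snd)
          | (with_reducible apply Int.and) | (with_reducible apply Int.or) | (with_reducible apply Int.not)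
          | (with_reducible apply Int.ne) | (with_reducible apply Int.iff) | (with_reducible apply Int.imp)
          | (with_reducible apply Int.ex) | (with_reducible apply Int.all) | (with_reducible apply Int.eq)
          | (with_reducible apply Int.mem) | (with_reducible apply Int.subset) | (with_reducible apply Int.fin)
          | (with_reducible_and_instances apply Int.leN) | (with_reducible_and_instances apply Int.ltN)
          | (with_reducible apply IntF.pair) | (with_reducible apply IntF.succ) | (with_reducible apply IntF.sep)
          | (with_reducible apply IntF.insert) | (with_reducible apply IntF.singleton)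
          | (with_reducible apply IntF.union) | (with_reducible apply IntF.inter) | (with_reducible apply IntF.sdiff)
          | (with_reducible apply int_dm) | (with_reducible apply int_rn) | (with_reducible apply int_idm)
          | (with_reducible apply int_ivr) | (with_reducible apply int_cmp) | (with_reducible apply int_img)
          | (with_reducible apply int_cl) | (with_reducible apply int_Bk)
          | (with_reducible ((refine IntF.comp₂ ?_ ?_ ?_); assumption))
          | (with_reducible ((refine Int.comp₂ ?_ ?_ ?_); assumption))
          | (with_reducible ((refine IntF.comp ?_ ?_); assumption))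
          | (with_reducible ((refine Int.comp ?_ ?_); assumption))
          | (with_reducible apply IntF.app)))
    have h1 := (hcard Q Q' Q φ hQf (fun Z hZ => ((hQ' Z).1 hZ).1) (fun Z hZ => by
      obtain ⟨W, rfl⟩ := hsurj Z
      exact ⟨W, (hQ' W).2 ⟨hgood W hZ, hZ⟩, (hφ _ _).2 rfl⟩)
      (fun x y y' _ h1 h2 => hfun x y y' h1 h2)).2 rfl
    have hX : X ∈ Q := (hQ X).2 ⟨rfl, le_rfl⟩
    rw [← h1, hQ'] at hX
    have h2 := ((hQ _).1 hX.2).1
    rw [hXY] at h2
    exact hTX h2.symm
  have hTf : ∀ X, T X = T (f X) := by
    intro X
    by_contra hne
    exact nobad (f X) ⟨X, rfl, hne⟩
  intro X X' hXX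
  by_contra hne
  have hs := hfib (T X)
  have h1 := (hcard (sep M fun Z => T Z = T X) ((sep M fun Z => T Z = T X) \ {X})
    (sep M fun Z => T Z = T X) φ hs (fun Z hZ => by
      rw [mem_sdiff] at hZ
      exact hZ.1) (fun Z hZ => by
      rw [hfibm] at hZ
      obtain ⟨W, rfl⟩ := hsurj Z
      by_cases hW : W = X
      · refine ⟨X', ?_, (hφ _ _).2 ?_⟩
        · rw [mem_sdiff, hfibm, mem_singleton]
          refine ⟨?_, fun h => hne h.symm⟩
          rw [hTf X', ← hXX, ← hTf X]
        · rw [← hXX, hW]
      · refine ⟨W, ?_, (hφ _ _).2 rfl⟩
        rw [mem_sdiff, hfibm, mem_singleton]
        exact ⟨(hTf W).trans hZ, hW⟩)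
      (fun x y y' _ h1 h2 => hfun x y y' h1 h2)).2 rfl
  have hX : X ∈ (sep M fun Z => T Z = T X) := (hfibm _ _).2 rfl
  rw [← h1, mem_sdiff, mem_singleton] at hX
  exact hX.2 rfl

end Pool.Agent.R602.AM
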