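import Pool.Agent.R602.AM.Stm

/-!
# Amorphous sets in a model of set theory: piece GAM
-/

set_option autoImplicit false
set_option linter.all false

namespace Pool.Agent.R602.AM

open FirstOrder FirstOrder.Language Pool.Agent.Helper672.ZFA

universe u

variable {M : Type u} [L.Structure M] [hM : IsModel M] {α β γ ν : Type u}
  [ITy M α] [ITy M β] [ITy M γ] [ITy M ν]

namespace Gam

/-- initial segments are finite -/
theorem fin_lt (n : INat M) : IFin (sep M fun i : INat M => i < n) := by
  refine INat.ind (p := fun n : INat M => IFin (sep M fun i : INat M => i < n)) ?_ ?_ ?_ n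
  · exact (by
      (repeat' first
        | (with_reducible assumption)
        | (with_reducible exact IntF.id) | (with_reducible exact IntF.fst')
        | (with_reducible exact IntF.snd') | (with_reducible exact IntF.const _)
        | (with_reducible exact Int.const _)
        | (with_reducible apply IntF.fst) | (with_reducible apply IntF.snd)
        | (with_reducible apply Int.and) | (with_reducible apply Int.or) | (with_reducible apply Int.not)
        | (with_reducible apply Int.ne) | (with_reducible apply Int.iff) | (with_reducible apply Int.imp)
        | (with_reducible apply Int.ex) | (with_reducible apply Int.all) | (with_reducible apply Int.eq)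
        | (with_reducible apply Int.mem) | (with_reducible apply Int.subset) | (with_reducible apply Int.fin)
        | (with_reducible_and_instances apply Int.leN) | (with_reducible_and_instances apply Int.ltN)
        | (with_reducible apply IntF.pair) | (with_reducible apply IntF.succ) | (with_reducible apply IntF.sep)
        | (with_reducible apply IntF.insert) | (with_reducible apply IntF.singleton)
        | (with_reducible apply IntF.union) | (with_reducible apply IntF.inter) | (with_reducible apply IntF.sdiff)
        | (with_reducible apply int_dm) | (with_reducible apply int_rn) | (with_reducible apply int_idm)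
        | (with_reducible apply int_ivr) | (with_reducible apply int_cmp) | (with_reducible apply int_img)
        | (with_reducible apply int_cl) | (with_reducible apply int_Bk)
        | (with_reducible ((refine IntF.comp₂ ?_ ?_ ?_); assumption))
        | (with_reducible ((refine Int.comp₂ ?_ ?_ ?_); assumption))
        | (with_reducible ((refine IntF.comp ?_ ?_); assumption))
        | (with_reducible ((refine Int.comp ?_ ?_); assumption))
        | (with_reducible apply IntF.app)))
  · refine IFin.empty.subset fun x hx => ?_
    rw [mem_sep (by
        (repeat' first
          | (with_reducible assumption)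
          | (with_reducible exact IntF.id) | (with_reducible exact IntF.fst')
          | (with_reducible exact IntF.snd') | (with_reducible exact IntF.const _)
          | (with_reducible exact Int.const _)
          | (with_reducible apply IntF.fst) | (with_reducible apply IntF.snd)
          | (with_reducible apply Int.and) | (with_reducible apply Int.or) | (with_reducible apply Int.not)
          | (with_reducible apply Int.ne) | (with_reducible apply Int.iff) | (with_reducible apply Int.imp)
          | (with_reducible apply Int.ex) | (with_reducible apply Int.all) | (with_reducible apply Int.eq)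
          | (with_reducible apply Int.mem) | (with_reducible apply Int.subset) | (with_reducible apply Int.fin)
          | (with_reducible_and_instances apply Int.leN) | (with_reducible_and_instances apply Int.ltN)
          | (with_reducible apply IntF.pair) | (with_reducible apply IntF.succ) | (with_reducible apply IntF.sep)
          | (with_reducible apply IntF.insert) | (with_reducible apply IntF.singleton)
          | (with_reducible apply IntF.union) | (with_reducible apply IntF.inter) | (with_reducible apply IntF.sdiff)
          | (with_reducible apply int_dm) | (with_reducible apply int_rn) | (with_reducible apply int_idm)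
          | (with_reducible apply int_ivr) | (with_reducible apply int_cmp) | (with_reducible apply int_img)
          | (with_reducible apply int_cl) | (with_reducible apply int_Bk)
          | (with_reducible ((refine IntF.comp₂ ?_ ?_ ?_); assumption))
          | (with_reducible ((refine Int.comp₂ ?_ ?_ ?_); assumption))
          | (with_reducible ((refine IntF.comp ?_ ?_); assumption))
          | (with_reducible ((refine Int.comp ?_ ?_); assumption))
          | (with_reducible apply IntF.app)))] at hx
    exact absurd hx INat.not_lt_zero
  · intro n ih
    refine (ih.insert n).subset fun x hx => ?_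
    rw [mem_sep (by
        (repeat' first
          | (with_reducible assumption)
          | (with_reducible exact IntF.id) | (with_reducible exact IntF.fst')
          | (with_reducible exact IntF.snd') | (with_reducible exact IntF.const _)
          | (with_reducible exact Int.const _)
          | (with_reducible apply IntF.fst) | (with_reducible apply IntF.snd)
          | (with_reducible apply Int.and) | (with_reducible apply Int.or) | (with_reducible apply Int.not)
          | (with_reducible apply Int.ne) | (with_reducible apply Int.iff) | (with_reducible apply Int.imp)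
          | (with_reducible apply Int.ex) | (with_reducible apply Int.all) | (with_reducible apply Int.eq)
          | (with_reducible apply Int.mem) | (with_reducible apply Int.subset) | (with_reducible apply Int.fin)
          | (with_reducible_and_instances apply Int.leN) | (with_reducible_and_instances apply Int.ltN)
          | (with_reducible apply IntF.pair) | (with_reducible apply IntF.succ) | (with_reducible apply IntF.sep)
          | (with_reducible apply IntF.insert) | (with_reducible apply IntF.singleton)
          | (with_reducible apply IntF.union) | (with_reducible apply IntF.inter) | (with_reducible apply IntF.sdiff)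
          | (with_reducible apply int_dm) | (with_reducible apply int_rn) | (with_reducible apply int_idm)
          | (with_reducible apply int_ivr) | (with_reducible apply int_cmp) | (with_reducible apply int_img)
          | (with_reducible apply int_cl) | (with_reducible apply int_Bk)
          | (with_reducible ((refine IntF.comp₂ ?_ ?_ ?_); assumption))
          | (with_reducible ((refine Int.comp₂ ?_ ?_ ?_); assumption))
          | (with_reducible ((refine IntF.comp ?_ ?_); assumption))
          | (with_reducible ((refine Int.comp ?_ ?_); assumption))
          | (with_reducible apply IntF.app)))] at hx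
    rw [mem_insert, mem_sep (by
        (repeat' first
          | (with_reducible assumption)
          | (with_reducible exact IntF.id) | (with_reducible exact IntF.fst')
          | (with_reducible exact IntF.snd') | (with_reducible exact IntF.const _)
          | (with_reducible exact Int.const _)
          | (with_reducible apply IntF.fst) | (with_reducible apply IntF.snd)
          | (with_reducible apply Int.and) | (with_reducible apply Int.or) | (with_reducible apply Int.not)
          | (with_reducible apply Int.ne) | (with_reducible apply Int.iff) | (with_reducible apply Int.imp)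
          | (with_reducible apply Int.ex) | (with_reducible apply Int.all) | (with_reducible apply Int.eq)
          | (with_reducible apply Int.mem) | (with_reducible apply Int.subset) | (with_reducible apply Int.fin)
          | (with_reducible_and_instances apply Int.leN) | (with_reducible_and_instances apply Int.ltN)
          | (with_reducible apply IntF.pair) | (with_reducible apply IntF.succ) | (with_reducible apply IntF.sep)
          | (with_reducible apply IntF.insert) | (with_reducible apply IntF.singleton)
          | (with_reducible apply IntF.union) | (with_reducible apply IntF.inter) | (with_reducible apply IntF.sdiff)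
          | (with_reducible apply int_dm) | (with_reducible apply int_rn) | (with_reducible apply int_idm)
          | (with_reducible apply int_ivr) | (with_reducible apply int_cmp) | (with_reducible apply int_img)
          | (with_reducible apply int_cl) | (with_reducible apply int_Bk)
          | (with_reducible ((refine IntF.comp₂ ?_ ?_ ?_); assumption))
          | (with_reducible ((refine Int.comp₂ ?_ ?_ ?_); assumption))
          | (with_reducible ((refine IntF.comp ?_ ?_); assumption))
          | (with_reducible ((refine Int.comp ?_ ?_); assumption))
          | (with_reducible apply IntF.app)))]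
    rcases INat.lt_succ_iff'.1 hx with h | h
    · exact Or.inr h
    · exact Or.inl h

/-- finite sets can be enumerated -/
theorem enum (a0 : β) (s : IPow M β) (hs : IFin s) : ∃ (m : INat M) (t : IFun M (INat M) β),
    ∀ x, x ∈ s ↔ ∃ i, i < m ∧ x = t i := by
  refine IFin.ind (p := fun s : IPow M β => ∃ (m : INat M) (t : IFun M (INat M) β),
    ∀ x, x ∈ s ↔ ∃ i, i < m ∧ x = t i) ?_ ?_ ?_ s hs
  · exact (by
      (repeat' first
        | (with_reducible assumption)
        | (with_reducible exact IntF.id) | (with_reducible exact IntF.fst')
        | (with_reducible exact IntF.snd') | (with_reducible exact IntF.const _)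
        | (with_reducible exact Int.const _)
        | (with_reducible apply IntF.fst) | (with_reducible apply IntF.snd)
        | (with_reducible apply Int.and) | (with_reducible apply Int.or) | (with_reducible apply Int.not)
        | (with_reducible apply Int.ne) | (with_reducible apply Int.iff) | (with_reducible apply Int.imp)
        | (with_reducible apply Int.ex) | (with_reducible apply Int.all) | (with_reducible apply Int.eq)
        | (with_reducible apply Int.mem) | (with_reducible apply Int.subset) | (with_reducible apply Int.fin)
        | (with_reducible_and_instances apply Int.leN) | (with_reducible_and_instances apply Int.ltN)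
        | (with_reducible apply IntF.pair) | (with_reducible apply IntF.succ) | (with_reducible apply IntF.sep)
        | (with_reducible apply IntF.insert) | (with_reducible apply IntF.singleton)
        | (with_reducible apply IntF.union) | (with_reducible apply IntF.inter) | (with_reducible apply IntF.sdiff)
        | (with_reducible apply int_dm) | (with_reducible apply int_rn) | (with_reducible apply int_idm)
        | (with_reducible apply int_ivr) | (with_reducible apply int_cmp) | (with_reducible apply int_img)
        | (with_reducible apply int_cl) | (with_reducible apply int_Bk)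
        | (with_reducible ((refine IntF.comp₂ ?_ ?_ ?_); assumption))
        | (with_reducible ((refine Int.comp₂ ?_ ?_ ?_); assumption))
        | (with_reducible ((refine IntF.comp ?_ ?_); assumption))
        | (with_reducible ((refine Int.comp ?_ ?_); assumption))
        | (with_reducible apply IntF.app)))
  · refine ⟨0, ⟨fun _ => a0, IntF.const _⟩, fun x => ⟨fun h => absurd h (by simp), ?_⟩⟩
    rintro ⟨i, hi, -⟩
    exact absurd hi INat.not_lt_zero
  · rintro s a - - ⟨m, t, ht⟩
    refine ⟨m.succ, up t m a, fun x => ?_⟩
    rw [mem_insert, ht]
    constructor
    · rintro (h | ⟨i, hi, h⟩)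
      · exact ⟨m, INat.lt_succ_self m, by rw [up_same, h]⟩
      · refine ⟨i, INat.lt_succ_iff'.2 (Or.inl hi), ?_⟩
        rw [up_ne _ _ (ne_of_lt hi), h]
    · rintro ⟨i, hi, h⟩
      rcases INat.lt_succ_iff'.1 hi with h1 | h1
      · rw [up_ne _ _ (ne_of_lt h1)] at h
        exact Or.inr ⟨i, h1, h⟩
      · rw [h1, up_same] at h
        exact Or.inl h

/-- the graph of `s i ↦ s' i`, `i < n` -/
noncomputable def gr (n : INat M) (s s' : IFun M (INat M) α) : IPow M (α × α) :=
  sep M fun p => ∃ i, i < n ∧ p.1 = s i ∧ p.2 = s' i

theorem mem_gr {n : INat M} {s s' : IFun M (INat M) α} {p : α × α} :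
    p ∈ gr n s s' ↔ ∃ i, i < n ∧ p.1 = s i ∧ p.2 = s' i := mem_sep (by
        (repeat' first
          | (with_reducible assumption)
          | (with_reducible exact IntF.id) | (with_reducible exact IntF.fst')
          | (with_reducible exact IntF.snd') | (with_reducible exact IntF.const _)
          | (with_reducible exact Int.const _)
          | (with_reducible apply IntF.fst) | (with_reducible apply IntF.snd)
          | (with_reducible apply Int.and) | (with_reducible apply Int.or) | (with_reducible apply Int.not)
          | (with_reducible apply Int.ne) | (with_reducible apply Int.iff) | (with_reducible apply Int.imp)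
          | (with_reducible apply Int.ex) | (with_reducible apply Int.all) | (with_reducible apply Int.eq)
          | (with_reducible apply Int.mem) | (with_reducible apply Int.subset) | (with_reducible apply Int.fin)
          | (with_reducible_and_instances apply Int.leN) | (with_reducible_and_instances apply Int.ltN)
          | (with_reducible apply IntF.pair) | (with_reducible apply IntF.succ) | (with_reducible apply IntF.sep)
          | (with_reducible apply IntF.insert) | (with_reducible apply IntF.singleton)
          | (with_reducible apply IntF.union) | (with_reducible apply IntF.inter) | (with_reducible apply IntF.sdiff)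
          | (with_reducible apply int_dm) | (with_reducible apply int_rn) | (with_reducible apply int_idm)
          | (with_reducible apply int_ivr) | (with_reducible apply int_cmp) | (with_reducible apply int_img)
          | (with_reducible apply int_cl) | (with_reducible apply int_Bk)
          | (with_reducible ((refine IntF.comp₂ ?_ ?_ ?_); assumption))
          | (with_reducible ((refine Int.comp₂ ?_ ?_ ?_); assumption))
          | (with_reducible ((refine IntF.comp ?_ ?_); assumption))
          | (with_reducible ((refine Int.comp ?_ ?_); assumption))
          | (with_reducible apply IntF.app)))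

theorem int_gr {n : γ → INat M} {s s' : γ → IFun M (INat M) α} (hn : IntF M n) (hs : IntF M s)
    (hs' : IntF M s') : IntF M (fun c => gr (n c) (s c) (s' c)) := by
  unfold gr
  exact (by
      (repeat' first
        | (with_reducible assumption)
        | (with_reducible exact IntF.id) | (with_reducible exact IntF.fst')
        | (with_reducible exact IntF.snd') | (with_reducible exact IntF.const _)
        | (with_reducible exact Int.const _)
        | (with_reducible apply IntF.fst) | (with_reducible apply IntF.snd)
        | (with_reducible apply Int.and) | (with_reducible apply Int.or) | (with_reducible apply Int.not)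
        | (with_reducible apply Int.ne) | (with_reducible apply Int.iff) | (with_reducible apply Int.imp)
        | (with_reducible apply Int.ex) | (with_reducible apply Int.all) | (with_reducible apply Int.eq)
        | (with_reducible apply Int.mem) | (with_reducible apply Int.subset) | (with_reducible apply Int.fin)
        | (with_reducible_and_instances apply Int.leN) | (with_reducible_and_instances apply Int.ltN)
        | (with_reducible apply IntF.pair) | (with_reducible apply IntF.succ) | (with_reducible apply IntF.sep)
        | (with_reducible apply IntF.insert) | (with_reducible apply IntF.singleton)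
        | (with_reducible apply IntF.union) | (with_reducible apply IntF.inter) | (with_reducible apply IntF.sdiff)
        | (with_reducible apply int_dm) | (with_reducible apply int_rn) | (with_reducible apply int_idm)
        | (with_reducible apply int_ivr) | (with_reducible apply int_cmp) | (with_reducible apply int_img)
        | (with_reducible apply int_cl) | (with_reducible apply int_Bk)
        | (with_reducible ((refine IntF.comp₂ ?_ ?_ ?_); assumption))
        | (with_reducible ((refine Int.comp₂ ?_ ?_ ?_); assumption))
        | (with_reducible ((refine IntF.comp ?_ ?_); assumption))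
        | (with_reducible ((refine Int.comp ?_ ?_); assumption))
        | (with_reducible apply IntF.app)))

/-- the homogeneous system -/
noncomputable def Gm (f : IPow M (ν × α) → IPow M (ν × α)) : IPow M (IPow M (α × α)) :=
  sep M fun σ => ∃ (n : INat M) (s s' : IFun M (INat M) α), (∀ k, R f k n s s') ∧ σ = gr n s s'

theorem mem_Gm {f : IPow M (ν × α) → IPow M (ν × α)} {σ : IPow M (α × α)} : σ ∈ Gm f ↔
    ∃ (n : INat M) (s s' : IFun M (INat M) α), (∀ k, R f k n s s') ∧ σ = gr n s s' :=
  mem_sep (by
      (repeat' first
        | (with_reducible (refine int_R f ?_ ?_ ?_ ?_))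
        | (with_reducible (refine int_gr ?_ ?_ ?_))
        | (with_reducible assumption)
        | (with_reducible exact IntF.id) | (with_reducible exact IntF.fst')
        | (with_reducible exact IntF.snd') | (with_reducible exact IntF.const _)
        | (with_reducible exact Int.const _)
        | (with_reducible apply IntF.fst) | (with_reducible apply IntF.snd)
        | (with_reducible apply Int.and) | (with_reducible apply Int.or) | (with_reducible apply Int.not)
        | (with_reducible apply Int.ne) | (with_reducible apply Int.iff) | (with_reducible apply Int.imp)
        | (with_reducible apply Int.ex) | (with_reducible apply Int.all) | (with_reducible apply Int.eq)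
        | (with_reducible apply Int.mem) | (with_reducible apply Int.subset) | (with_reducible apply Int.fin)
        | (with_reducible_and_instances apply Int.leN) | (with_reducible_and_instances apply Int.ltN)
        | (with_reducible apply IntF.pair) | (with_reducible apply IntF.succ) | (with_reducible apply IntF.sep)
        | (with_reducible apply IntF.insert) | (with_reducible apply IntF.singleton)
        | (with_reducible apply IntF.union) | (with_reducible apply IntF.inter) | (with_reducible apply IntF.sdiff)
        | (with_reducible apply int_dm) | (with_reducible apply int_rn) | (with_reducible apply int_idm)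
        | (with_reducible apply int_ivr) | (with_reducible apply int_cmp) | (with_reducible apply int_img)
        | (with_reducible apply int_cl) | (with_reducible apply int_Bk)
        | (with_reducible ((refine IntF.comp₂ ?_ ?_ ?_); assumption))
        | (with_reducible ((refine Int.comp₂ ?_ ?_ ?_); assumption))
        | (with_reducible ((refine IntF.comp ?_ ?_); assumption))
        | (with_reducible ((refine Int.comp ?_ ?_); assumption))
        | (with_reducible apply IntF.app)))

theorem gr_up (n : INat M) (s s' : IFun M (INat M) α) (a b : α) :
    gr n.succ (up s n a) (up s' n b) = insert (a, b) (gr n s s') := by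
  refine IPow.ext' fun p => ?_
  rw [mem_insert, mem_gr, mem_gr]
  constructor
  · rintro ⟨i, hi, h1, h2⟩
    rcases INat.lt_succ_iff'.1 hi with h | h
    · rw [up_ne _ _ (ne_of_lt h)] at h1 h2
      exact Or.inr ⟨i, h, h1, h2⟩
    · rw [h, up_same] at h1 h2
      exact Or.inl (Prod.ext h1 h2)
  · rintro (h | ⟨i, hi, h1, h2⟩)
    · refine ⟨n, INat.lt_succ_self n, ?_, ?_⟩
      · rw [up_same, h]
      · rw [up_same, h]
    · refine ⟨i, INat.lt_succ_iff'.2 (Or.inl hi), ?_, ?_⟩
      · rw [up_ne _ _ (ne_of_lt hi), h1]
      · rw [up_ne _ _ (ne_of_lt hi), h2]

theorem gr_mem {f : IPow M (ν × α) → IPow M (ν × α)} (hR : RP M f) {n : INat M}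
    {s s' : IFun M (INat M) α} : gr n s s' ∈ Gm f ↔ ∀ k, R f k n s s' := by
  constructor
  · intro h k
    obtain ⟨m, t, t', ht, he⟩ := mem_Gm.1 h
    refine hR.re k m n t t' s s' (ht k) fun i hi => ?_
    have h1 : (s i, s' i) ∈ gr n s s' := mem_gr.2 ⟨i, hi, rfl, rfl⟩
    rw [he] at h1
    exact mem_gr.1 h1
  · intro h
    exact mem_Gm.2 ⟨n, s, s', h, rfl⟩

theorem cl_gr {f : IPow M (ν × α) → IPow M (ν × α)} (hR : RP M f)
    (hrefl : ∀ k n s, R f k n s s) {N : INat M × IFun M (INat M) α → IPow M α}
    (hNf : ∀ q, IFin (N q))
    (hN : ∀ n s a, a ∉ N (n, s) ↔ ∀ k, ∃ U : IPow M α, IFin U ∧ ∀ b, b ∉ U →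
      R f k n.succ (up s n a) (up s n b))
    (hN2 : ∀ n s s', (∀ k, R f k n s s') →
      ∀ a b, a ∉ N (n, s) → b ∉ N (n, s') → ∀ k, R f k n.succ (up s n a) (up s' n b))
    {n : INat M} {s : IFun M (INat M) α} {S : IPow M α}
    (hS : ∀ x, x ∈ S ↔ ∃ i, i < n ∧ x = s i) : cl (Gm f) S = N (n, s) := by
  have hid : idm S = gr n s s := by
    refine IPow.ext' fun p => ?_
    rw [mem_idm, mem_gr, hS]
    constructor
    · rintro ⟨⟨i, hi, h⟩, h2⟩
      exact ⟨i, hi, h, by rw [← h2, h]⟩
    · rintro ⟨i, hi, h1, h2⟩
      exact ⟨⟨i, hi, h1⟩, by rw [h1, h2]⟩
  refine IPow.ext' fun a => ?_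
  rw [mem_cl, hid]
  rw [not_iff_comm, hN]
  constructor
  · intro h
    refine ⟨N (n, s), hNf _, fun b hb => ?_⟩
    rw [← gr_up, gr_mem hR]
    exact hN2 n s s (fun k => hrefl k n s) a b ((hN n s a).2 h) hb
  · rintro ⟨U, hU, h⟩ k
    refine ⟨U, hU, fun b hb => ?_⟩
    have h1 := h b hb
    rw [← gr_up, gr_mem hR] at h1
    exact h1 k


theorem gm_fin {f : IPow M (ν × α) → IPow M (ν × α)} (σ : IPow M (α × α)) (hσ : σ ∈ Gm f) :
    IFin σ := by
  obtain ⟨n, s, s', -, rfl⟩ := mem_Gm.1 hσ
  have hint : IntF M (fun i : INat M => (s i, s' i)) := IntF.pair s.int s'.int
  refine ((fin_lt n).image hint).subset fun p hp => ?_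
  obtain ⟨i, hi, h1, h2⟩ := mem_gr.1 hp
  rw [mem_iimage hint]
  exact ⟨i, (mem_sep (by
      (repeat' first
        | (with_reducible assumption)
        | (with_reducible exact IntF.id) | (with_reducible exact IntF.fst')
        | (with_reducible exact IntF.snd') | (with_reducible exact IntF.const _)
        | (with_reducible exact Int.const _)
        | (with_reducible apply IntF.fst) | (with_reducible apply IntF.snd)
        | (with_reducible apply Int.and) | (with_reducible apply Int.or) | (with_reducible apply Int.not)
        | (with_reducible apply Int.ne) | (with_reducible apply Int.iff) | (with_reducible apply Int.imp)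
        | (with_reducible apply Int.ex) | (with_reducible apply Int.all) | (with_reducible apply Int.eq)
        | (with_reducible apply Int.mem) | (with_reducible apply Int.subset) | (with_reducible apply Int.fin)
        | (with_reducible_and_instances apply Int.leN) | (with_reducible_and_instances apply Int.ltN)
        | (with_reducible apply IntF.pair) | (with_reducible apply IntF.succ) | (with_reducible apply IntF.sep)
        | (with_reducible apply IntF.insert) | (with_reducible apply IntF.singleton)
        | (with_reducible apply IntF.union) | (with_reducible apply IntF.inter) | (with_reducible apply IntF.sdiff)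
        | (with_reducible apply int_dm) | (with_reducible apply int_rn) | (with_reducible apply int_idm)
        | (with_reducible apply int_ivr) | (with_reducible apply int_cmp) | (with_reducible apply int_img)
        | (with_reducible apply int_cl) | (with_reducible apply int_Bk)
        | (with_reducible ((refine IntF.comp₂ ?_ ?_ ?_); assumption))
        | (with_reducible ((refine Int.comp₂ ?_ ?_ ?_); assumption))
        | (with_reducible ((refine IntF.comp ?_ ?_); assumption))
        | (with_reducible ((refine Int.comp ?_ ?_); assumption))
        | (with_reducible apply IntF.app)))).2 hi, Prod.ext h1.symm h2.symm⟩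

theorem gm_idm {f : IPow M (ν × α) → IPow M (ν × α)} (a0 : α)
    (hrefl : ∀ k n s, R f k n s s) (S : IPow M α) (hS : IFin S) : idm S ∈ Gm f := by
  obtain ⟨m, t, ht⟩ := enum a0 S hS
  refine mem_Gm.2 ⟨m, t, t, fun k => hrefl k m t, IPow.ext' fun p => ?_⟩
  rw [mem_idm, mem_gr, ht]
  constructor
  · rintro ⟨⟨i, hi, h⟩, h2⟩
    exact ⟨i, hi, h, by rw [← h2, h]⟩
  · rintro ⟨i, hi, h1, h2⟩
    exact ⟨⟨i, hi, h1⟩, by rw [h1, h2]⟩

theorem gm_ivr {f : IPow M (ν × α) → IPow M (ν × α)} (hRP : RP M f) (σ : IPow M (α × α))
    (hσ : σ ∈ Gm f) : ivr σ ∈ Gm f := by
  obtain ⟨n, s, s', h, rfl⟩ := mem_Gm.1 hσ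
  refine mem_Gm.2 ⟨n, s', s, fun k => hRP.symm k n s s' (h k), IPow.ext' fun p => ?_⟩
  rw [mem_ivr, mem_gr, mem_gr]
  constructor
  · rintro ⟨i, hi, h1, h2⟩
    exact ⟨i, hi, h2, h1⟩
  · rintro ⟨i, hi, h1, h2⟩
    exact ⟨i, hi, h2, h1⟩

/-- enumeration of the index pairs -/
theorem enum2 (n m : INat M) (s' t : IFun M (INat M) α) :
    ∃ (l : INat M) (u : IFun M (INat M) (INat M × INat M)),
      (∀ x, x < l → ((u x).1 < n ∧ (u x).2 < m) ∧ s' (u x).1 = t (u x).2) ∧
      ∀ i j, i < n → j < m → s' i = t j → ∃ x, x < l ∧ (i, j) = u x := by
  have hI0 : Int M (fun q : INat M × INat M => (q.1 < n ∧ q.2 < m) ∧ s' q.1 = t q.2) := (by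
      (repeat' first
        | (with_reducible assumption)
        | (with_reducible exact IntF.id) | (with_reducible exact IntF.fst')
        | (with_reducible exact IntF.snd') | (with_reducible exact IntF.const _)
        | (with_reducible exact Int.const _)
        | (with_reducible apply IntF.fst) | (with_reducible apply IntF.snd)
        | (with_reducible apply Int.and) | (with_reducible apply Int.or) | (with_reducible apply Int.not)
        | (with_reducible apply Int.ne) | (with_reducible apply Int.iff) | (with_reducible apply Int.imp)
        | (with_reducible apply Int.ex) | (with_reducible apply Int.all) | (with_reducible apply Int.eq)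
        | (with_reducible apply Int.mem) | (with_reducible apply Int.subset) | (with_reducible apply Int.fin)
        | (with_reducible_and_instances apply Int.leN) | (with_reducible_and_instances apply Int.ltN)
        | (with_reducible apply IntF.pair) | (with_reducible apply IntF.succ) | (with_reducible apply IntF.sep)
        | (with_reducible apply IntF.insert) | (with_reducible apply IntF.singleton)
        | (with_reducible apply IntF.union) | (with_reducible apply IntF.inter) | (with_reducible apply IntF.sdiff)
        | (with_reducible apply int_dm) | (with_reducible apply int_rn) | (with_reducible apply int_idm)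
        | (with_reducible apply int_ivr) | (with_reducible apply int_cmp) | (with_reducible apply int_img)
        | (with_reducible apply int_cl) | (with_reducible apply int_Bk)
        | (with_reducible ((refine IntF.comp₂ ?_ ?_ ?_); assumption))
        | (with_reducible ((refine Int.comp₂ ?_ ?_ ?_); assumption))
        | (with_reducible ((refine IntF.comp ?_ ?_); assumption))
        | (with_reducible ((refine Int.comp ?_ ?_); assumption))
        | (with_reducible apply IntF.app)))
  have hfin : IFin (sep M fun q : INat M × INat M => (q.1 < n ∧ q.2 < m) ∧ s' q.1 = t q.2) := by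
    refine ((fin_lt n).prod (fin_lt m)).subset fun q hq => ?_
    rw [mem_sep hI0] at hq
    rw [mem_iprod, mem_sep (by
        (repeat' first
          | (with_reducible assumption)
          | (with_reducible exact IntF.id) | (with_reducible exact IntF.fst')
          | (with_reducible exact IntF.snd') | (with_reducible exact IntF.const _)
          | (with_reducible exact Int.const _)
          | (with_reducible apply IntF.fst) | (with_reducible apply IntF.snd)
          | (with_reducible apply Int.and) | (with_reducible apply Int.or) | (with_reducible apply Int.not)
          | (with_reducible apply Int.ne) | (with_reducible apply Int.iff) | (with_reducible apply Int.imp)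
          | (with_reducible apply Int.ex) | (with_reducible apply Int.all) | (with_reducible apply Int.eq)
          | (with_reducible apply Int.mem) | (with_reducible apply Int.subset) | (with_reducible apply Int.fin)
          | (with_reducible_and_instances apply Int.leN) | (with_reducible_and_instances apply Int.ltN)
          | (with_reducible apply IntF.pair) | (with_reducible apply IntF.succ) | (with_reducible apply IntF.sep)
          | (with_reducible apply IntF.insert) | (with_reducible apply IntF.singleton)
          | (with_reducible apply IntF.union) | (with_reducible apply IntF.inter) | (with_reducible apply IntF.sdiff)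
          | (with_reducible apply int_dm) | (with_reducible apply int_rn) | (with_reducible apply int_idm)
          | (with_reducible apply int_ivr) | (with_reducible apply int_cmp) | (with_reducible apply int_img)
          | (with_reducible apply int_cl) | (with_reducible apply int_Bk)
          | (with_reducible ((refine IntF.comp₂ ?_ ?_ ?_); assumption))
          | (with_reducible ((refine Int.comp₂ ?_ ?_ ?_); assumption))
          | (with_reducible ((refine IntF.comp ?_ ?_); assumption))
          | (with_reducible ((refine Int.comp ?_ ?_); assumption))
          | (with_reducible apply IntF.app))), mem_sep (by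
        (repeat' first
          | (with_reducible assumption)
          | (with_reducible exact IntF.id) | (with_reducible exact IntF.fst')
          | (with_reducible exact IntF.snd') | (with_reducible exact IntF.const _)
          | (with_reducible exact Int.const _)
          | (with_reducible apply IntF.fst) | (with_reducible apply IntF.snd)
          | (with_reducible apply Int.and) | (with_reducible apply Int.or) | (with_reducible apply Int.not)
          | (with_reducible apply Int.ne) | (with_reducible apply Int.iff) | (with_reducible apply Int.imp)
          | (with_reducible apply Int.ex) | (with_reducible apply Int.all) | (with_reducible apply Int.eq)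
          | (with_reducible apply Int.mem) | (with_reducible apply Int.subset) | (with_reducible apply Int.fin)
          | (with_reducible_and_instances apply Int.leN) | (with_reducible_and_instances apply Int.ltN)
          | (with_reducible apply IntF.pair) | (with_reducible apply IntF.succ) | (with_reducible apply IntF.sep)
          | (with_reducible apply IntF.insert) | (with_reducible apply IntF.singleton)
          | (with_reducible apply IntF.union) | (with_reducible apply IntF.inter) | (with_reducible apply IntF.sdiff)
          | (with_reducible apply int_dm) | (with_reducible apply int_rn) | (with_reducible apply int_idm)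
          | (with_reducible apply int_ivr) | (with_reducible apply int_cmp) | (with_reducible apply int_img)
          | (with_reducible apply int_cl) | (with_reducible apply int_Bk)
          | (with_reducible ((refine IntF.comp₂ ?_ ?_ ?_); assumption))
          | (with_reducible ((refine Int.comp₂ ?_ ?_ ?_); assumption))
          | (with_reducible ((refine IntF.comp ?_ ?_); assumption))
          | (with_reducible ((refine Int.comp ?_ ?_); assumption))
          | (with_reducible apply IntF.app)))]
    exact hq.1
  obtain ⟨l, u, hu⟩ := enum ((0 : INat M), (0 : INat M)) _ hfin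
  refine ⟨l, u, fun x hx => ?_, fun i j hi hj h => ?_⟩
  · exact (mem_sep hI0).1 ((hu (u x)).2 ⟨x, hx, rfl⟩)
  · exact (hu (i, j)).1 ((mem_sep hI0).2 ⟨⟨hi, hj⟩, h⟩)

/-- enumeration of the indices -/
theorem enum1 (n : INat M) (s s' : IFun M (INat M) α) (τ : IPow M (α × α)) :
    ∃ (l : INat M) (u : IFun M (INat M) (INat M)),
      (∀ x, x < l → u x < n ∧ (s (u x), s' (u x)) ∈ τ) ∧
      ∀ i, i < n → (s i, s' i) ∈ τ → ∃ x, x < l ∧ i = u x := by
  have hI0 : Int M (fun i : INat M => i < n ∧ (s i, s' i) ∈ τ) := (by
      (repeat' first
        | (with_reducible assumption)
        | (with_reducible exact IntF.id) | (with_reducible exact IntF.fst')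
        | (with_reducible exact IntF.snd') | (with_reducible exact IntF.const _)
        | (with_reducible exact Int.const _)
        | (with_reducible apply IntF.fst) | (with_reducible apply IntF.snd)
        | (with_reducible apply Int.and) | (with_reducible apply Int.or) | (with_reducible apply Int.not)
        | (with_reducible apply Int.ne) | (with_reducible apply Int.iff) | (with_reducible apply Int.imp)
        | (with_reducible apply Int.ex) | (with_reducible apply Int.all) | (with_reducible apply Int.eq)
        | (with_reducible apply Int.mem) | (with_reducible apply Int.subset) | (with_reducible apply Int.fin)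
        | (with_reducible_and_instances apply Int.leN) | (with_reducible_and_instances apply Int.ltN)
        | (with_reducible apply IntF.pair) | (with_reducible apply IntF.succ) | (with_reducible apply IntF.sep)
        | (with_reducible apply IntF.insert) | (with_reducible apply IntF.singleton)
        | (with_reducible apply IntF.union) | (with_reducible apply IntF.inter) | (with_reducible apply IntF.sdiff)
        | (with_reducible apply int_dm) | (with_reducible apply int_rn) | (with_reducible apply int_idm)
        | (with_reducible apply int_ivr) | (with_reducible apply int_cmp) | (with_reducible apply int_img)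
        | (with_reducible apply int_cl) | (with_reducible apply int_Bk)
        | (with_reducible ((refine IntF.comp₂ ?_ ?_ ?_); assumption))
        | (with_reducible ((refine Int.comp₂ ?_ ?_ ?_); assumption))
        | (with_reducible ((refine IntF.comp ?_ ?_); assumption))
        | (with_reducible ((refine Int.comp ?_ ?_); assumption))
        | (with_reducible apply IntF.app)))
  have hfin : IFin (sep M fun i : INat M => i < n ∧ (s i, s' i) ∈ τ) := by
    refine (fin_lt n).subset fun q hq => ?_
    rw [mem_sep hI0] at hq
    rw [mem_sep (by
        (repeat' first
          | (with_reducible assumption)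
          | (with_reducible exact IntF.id) | (with_reducible exact IntF.fst')
          | (with_reducible exact IntF.snd') | (with_reducible exact IntF.const _)
          | (with_reducible exact Int.const _)
          | (with_reducible apply IntF.fst) | (with_reducible apply IntF.snd)
          | (with_reducible apply Int.and) | (with_reducible apply Int.or) | (with_reducible apply Int.not)
          | (with_reducible apply Int.ne) | (with_reducible apply Int.iff) | (with_reducible apply Int.imp)
          | (with_reducible apply Int.ex) | (with_reducible apply Int.all) | (with_reducible apply Int.eq)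
          | (with_reducible apply Int.mem) | (with_reducible apply Int.subset) | (with_reducible apply Int.fin)
          | (with_reducible_and_instances apply Int.leN) | (with_reducible_and_instances apply Int.ltN)
          | (with_reducible apply IntF.pair) | (with_reducible apply IntF.succ) | (with_reducible apply IntF.sep)
          | (with_reducible apply IntF.insert) | (with_reducible apply IntF.singleton)
          | (with_reducible apply IntF.union) | (with_reducible apply IntF.inter) | (with_reducible apply IntF.sdiff)
          | (with_reducible apply int_dm) | (with_reducible apply int_rn) | (with_reducible apply int_idm)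
          | (with_reducible apply int_ivr) | (with_reducible apply int_cmp) | (with_reducible apply int_img)
          | (with_reducible apply int_cl) | (with_reducible apply int_Bk)
          | (with_reducible ((refine IntF.comp₂ ?_ ?_ ?_); assumption))
          | (with_reducible ((refine Int.comp₂ ?_ ?_ ?_); assumption))
          | (with_reducible ((refine IntF.comp ?_ ?_); assumption))
          | (with_reducible ((refine Int.comp ?_ ?_); assumption))
          | (with_reducible apply IntF.app)))]
    exact hq.1
  obtain ⟨l, u, hu⟩ := enum (0 : INat M) _ hfin
  refine ⟨l, u, fun x hx => ?_, fun i hi h => ?_⟩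
  · exact (mem_sep hI0).1 ((hu (u x)).2 ⟨x, hx, rfl⟩)
  · exact (hu i).1 ((mem_sep hI0).2 ⟨hi, h⟩)

/-- reindexing -/
noncomputable def ri (s : IFun M (INat M) α) (u : IFun M (INat M) (INat M)) :
    IFun M (INat M) α := ⟨fun x => s (u x), IntF.comp s.int u.int⟩

noncomputable def p1 (u : IFun M (INat M) (INat M × INat M)) : IFun M (INat M) (INat M) :=
  ⟨fun x => (u x).1, IntF.fst u.int⟩

noncomputable def p2 (u : IFun M (INat M) (INat M × INat M)) : IFun M (INat M) (INat M) :=
  ⟨fun x => (u x).2, IntF.snd u.int⟩

theorem ri_app (s : IFun M (INat M) α) (u : IFun M (INat M) (INat M)) (x : INat M) :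
    ri s u x = s (u x) := rfl

theorem p1_app (u : IFun M (INat M) (INat M × INat M)) (x : INat M) : p1 u x = (u x).1 := rfl

theorem p2_app (u : IFun M (INat M) (INat M × INat M)) (x : INat M) : p2 u x = (u x).2 := rfl

theorem gm_cmp {f : IPow M (ν × α) → IPow M (ν × α)} (hRP : RP M f) (σ ρ : IPow M (α × α))
    (hσ : σ ∈ Gm f) (hρ : ρ ∈ Gm f) : cmp σ ρ ∈ Gm f := by
  obtain ⟨n, s, s', hs, rfl⟩ := mem_Gm.1 hσ
  obtain ⟨m, t, t', ht, rfl⟩ := mem_Gm.1 hρ
  obtain ⟨l, u, hu1, hu2⟩ := enum2 n m s' t
  refine mem_Gm.2 ⟨l, ri s (p1 u), ri t' (p2 u), fun k => ?_, IPow.ext' fun p => ?_⟩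
  · refine hRP.trans k l _ (ri s' (p1 u)) _ ?_ ?_
    · exact hRP.re k n l s s' _ _ (hs k) fun i hi => ⟨(u i).1, (hu1 i hi).1.1, rfl, rfl⟩
    · exact hRP.re k m l t t' _ _ (ht k) fun i hi => ⟨(u i).2, (hu1 i hi).1.2, (hu1 i hi).2, rfl⟩
  · rw [mem_cmp, mem_gr]
    constructor
    · rintro ⟨b, h1, h2⟩
      obtain ⟨i, hi, h3, h4⟩ := mem_gr.1 h1
      obtain ⟨j, hj, h5, h6⟩ := mem_gr.1 h2
      replace h3 : p.1 = s i := h3
      replace h4 : b = s' i := h4
      replace h5 : b = t j := h5
      replace h6 : p.2 = t' j := h6
      obtain ⟨x, hx, h7⟩ := hu2 i j hi hj (h4.symm.trans h5)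
      refine ⟨x, hx, ?_, ?_⟩
      · rw [ri_app, p1_app, ← h7, h3]
      · rw [ri_app, p2_app, ← h7, h6]
    · rintro ⟨x, hx, h1, h2⟩
      have h3 := hu1 x hx
      exact ⟨s' (u x).1, mem_gr.2 ⟨_, h3.1.1, h1, rfl⟩, mem_gr.2 ⟨_, h3.1.2, h3.2, h2⟩⟩

theorem gm_sub {f : IPow M (ν × α) → IPow M (ν × α)} (hRP : RP M f) (σ τ : IPow M (α × α))
    (hσ : σ ∈ Gm f) (hτ : τ ⊆ σ) : τ ∈ Gm f := by
  obtain ⟨n, s, s', hs, rfl⟩ := mem_Gm.1 hσ
  obtain ⟨l, u, hu1, hu2⟩ := enum1 n s s' τ
  refine mem_Gm.2 ⟨l, ri s u, ri s' u, fun k => ?_, IPow.ext' fun p => ?_⟩
  · exact hRP.re k n l s s' _ _ (hs k) fun i hi => ⟨u i, (hu1 i hi).1, rfl, rfl⟩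
  · rw [mem_gr]
    constructor
    · intro hp
      obtain ⟨i, hi, h1, h2⟩ := mem_gr.1 (hτ p hp)
      have h3 : p = (s i, s' i) := Prod.ext h1 h2
      obtain ⟨x, hx, h4⟩ := hu2 i hi (h3 ▸ hp)
      refine ⟨x, hx, ?_, ?_⟩
      · rw [ri_app, ← h4, h1]
      · rw [ri_app, ← h4, h2]
    · rintro ⟨x, hx, h1, h2⟩
      have h3 : p = (s (u x), s' (u x)) := Prod.ext h1 h2
      rw [h3]
      exact (hu1 x hx).2

theorem dm_gr (n : INat M) (s s' : IFun M (INat M) α) (x : α) : x ∈ dm (gr n s s') ↔
    ∃ i, i < n ∧ x = s i := by
  rw [mem_dm]
  constructor
  · rintro ⟨b, hb⟩
    obtain ⟨i, hi, h1, -⟩ := mem_gr.1 hb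
    exact ⟨i, hi, h1⟩
  · rintro ⟨i, hi, h⟩
    exact ⟨s' i, mem_gr.2 ⟨i, hi, h, rfl⟩⟩

theorem rn_gr (n : INat M) (s s' : IFun M (INat M) α) (x : α) : x ∈ rn (gr n s s') ↔
    ∃ i, i < n ∧ x = s' i := by
  rw [mem_rn]
  constructor
  · rintro ⟨b, hb⟩
    obtain ⟨i, hi, -, h1⟩ := mem_gr.1 hb
    exact ⟨i, hi, h1⟩
  · rintro ⟨i, hi, h⟩
    exact ⟨s i, mem_gr.2 ⟨i, hi, rfl, h⟩⟩

theorem gm_cpt {f : IPow M (ν × α) → IPow M (ν × α)} (hf : IntF M f) : Cpt (Gm f) f := by
  intro σ hσ X X' Y Y' h1 h2
  obtain ⟨n, s, s', hs, rfl⟩ := mem_Gm.1 hσ
  have key : ∀ X X' : IPow M (ν × α), Act (gr n s s') X X' → ActT n s s' X X' := by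
    intro X X' h v
    refine ⟨fun i hi => h v (s i) (s' i) (Or.inl (mem_gr.2 ⟨i, hi, rfl, rfl⟩)), ?_⟩
    intro a b ha hb
    refine h v a b (Or.inr ⟨fun h3 => ?_, fun h3 => ?_⟩)
    · obtain ⟨i, hi, h4⟩ := (dm_gr n s s' a).1 h3
      exact ha i hi h4
    · obtain ⟨i, hi, h4⟩ := (rn_gr n s s' b).1 h3
      exact hb i hi h4
  exact ((R_zero hf).1 (hs 0)).2 X X' Y Y' (key X X' h1) (key Y Y' h2)

end Gam

open Gam in
theorem gam_main (hR : S_RP M) (hI : S_IDX M) (hF : S_INF M) : S_GAM M := by
  intro α ν _ _ f hA hν hf
  have hRP := hR α ν f hf
  have hI' := hI α ν f hA hν hf
  have hrefl : ∀ k n s, R f k n s s := fun k => (hI' k).1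
  obtain ⟨N, hNint, hNf, hN, hN2⟩ := hF α ν f hA hν hf
  have hne : Nonempty α := by
    by_contra h
    refine hA.1 (IFin.empty.subset fun x _ => ?_)
    exact absurd ⟨x⟩ h
  obtain ⟨a0⟩ := hne
  refine ⟨Gm f, ⟨gm_fin, ?_, gm_idm a0 hrefl, gm_ivr hRP, gm_cmp hRP, gm_sub hRP, ?_, ?_, ?_⟩,
    gm_cpt hf⟩
  · -- inj
    intro σ hσ a b c d h1 h2
    obtain ⟨n, s, s', h, rfl⟩ := mem_Gm.1 hσ
    obtain ⟨i, hi, h3, h4⟩ := mem_gr.1 h1
    obtain ⟨j, hj, h5, h6⟩ := mem_gr.1 h2
    replace h3 : a = s i := h3
    replace h4 : b = s' i := h4
    replace h5 : c = s j := h5
    replace h6 : d = s' j := h6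
    rw [h3, h4, h5, h6]
    exact ((R_zero hf).1 (h 0)).1 i j hi hj
  · -- forth
    intro σ a hσ
    obtain ⟨n, s, s', hs, rfl⟩ := mem_Gm.1 hσ
    obtain ⟨b, hb⟩ := (hN2 n s s' hs).2 a
    refine ⟨b, ?_⟩
    rw [← gr_up, gr_mem hRP]
    exact hb
  · -- clf
    intro S hS
    obtain ⟨m, t, ht⟩ := enum a0 S hS
    rw [cl_gr hRP hrefl hNf hN (fun n s s' h => (hN2 n s s' h).1) ht]
    exact hNf _
  · -- gen
    intro σ a b hσ ha hb
    obtain ⟨n, s, s', hs, rfl⟩ := mem_Gm.1 hσ
    rw [cl_gr hRP hrefl hNf hN (fun n s s' h => (hN2 n s s' h).1) (dm_gr n s s')] at ha
    rw [cl_gr hRP hrefl hNf hN (fun n s s' h => (hN2 n s s' h).1) (rn_gr n s s')] at hb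
    rw [← gr_up, gr_mem hRP]
    exact (hN2 n s s' hs).1 a b ha hb

end Pool.Agent.R602.AM
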