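import Pool.Agent.R602.AM.Stm

/-!
# Amorphous sets in a model of set theory: finitely many classes (step)
-/

set_option autoImplicit false
set_option linter.all false

namespace Pool.Agent.R602.AM

open FirstOrder FirstOrder.Language Pool.Agent.Helper672.ZFA

universe u

variable {M : Type u} [L.Structure M] [hM : IsModel M]

namespace IdxAux

variable {α β γ δ ν : Type u} [ITy M α] [ITy M β] [ITy M γ] [ITy M δ] [ITy M ν]

theorem rep {code : γ → δ} (hc : IntF M code) : ∀ F : IPow M δ, IFin F →
    ∃ Q : IPow M γ, IFin Q ∧ ∀ s, code s ∈ F → ∃ q, q ∈ Q ∧ code q = code s := by
  refine IFin.ind (p := fun F : IPow M δ => ∃ Q : IPow M γ, IFin Q ∧ ∀ s, code s ∈ F →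
    ∃ q, q ∈ Q ∧ code q = code s) (by
        (repeat' first
          | (with_reducible assumption)
          | (with_reducible exact IntF.id) | (with_reducible exact IntF.fst')
          | (with_reducible exact IntF.snd') | (with_reducible exact IntF.const _)
          | (with_reducible exact Int.const _)
          | (with_reducible apply IntF.fst) | (with_reducible apply IntF.snd)
          | (with_reducible apply Int.and) | (with_reducible apply Int.or) | (with_reducible apply Int.not)
          | (with_reducible apply Int.ne) | (with_reducible apply Int.iff) | (with_reducible apply Int.imp)
          | (with_reducible apply Int.ex) | (with_reducible apply Int.all) | (with_reducible apply Int.eq)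
          | (with_reducible apply Int.mem) | (with_reducible apply Int.subset) | (with_reducible apply Int.fin)
          | (with_reducible_and_instances apply Int.leN) | (with_reducible_and_instances apply Int.ltN)
          | (with_reducible apply IntF.pair) | (with_reducible apply IntF.succ) | (with_reducible apply IntF.sep)
          | (with_reducible apply IntF.insert) | (with_reducible apply IntF.singleton)
          | (with_reducible apply IntF.union) | (with_reducible apply IntF.inter) | (with_reducible apply IntF.sdiff)
          | (with_reducible apply int_dm) | (with_reducible apply int_rn) | (with_reducible apply int_idm)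
          | (with_reducible apply int_ivr) | (with_reducible apply int_cmp) | (with_reducible apply int_img)
          | (with_reducible apply int_cl) | (with_reducible apply int_Bk)
          | (with_reducible ((refine IntF.comp₂ ?_ ?_ ?_); assumption))
          | (with_reducible ((refine Int.comp₂ ?_ ?_ ?_); assumption))
          | (with_reducible ((refine IntF.comp ?_ ?_); assumption))
          | (with_reducible ((refine Int.comp ?_ ?_); assumption))
          | (with_reducible apply IntF.app))) ?_ ?_
  · exact ⟨∅, IFin.empty, fun s hs => absurd hs (by simp)⟩
  · rintro F d _ _ ⟨Q, hQ, h⟩
    by_cases hd : ∃ s0, code s0 = d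
    · obtain ⟨s0, hs0⟩ := hd
      refine ⟨insert s0 Q, hQ.insert s0, fun s hs => ?_⟩
      rcases mem_insert.1 hs with h1 | h1
      · exact ⟨s0, mem_insert.2 (Or.inl rfl), by rw [hs0, h1]⟩
      · obtain ⟨q, hq, h2⟩ := h s h1
        exact ⟨q, mem_insert.2 (Or.inr hq), h2⟩
    · refine ⟨Q, hQ, fun s hs => ?_⟩
      rcases mem_insert.1 hs with h1 | h1
      · exact absurd ⟨s, h1⟩ hd
      · exact h s h1

theorem cof (hA : Amor M α) {r : α → β → Prop} (hr : Int M (fun q : α × β => r q.1 q.2))
    {Q : IPow M β} (hQ : IFin Q) (h : ∀ a, ∃ q, q ∈ Q ∧ r a q) :
    ∃ q, q ∈ Q ∧ ∃ U : IPow M α, IFin U ∧ ∀ a, a ∉ U → r a q := by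
  have h1 : ∀ q : β, Int M (fun a : α => r a q) := fun q => (by
      (repeat' first
        | (with_reducible assumption)
        | (with_reducible exact IntF.id) | (with_reducible exact IntF.fst')
        | (with_reducible exact IntF.snd') | (with_reducible exact IntF.const _)
        | (with_reducible exact Int.const _)
        | (with_reducible apply IntF.fst) | (with_reducible apply IntF.snd)
        | (with_reducible apply Int.and) | (with_reducible apply Int.or) | (with_reducible apply Int.not)
        | (with_reducible apply Int.ne) | (with_reducible apply Int.iff) | (with_reducible apply Int.imp)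
        | (with_reducible apply Int.ex) | (with_reducible apply Int.all) | (with_reducible apply Int.eq)
        | (with_reducible apply Int.mem) | (with_reducible apply Int.subset) | (with_reducible apply Int.fin)
        | (with_reducible_and_instances apply Int.leN) | (with_reducible_and_instances apply Int.ltN)
        | (with_reducible apply IntF.pair) | (with_reducible apply IntF.succ) | (with_reducible apply IntF.sep)
        | (with_reducible apply IntF.insert) | (with_reducible apply IntF.singleton)
        | (with_reducible apply IntF.union) | (with_reducible apply IntF.inter) | (with_reducible apply IntF.sdiff)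
        | (with_reducible apply int_dm) | (with_reducible apply int_rn) | (with_reducible apply int_idm)
        | (with_reducible apply int_ivr) | (with_reducible apply int_cmp) | (with_reducible apply int_img)
        | (with_reducible apply int_cl) | (with_reducible apply int_Bk)
        | (with_reducible ((refine IntF.comp₂ ?_ ?_ ?_); assumption))
        | (with_reducible ((refine Int.comp₂ ?_ ?_ ?_); assumption))
        | (with_reducible ((refine IntF.comp ?_ ?_); assumption))
        | (with_reducible ((refine Int.comp ?_ ?_); assumption))
        | (with_reducible apply IntF.app)))
  have h2 : IntF M (fun q : β => sep M fun a : α => r a q) := (by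
      (repeat' first
        | (with_reducible assumption)
        | (with_reducible exact IntF.id) | (with_reducible exact IntF.fst')
        | (with_reducible exact IntF.snd') | (with_reducible exact IntF.const _)
        | (with_reducible exact Int.const _)
        | (with_reducible apply IntF.fst) | (with_reducible apply IntF.snd)
        | (with_reducible apply Int.and) | (with_reducible apply Int.or) | (with_reducible apply Int.not)
        | (with_reducible apply Int.ne) | (with_reducible apply Int.iff) | (with_reducible apply Int.imp)
        | (with_reducible apply Int.ex) | (with_reducible apply Int.all) | (with_reducible apply Int.eq)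
        | (with_reducible apply Int.mem) | (with_reducible apply Int.subset) | (with_reducible apply Int.fin)
        | (with_reducible_and_instances apply Int.leN) | (with_reducible_and_instances apply Int.ltN)
        | (with_reducible apply IntF.pair) | (with_reducible apply IntF.succ) | (with_reducible apply IntF.sep)
        | (with_reducible apply IntF.insert) | (with_reducible apply IntF.singleton)
        | (with_reducible apply IntF.union) | (with_reducible apply IntF.inter) | (with_reducible apply IntF.sdiff)
        | (with_reducible apply int_dm) | (with_reducible apply int_rn) | (with_reducible apply int_idm)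
        | (with_reducible apply int_ivr) | (with_reducible apply int_cmp) | (with_reducible apply int_img)
        | (with_reducible apply int_cl) | (with_reducible apply int_Bk)
        | (with_reducible ((refine IntF.comp₂ ?_ ?_ ?_); assumption))
        | (with_reducible ((refine Int.comp₂ ?_ ?_ ?_); assumption))
        | (with_reducible ((refine IntF.comp ?_ ?_); assumption))
        | (with_reducible ((refine Int.comp ?_ ?_); assumption))
        | (with_reducible apply IntF.app)))
  by_contra hcon
  apply hA.1
  have h3 : ∀ q, q ∈ Q → IFin (sep M fun a : α => r a q) := by
    intro q hq
    rcases hA.2 (sep M fun a : α => r a q) with h4 | h4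
    · exact h4
    · exfalso
      refine hcon ⟨q, hq, _, h4, fun a ha => ?_⟩
      by_contra hra
      apply ha
      rw [mem_sdiff, mem_sep (h1 q)]
      exact ⟨mem_iuniv.2 trivial, hra⟩
  have h5 : IFin (isUnion (iimage (fun q : β => sep M fun a : α => r a q) Q)) := by
    refine (hQ.image h2).isUnion fun s hs => ?_
    rw [mem_iimage h2] at hs
    obtain ⟨q, hq, rfl⟩ := hs
    exact h3 q hq
  refine h5.subset fun a _ => ?_
  rw [mem_isUnion]
  obtain ⟨q, hq, hra⟩ := h a
  refine ⟨sep M fun a : α => r a q, ?_, ?_⟩
  · rw [mem_iimage h2]
    exact ⟨q, hq, rfl⟩
  · rw [mem_sep (h1 q)]
    exact hra

/-- first code -/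
noncomputable def c1 (f : IPow M (ν × α) → IPow M (ν × α)) (k n : INat M)
    (Q : IPow M (IFun M (INat M) α)) (s : IFun M (INat M) α) : IPow M (IFun M (INat M) α) :=
  sep M fun q => q ∈ Q ∧ ∃ a, R f k n.succ (up s n a) q

/-- second code -/
noncomputable def c2 (f : IPow M (ν × α) → IPow M (ν × α)) (k n : INat M)
    (Q : IPow M (IFun M (INat M) α)) (s : IFun M (INat M) α) : IPow M (IFun M (INat M) α) :=
  sep M fun q => q ∈ Q ∧ ∃ U : IPow M α, IFin U ∧ ∀ a, a ∉ U → R f k n.succ (up s n a) q

/-- third code -/
noncomputable def c3 (f : IPow M (ν × α) → IPow M (ν × α)) (k n : INat M)
    (Q : IPow M (IFun M (INat M) α)) (s : IFun M (INat M) α) : IPow M (IFun M (INat M) α) :=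
  sep M fun q => q ∈ Q ∧ R f k n s q

theorem int_c1 (f : IPow M (ν × α) → IPow M (ν × α)) (k n : INat M)
    (Q : IPow M (IFun M (INat M) α)) : IntF M (c1 f k n Q) := by
  unfold c1
  exact (by
      (repeat' first
        | (with_reducible (refine int_R f ?_ ?_ ?_ ?_))
        | (with_reducible (refine int_up ?_ ?_ ?_))
        | (with_reducible assumption)
        | (with_reducible exact IntF.id) | (with_reducible exact IntF.fst')
        | (with_reducible exact IntF.snd') | (with_reducible exact IntF.const _)
        | (with_reducible exact Int.const _)
        | (with_reducible apply IntF.fst) | (with_reducible apply IntF.snd)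
        | (with_reducible apply Int.and) | (with_reducible apply Int.or) | (with_reducible apply Int.not)
        | (with_reducible apply Int.ne) | (with_reducible apply Int.iff) | (with_reducible apply Int.imp)
        | (with_reducible apply Int.ex) | (with_reducible apply Int.all) | (with_reducible apply Int.eq)
        | (with_reducible apply Int.mem) | (with_reducible apply Int.subset) | (with_reducible apply Int.fin)
        | (with_reducible_and_instances apply Int.leN) | (with_reducible_and_instances apply Int.ltN)
        | (with_reducible apply IntF.pair) | (with_reducible apply IntF.succ) | (with_reducible apply IntF.sep)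
        | (with_reducible apply IntF.insert) | (with_reducible apply IntF.singleton)
        | (with_reducible apply IntF.union) | (with_reducible apply IntF.inter) | (with_reducible apply IntF.sdiff)
        | (with_reducible apply int_dm) | (with_reducible apply int_rn) | (with_reducible apply int_idm)
        | (with_reducible apply int_ivr) | (with_reducible apply int_cmp) | (with_reducible apply int_img)
        | (with_reducible apply int_cl) | (with_reducible apply int_Bk)
        | (with_reducible ((refine IntF.comp₂ ?_ ?_ ?_); assumption))
        | (with_reducible ((refine Int.comp₂ ?_ ?_ ?_); assumption))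
        | (with_reducible ((refine IntF.comp ?_ ?_); assumption))
        | (with_reducible ((refine Int.comp ?_ ?_); assumption))
        | (with_reducible apply IntF.app)))

theorem int_c2 (f : IPow M (ν × α) → IPow M (ν × α)) (k n : INat M)
    (Q : IPow M (IFun M (INat M) α)) : IntF M (c2 f k n Q) := by
  unfold c2
  exact (by
      (repeat' first
        | (with_reducible (refine int_R f ?_ ?_ ?_ ?_))
        | (with_reducible (refine int_up ?_ ?_ ?_))
        | (with_reducible assumption)
        | (with_reducible exact IntF.id) | (with_reducible exact IntF.fst')
        | (with_reducible exact IntF.snd') | (with_reducible exact IntF.const _)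
        | (with_reducible exact Int.const _)
        | (with_reducible apply IntF.fst) | (with_reducible apply IntF.snd)
        | (with_reducible apply Int.and) | (with_reducible apply Int.or) | (with_reducible apply Int.not)
        | (with_reducible apply Int.ne) | (with_reducible apply Int.iff) | (with_reducible apply Int.imp)
        | (with_reducible apply Int.ex) | (with_reducible apply Int.all) | (with_reducible apply Int.eq)
        | (with_reducible apply Int.mem) | (with_reducible apply Int.subset) | (with_reducible apply Int.fin)
        | (with_reducible_and_instances apply Int.leN) | (with_reducible_and_instances apply Int.ltN)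
        | (with_reducible apply IntF.pair) | (with_reducible apply IntF.succ) | (with_reducible apply IntF.sep)
        | (with_reducible apply IntF.insert) | (with_reducible apply IntF.singleton)
        | (with_reducible apply IntF.union) | (with_reducible apply IntF.inter) | (with_reducible apply IntF.sdiff)
        | (with_reducible apply int_dm) | (with_reducible apply int_rn) | (with_reducible apply int_idm)
        | (with_reducible apply int_ivr) | (with_reducible apply int_cmp) | (with_reducible apply int_img)
        | (with_reducible apply int_cl) | (with_reducible apply int_Bk)
        | (with_reducible ((refine IntF.comp₂ ?_ ?_ ?_); assumption))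
        | (with_reducible ((refine Int.comp₂ ?_ ?_ ?_); assumption))
        | (with_reducible ((refine IntF.comp ?_ ?_); assumption))
        | (with_reducible ((refine Int.comp ?_ ?_); assumption))
        | (with_reducible apply IntF.app)))

theorem int_c3 (f : IPow M (ν × α) → IPow M (ν × α)) (k n : INat M)
    (Q : IPow M (IFun M (INat M) α)) : IntF M (c3 f k n Q) := by
  unfold c3
  exact (by
      (repeat' first
        | (with_reducible (refine int_R f ?_ ?_ ?_ ?_))
        | (with_reducible (refine int_up ?_ ?_ ?_))
        | (with_reducible assumption)
        | (with_reducible exact IntF.id) | (with_reducible exact IntF.fst')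
        | (with_reducible exact IntF.snd') | (with_reducible exact IntF.const _)
        | (with_reducible exact Int.const _)
        | (with_reducible apply IntF.fst) | (with_reducible apply IntF.snd)
        | (with_reducible apply Int.and) | (with_reducible apply Int.or) | (with_reducible apply Int.not)
        | (with_reducible apply Int.ne) | (with_reducible apply Int.iff) | (with_reducible apply Int.imp)
        | (with_reducible apply Int.ex) | (with_reducible apply Int.all) | (with_reducible apply Int.eq)
        | (with_reducible apply Int.mem) | (with_reducible apply Int.subset) | (with_reducible apply Int.fin)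
        | (with_reducible_and_instances apply Int.leN) | (with_reducible_and_instances apply Int.ltN)
        | (with_reducible apply IntF.pair) | (with_reducible apply IntF.succ) | (with_reducible apply IntF.sep)
        | (with_reducible apply IntF.insert) | (with_reducible apply IntF.singleton)
        | (with_reducible apply IntF.union) | (with_reducible apply IntF.inter) | (with_reducible apply IntF.sdiff)
        | (with_reducible apply int_dm) | (with_reducible apply int_rn) | (with_reducible apply int_idm)
        | (with_reducible apply int_ivr) | (with_reducible apply int_cmp) | (with_reducible apply int_img)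
        | (with_reducible apply int_cl) | (with_reducible apply int_Bk)
        | (with_reducible ((refine IntF.comp₂ ?_ ?_ ?_); assumption))
        | (with_reducible ((refine Int.comp₂ ?_ ?_ ?_); assumption))
        | (with_reducible ((refine IntF.comp ?_ ?_); assumption))
        | (with_reducible ((refine Int.comp ?_ ?_); assumption))
        | (with_reducible apply IntF.app)))

theorem mem_c1 {f : IPow M (ν × α) → IPow M (ν × α)} {k n : INat M}
    {Q : IPow M (IFun M (INat M) α)} {s q : IFun M (INat M) α} :
    q ∈ c1 f k n Q s ↔ q ∈ Q ∧ ∃ a, R f k n.succ (up s n a) q :=
  mem_sep (by
      (repeat' first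
        | (with_reducible (refine int_R f ?_ ?_ ?_ ?_))
        | (with_reducible (refine int_up ?_ ?_ ?_))
        | (with_reducible assumption)
        | (with_reducible exact IntF.id) | (with_reducible exact IntF.fst')
        | (with_reducible exact IntF.snd') | (with_reducible exact IntF.const _)
        | (with_reducible exact Int.const _)
        | (with_reducible apply IntF.fst) | (with_reducible apply IntF.snd)
        | (with_reducible apply Int.and) | (with_reducible apply Int.or) | (with_reducible apply Int.not)
        | (with_reducible apply Int.ne) | (with_reducible apply Int.iff) | (with_reducible apply Int.imp)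
        | (with_reducible apply Int.ex) | (with_reducible apply Int.all) | (with_reducible apply Int.eq)
        | (with_reducible apply Int.mem) | (with_reducible apply Int.subset) | (with_reducible apply Int.fin)
        | (with_reducible_and_instances apply Int.leN) | (with_reducible_and_instances apply Int.ltN)
        | (with_reducible apply IntF.pair) | (with_reducible apply IntF.succ) | (with_reducible apply IntF.sep)
        | (with_reducible apply IntF.insert) | (with_reducible apply IntF.singleton)
        | (with_reducible apply IntF.union) | (with_reducible apply IntF.inter) | (with_reducible apply IntF.sdiff)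
        | (with_reducible apply int_dm) | (with_reducible apply int_rn) | (with_reducible apply int_idm)
        | (with_reducible apply int_ivr) | (with_reducible apply int_cmp) | (with_reducible apply int_img)
        | (with_reducible apply int_cl) | (with_reducible apply int_Bk)
        | (with_reducible ((refine IntF.comp₂ ?_ ?_ ?_); assumption))
        | (with_reducible ((refine Int.comp₂ ?_ ?_ ?_); assumption))
        | (with_reducible ((refine IntF.comp ?_ ?_); assumption))
        | (with_reducible ((refine Int.comp ?_ ?_); assumption))
        | (with_reducible apply IntF.app)))

theorem mem_c2 {f : IPow M (ν × α) → IPow M (ν × α)} {k n : INat M}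
    {Q : IPow M (IFun M (INat M) α)} {s q : IFun M (INat M) α} :
    q ∈ c2 f k n Q s ↔ q ∈ Q ∧ ∃ U : IPow M α, IFin U ∧ ∀ a, a ∉ U → R f k n.succ (up s n a) q :=
  mem_sep (by
      (repeat' first
        | (with_reducible (refine int_R f ?_ ?_ ?_ ?_))
        | (with_reducible (refine int_up ?_ ?_ ?_))
        | (with_reducible assumption)
        | (with_reducible exact IntF.id) | (with_reducible exact IntF.fst')
        | (with_reducible exact IntF.snd') | (with_reducible exact IntF.const _)
        | (with_reducible exact Int.const _)
        | (with_reducible apply IntF.fst) | (with_reducible apply IntF.snd)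
        | (with_reducible apply Int.and) | (with_reducible apply Int.or) | (with_reducible apply Int.not)
        | (with_reducible apply Int.ne) | (with_reducible apply Int.iff) | (with_reducible apply Int.imp)
        | (with_reducible apply Int.ex) | (with_reducible apply Int.all) | (with_reducible apply Int.eq)
        | (with_reducible apply Int.mem) | (with_reducible apply Int.subset) | (with_reducible apply Int.fin)
        | (with_reducible_and_instances apply Int.leN) | (with_reducible_and_instances apply Int.ltN)
        | (with_reducible apply IntF.pair) | (with_reducible apply IntF.succ) | (with_reducible apply IntF.sep)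
        | (with_reducible apply IntF.insert) | (with_reducible apply IntF.singleton)
        | (with_reducible apply IntF.union) | (with_reducible apply IntF.inter) | (with_reducible apply IntF.sdiff)
        | (with_reducible apply int_dm) | (with_reducible apply int_rn) | (with_reducible apply int_idm)
        | (with_reducible apply int_ivr) | (with_reducible apply int_cmp) | (with_reducible apply int_img)
        | (with_reducible apply int_cl) | (with_reducible apply int_Bk)
        | (with_reducible ((refine IntF.comp₂ ?_ ?_ ?_); assumption))
        | (with_reducible ((refine Int.comp₂ ?_ ?_ ?_); assumption))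
        | (with_reducible ((refine IntF.comp ?_ ?_); assumption))
        | (with_reducible ((refine Int.comp ?_ ?_); assumption))
        | (with_reducible apply IntF.app)))

theorem mem_c3 {f : IPow M (ν × α) → IPow M (ν × α)} {k n : INat M}
    {Q : IPow M (IFun M (INat M) α)} {s q : IFun M (INat M) α} :
    q ∈ c3 f k n Q s ↔ q ∈ Q ∧ R f k n s q :=
  mem_sep (by
      (repeat' first
        | (with_reducible (refine int_R f ?_ ?_ ?_ ?_))
        | (with_reducible (refine int_up ?_ ?_ ?_))
        | (with_reducible assumption)
        | (with_reducible exact IntF.id) | (with_reducible exact IntF.fst')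
        | (with_reducible exact IntF.snd') | (with_reducible exact IntF.const _)
        | (with_reducible exact Int.const _)
        | (with_reducible apply IntF.fst) | (with_reducible apply IntF.snd)
        | (with_reducible apply Int.and) | (with_reducible apply Int.or) | (with_reducible apply Int.not)
        | (with_reducible apply Int.ne) | (with_reducible apply Int.iff) | (with_reducible apply Int.imp)
        | (with_reducible apply Int.ex) | (with_reducible apply Int.all) | (with_reducible apply Int.eq)
        | (with_reducible apply Int.mem) | (with_reducible apply Int.subset) | (with_reducible apply Int.fin)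
        | (with_reducible_and_instances apply Int.leN) | (with_reducible_and_instances apply Int.ltN)
        | (with_reducible apply IntF.pair) | (with_reducible apply IntF.succ) | (with_reducible apply IntF.sep)
        | (with_reducible apply IntF.insert) | (with_reducible apply IntF.singleton)
        | (with_reducible apply IntF.union) | (with_reducible apply IntF.inter) | (with_reducible apply IntF.sdiff)
        | (with_reducible apply int_dm) | (with_reducible apply int_rn) | (with_reducible apply int_idm)
        | (with_reducible apply int_ivr) | (with_reducible apply int_cmp) | (with_reducible apply int_img)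
        | (with_reducible apply int_cl) | (with_reducible apply int_Bk)
        | (with_reducible ((refine IntF.comp₂ ?_ ?_ ?_); assumption))
        | (with_reducible ((refine Int.comp₂ ?_ ?_ ?_); assumption))
        | (with_reducible ((refine IntF.comp ?_ ?_); assumption))
        | (with_reducible ((refine Int.comp ?_ ?_); assumption))
        | (with_reducible apply IntF.app)))

theorem key {f : IPow M (ν × α) → IPow M (ν × α)} (hA : Amor M α) (P : RP M f) {k n : INat M}
    {Q1 Q0 : IPow M (IFun M (INat M) α)} (hQ1 : IFin Q1)
    (h1 : ∀ s, ∃ q, q ∈ Q1 ∧ R f k n.succ s q) (h0 : ∀ s, ∃ q, q ∈ Q0 ∧ R f k n s q)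
    {s s' : IFun M (INat M) α} (e1 : c1 f k n Q1 s = c1 f k n Q1 s')
    (e2 : c2 f k n Q1 s = c2 f k n Q1 s') (e3 : c3 f k n Q0 s = c3 f k n Q0 s') :
    R f k.succ n s s' := by
  rw [R_succ]
  have fwd : ∀ s s' : IFun M (INat M) α, c1 f k n Q1 s = c1 f k n Q1 s' →
      ∀ a, ∃ b, R f k n.succ (up s n a) (up s' n b) := by
    intro s s' e1 a
    obtain ⟨q, hq, hr⟩ := h1 (up s n a)
    have h2 : q ∈ c1 f k n Q1 s := mem_c1.2 ⟨hq, a, hr⟩
    rw [e1] at h2
    obtain ⟨-, b, hb⟩ := mem_c1.1 h2
    exact ⟨b, P.trans _ _ _ _ _ hr (P.symm _ _ _ _ hb)⟩
  refine ⟨?_, fwd s s' e1, ?_, ?_⟩
  · obtain ⟨q, hq, hr⟩ := h0 s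
    have h2 : q ∈ c3 f k n Q0 s := mem_c3.2 ⟨hq, hr⟩
    rw [e3] at h2
    exact P.trans _ _ _ _ _ hr (P.symm _ _ _ _ (mem_c3.1 h2).2)
  · intro b
    obtain ⟨a, ha⟩ := fwd s' s e1.symm b
    exact ⟨a, P.symm _ _ _ _ ha⟩
  · have hr : Int M (fun q : α × IFun M (INat M) α => R f k n.succ (up s n q.1) q.2) :=
      (by
          (repeat' first
            | (with_reducible (refine int_R f ?_ ?_ ?_ ?_))
            | (with_reducible (refine int_up ?_ ?_ ?_))
            | (with_reducible assumption)
            | (with_reducible exact IntF.id) | (with_reducible exact IntF.fst')
            | (with_reducible exact IntF.snd') | (with_reducible exact IntF.const _)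
            | (with_reducible exact Int.const _)
            | (with_reducible apply IntF.fst) | (with_reducible apply IntF.snd)
            | (with_reducible apply Int.and) | (with_reducible apply Int.or) | (with_reducible apply Int.not)
            | (with_reducible apply Int.ne) | (with_reducible apply Int.iff) | (with_reducible apply Int.imp)
            | (with_reducible apply Int.ex) | (with_reducible apply Int.all) | (with_reducible apply Int.eq)
            | (with_reducible apply Int.mem) | (with_reducible apply Int.subset) | (with_reducible apply Int.fin)
            | (with_reducible_and_instances apply Int.leN) | (with_reducible_and_instances apply Int.ltN)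
            | (with_reducible apply IntF.pair) | (with_reducible apply IntF.succ) | (with_reducible apply IntF.sep)
            | (with_reducible apply IntF.insert) | (with_reducible apply IntF.singleton)
            | (with_reducible apply IntF.union) | (with_reducible apply IntF.inter) | (with_reducible apply IntF.sdiff)
            | (with_reducible apply int_dm) | (with_reducible apply int_rn) | (with_reducible apply int_idm)
            | (with_reducible apply int_ivr) | (with_reducible apply int_cmp) | (with_reducible apply int_img)
            | (with_reducible apply int_cl) | (with_reducible apply int_Bk)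
            | (with_reducible ((refine IntF.comp₂ ?_ ?_ ?_); assumption))
            | (with_reducible ((refine Int.comp₂ ?_ ?_ ?_); assumption))
            | (with_reducible ((refine IntF.comp ?_ ?_); assumption))
            | (with_reducible ((refine Int.comp ?_ ?_); assumption))
            | (with_reducible apply IntF.app)))
    obtain ⟨q, hq, U, hU, h2⟩ := cof hA (r := fun a q => R f k n.succ (up s n a) q) hr hQ1
      (fun a => h1 (up s n a))
    have h3 : q ∈ c2 f k n Q1 s := mem_c2.2 ⟨hq, U, hU, h2⟩
    rw [e2] at h3
    obtain ⟨-, V, hV, h4⟩ := mem_c2.1 h3
    refine ⟨U ∪ V, hU.union hV, fun a b ha hb => ?_⟩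
    rw [mem_union] at ha hb
    exact P.trans _ _ _ _ _ (h2 a fun h => ha (Or.inl h))
      (P.symm _ _ _ _ (h4 b fun h => hb (Or.inr h)))

end IdxAux

open IdxAux

theorem idx_main (h0 : S_IDX0 M) (hR : S_RP M) : S_IDX M := by
  intro α ν _ _ f hA hν hf
  have P : RP M f := hR α ν f hf
  refine INat.ind (p := fun k : INat M => (∀ (n : INat M) (s : IFun M (INat M) α), R f k n s s) ∧
    ∀ n : INat M, ∃ Q : IPow M (IFun M (INat M) α), IFin Q ∧ ∀ s : IFun M (INat M) α, ∃ q, q ∈ Q ∧ R f k n s q)
    (by
        (repeat' first
          | (with_reducible (refine int_R f ?_ ?_ ?_ ?_))
          | (with_reducible assumption)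
          | (with_reducible exact IntF.id) | (with_reducible exact IntF.fst')
          | (with_reducible exact IntF.snd') | (with_reducible exact IntF.const _)
          | (with_reducible exact Int.const _)
          | (with_reducible apply IntF.fst) | (with_reducible apply IntF.snd)
          | (with_reducible apply Int.and) | (with_reducible apply Int.or) | (with_reducible apply Int.not)
          | (with_reducible apply Int.ne) | (with_reducible apply Int.iff) | (with_reducible apply Int.imp)
          | (with_reducible apply Int.ex) | (with_reducible apply Int.all) | (with_reducible apply Int.eq)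
          | (with_reducible apply Int.mem) | (with_reducible apply Int.subset) | (with_reducible apply Int.fin)
          | (with_reducible_and_instances apply Int.leN) | (with_reducible_and_instances apply Int.ltN)
          | (with_reducible apply IntF.pair) | (with_reducible apply IntF.succ) | (with_reducible apply IntF.sep)
          | (with_reducible apply IntF.insert) | (with_reducible apply IntF.singleton)
          | (with_reducible apply IntF.union) | (with_reducible apply IntF.inter) | (with_reducible apply IntF.sdiff)
          | (with_reducible apply int_dm) | (with_reducible apply int_rn) | (with_reducible apply int_idm)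
          | (with_reducible apply int_ivr) | (with_reducible apply int_cmp) | (with_reducible apply int_img)
          | (with_reducible apply int_cl) | (with_reducible apply int_Bk)
          | (with_reducible ((refine IntF.comp₂ ?_ ?_ ?_); assumption))
          | (with_reducible ((refine Int.comp₂ ?_ ?_ ?_); assumption))
          | (with_reducible ((refine IntF.comp ?_ ?_); assumption))
          | (with_reducible ((refine Int.comp ?_ ?_); assumption))
          | (with_reducible apply IntF.app))) (h0 α ν f hA hν hf) ?_
  rintro k ⟨-, hQ⟩
  constructor
  · intro n s
    obtain ⟨Q1, hQ1, h1⟩ := hQ n.succ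
    obtain ⟨Q0, hQ0, h2⟩ := hQ n
    exact key hA P hQ1 h1 h2 rfl rfl rfl
  · intro n
    obtain ⟨Q1, hQ1, h1⟩ := hQ n.succ
    obtain ⟨Q0, hQ0, h2⟩ := hQ n
    have i1 := int_c1 f k n Q1
    have i2 := int_c2 f k n Q1
    have i3 := int_c3 f k n Q0
    obtain ⟨Q, hQf, hrep⟩ := rep (code := fun s => (c1 f k n Q1 s, (c2 f k n Q1 s, c3 f k n Q0 s)))
      (i1.pair (i2.pair i3)) (iprod (ipow Q1) (iprod (ipow Q1) (ipow Q0)))
      (IFin.prod hQ1.pow (IFin.prod hQ1.pow hQ0.pow))
    refine ⟨Q, hQf, fun s => ?_⟩
    obtain ⟨q, hq, hc⟩ := hrep s (by
      rw [mem_iprod, mem_iprod]
      refine ⟨mem_ipow.2 fun x hx => (mem_c1.1 hx).1, mem_ipow.2 fun x hx => (mem_c2.1 hx).1,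
        mem_ipow.2 fun x hx => (mem_c3.1 hx).1⟩)
    have hc1 := congrArg Prod.fst hc
    have hc2 := congrArg (fun x => x.2.1) hc
    have hc3 := congrArg (fun x => x.2.2) hc
    exact ⟨q, hq, key hA P hQ1 h1 h2 hc1.symm hc2.symm hc3.symm⟩

end Pool.Agent.R602.AM
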