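import Pool.Agent.R602.AM.Stm

/-!
# Piece IDX0: finitely many classes at level `0`
-/

set_option autoImplicit false
set_option linter.all false

namespace Pool.Agent.R602.AM

open FirstOrder FirstOrder.Language Pool.Agent.Helper672.ZFA

universe u

variable {M : Type u} [L.Structure M] [hM : IsModel M] {α β γ ν : Type u}
  [ITy M α] [ITy M β] [ITy M γ] [ITy M ν]

/-- Finitely many representatives for a function with finitely many values. -/
theorem idx0_rep {code : γ → β} (hcode : IntF M code) : ∀ F : IPow M β, IFin F →
    ∃ Q : IPow M γ, IFin Q ∧ ∀ s, code s ∈ F → ∃ q, q ∈ Q ∧ code q = code s := by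
  refine IFin.ind (by
      (repeat' first
        | (with_reducible assumption)
        | (with_reducible exact IntF.id) | (with_reducible exact IntF.fst')
        | (with_reducible exact IntF.snd') | (with_reducible exact IntF.const _)
        | (with_reducible exact Int.const _)
        | (with_reducible apply IntF.fst) | (with_reducible apply IntF.snd)
        | (with_reducible apply Int.and) | (with_reducible apply Int.or) | (with_reducible apply Int.not)
        | (with_reducible apply Int.ne) | (with_reducible apply Int.iff) | (with_reducible apply Int.imp)
        | (with_reducible apply Int.ex) | (with_reducible apply Int.all) | (with_reducible apply Int.eq)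
        | (with_reducible apply Int.mem) | (with_reducible apply Int.subset) | (with_reducible apply Int.fin)
        | (with_reducible_and_instances apply Int.leN) | (with_reducible_and_instances apply Int.ltN)
        | (with_reducible apply IntF.pair) | (with_reducible apply IntF.succ) | (with_reducible apply IntF.sep)
        | (with_reducible apply IntF.insert) | (with_reducible apply IntF.singleton)
        | (with_reducible apply IntF.union) | (with_reducible apply IntF.inter) | (with_reducible apply IntF.sdiff)
        | (with_reducible apply int_dm) | (with_reducible apply int_rn) | (with_reducible apply int_idm)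
        | (with_reducible apply int_ivr) | (with_reducible apply int_cmp) | (with_reducible apply int_img)
        | (with_reducible apply int_cl) | (with_reducible apply int_Bk)
        | (with_reducible ((refine IntF.comp₂ ?_ ?_ ?_); assumption))
        | (with_reducible ((refine Int.comp₂ ?_ ?_ ?_); assumption))
        | (with_reducible ((refine IntF.comp ?_ ?_); assumption))
        | (with_reducible ((refine Int.comp ?_ ?_); assumption))
        | (with_reducible apply IntF.app))) ?_ ?_
  · exact ⟨∅, IFin.empty, fun s hs => absurd hs (by simp)⟩
  · rintro F a _ _ ⟨Q, hQ, h⟩
    by_cases h0 : ∃ s0, code s0 = a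
    · obtain ⟨s0, hs0⟩ := h0
      refine ⟨insert s0 Q, hQ.insert s0, fun s hs => ?_⟩
      rcases mem_insert.1 hs with h1 | h1
      · exact ⟨s0, mem_insert.2 (Or.inl rfl), by rw [hs0, h1]⟩
      · obtain ⟨q, hq, hqs⟩ := h s h1
        exact ⟨q, mem_insert.2 (Or.inr hq), hqs⟩
    · refine ⟨Q, hQ, fun s hs => ?_⟩
      rcases mem_insert.1 hs with h1 | h1
      · exact absurd ⟨s, h1⟩ h0
      · exact h s h1

/-- The initial segments of the natural numbers. -/
noncomputable def idx0_le (M : Type u) [L.Structure M] [IsModel M] (n : INat M) : IPow M (INat M) :=
  sep M fun i => i ≤ n

theorem mem_idx0_le {n i : INat M} : i ∈ idx0_le M n ↔ i ≤ n :=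
  mem_sep (by
      (repeat' first
        | (with_reducible assumption)
        | (with_reducible exact IntF.id) | (with_reducible exact IntF.fst')
        | (with_reducible exact IntF.snd') | (with_reducible exact IntF.const _)
        | (with_reducible exact Int.const _)
        | (with_reducible apply IntF.fst) | (with_reducible apply IntF.snd)
        | (with_reducible apply Int.and) | (with_reducible apply Int.or) | (with_reducible apply Int.not)
        | (with_reducible apply Int.ne) | (with_reducible apply Int.iff) | (with_reducible apply Int.imp)
        | (with_reducible apply Int.ex) | (with_reducible apply Int.all) | (with_reducible apply Int.eq)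
        | (with_reducible apply Int.mem) | (with_reducible apply Int.subset) | (with_reducible apply Int.fin)
        | (with_reducible_and_instances apply Int.leN) | (with_reducible_and_instances apply Int.ltN)
        | (with_reducible apply IntF.pair) | (with_reducible apply IntF.succ) | (with_reducible apply IntF.sep)
        | (with_reducible apply IntF.insert) | (with_reducible apply IntF.singleton)
        | (with_reducible apply IntF.union) | (with_reducible apply IntF.inter) | (with_reducible apply IntF.sdiff)
        | (with_reducible apply int_dm) | (with_reducible apply int_rn) | (with_reducible apply int_idm)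
        | (with_reducible apply int_ivr) | (with_reducible apply int_cmp) | (with_reducible apply int_img)
        | (with_reducible apply int_cl) | (with_reducible apply int_Bk)
        | (with_reducible ((refine IntF.comp₂ ?_ ?_ ?_); assumption))
        | (with_reducible ((refine Int.comp₂ ?_ ?_ ?_); assumption))
        | (with_reducible ((refine IntF.comp ?_ ?_); assumption))
        | (with_reducible ((refine Int.comp ?_ ?_); assumption))
        | (with_reducible apply IntF.app)))

theorem idx0_le_fin : ∀ n : INat M, IFin (idx0_le M n) := by
  refine INat.ind ?_ ?_ ?_
  · unfold idx0_le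
    exact (by
        (repeat' first
          | (with_reducible assumption)
          | (with_reducible exact IntF.id) | (with_reducible exact IntF.fst')
          | (with_reducible exact IntF.snd') | (with_reducible exact IntF.const _)
          | (with_reducible exact Int.const _)
          | (with_reducible apply IntF.fst) | (with_reducible apply IntF.snd)
          | (with_reducible apply Int.and) | (with_reducible apply Int.or) | (with_reducible apply Int.not)
          | (with_reducible apply Int.ne) | (with_reducible apply Int.iff) | (with_reducible apply Int.imp)
          | (with_reducible apply Int.ex) | (with_reducible apply Int.all) | (with_reducible apply Int.eq)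
          | (with_reducible apply Int.mem) | (with_reducible apply Int.subset) | (with_reducible apply Int.fin)
          | (with_reducible_and_instances apply Int.leN) | (with_reducible_and_instances apply Int.ltN)
          | (with_reducible apply IntF.pair) | (with_reducible apply IntF.succ) | (with_reducible apply IntF.sep)
          | (with_reducible apply IntF.insert) | (with_reducible apply IntF.singleton)
          | (with_reducible apply IntF.union) | (with_reducible apply IntF.inter) | (with_reducible apply IntF.sdiff)
          | (with_reducible apply int_dm) | (with_reducible apply int_rn) | (with_reducible apply int_idm)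
          | (with_reducible apply int_ivr) | (with_reducible apply int_cmp) | (with_reducible apply int_img)
          | (with_reducible apply int_cl) | (with_reducible apply int_Bk)
          | (with_reducible ((refine IntF.comp₂ ?_ ?_ ?_); assumption))
          | (with_reducible ((refine Int.comp₂ ?_ ?_ ?_); assumption))
          | (with_reducible ((refine IntF.comp ?_ ?_); assumption))
          | (with_reducible ((refine Int.comp ?_ ?_); assumption))
          | (with_reducible apply IntF.app)))
  · refine (IFin.singleton (0 : INat M)).subset ?_
    rw [subset_def]
    intro i hi
    rw [mem_idx0_le] at hi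
    exact mem_singleton.2 (le_antisymm hi (INat.zero_le i))
  · intro n hn
    refine (hn.insert n.succ).subset ?_
    rw [subset_def]
    intro i hi
    rw [mem_idx0_le] at hi
    rw [mem_insert, mem_idx0_le]
    rcases INat.le_iff'.1 hi with h | h
    · exact Or.inr (INat.lt_succ_iff.1 h)
    · exact Or.inl h

/-- An infinite type has an element outside a tuple. -/
theorem idx0_out (hA : ¬ IFin (iuniv M α)) (n : INat M) (s : IFun M (INat M) α) :
    ∃ a, ∀ i, i < n → a ≠ s i := by
  by_contra hc
  push Not at hc
  apply hA
  have hs : IntF M (fun i => s i) := s.int_app
  refine ((idx0_le_fin n).image hs).subset ?_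
  rw [subset_def]
  intro a _
  obtain ⟨i, hi, hai⟩ := hc a
  rw [mem_iimage hs]
  exact ⟨i, mem_idx0_le.2 hi.le, hai.symm⟩

/-- The set with the pattern `p` over the tuple `s`. -/
noncomputable def idx0X (n : INat M) (p : IPow M (ν × INat M)) (s : IFun M (INat M) α) :
    IPow M (ν × α) :=
  sep M fun q => (∃ i, i < n ∧ q.2 = s i ∧ (q.1, i) ∈ p) ∨
    ((∀ i, i < n → q.2 ≠ s i) ∧ (q.1, n) ∈ p)

theorem mem_idx0X {n : INat M} {p : IPow M (ν × INat M)} {s : IFun M (INat M) α} {q : ν × α} :
    q ∈ idx0X n p s ↔ (∃ i, i < n ∧ q.2 = s i ∧ (q.1, i) ∈ p) ∨
      ((∀ i, i < n → q.2 ≠ s i) ∧ (q.1, n) ∈ p) :=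
  mem_sep (by
      (repeat' first
        | (with_reducible assumption)
        | (with_reducible exact IntF.id) | (with_reducible exact IntF.fst')
        | (with_reducible exact IntF.snd') | (with_reducible exact IntF.const _)
        | (with_reducible exact Int.const _)
        | (with_reducible apply IntF.fst) | (with_reducible apply IntF.snd)
        | (with_reducible apply Int.and) | (with_reducible apply Int.or) | (with_reducible apply Int.not)
        | (with_reducible apply Int.ne) | (with_reducible apply Int.iff) | (with_reducible apply Int.imp)
        | (with_reducible apply Int.ex) | (with_reducible apply Int.all) | (with_reducible apply Int.eq)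
        | (with_reducible apply Int.mem) | (with_reducible apply Int.subset) | (with_reducible apply Int.fin)
        | (with_reducible_and_instances apply Int.leN) | (with_reducible_and_instances apply Int.ltN)
        | (with_reducible apply IntF.pair) | (with_reducible apply IntF.succ) | (with_reducible apply IntF.sep)
        | (with_reducible apply IntF.insert) | (with_reducible apply IntF.singleton)
        | (with_reducible apply IntF.union) | (with_reducible apply IntF.inter) | (with_reducible apply IntF.sdiff)
        | (with_reducible apply int_dm) | (with_reducible apply int_rn) | (with_reducible apply int_idm)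
        | (with_reducible apply int_ivr) | (with_reducible apply int_cmp) | (with_reducible apply int_img)
        | (with_reducible apply int_cl) | (with_reducible apply int_Bk)
        | (with_reducible ((refine IntF.comp₂ ?_ ?_ ?_); assumption))
        | (with_reducible ((refine Int.comp₂ ?_ ?_ ?_); assumption))
        | (with_reducible ((refine IntF.comp ?_ ?_); assumption))
        | (with_reducible ((refine Int.comp ?_ ?_); assumption))
        | (with_reducible apply IntF.app)))

theorem int_idx0X (n : INat M) {p : γ → IPow M (ν × INat M)} {s : γ → IFun M (INat M) α}
    (hp : IntF M p) (hs : IntF M s) : IntF M (fun c => idx0X n (p c) (s c)) := by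
  unfold idx0X
  exact (by
      (repeat' first
        | (with_reducible assumption)
        | (with_reducible exact IntF.id) | (with_reducible exact IntF.fst')
        | (with_reducible exact IntF.snd') | (with_reducible exact IntF.const _)
        | (with_reducible exact Int.const _)
        | (with_reducible apply IntF.fst) | (with_reducible apply IntF.snd)
        | (with_reducible apply Int.and) | (with_reducible apply Int.or) | (with_reducible apply Int.not)
        | (with_reducible apply Int.ne) | (with_reducible apply Int.iff) | (with_reducible apply Int.imp)
        | (with_reducible apply Int.ex) | (with_reducible apply Int.all) | (with_reducible apply Int.eq)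
        | (with_reducible apply Int.mem) | (with_reducible apply Int.subset) | (with_reducible apply Int.fin)
        | (with_reducible_and_instances apply Int.leN) | (with_reducible_and_instances apply Int.ltN)
        | (with_reducible apply IntF.pair) | (with_reducible apply IntF.succ) | (with_reducible apply IntF.sep)
        | (with_reducible apply IntF.insert) | (with_reducible apply IntF.singleton)
        | (with_reducible apply IntF.union) | (with_reducible apply IntF.inter) | (with_reducible apply IntF.sdiff)
        | (with_reducible apply int_dm) | (with_reducible apply int_rn) | (with_reducible apply int_idm)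
        | (with_reducible apply int_ivr) | (with_reducible apply int_cmp) | (with_reducible apply int_img)
        | (with_reducible apply int_cl) | (with_reducible apply int_Bk)
        | (with_reducible ((refine IntF.comp₂ ?_ ?_ ?_); assumption))
        | (with_reducible ((refine Int.comp₂ ?_ ?_ ?_); assumption))
        | (with_reducible ((refine IntF.comp ?_ ?_); assumption))
        | (with_reducible ((refine Int.comp ?_ ?_); assumption))
        | (with_reducible apply IntF.app)))

/-- The equality pattern. -/
noncomputable def idx0E (n : INat M) (s : IFun M (INat M) α) : IPow M (INat M × INat M) :=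
  sep M fun q => (q.1 ∈ idx0_le M n ∧ q.2 ∈ idx0_le M n) ∧ s q.1 = s q.2

theorem mem_idx0E {n : INat M} {s : IFun M (INat M) α} {q : INat M × INat M} :
    q ∈ idx0E n s ↔ (q.1 ∈ idx0_le M n ∧ q.2 ∈ idx0_le M n) ∧ s q.1 = s q.2 :=
  mem_sep (by
      (repeat' first
        | (with_reducible assumption)
        | (with_reducible exact IntF.id) | (with_reducible exact IntF.fst')
        | (with_reducible exact IntF.snd') | (with_reducible exact IntF.const _)
        | (with_reducible exact Int.const _)
        | (with_reducible apply IntF.fst) | (with_reducible apply IntF.snd)
        | (with_reducible apply Int.and) | (with_reducible apply Int.or) | (with_reducible apply Int.not)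
        | (with_reducible apply Int.ne) | (with_reducible apply Int.iff) | (with_reducible apply Int.imp)
        | (with_reducible apply Int.ex) | (with_reducible apply Int.all) | (with_reducible apply Int.eq)
        | (with_reducible apply Int.mem) | (with_reducible apply Int.subset) | (with_reducible apply Int.fin)
        | (with_reducible_and_instances apply Int.leN) | (with_reducible_and_instances apply Int.ltN)
        | (with_reducible apply IntF.pair) | (with_reducible apply IntF.succ) | (with_reducible apply IntF.sep)
        | (with_reducible apply IntF.insert) | (with_reducible apply IntF.singleton)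
        | (with_reducible apply IntF.union) | (with_reducible apply IntF.inter) | (with_reducible apply IntF.sdiff)
        | (with_reducible apply int_dm) | (with_reducible apply int_rn) | (with_reducible apply int_idm)
        | (with_reducible apply int_ivr) | (with_reducible apply int_cmp) | (with_reducible apply int_img)
        | (with_reducible apply int_cl) | (with_reducible apply int_Bk)
        | (with_reducible ((refine IntF.comp₂ ?_ ?_ ?_); assumption))
        | (with_reducible ((refine Int.comp₂ ?_ ?_ ?_); assumption))
        | (with_reducible ((refine IntF.comp ?_ ?_); assumption))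
        | (with_reducible ((refine Int.comp ?_ ?_); assumption))
        | (with_reducible apply IntF.app)))

theorem int_idx0E (n : INat M) : IntF M (fun s : IFun M (INat M) α => idx0E n s) := by
  unfold idx0E
  exact (by
      (repeat' first
        | (with_reducible assumption)
        | (with_reducible exact IntF.id) | (with_reducible exact IntF.fst')
        | (with_reducible exact IntF.snd') | (with_reducible exact IntF.const _)
        | (with_reducible exact Int.const _)
        | (with_reducible apply IntF.fst) | (with_reducible apply IntF.snd)
        | (with_reducible apply Int.and) | (with_reducible apply Int.or) | (with_reducible apply Int.not)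
        | (with_reducible apply Int.ne) | (with_reducible apply Int.iff) | (with_reducible apply Int.imp)
        | (with_reducible apply Int.ex) | (with_reducible apply Int.all) | (with_reducible apply Int.eq)
        | (with_reducible apply Int.mem) | (with_reducible apply Int.subset) | (with_reducible apply Int.fin)
        | (with_reducible_and_instances apply Int.leN) | (with_reducible_and_instances apply Int.ltN)
        | (with_reducible apply IntF.pair) | (with_reducible apply IntF.succ) | (with_reducible apply IntF.sep)
        | (with_reducible apply IntF.insert) | (with_reducible apply IntF.singleton)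
        | (with_reducible apply IntF.union) | (with_reducible apply IntF.inter) | (with_reducible apply IntF.sdiff)
        | (with_reducible apply int_dm) | (with_reducible apply int_rn) | (with_reducible apply int_idm)
        | (with_reducible apply int_ivr) | (with_reducible apply int_cmp) | (with_reducible apply int_img)
        | (with_reducible apply int_cl) | (with_reducible apply int_Bk)
        | (with_reducible ((refine IntF.comp₂ ?_ ?_ ?_); assumption))
        | (with_reducible ((refine Int.comp₂ ?_ ?_ ?_); assumption))
        | (with_reducible ((refine IntF.comp ?_ ?_); assumption))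
        | (with_reducible ((refine Int.comp ?_ ?_); assumption))
        | (with_reducible apply IntF.app)))

/-- The patterns. -/
noncomputable def idx0P (ν : Type u) [ITy M ν] (n : INat M) : IPow M (IPow M (ν × INat M)) :=
  ipow (iprod (iuniv M ν) (idx0_le M n))

/-- The graph of `f` on the patterns. -/
noncomputable def idx0G (f : IPow M (ν × α) → IPow M (ν × α)) (n : INat M)
    (s : IFun M (INat M) α) : IPow M (IPow M (ν × INat M) × IPow M (ν × INat M)) :=
  sep M fun q => (q.1 ∈ idx0P ν n ∧ q.2 ∈ idx0P ν n) ∧ f (idx0X n q.1 s) = idx0X n q.2 s

theorem mem_idx0G {f : IPow M (ν × α) → IPow M (ν × α)} (hf : IntF M f) {n : INat M}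
    {s : IFun M (INat M) α} {q : IPow M (ν × INat M) × IPow M (ν × INat M)} :
    q ∈ idx0G f n s ↔
      (q.1 ∈ idx0P ν n ∧ q.2 ∈ idx0P ν n) ∧ f (idx0X n q.1 s) = idx0X n q.2 s :=
  mem_sep (by
      (repeat' first
        | (with_reducible (refine int_idx0X n ?_ ?_))
        | (with_reducible assumption)
        | (with_reducible exact IntF.id) | (with_reducible exact IntF.fst')
        | (with_reducible exact IntF.snd') | (with_reducible exact IntF.const _)
        | (with_reducible exact Int.const _)
        | (with_reducible apply IntF.fst) | (with_reducible apply IntF.snd)
        | (with_reducible apply Int.and) | (with_reducible apply Int.or) | (with_reducible apply Int.not)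
        | (with_reducible apply Int.ne) | (with_reducible apply Int.iff) | (with_reducible apply Int.imp)
        | (with_reducible apply Int.ex) | (with_reducible apply Int.all) | (with_reducible apply Int.eq)
        | (with_reducible apply Int.mem) | (with_reducible apply Int.subset) | (with_reducible apply Int.fin)
        | (with_reducible_and_instances apply Int.leN) | (with_reducible_and_instances apply Int.ltN)
        | (with_reducible apply IntF.pair) | (with_reducible apply IntF.succ) | (with_reducible apply IntF.sep)
        | (with_reducible apply IntF.insert) | (with_reducible apply IntF.singleton)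
        | (with_reducible apply IntF.union) | (with_reducible apply IntF.inter) | (with_reducible apply IntF.sdiff)
        | (with_reducible apply int_dm) | (with_reducible apply int_rn) | (with_reducible apply int_idm)
        | (with_reducible apply int_ivr) | (with_reducible apply int_cmp) | (with_reducible apply int_img)
        | (with_reducible apply int_cl) | (with_reducible apply int_Bk)
        | (with_reducible ((refine IntF.comp₂ ?_ ?_ ?_); assumption))
        | (with_reducible ((refine Int.comp₂ ?_ ?_ ?_); assumption))
        | (with_reducible ((refine IntF.comp ?_ ?_); assumption))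
        | (with_reducible ((refine Int.comp ?_ ?_); assumption))
        | (with_reducible apply IntF.app)))

theorem int_idx0G {f : IPow M (ν × α) → IPow M (ν × α)} (hf : IntF M f) (n : INat M) :
    IntF M (fun s : IFun M (INat M) α => idx0G f n s) := by
  unfold idx0G
  exact (by
      (repeat' first
        | (with_reducible (refine int_idx0X n ?_ ?_))
        | (with_reducible assumption)
        | (with_reducible exact IntF.id) | (with_reducible exact IntF.fst')
        | (with_reducible exact IntF.snd') | (with_reducible exact IntF.const _)
        | (with_reducible exact Int.const _)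
        | (with_reducible apply IntF.fst) | (with_reducible apply IntF.snd)
        | (with_reducible apply Int.and) | (with_reducible apply Int.or) | (with_reducible apply Int.not)
        | (with_reducible apply Int.ne) | (with_reducible apply Int.iff) | (with_reducible apply Int.imp)
        | (with_reducible apply Int.ex) | (with_reducible apply Int.all) | (with_reducible apply Int.eq)
        | (with_reducible apply Int.mem) | (with_reducible apply Int.subset) | (with_reducible apply Int.fin)
        | (with_reducible_and_instances apply Int.leN) | (with_reducible_and_instances apply Int.ltN)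
        | (with_reducible apply IntF.pair) | (with_reducible apply IntF.succ) | (with_reducible apply IntF.sep)
        | (with_reducible apply IntF.insert) | (with_reducible apply IntF.singleton)
        | (with_reducible apply IntF.union) | (with_reducible apply IntF.inter) | (with_reducible apply IntF.sdiff)
        | (with_reducible apply int_dm) | (with_reducible apply int_rn) | (with_reducible apply int_idm)
        | (with_reducible apply int_ivr) | (with_reducible apply int_cmp) | (with_reducible apply int_img)
        | (with_reducible apply int_cl) | (with_reducible apply int_Bk)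
        | (with_reducible ((refine IntF.comp₂ ?_ ?_ ?_); assumption))
        | (with_reducible ((refine Int.comp₂ ?_ ?_ ?_); assumption))
        | (with_reducible ((refine IntF.comp ?_ ?_); assumption))
        | (with_reducible ((refine Int.comp ?_ ?_); assumption))
        | (with_reducible apply IntF.app)))

theorem idx0_act_self {n : INat M} {s : IFun M (INat M) α} {X X' : IPow M (ν × α)}
    (h : ActT n s s X X') : X = X' := by
  refine IPow.ext' fun q => ?_
  obtain ⟨v, a⟩ := q
  by_cases ha : ∃ i, i < n ∧ a = s i
  · obtain ⟨i, hi, rfl⟩ := ha
    exact (h v).1 i hi
  · push Not at ha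
    exact (h v).2 a a ha ha

theorem idx0_pat (hA : ¬ IFin (iuniv M α)) {n : INat M} {s s' : IFun M (INat M) α}
    {X X' : IPow M (ν × α)} (h : ActT n s s' X X') :
    ∃ p : IPow M (ν × INat M), p ∈ idx0P ν n ∧ X = idx0X n p s ∧ X' = idx0X n p s' := by
  have hint : Int M (fun q : ν × INat M => (q.2 < n ∧ (q.1, s q.2) ∈ X) ∨
      (q.2 = n ∧ ∃ a, (∀ j, j < n → a ≠ s j) ∧ (q.1, a) ∈ X)) := (by
          (repeat' first
            | (with_reducible assumption)
            | (with_reducible exact IntF.id) | (with_reducible exact IntF.fst')
            | (with_reducible exact IntF.snd') | (with_reducible exact IntF.const _)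
            | (with_reducible exact Int.const _)
            | (with_reducible apply IntF.fst) | (with_reducible apply IntF.snd)
            | (with_reducible apply Int.and) | (with_reducible apply Int.or) | (with_reducible apply Int.not)
            | (with_reducible apply Int.ne) | (with_reducible apply Int.iff) | (with_reducible apply Int.imp)
            | (with_reducible apply Int.ex) | (with_reducible apply Int.all) | (with_reducible apply Int.eq)
            | (with_reducible apply Int.mem) | (with_reducible apply Int.subset) | (with_reducible apply Int.fin)
            | (with_reducible_and_instances apply Int.leN) | (with_reducible_and_instances apply Int.ltN)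
            | (with_reducible apply IntF.pair) | (with_reducible apply IntF.succ) | (with_reducible apply IntF.sep)
            | (with_reducible apply IntF.insert) | (with_reducible apply IntF.singleton)
            | (with_reducible apply IntF.union) | (with_reducible apply IntF.inter) | (with_reducible apply IntF.sdiff)
            | (with_reducible apply int_dm) | (with_reducible apply int_rn) | (with_reducible apply int_idm)
            | (with_reducible apply int_ivr) | (with_reducible apply int_cmp) | (with_reducible apply int_img)
            | (with_reducible apply int_cl) | (with_reducible apply int_Bk)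
            | (with_reducible ((refine IntF.comp₂ ?_ ?_ ?_); assumption))
            | (with_reducible ((refine Int.comp₂ ?_ ?_ ?_); assumption))
            | (with_reducible ((refine IntF.comp ?_ ?_); assumption))
            | (with_reducible ((refine Int.comp ?_ ?_); assumption))
            | (with_reducible apply IntF.app)))
  obtain ⟨a0, ha0⟩ := idx0_out hA n s
  obtain ⟨b0, hb0⟩ := idx0_out hA n s'
  have hp1 : ∀ v i, i < n → ((v, i) ∈ (sep M fun q : ν × INat M => (q.2 < n ∧ (q.1, s q.2) ∈ X) ∨
      (q.2 = n ∧ ∃ a, (∀ j, j < n → a ≠ s j) ∧ (q.1, a) ∈ X)) ↔ (v, s i) ∈ X) := by
    intro v i hi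
    rw [mem_sep hint]
    constructor
    · rintro (h1 | h1)
      · exact h1.2
      · exact absurd h1.1 (fun h2 : i = n => by rw [h2] at hi; exact lt_irrefl _ hi)
    · intro h1
      exact Or.inl ⟨hi, h1⟩
  have hp2 : ∀ v, ((v, n) ∈ (sep M fun q : ν × INat M => (q.2 < n ∧ (q.1, s q.2) ∈ X) ∨
      (q.2 = n ∧ ∃ a, (∀ j, j < n → a ≠ s j) ∧ (q.1, a) ∈ X)) ↔
        ∃ a, (∀ j, j < n → a ≠ s j) ∧ (v, a) ∈ X) := by
    intro v
    rw [mem_sep hint]
    constructor
    · rintro (h1 | h1)
      · exact absurd h1.1 (lt_irrefl n)
      · exact h1.2
    · intro h1
      exact Or.inr ⟨rfl, h1⟩
  refine ⟨sep M fun q : ν × INat M => (q.2 < n ∧ (q.1, s q.2) ∈ X) ∨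
      (q.2 = n ∧ ∃ a, (∀ j, j < n → a ≠ s j) ∧ (q.1, a) ∈ X), ?_, ?_, ?_⟩
  · unfold idx0P
    rw [mem_ipow, subset_def]
    intro q hq
    rw [mem_sep hint] at hq
    rw [mem_iprod, mem_idx0_le]
    refine ⟨mem_iuniv.2 trivial, ?_⟩
    rcases hq with hq | hq
    · exact hq.1.le
    · exact hq.1.le
  · refine IPow.ext' fun q => ?_
    obtain ⟨v, a⟩ := q
    rw [mem_idx0X]
    by_cases ha : ∃ i, i < n ∧ a = s i
    · obtain ⟨i, hi, rfl⟩ := ha
      constructor
      · intro h1
        exact Or.inl ⟨i, hi, rfl, (hp1 v i hi).2 h1⟩
      · rintro (⟨j, hj, hij, h1⟩ | ⟨h1, -⟩)
        · rw [hp1 v j hj] at h1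
          have h2 : s i = s j := hij
          rw [h2]
          exact h1
        · exact absurd rfl (h1 i hi)
    · push Not at ha
      constructor
      · intro h1
        exact Or.inr ⟨ha, (hp2 v).2 ⟨a, ha, h1⟩⟩
      · rintro (⟨j, hj, hij, -⟩ | ⟨-, h1⟩)
        · exact absurd hij (ha j hj)
        · obtain ⟨a', ha', h2⟩ := (hp2 v).1 h1
          exact ((h v).2 a b0 ha hb0).2 (((h v).2 a' b0 ha' hb0).1 h2)
  · refine IPow.ext' fun q => ?_
    obtain ⟨v, b⟩ := q
    rw [mem_idx0X]
    by_cases hb : ∃ i, i < n ∧ b = s' i
    · obtain ⟨i, hi, rfl⟩ := hb
      constructor
      · intro h1
        exact Or.inl ⟨i, hi, rfl, (hp1 v i hi).2 (((h v).1 i hi).2 h1)⟩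
      · rintro (⟨j, hj, hij, h1⟩ | ⟨h1, -⟩)
        · rw [hp1 v j hj] at h1
          have h2 : s' i = s' j := hij
          rw [h2]
          exact ((h v).1 j hj).1 h1
        · exact absurd rfl (h1 i hi)
    · push Not at hb
      constructor
      · intro h1
        exact Or.inr ⟨hb, (hp2 v).2 ⟨a0, ha0, ((h v).2 a0 b ha0 hb).2 h1⟩⟩
      · rintro (⟨j, hj, hij, -⟩ | ⟨-, h1⟩)
        · exact absurd hij (hb j hj)
        · obtain ⟨a', ha', h2⟩ := (hp2 v).1 h1
          exact ((h v).2 a' b ha' hb).1 h2

theorem idx0_main : S_IDX0 M := by
  intro α ν _ _ f hA hν hf
  constructor
  · intro n s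
    rw [R_zero hf]
    refine ⟨fun i j _ _ => Iff.rfl, fun X X' Y Y' hX hY => ?_⟩
    rw [idx0_act_self hX, idx0_act_self hY]
  · intro n
    have h1 : IntF M (fun s : IFun M (INat M) α => (idx0E n s, idx0G f n s)) :=
      (int_idx0E n).pair (int_idx0G hf n)
    have hfl := idx0_le_fin (M := M) n
    have hP : IFin (idx0P ν n : IPow M (IPow M (ν × INat M))) := (hν.prod hfl).pow
    obtain ⟨Q, hQ, hQ2⟩ := idx0_rep h1
      (iprod (ipow (iprod (idx0_le M n) (idx0_le M n))) (ipow (iprod (idx0P ν n) (idx0P ν n))))
      ((hfl.prod hfl).pow.prod (hP.prod hP).pow)
    refine ⟨Q, hQ, fun s => ?_⟩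
    obtain ⟨q, hq, hqs⟩ := hQ2 s (by
      rw [mem_iprod, mem_ipow, mem_ipow, subset_def, subset_def]
      refine ⟨fun x hx => ?_, fun x hx => ?_⟩
      · rw [mem_idx0E] at hx
        rw [mem_iprod]
        exact hx.1
      · rw [mem_idx0G hf] at hx
        rw [mem_iprod]
        exact hx.1)
    refine ⟨q, hq, ?_⟩
    rw [R_zero hf]
    have e1 : idx0E n q = idx0E n s := congrArg Prod.fst hqs
    have e2 : idx0G f n q = idx0G f n s := congrArg Prod.snd hqs
    constructor
    · intro i j hi hj
      have h2 : ((i, j) : INat M × INat M) ∈ idx0E n q ↔ (i, j) ∈ idx0E n s := by rw [e1]
      rw [mem_idx0E, mem_idx0E] at h2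
      have h3 : (i ∈ idx0_le M n ∧ j ∈ idx0_le M n) :=
        ⟨mem_idx0_le.2 hi.le, mem_idx0_le.2 hj.le⟩
      constructor
      · intro h4
        exact (h2.2 ⟨h3, h4⟩).2
      · intro h4
        exact (h2.1 ⟨h3, h4⟩).2
    · intro X X' Y Y' hX hY
      obtain ⟨p, hp, rfl, rfl⟩ := idx0_pat hA.1 hX
      obtain ⟨p', hp', rfl, rfl⟩ := idx0_pat hA.1 hY
      have h2 : ((p, p') : IPow M (ν × INat M) × IPow M (ν × INat M)) ∈ idx0G f n q ↔
          (p, p') ∈ idx0G f n s := by rw [e2]
      rw [mem_idx0G hf, mem_idx0G hf] at h2
      constructor
      · intro h4
        exact (h2.2 ⟨⟨hp, hp'⟩, h4⟩).2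
      · intro h4
        exact (h2.1 ⟨⟨hp, hp'⟩, h4⟩).2

end Pool.Agent.R602.AM
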