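import Pool.Agent.R602.AM.Stm

/-!
# Piece INF: extension properties of the intersection of the relations `R k`
-/

set_option autoImplicit false
set_option linter.all false

namespace Pool.Agent.R602.AM

open FirstOrder FirstOrder.Language Pool.Agent.Helper672.ZFA

universe u

namespace InfP

variable {M : Type u} [L.Structure M] [hM : IsModel M] {α ν : Type u} [ITy M α] [ITy M ν]

theorem exists_out (hA : Amor M α) {U : IPow M α} (hU : IFin U) : ∃ w, w ∉ U := by
  by_contra h
  push Not at h
  exact hA.1 (hU.subset (subset_def.mpr fun x _ => h x))

/-- The elements that are not generic at level `k`. -/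
noncomputable def EE (f : IPow M (ν × α) → IPow M (ν × α)) (k n : INat M) (s : IFun M (INat M) α) :
    IPow M α :=
  sep M fun a => ¬ ∃ U : IPow M α, IFin U ∧ ∀ b, b ∉ U → R f k n.succ (up s n a) (up s n b)

/-- The elements that are not generic at some level. -/
noncomputable def NN (f : IPow M (ν × α) → IPow M (ν × α)) (q : INat M × IFun M (INat M) α) :
    IPow M α := sep M fun a => ∃ k, a ∈ EE f k q.1 q.2

theorem mem_EE {f : IPow M (ν × α) → IPow M (ν × α)} {k n : INat M} {s : IFun M (INat M) α} {a : α} :
    a ∈ EE f k n s ↔
      ¬ ∃ U : IPow M α, IFin U ∧ ∀ b, b ∉ U → R f k n.succ (up s n a) (up s n b) :=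
  mem_sep (by
      (repeat' first
        | (with_reducible (refine int_R _ ?_ ?_ ?_ ?_))
        | (with_reducible (refine int_up ?_ ?_ ?_))
        | (with_reducible assumption)
        | (with_reducible exact IntF.id) | (with_reducible exact IntF.fst')
        | (with_reducible exact IntF.snd') | (with_reducible exact IntF.const _)
        | (with_reducible exact Int.const _)
        | (with_reducible apply IntF.fst) | (with_reducible apply IntF.snd)
        | (with_reducible apply Int.and) | (with_reducible apply Int.or) | (with_reducible apply Int.not)
        | (with_reducible apply Int.ne) | (with_reducible apply Int.iff) | (with_reducible apply Int.imp)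
        | (with_reducible apply Int.ex) | (with_reducible apply Int.all) | (with_reducible apply Int.eq)
        | (with_reducible apply Int.mem) | (with_reducible apply Int.subset) | (with_reducible apply Int.fin)
        | (with_reducible_and_instances apply Int.leN) | (with_reducible_and_instances apply Int.ltN)
        | (with_reducible apply IntF.pair) | (with_reducible apply IntF.succ) | (with_reducible apply IntF.sep)
        | (with_reducible apply IntF.insert) | (with_reducible apply IntF.singleton)
        | (with_reducible apply IntF.union) | (with_reducible apply IntF.inter) | (with_reducible apply IntF.sdiff)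
        | (with_reducible apply int_dm) | (with_reducible apply int_rn) | (with_reducible apply int_idm)
        | (with_reducible apply int_ivr) | (with_reducible apply int_cmp) | (with_reducible apply int_img)
        | (with_reducible apply int_cl) | (with_reducible apply int_Bk)
        | (with_reducible ((refine IntF.comp₂ ?_ ?_ ?_); assumption))
        | (with_reducible ((refine Int.comp₂ ?_ ?_ ?_); assumption))
        | (with_reducible ((refine IntF.comp ?_ ?_); assumption))
        | (with_reducible ((refine Int.comp ?_ ?_); assumption))
        | (with_reducible apply IntF.app)))

theorem int_EE (f : IPow M (ν × α) → IPow M (ν × α)) {γ : Type u} [ITy M γ] {k n : γ → INat M}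
    {s : γ → IFun M (INat M) α} (hk : IntF M k) (hn : IntF M n) (hs : IntF M s) :
    IntF M (fun c => EE f (k c) (n c) (s c)) := by
  unfold EE
  exact (by
      (repeat' first
        | (with_reducible (refine int_R _ ?_ ?_ ?_ ?_))
        | (with_reducible (refine int_up ?_ ?_ ?_))
        | (with_reducible assumption)
        | (with_reducible exact IntF.id) | (with_reducible exact IntF.fst')
        | (with_reducible exact IntF.snd') | (with_reducible exact IntF.const _)
        | (with_reducible exact Int.const _)
        | (with_reducible apply IntF.fst) | (with_reducible apply IntF.snd)
        | (with_reducible apply Int.and) | (with_reducible apply Int.or) | (with_reducible apply Int.not)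
        | (with_reducible apply Int.ne) | (with_reducible apply Int.iff) | (with_reducible apply Int.imp)
        | (with_reducible apply Int.ex) | (with_reducible apply Int.all) | (with_reducible apply Int.eq)
        | (with_reducible apply Int.mem) | (with_reducible apply Int.subset) | (with_reducible apply Int.fin)
        | (with_reducible_and_instances apply Int.leN) | (with_reducible_and_instances apply Int.ltN)
        | (with_reducible apply IntF.pair) | (with_reducible apply IntF.succ) | (with_reducible apply IntF.sep)
        | (with_reducible apply IntF.insert) | (with_reducible apply IntF.singleton)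
        | (with_reducible apply IntF.union) | (with_reducible apply IntF.inter) | (with_reducible apply IntF.sdiff)
        | (with_reducible apply int_dm) | (with_reducible apply int_rn) | (with_reducible apply int_idm)
        | (with_reducible apply int_ivr) | (with_reducible apply int_cmp) | (with_reducible apply int_img)
        | (with_reducible apply int_cl) | (with_reducible apply int_Bk)
        | (with_reducible ((refine IntF.comp₂ ?_ ?_ ?_); assumption))
        | (with_reducible ((refine Int.comp₂ ?_ ?_ ?_); assumption))
        | (with_reducible ((refine IntF.comp ?_ ?_); assumption))
        | (with_reducible ((refine Int.comp ?_ ?_); assumption))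
        | (with_reducible apply IntF.app)))

theorem mem_NN {f : IPow M (ν × α) → IPow M (ν × α)} {q : INat M × IFun M (INat M) α} {a : α} :
    a ∈ NN f q ↔ ∃ k, a ∈ EE f k q.1 q.2 :=
  mem_sep (by
      (repeat' first
        | (with_reducible (refine int_EE _ ?_ ?_ ?_))
        | (with_reducible assumption)
        | (with_reducible exact IntF.id) | (with_reducible exact IntF.fst')
        | (with_reducible exact IntF.snd') | (with_reducible exact IntF.const _)
        | (with_reducible exact Int.const _)
        | (with_reducible apply IntF.fst) | (with_reducible apply IntF.snd)
        | (with_reducible apply Int.and) | (with_reducible apply Int.or) | (with_reducible apply Int.not)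
        | (with_reducible apply Int.ne) | (with_reducible apply Int.iff) | (with_reducible apply Int.imp)
        | (with_reducible apply Int.ex) | (with_reducible apply Int.all) | (with_reducible apply Int.eq)
        | (with_reducible apply Int.mem) | (with_reducible apply Int.subset) | (with_reducible apply Int.fin)
        | (with_reducible_and_instances apply Int.leN) | (with_reducible_and_instances apply Int.ltN)
        | (with_reducible apply IntF.pair) | (with_reducible apply IntF.succ) | (with_reducible apply IntF.sep)
        | (with_reducible apply IntF.insert) | (with_reducible apply IntF.singleton)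
        | (with_reducible apply IntF.union) | (with_reducible apply IntF.inter) | (with_reducible apply IntF.sdiff)
        | (with_reducible apply int_dm) | (with_reducible apply int_rn) | (with_reducible apply int_idm)
        | (with_reducible apply int_ivr) | (with_reducible apply int_cmp) | (with_reducible apply int_img)
        | (with_reducible apply int_cl) | (with_reducible apply int_Bk)
        | (with_reducible ((refine IntF.comp₂ ?_ ?_ ?_); assumption))
        | (with_reducible ((refine Int.comp₂ ?_ ?_ ?_); assumption))
        | (with_reducible ((refine IntF.comp ?_ ?_); assumption))
        | (with_reducible ((refine Int.comp ?_ ?_); assumption))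
        | (with_reducible apply IntF.app)))

theorem int_NN (f : IPow M (ν × α) → IPow M (ν × α)) : IntF M (NN f) := by
  unfold NN
  exact (by
      (repeat' first
        | (with_reducible (refine int_EE _ ?_ ?_ ?_))
        | (with_reducible assumption)
        | (with_reducible exact IntF.id) | (with_reducible exact IntF.fst')
        | (with_reducible exact IntF.snd') | (with_reducible exact IntF.const _)
        | (with_reducible exact Int.const _)
        | (with_reducible apply IntF.fst) | (with_reducible apply IntF.snd)
        | (with_reducible apply Int.and) | (with_reducible apply Int.or) | (with_reducible apply Int.not)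
        | (with_reducible apply Int.ne) | (with_reducible apply Int.iff) | (with_reducible apply Int.imp)
        | (with_reducible apply Int.ex) | (with_reducible apply Int.all) | (with_reducible apply Int.eq)
        | (with_reducible apply Int.mem) | (with_reducible apply Int.subset) | (with_reducible apply Int.fin)
        | (with_reducible_and_instances apply Int.leN) | (with_reducible_and_instances apply Int.ltN)
        | (with_reducible apply IntF.pair) | (with_reducible apply IntF.succ) | (with_reducible apply IntF.sep)
        | (with_reducible apply IntF.insert) | (with_reducible apply IntF.singleton)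
        | (with_reducible apply IntF.union) | (with_reducible apply IntF.inter) | (with_reducible apply IntF.sdiff)
        | (with_reducible apply int_dm) | (with_reducible apply int_rn) | (with_reducible apply int_idm)
        | (with_reducible apply int_ivr) | (with_reducible apply int_cmp) | (with_reducible apply int_img)
        | (with_reducible apply int_cl) | (with_reducible apply int_Bk)
        | (with_reducible ((refine IntF.comp₂ ?_ ?_ ?_); assumption))
        | (with_reducible ((refine Int.comp₂ ?_ ?_ ?_); assumption))
        | (with_reducible ((refine IntF.comp ?_ ?_); assumption))
        | (with_reducible ((refine Int.comp ?_ ?_); assumption))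
        | (with_reducible apply IntF.app)))

theorem EE_mono {f : IPow M (ν × α) → IPow M (ν × α)} (hRP : RP M f) {k l : INat M} (hkl : k ≤ l)
    (n : INat M) (s : IFun M (INat M) α) {a : α} (ha : a ∈ EE f k n s) : a ∈ EE f l n s := by
  rw [mem_EE] at ha ⊢
  rintro ⟨U, hU, h⟩
  exact ha ⟨U, hU, fun b hb => hRP.mono _ _ _ _ _ hkl (h b hb)⟩

theorem EE_fin {f : IPow M (ν × α) → IPow M (ν × α)} (hAm : Amor M α) (hRP : RP M f)
    {k n : INat M} (s : IFun M (INat M) α) (Q : IPow M (IFun M (INat M) α)) (hQ : IFin Q)
    (hQ2 : ∀ t, ∃ q, q ∈ Q ∧ R f k n.succ t q) : IFin (EE f k n s) := by
  let C : IFun M (INat M) α → IPow M α := fun q => sep M fun a => R f k n.succ (up s n a) q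
  have hCi : IntF M C := (by
      (repeat' first
        | (with_reducible (refine int_R _ ?_ ?_ ?_ ?_))
        | (with_reducible (refine int_up ?_ ?_ ?_))
        | (with_reducible assumption)
        | (with_reducible exact IntF.id) | (with_reducible exact IntF.fst')
        | (with_reducible exact IntF.snd') | (with_reducible exact IntF.const _)
        | (with_reducible exact Int.const _)
        | (with_reducible apply IntF.fst) | (with_reducible apply IntF.snd)
        | (with_reducible apply Int.and) | (with_reducible apply Int.or) | (with_reducible apply Int.not)
        | (with_reducible apply Int.ne) | (with_reducible apply Int.iff) | (with_reducible apply Int.imp)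
        | (with_reducible apply Int.ex) | (with_reducible apply Int.all) | (with_reducible apply Int.eq)
        | (with_reducible apply Int.mem) | (with_reducible apply Int.subset) | (with_reducible apply Int.fin)
        | (with_reducible_and_instances apply Int.leN) | (with_reducible_and_instances apply Int.ltN)
        | (with_reducible apply IntF.pair) | (with_reducible apply IntF.succ) | (with_reducible apply IntF.sep)
        | (with_reducible apply IntF.insert) | (with_reducible apply IntF.singleton)
        | (with_reducible apply IntF.union) | (with_reducible apply IntF.inter) | (with_reducible apply IntF.sdiff)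
        | (with_reducible apply int_dm) | (with_reducible apply int_rn) | (with_reducible apply int_idm)
        | (with_reducible apply int_ivr) | (with_reducible apply int_cmp) | (with_reducible apply int_img)
        | (with_reducible apply int_cl) | (with_reducible apply int_Bk)
        | (with_reducible ((refine IntF.comp₂ ?_ ?_ ?_); assumption))
        | (with_reducible ((refine Int.comp₂ ?_ ?_ ?_); assumption))
        | (with_reducible ((refine IntF.comp ?_ ?_); assumption))
        | (with_reducible ((refine Int.comp ?_ ?_); assumption))
        | (with_reducible apply IntF.app)))
  have hCm : ∀ q a, a ∈ C q ↔ R f k n.succ (up s n a) q := fun q a =>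
    mem_sep (by
        (repeat' first
          | (with_reducible (refine int_R _ ?_ ?_ ?_ ?_))
          | (with_reducible (refine int_up ?_ ?_ ?_))
          | (with_reducible assumption)
          | (with_reducible exact IntF.id) | (with_reducible exact IntF.fst')
          | (with_reducible exact IntF.snd') | (with_reducible exact IntF.const _)
          | (with_reducible exact Int.const _)
          | (with_reducible apply IntF.fst) | (with_reducible apply IntF.snd)
          | (with_reducible apply Int.and) | (with_reducible apply Int.or) | (with_reducible apply Int.not)
          | (with_reducible apply Int.ne) | (with_reducible apply Int.iff) | (with_reducible apply Int.imp)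
          | (with_reducible apply Int.ex) | (with_reducible apply Int.all) | (with_reducible apply Int.eq)
          | (with_reducible apply Int.mem) | (with_reducible apply Int.subset) | (with_reducible apply Int.fin)
          | (with_reducible_and_instances apply Int.leN) | (with_reducible_and_instances apply Int.ltN)
          | (with_reducible apply IntF.pair) | (with_reducible apply IntF.succ) | (with_reducible apply IntF.sep)
          | (with_reducible apply IntF.insert) | (with_reducible apply IntF.singleton)
          | (with_reducible apply IntF.union) | (with_reducible apply IntF.inter) | (with_reducible apply IntF.sdiff)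
          | (with_reducible apply int_dm) | (with_reducible apply int_rn) | (with_reducible apply int_idm)
          | (with_reducible apply int_ivr) | (with_reducible apply int_cmp) | (with_reducible apply int_img)
          | (with_reducible apply int_cl) | (with_reducible apply int_Bk)
          | (with_reducible ((refine IntF.comp₂ ?_ ?_ ?_); assumption))
          | (with_reducible ((refine Int.comp₂ ?_ ?_ ?_); assumption))
          | (with_reducible ((refine IntF.comp ?_ ?_); assumption))
          | (with_reducible ((refine Int.comp ?_ ?_); assumption))
          | (with_reducible apply IntF.app)))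
  have h1 : ∃ q, q ∈ Q ∧ ¬ IFin (C q) := by
    by_contra hcon
    push Not at hcon
    apply hAm.1
    have h2 : IFin (isUnion (iimage C Q)) := by
      refine IFin.isUnion (hQ.image hCi) ?_
      intro t ht
      obtain ⟨q, hq, rfl⟩ := (mem_iimage hCi).mp ht
      exact hcon q hq
    refine h2.subset (subset_def.mpr fun a _ => ?_)
    obtain ⟨q, hq, hR⟩ := hQ2 (up s n a)
    exact mem_isUnion.mpr ⟨C q, (mem_iimage hCi).mpr ⟨q, hq, rfl⟩, (hCm q a).mpr hR⟩
  obtain ⟨q, hq, hfin⟩ := h1
  have h2 : IFin (iuniv M α \ C q) := (hAm.2 (C q)).resolve_left hfin
  refine h2.subset (subset_def.mpr fun a ha => ?_)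
  rw [mem_EE] at ha
  refine mem_sdiff.mpr ⟨mem_iuniv.mpr trivial, fun hac => ha ⟨_, h2, fun b hb => ?_⟩⟩
  have hb' : b ∈ C q := by
    by_contra h3
    exact hb (mem_sdiff.mpr ⟨mem_iuniv.mpr trivial, h3⟩)
  exact hRP.trans _ _ _ _ _ ((hCm q a).mp hac) (hRP.symm _ _ _ _ ((hCm q b).mp hb'))

end InfP

variable {M : Type u} [L.Structure M] [hM : IsModel M]

open InfP in
theorem inf_main (hA : S_AMU M) (hR : S_RP M) (hI : S_IDX M) : S_INF M := by
  intro α ν _ _ f hAm hν hf
  have hRP : RP M f := hR α ν f hf
  have hI' := hI α ν f hAm hν hf
  have hEf : ∀ k n s, IFin (EE f k n s) := fun k n s => by
    obtain ⟨Q, hQ, hQ2⟩ := (hI' k).2 n.succ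
    exact EE_fin hAm hRP s Q hQ hQ2
  have hNf : ∀ q, IFin (NN f q) := fun q => by
    refine hA α hAm (fun k => EE f k q.1 q.2) (by
        (repeat' first
          | (with_reducible (refine int_EE _ ?_ ?_ ?_))
          | (with_reducible assumption)
          | (with_reducible exact IntF.id) | (with_reducible exact IntF.fst')
          | (with_reducible exact IntF.snd') | (with_reducible exact IntF.const _)
          | (with_reducible exact Int.const _)
          | (with_reducible apply IntF.fst) | (with_reducible apply IntF.snd)
          | (with_reducible apply Int.and) | (with_reducible apply Int.or) | (with_reducible apply Int.not)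
          | (with_reducible apply Int.ne) | (with_reducible apply Int.iff) | (with_reducible apply Int.imp)
          | (with_reducible apply Int.ex) | (with_reducible apply Int.all) | (with_reducible apply Int.eq)
          | (with_reducible apply Int.mem) | (with_reducible apply Int.subset) | (with_reducible apply Int.fin)
          | (with_reducible_and_instances apply Int.leN) | (with_reducible_and_instances apply Int.ltN)
          | (with_reducible apply IntF.pair) | (with_reducible apply IntF.succ) | (with_reducible apply IntF.sep)
          | (with_reducible apply IntF.insert) | (with_reducible apply IntF.singleton)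
          | (with_reducible apply IntF.union) | (with_reducible apply IntF.inter) | (with_reducible apply IntF.sdiff)
          | (with_reducible apply int_dm) | (with_reducible apply int_rn) | (with_reducible apply int_idm)
          | (with_reducible apply int_ivr) | (with_reducible apply int_cmp) | (with_reducible apply int_img)
          | (with_reducible apply int_cl) | (with_reducible apply int_Bk)
          | (with_reducible ((refine IntF.comp₂ ?_ ?_ ?_); assumption))
          | (with_reducible ((refine Int.comp₂ ?_ ?_ ?_); assumption))
          | (with_reducible ((refine IntF.comp ?_ ?_); assumption))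
          | (with_reducible ((refine Int.comp ?_ ?_); assumption))
          | (with_reducible apply IntF.app))) (fun k => hEf _ _ _) ?_
    intro k
    exact subset_def.mpr fun a ha => EE_mono hRP (INat.le_succ_self k) _ _ ha
  have hgen : ∀ n s s', (∀ k, R f k n s s') → ∀ a b, a ∉ NN f (n, s) → b ∉ NN f (n, s') →
      ∀ k, R f k n.succ (up s n a) (up s' n b) := by
    intro n s s' h a b ha hb k
    obtain ⟨-, -, -, U, hU, hU2⟩ := R_succ.mp (h k.succ)
    have ha' : ∃ U : IPow M α, IFin U ∧ ∀ b, b ∉ U → R f k n.succ (up s n a) (up s n b) := by
      by_contra h1
      exact ha (mem_NN.mpr ⟨k, mem_EE.mpr h1⟩)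
    have hb' : ∃ U : IPow M α, IFin U ∧ ∀ c, c ∉ U → R f k n.succ (up s' n b) (up s' n c) := by
      by_contra h1
      exact hb (mem_NN.mpr ⟨k, mem_EE.mpr h1⟩)
    obtain ⟨U1, hU1, h1⟩ := ha'
    obtain ⟨U2, hU2', h2⟩ := hb'
    obtain ⟨c, hc⟩ := exists_out hAm ((hU.union hU1).union hU2')
    have hc0 : c ∉ U := fun h' => hc (mem_union.mpr (Or.inl (mem_union.mpr (Or.inl h'))))
    have hc1 : c ∉ U1 := fun h' => hc (mem_union.mpr (Or.inl (mem_union.mpr (Or.inr h'))))
    have hc2 : c ∉ U2 := fun h' => hc (mem_union.mpr (Or.inr h'))
    exact hRP.trans _ _ _ _ _ (hRP.trans _ _ _ _ _ (h1 c hc1) (hU2 c c hc0 hc0))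
      (hRP.symm _ _ _ _ (h2 c hc2))
  refine ⟨NN f, int_NN f, hNf, ?_, ?_⟩
  · intro n s a
    rw [mem_NN]
    constructor
    · intro h k
      by_contra h1
      exact h ⟨k, mem_EE.mpr h1⟩
    · rintro h ⟨k, hk⟩
      exact mem_EE.mp hk (h k)
  · intro n s s' h
    refine ⟨hgen n s s' h, ?_⟩
    intro a
    by_cases ha : a ∈ NN f (n, s)
    · obtain ⟨k0, hk0⟩ := mem_NN.mp ha
      -- at each level above `k0` the image is not generic
      have h1 : ∀ k, k0 ≤ k → ∃ b, b ∈ NN f (n, s') ∧ R f k n.succ (up s n a) (up s' n b) := by
        intro k hk
        obtain ⟨-, h2, -, U, hU, hU2⟩ := R_succ.mp (h k.succ)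
        obtain ⟨b, hb⟩ := h2 a
        refine ⟨b, ?_, hb⟩
        by_contra hbN
        have hb' : ∃ U : IPow M α, IFin U ∧ ∀ c, c ∉ U → R f k n.succ (up s' n b) (up s' n c) := by
          by_contra h3
          exact hbN (mem_NN.mpr ⟨k, mem_EE.mpr h3⟩)
        obtain ⟨U1, hU1, h3⟩ := hb'
        refine mem_EE.mp (EE_mono hRP hk _ _ hk0) ⟨U ∪ U1, hU.union hU1, fun c hc => ?_⟩
        have hc0 : c ∉ U := fun h' => hc (mem_union.mpr (Or.inl h'))
        have hc1 : c ∉ U1 := fun h' => hc (mem_union.mpr (Or.inr h'))
        exact hRP.trans _ _ _ _ _ (hRP.trans _ _ _ _ _ hb (h3 c hc1))
          (hRP.symm _ _ _ _ (hU2 c c hc0 hc0))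
      by_contra hcon
      push Not at hcon
      have hr : Int M (fun q : α × INat M => ¬ R f q.2 n.succ (up s n a) (up s' n q.1)) :=
        (by
            (repeat' first
              | (with_reducible (refine int_R _ ?_ ?_ ?_ ?_))
              | (with_reducible (refine int_up ?_ ?_ ?_))
              | (with_reducible assumption)
              | (with_reducible exact IntF.id) | (with_reducible exact IntF.fst')
              | (with_reducible exact IntF.snd') | (with_reducible exact IntF.const _)
              | (with_reducible exact Int.const _)
              | (with_reducible apply IntF.fst) | (with_reducible apply IntF.snd)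
              | (with_reducible apply Int.and) | (with_reducible apply Int.or) | (with_reducible apply Int.not)
              | (with_reducible apply Int.ne) | (with_reducible apply Int.iff) | (with_reducible apply Int.imp)
              | (with_reducible apply Int.ex) | (with_reducible apply Int.all) | (with_reducible apply Int.eq)
              | (with_reducible apply Int.mem) | (with_reducible apply Int.subset) | (with_reducible apply Int.fin)
              | (with_reducible_and_instances apply Int.leN) | (with_reducible_and_instances apply Int.ltN)
              | (with_reducible apply IntF.pair) | (with_reducible apply IntF.succ) | (with_reducible apply IntF.sep)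
              | (with_reducible apply IntF.insert) | (with_reducible apply IntF.singleton)
              | (with_reducible apply IntF.union) | (with_reducible apply IntF.inter) | (with_reducible apply IntF.sdiff)
              | (with_reducible apply int_dm) | (with_reducible apply int_rn) | (with_reducible apply int_idm)
              | (with_reducible apply int_ivr) | (with_reducible apply int_cmp) | (with_reducible apply int_img)
              | (with_reducible apply int_cl) | (with_reducible apply int_Bk)
              | (with_reducible ((refine IntF.comp₂ ?_ ?_ ?_); assumption))
              | (with_reducible ((refine Int.comp₂ ?_ ?_ ?_); assumption))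
              | (with_reducible ((refine IntF.comp ?_ ?_); assumption))
              | (with_reducible ((refine Int.comp ?_ ?_); assumption))
              | (with_reducible apply IntF.app)))
      obtain ⟨K, hK⟩ := IFin.exists_bound (r := fun (b : α) (k : INat M) =>
          ¬ R f k n.succ (up s n a) (up s' n b)) hr
        (fun k l => ⟨max k l, fun b hb => by
          rintro hR'
          rcases hb with hb | hb
          · exact hb (hRP.mono _ _ _ _ _ (le_max_left k l) hR')
          · exact hb (hRP.mono _ _ _ _ _ (le_max_right k l) hR')⟩) ⟨0⟩ (hNf (n, s'))
        (fun b _ => hcon b)
      obtain ⟨b, hb, hbR⟩ := h1 (max K k0) (le_max_right _ _)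
      exact hK b hb (hRP.mono _ _ _ _ _ (le_max_left _ _) hbR)
    · obtain ⟨b, hb⟩ := exists_out hAm (hNf (n, s'))
      exact ⟨b, hgen n s s' h a b ha hb⟩

end Pool.Agent.R602.AM
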