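import Pool.Agent.R602.AM.Stm

/-!
# Piece LH: extension inside a closed finite set
-/

set_option autoImplicit false
set_option linter.all false

namespace Pool.Agent.R602.AM

open FirstOrder FirstOrder.Language Pool.Agent.Helper672.ZFA

universe u

variable {M : Type u} [L.Structure M] [hM : IsModel M]

theorem lh_main (hC : S_CARD M) : S_LH M := by
  intro α _ Γ hA hS hc T σ hT hTc hσ hd hr
  obtain ⟨c, -, hcard⟩ := hC α
  have hint : Int M (fun τ : IPow M (α × α) => τ ∈ Γ ∧ σ ⊆ τ ∧ dm τ ⊆ T ∧ rn τ ⊆ T) := (by
      (repeat' first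
        | (with_reducible assumption)
        | (with_reducible exact IntF.id) | (with_reducible exact IntF.fst')
        | (with_reducible exact IntF.snd') | (with_reducible exact IntF.const _)
        | (with_reducible exact Int.const _)
        | (with_reducible apply IntF.fst) | (with_reducible apply IntF.snd)
        | (with_reducible apply Int.and) | (with_reducible apply Int.or) | (with_reducible apply Int.not)
        | (with_reducible apply Int.ne) | (with_reducible apply Int.iff) | (with_reducible apply Int.imp)
        | (with_reducible apply Int.ex) | (with_reducible apply Int.all) | (with_reducible apply Int.eq)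
        | (with_reducible apply Int.mem) | (with_reducible apply Int.subset) | (with_reducible apply Int.fin)
        | (with_reducible_and_instances apply Int.leN) | (with_reducible_and_instances apply Int.ltN)
        | (with_reducible apply IntF.pair) | (with_reducible apply IntF.succ) | (with_reducible apply IntF.sep)
        | (with_reducible apply IntF.insert) | (with_reducible apply IntF.singleton)
        | (with_reducible apply IntF.union) | (with_reducible apply IntF.inter) | (with_reducible apply IntF.sdiff)
        | (with_reducible apply int_dm) | (with_reducible apply int_rn) | (with_reducible apply int_idm)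
        | (with_reducible apply int_ivr) | (with_reducible apply int_cmp) | (with_reducible apply int_img)
        | (with_reducible apply int_cl) | (with_reducible apply int_Bk)
        | (with_reducible ((refine IntF.comp₂ ?_ ?_ ?_); assumption))
        | (with_reducible ((refine Int.comp₂ ?_ ?_ ?_); assumption))
        | (with_reducible ((refine IntF.comp ?_ ?_); assumption))
        | (with_reducible ((refine Int.comp ?_ ?_); assumption))
        | (with_reducible apply IntF.app)))
  have hFfin : IFin (sep M fun τ : IPow M (α × α) => τ ∈ Γ ∧ σ ⊆ τ ∧ dm τ ⊆ T ∧ rn τ ⊆ T) := by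
    refine (hT.prod hT).pow.subset fun τ hτ => ?_
    rw [mem_sep hint] at hτ
    rw [mem_ipow]
    rintro ⟨a, b⟩ h
    rw [mem_iprod]
    exact ⟨hτ.2.2.1 a (mem_dm.2 ⟨b, h⟩), hτ.2.2.2 b (mem_rn.2 ⟨a, h⟩)⟩
  have hlt : Int M (fun q : IPow M (α × α) × IPow M (α × α) => q.2 ⊆ q.1 ∧ q.1 ≠ q.2) := (by
      (repeat' first
        | (with_reducible assumption)
        | (with_reducible exact IntF.id) | (with_reducible exact IntF.fst')
        | (with_reducible exact IntF.snd') | (with_reducible exact IntF.const _)
        | (with_reducible exact Int.const _)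
        | (with_reducible apply IntF.fst) | (with_reducible apply IntF.snd)
        | (with_reducible apply Int.and) | (with_reducible apply Int.or) | (with_reducible apply Int.not)
        | (with_reducible apply Int.ne) | (with_reducible apply Int.iff) | (with_reducible apply Int.imp)
        | (with_reducible apply Int.ex) | (with_reducible apply Int.all) | (with_reducible apply Int.eq)
        | (with_reducible apply Int.mem) | (with_reducible apply Int.subset) | (with_reducible apply Int.fin)
        | (with_reducible_and_instances apply Int.leN) | (with_reducible_and_instances apply Int.ltN)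
        | (with_reducible apply IntF.pair) | (with_reducible apply IntF.succ) | (with_reducible apply IntF.sep)
        | (with_reducible apply IntF.insert) | (with_reducible apply IntF.singleton)
        | (with_reducible apply IntF.union) | (with_reducible apply IntF.inter) | (with_reducible apply IntF.sdiff)
        | (with_reducible apply int_dm) | (with_reducible apply int_rn) | (with_reducible apply int_idm)
        | (with_reducible apply int_ivr) | (with_reducible apply int_cmp) | (with_reducible apply int_img)
        | (with_reducible apply int_cl) | (with_reducible apply int_Bk)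
        | (with_reducible ((refine IntF.comp₂ ?_ ?_ ?_); assumption))
        | (with_reducible ((refine Int.comp₂ ?_ ?_ ?_); assumption))
        | (with_reducible ((refine IntF.comp ?_ ?_); assumption))
        | (with_reducible ((refine Int.comp ?_ ?_); assumption))
        | (with_reducible apply IntF.app)))
  obtain ⟨τ, hτ, hmax⟩ := IFin.exists_min (lt := fun a b : IPow M (α × α) => b ⊆ a ∧ a ≠ b) hlt
    (fun a h => h.2 rfl)
    (fun a b e h1 h2 => ⟨fun x hx => h1.1 x (h2.1 x hx), fun h => h1.2 (IPow.ext' fun x =>
      ⟨fun hx => h2.1 x (h ▸ hx), fun hx => h1.1 x hx⟩)⟩)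
    hFfin ⟨σ, (mem_sep hint).2 ⟨hσ, fun _ h => h, hd, hr⟩⟩
  rw [mem_sep hint] at hτ
  obtain ⟨hτΓ, hστ, hdτ, hrτ⟩ := hτ
  have max : ∀ τ', τ' ∈ Γ → τ ⊆ τ' → dm τ' ⊆ T → rn τ' ⊆ T → τ' = τ := by
    intro τ' h1 h2 h3 h4
    by_contra hne
    exact hmax τ' ((mem_sep hint).2 ⟨h1, fun x hx => h2 x (hστ x hx), h3, h4⟩) ⟨h2, hne⟩
  obtain ⟨τ', h1, h2, h3, h4⟩ := hc.extcl τ hτΓ
  have hcd : cl Γ (dm τ) ⊆ T := by
    intro z hz
    have := hc.mono _ _ hdτ z hz
    rwa [hTc] at this
  have hcr : cl Γ (rn τ) ⊆ T := by
    intro z hz
    have := hc.mono _ _ hrτ z hz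
    rwa [hTc] at this
  have hττ : τ' = τ := max τ' h1 h2 (by rw [h3]; exact hcd) (by rw [h4]; exact hcr)
  rw [hττ] at h3 h4
  have fun1 : ∀ x y y', (x, y) ∈ τ → (x, y') ∈ τ → y = y' := fun x y y' h h' =>
    (hS.inj τ hτΓ _ _ _ _ h h').1 rfl
  have fun2 : ∀ x y y', (y, x) ∈ τ → (y', x) ∈ τ → y = y' := fun x y y' h h' =>
    (hS.inj τ hτΓ _ _ _ _ h h').2 rfl
  have hrd : rn τ = T → dm τ = T := by
    intro h
    refine (hcard T (dm τ) T τ hT hdτ ?_ ?_).2 rfl
    · intro y hy
      rw [← h, mem_rn] at hy
      obtain ⟨x, hx⟩ := hy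
      exact ⟨x, mem_dm.2 ⟨y, hx⟩, hx⟩
    · exact fun x y y' _ h h' => fun1 x y y' h h'
  have hdr : dm τ = T → rn τ = T := by
    intro h
    refine (hcard T (rn τ) T (ivr τ) hT hrτ ?_ ?_).2 rfl
    · intro y hy
      rw [← h, mem_dm] at hy
      obtain ⟨x, hx⟩ := hy
      exact ⟨x, mem_rn.2 ⟨y, hx⟩, mem_ivr.2 hx⟩
    · intro x y y' _ h h'
      exact fun2 x y y' (mem_ivr.1 h) (mem_ivr.1 h')
  have hdT : dm τ = T := by
    by_contra hne
    have hne2 : rn τ ≠ T := fun h => hne (hrd h)
    have ex1 : ∃ x, x ∈ T ∧ x ∉ dm τ := by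
      by_contra hno
      push Not at hno
      exact hne (IPow.ext' fun x => ⟨hdτ x, hno x⟩)
    have ex2 : ∃ x, x ∈ T ∧ x ∉ rn τ := by
      by_contra hno
      push Not at hno
      exact hne2 (IPow.ext' fun x => ⟨hrτ x, hno x⟩)
    obtain ⟨x, hx, hxd⟩ := ex1
    obtain ⟨y, hy, hyr⟩ := ex2
    have h5 := hS.gen τ x y hτΓ (by rw [← h3]; exact hxd) (by rw [← h4]; exact hyr)
    have h6 := max _ h5 (fun z hz => mem_insert.2 (Or.inr hz)) (by
      intro z hz
      obtain ⟨w, hw⟩ := mem_dm.1 hz
      rcases mem_insert.1 hw with h | h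
      · rw [Prod.mk.injEq] at h
        rw [h.1]; exact hx
      · exact hdτ z (mem_dm.2 ⟨w, h⟩)) (by
      intro z hz
      obtain ⟨w, hw⟩ := mem_rn.1 hz
      rcases mem_insert.1 hw with h | h
      · rw [Prod.mk.injEq] at h
        rw [h.2]; exact hy
      · exact hrτ z (mem_rn.2 ⟨w, h⟩))
    apply hxd
    rw [mem_dm]
    refine ⟨y, ?_⟩
    rw [← h6]
    simp
  exact ⟨τ, hτΓ, hστ, hdT, hdr hdT⟩

end Pool.Agent.R602.AM
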