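import Pool.Agent.R602.AM.Stm

/-!
# Piece ND: the nondegenerate case
-/

set_option autoImplicit false
set_option linter.all false

namespace Pool.Agent.R602.AM

open FirstOrder FirstOrder.Language Pool.Agent.Helper672.ZFA

universe u

namespace NdP

variable {M : Type u} [L.Structure M] [hM : IsModel M] {α : Type u} [ITy M α]
  {Γ : IPow M (IPow M (α × α))}

theorem cl_le (hC : ClP Γ) {s t : IPow M α} (ht : IFin t) (h : s ⊆ cl Γ t) : cl Γ s ⊆ cl Γ t := by
  have h1 := hC.mono _ _ h
  rwa [hC.idem t ht] at h1

theorem exists_out (hA : Amor M α) {U : IPow M α} (hU : IFin U) : ∃ w, w ∉ U := by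
  by_contra h
  push Not at h
  exact hA.1 (hU.subset (subset_def.mpr fun x _ => h x))

/-- The basic configuration. -/
theorem conf (hC : ClP Γ) (hH : HSys Γ) (hD : ¬ Deg Γ) : ∃ (D : IPow M α), IFin D ∧ cl Γ D = D ∧
    ∀ y w, y ∉ D → w ∉ cl Γ (insert y D) → ∃ z, z ∈ cl Γ (insert w (insert y D)) ∧
      z ∉ cl Γ (insert y D) ∧ z ∉ cl Γ (insert w D) := by
  unfold Deg at hD
  push Not at hD
  obtain ⟨s, a, b, hs, x, hx, hxa, hxb⟩ := hD
  have hfD : IFin (cl Γ s) := hH.clf s hs
  have hcD : cl Γ (cl Γ s) = cl Γ s := hC.idem s hs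
  have hsub := hC.sub
  simp only [subset_def] at hsub
  -- a ∉ D
  have ha : a ∉ cl Γ s := by
    intro h
    apply hxb
    have h1 : insert a (insert b s) ⊆ cl Γ (insert b s) := by
      rw [subset_def]
      intro z hz
      rcases mem_insert.mp hz with rfl | hz
      · have := hC.mono s (insert b s) (subset_def.mpr fun u hu => mem_insert.mpr (Or.inr hu))
        exact subset_def.mp this _ h
      · exact hsub _ _ hz
    exact subset_def.mp (cl_le hC (hs.insert b) h1) _ hx
  have hinsD : ∀ y, cl Γ (insert y (cl Γ s)) = cl Γ (insert y s) := by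
    intro y
    apply IPow.ext'
    intro z
    constructor
    · intro hz
      refine subset_def.mp (cl_le hC (hs.insert y) ?_) _ hz
      rw [subset_def]
      intro u hu
      rcases mem_insert.mp hu with rfl | hu
      · exact hsub _ _ (mem_insert.mpr (Or.inl rfl))
      · exact subset_def.mp (hC.mono _ _ (subset_def.mpr fun u hu => mem_insert.mpr (Or.inr hu))) _ hu
    · intro hz
      refine subset_def.mp (hC.mono _ _ ?_) _ hz
      rw [subset_def]
      intro u hu
      rcases mem_insert.mp hu with rfl | hu
      · exact mem_insert.mpr (Or.inl rfl)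
      · exact mem_insert.mpr (Or.inr (hsub _ _ hu))
  have hb : b ∉ cl Γ (insert a (cl Γ s)) := by
    rw [hinsD]
    intro h
    apply hxa
    have h1 : insert a (insert b s) ⊆ cl Γ (insert a s) := by
      rw [subset_def]
      intro z hz
      rcases mem_insert.mp hz with rfl | hz
      · exact hsub _ _ (mem_insert.mpr (Or.inl rfl))
      rcases mem_insert.mp hz with rfl | hz
      · exact h
      · exact hsub _ _ (mem_insert.mpr (Or.inr hz))
    exact subset_def.mp (cl_le hC (hs.insert a) h1) _ hx
  refine ⟨cl Γ s, hfD, hcD, ?_⟩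
  intro y w hy hw
  have hdm : dm (idm (cl Γ s)) = cl Γ s := by
    apply IPow.ext'
    intro u
    rw [mem_dm]
    simp only [mem_idm]
    constructor
    · rintro ⟨v, h, -⟩; exact h
    · intro h; exact ⟨u, h, rfl⟩
  have hrn : rn (idm (cl Γ s)) = cl Γ s := by
    apply IPow.ext'
    intro u
    rw [mem_rn]
    simp only [mem_idm]
    constructor
    · rintro ⟨v, h, h'⟩; rw [← h']; exact h
    · intro h; exact ⟨u, h, rfl⟩
  have hdmi : ∀ (σ : IPow M (α × α)) (u v : α), dm (insert (u, v) σ) = insert u (dm σ) := by
    intro σ u v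
    apply IPow.ext'
    intro z
    rw [mem_dm, mem_insert, mem_dm]
    constructor
    · rintro ⟨c, hc⟩
      rcases mem_insert.mp hc with h | h
      · left; exact (Prod.ext_iff.mp h).1
      · right; exact ⟨c, h⟩
    · rintro (rfl | ⟨c, hc⟩)
      · exact ⟨v, mem_insert.mpr (Or.inl rfl)⟩
      · exact ⟨c, mem_insert.mpr (Or.inr hc)⟩
  have hrni : ∀ (σ : IPow M (α × α)) (u v : α), rn (insert (u, v) σ) = insert v (rn σ) := by
    intro σ u v
    apply IPow.ext'
    intro z
    rw [mem_rn, mem_insert, mem_rn]
    constructor
    · rintro ⟨c, hc⟩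
      rcases mem_insert.mp hc with h | h
      · left; exact (Prod.ext_iff.mp h).2
      · right; exact ⟨c, h⟩
    · rintro (rfl | ⟨c, hc⟩)
      · exact ⟨u, mem_insert.mpr (Or.inl rfl)⟩
      · exact ⟨c, mem_insert.mpr (Or.inr hc)⟩
  have g1 : insert (a, y) (idm (cl Γ s)) ∈ Γ :=
    hH.gen _ a y (hH.idm _ hfD) (by rw [hdm, hcD]; exact ha) (by rw [hrn, hcD]; exact hy)
  have g2 : insert (b, w) (insert (a, y) (idm (cl Γ s))) ∈ Γ :=
    hH.gen _ b w g1 (by rw [hdmi, hdm]; exact hb) (by rw [hrni, hrn]; exact hw)
  obtain ⟨τ, hτ, hστ, hxτ, -⟩ := hC.ext _ {x} ∅ g2 (IFin.singleton x) IFin.empty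
  have hx1 : x ∈ dm τ := subset_def.mp hxτ x (mem_singleton.mpr rfl)
  obtain ⟨z, hz⟩ := mem_dm.mp hx1
  have hστ' := subset_def.mp hστ
  have pb : (b, w) ∈ τ := hστ' _ (mem_insert.mpr (Or.inl rfl))
  have pa : (a, y) ∈ τ := hστ' _ (mem_insert.mpr (Or.inr (mem_insert.mpr (Or.inl rfl))))
  have pid : ∀ u, u ∈ cl Γ s → (u, u) ∈ τ := fun u hu =>
    hστ' _ (mem_insert.mpr (Or.inr (mem_insert.mpr (Or.inr (mem_idm.mpr ⟨hu, rfl⟩)))))
  have hfun : ∀ u v v', (u, v) ∈ τ → (u, v') ∈ τ → v = v' := fun u v v' h h' =>
    (hH.inj τ hτ u v u v' h h').mp rfl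
  have himg0 : ∀ (t : IPow M α) (u v : α), (u, v) ∈ τ → img τ (insert u t) = insert v (img τ t) := by
    intro t u v huv
    apply IPow.ext'
    intro c
    rw [mem_img, mem_insert, mem_img]
    constructor
    · rintro ⟨c', hc', hc⟩
      rcases mem_insert.mp hc' with rfl | hc'
      · left; exact hfun _ _ _ hc huv
      · right; exact ⟨c', hc', hc⟩
    · rintro (rfl | ⟨c', hc', hc⟩)
      · exact ⟨u, mem_insert.mpr (Or.inl rfl), huv⟩
      · exact ⟨c', mem_insert.mpr (Or.inr hc'), hc⟩
  have himgD : img τ (cl Γ s) = cl Γ s := by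
    apply IPow.ext'
    intro c
    rw [mem_img]
    constructor
    · rintro ⟨c', hc', hc⟩
      rw [hfun _ _ _ hc (pid _ hc')]; exact hc'
    · intro hc
      exact ⟨c, hc, pid c hc⟩
  have hdτ : ∀ u v, (u, v) ∈ τ → u ∈ dm τ := fun u v h => mem_dm.mpr ⟨v, h⟩
  have hDdm : ∀ u, u ∈ cl Γ s → u ∈ dm τ := fun u hu => hdτ _ _ (pid u hu)
  refine ⟨z, ?_, ?_, ?_⟩
  · have h1 := (hC.tr τ hτ (insert b (insert a (cl Γ s))) (subset_def.mpr (fun u hu => by
      rcases mem_insert.mp hu with rfl | hu
      · exact hdτ _ _ pb
      rcases mem_insert.mp hu with rfl | hu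
      · exact hdτ _ _ pa
      · exact hDdm _ hu)) x z hz).mp (by
        refine subset_def.mp (hC.mono (insert a (insert b s)) _ (subset_def.mpr fun u hu => ?_)) _ hx
        rcases mem_insert.mp hu with rfl | hu
        · exact mem_insert.mpr (Or.inr (mem_insert.mpr (Or.inl rfl)))
        rcases mem_insert.mp hu with rfl | hu
        · exact mem_insert.mpr (Or.inl rfl)
        · exact mem_insert.mpr (Or.inr (mem_insert.mpr (Or.inr (hsub _ _ hu)))))
    rw [himg0 _ _ _ pb, himg0 _ _ _ pa, himgD] at h1
    exact h1
  · intro h1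
    have h2 := (hC.tr τ hτ (insert a (cl Γ s)) (subset_def.mpr (fun u hu => by
      rcases mem_insert.mp hu with rfl | hu
      · exact hdτ _ _ pa
      · exact hDdm _ hu)) x z hz).mpr (by rw [himg0 _ _ _ pa, himgD]; exact h1)
    rw [hinsD] at h2
    exact hxa h2
  · intro h1
    have h2 := (hC.tr τ hτ (insert b (cl Γ s)) (subset_def.mpr (fun u hu => by
      rcases mem_insert.mp hu with rfl | hu
      · exact hdτ _ _ pb
      · exact hDdm _ hu)) x z hz).mpr (by rw [himg0 _ _ _ pb, himgD]; exact h1)
    rw [hinsD] at h2
    exact hxb h2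

end NdP

variable {M : Type u} [L.Structure M] [hM : IsModel M]

open NdP in
open Classical in
theorem nd_main : S_ND M := by
  intro α _ Γ hA hH hC hE hD
  obtain ⟨D, hfD, hcD, hconf⟩ := conf hC hH hD
  have hsub : ∀ (s : IPow M α) x, x ∈ s → x ∈ cl Γ s := fun s x hx => subset_def.mp (hC.sub s) x hx
  have hmono : ∀ (s t : IPow M α), (∀ x, x ∈ s → x ∈ t) → ∀ x, x ∈ cl Γ s → x ∈ cl Γ t :=
    fun s t h x hx => subset_def.mp (hC.mono s t (subset_def.mpr h)) x hx
  have hle : ∀ (s t : IPow M α), IFin t → (∀ x, x ∈ s → x ∈ cl Γ t) → ∀ x, x ∈ cl Γ s → x ∈ cl Γ t :=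
    fun s t ht h x hx => subset_def.mp (cl_le hC ht (subset_def.mpr h)) x hx
  let h : IPow M α → IPow M α := fun X => if IFin X then cl Γ (D ∪ X) \ X else X
  have hh1 : ∀ X, IFin X → h X = cl Γ (D ∪ X) \ X := fun X hX => if_pos hX
  have hh2 : ∀ X, ¬ IFin X → h X = X := fun X hX => if_neg hX
  have hint : IntF M h := by
    have i1 : Int M (fun X : IPow M α => IFin X) := (by
        (repeat' first
          | (with_reducible assumption)
          | (with_reducible exact IntF.id) | (with_reducible exact IntF.fst')
          | (with_reducible exact IntF.snd') | (with_reducible exact IntF.const _)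
          | (with_reducible exact Int.const _)
          | (with_reducible apply IntF.fst) | (with_reducible apply IntF.snd)
          | (with_reducible apply Int.and) | (with_reducible apply Int.or) | (with_reducible apply Int.not)
          | (with_reducible apply Int.ne) | (with_reducible apply Int.iff) | (with_reducible apply Int.imp)
          | (with_reducible apply Int.ex) | (with_reducible apply Int.all) | (with_reducible apply Int.eq)
          | (with_reducible apply Int.mem) | (with_reducible apply Int.subset) | (with_reducible apply Int.fin)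
          | (with_reducible_and_instances apply Int.leN) | (with_reducible_and_instances apply Int.ltN)
          | (with_reducible apply IntF.pair) | (with_reducible apply IntF.succ) | (with_reducible apply IntF.sep)
          | (with_reducible apply IntF.insert) | (with_reducible apply IntF.singleton)
          | (with_reducible apply IntF.union) | (with_reducible apply IntF.inter) | (with_reducible apply IntF.sdiff)
          | (with_reducible apply int_dm) | (with_reducible apply int_rn) | (with_reducible apply int_idm)
          | (with_reducible apply int_ivr) | (with_reducible apply int_cmp) | (with_reducible apply int_img)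
          | (with_reducible apply int_cl) | (with_reducible apply int_Bk)
          | (with_reducible ((refine IntF.comp₂ ?_ ?_ ?_); assumption))
          | (with_reducible ((refine Int.comp₂ ?_ ?_ ?_); assumption))
          | (with_reducible ((refine IntF.comp ?_ ?_); assumption))
          | (with_reducible ((refine Int.comp ?_ ?_); assumption))
          | (with_reducible apply IntF.app)))
    have i2 : IntF M (fun X : IPow M α => cl Γ (D ∪ X) \ X) := (by
        (repeat' first
          | (with_reducible assumption)
          | (with_reducible exact IntF.id) | (with_reducible exact IntF.fst')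
          | (with_reducible exact IntF.snd') | (with_reducible exact IntF.const _)
          | (with_reducible exact Int.const _)
          | (with_reducible apply IntF.fst) | (with_reducible apply IntF.snd)
          | (with_reducible apply Int.and) | (with_reducible apply Int.or) | (with_reducible apply Int.not)
          | (with_reducible apply Int.ne) | (with_reducible apply Int.iff) | (with_reducible apply Int.imp)
          | (with_reducible apply Int.ex) | (with_reducible apply Int.all) | (with_reducible apply Int.eq)
          | (with_reducible apply Int.mem) | (with_reducible apply Int.subset) | (with_reducible apply Int.fin)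
          | (with_reducible_and_instances apply Int.leN) | (with_reducible_and_instances apply Int.ltN)
          | (with_reducible apply IntF.pair) | (with_reducible apply IntF.succ) | (with_reducible apply IntF.sep)
          | (with_reducible apply IntF.insert) | (with_reducible apply IntF.singleton)
          | (with_reducible apply IntF.union) | (with_reducible apply IntF.inter) | (with_reducible apply IntF.sdiff)
          | (with_reducible apply int_dm) | (with_reducible apply int_rn) | (with_reducible apply int_idm)
          | (with_reducible apply int_ivr) | (with_reducible apply int_cmp) | (with_reducible apply int_img)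
          | (with_reducible apply int_cl) | (with_reducible apply int_Bk)
          | (with_reducible ((refine IntF.comp₂ ?_ ?_ ?_); assumption))
          | (with_reducible ((refine Int.comp₂ ?_ ?_ ?_); assumption))
          | (with_reducible ((refine IntF.comp ?_ ?_); assumption))
          | (with_reducible ((refine Int.comp ?_ ?_); assumption))
          | (with_reducible apply IntF.app)))
    exact IntF.ite i1 i2 IntF.id
  -- the key lemma
  have key : ∀ (Y : IPow M α) w, IFin Y → w ∉ cl Γ (D ∪ Y) →
      cl Γ (D ∪ (cl Γ (insert w (D ∪ Y)) \ Y)) = cl Γ (insert w (D ∪ Y)) := by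
    intro Y w hY hw
    have hfin : IFin (insert w (D ∪ Y)) := (hfD.union hY).insert w
    have hfinW : IFin (cl Γ (insert w (D ∪ Y))) := hH.clf _ hfin
    have hfinX : IFin (cl Γ (insert w (D ∪ Y)) \ Y) :=
      hfinW.subset (subset_def.mpr fun x hx => (mem_sdiff.mp hx).1)
    have hfinDX : IFin (D ∪ (cl Γ (insert w (D ∪ Y)) \ Y)) := hfD.union hfinX
    have hwX : w ∈ cl Γ (insert w (D ∪ Y)) \ Y := mem_sdiff.mpr
      ⟨hsub _ _ (mem_insert.mpr (Or.inl rfl)), fun h' => hw (hsub _ _ (mem_union.mpr (Or.inr h')))⟩
    apply IPow.ext'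
    intro x
    constructor
    · intro hx
      refine hle _ _ hfin ?_ x hx
      intro u hu
      rcases mem_union.mp hu with hu | hu
      · exact hsub _ _ (mem_insert.mpr (Or.inr (mem_union.mpr (Or.inl hu))))
      · exact (mem_sdiff.mp hu).1
    · intro hx
      refine hle _ _ hfinDX ?_ x hx
      intro y hy
      rcases mem_insert.mp hy with rfl | hy
      · exact hsub _ _ (mem_union.mpr (Or.inr hwX))
      rcases mem_union.mp hy with hy | hy
      · exact hsub _ _ (mem_union.mpr (Or.inl hy))
      by_cases hyD : y ∈ D
      · exact hsub _ _ (mem_union.mpr (Or.inl hyD))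
      by_cases hyw : y ∈ cl Γ (insert w D)
      · refine hmono _ _ ?_ y hyw
        intro u hu
        rcases mem_insert.mp hu with rfl | hu
        · exact mem_union.mpr (Or.inr hwX)
        · exact mem_union.mpr (Or.inl hu)
      have hwy : w ∉ cl Γ (insert y D) := by
        intro h1
        apply hw
        refine hmono _ _ ?_ w h1
        intro u hu
        rcases mem_insert.mp hu with rfl | hu
        · exact mem_union.mpr (Or.inr hy)
        · exact mem_union.mpr (Or.inl hu)
      obtain ⟨z, hz1, hz2, hz3⟩ := hconf y w hyD hwy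
      have hfyD : IFin (insert y D) := hfD.insert y
      have hfwD : IFin (insert w D) := hfD.insert w
      have e1 := hE (insert y D) z w hfyD hz2 hz1
      have hzn : z ∉ cl Γ (D ∪ Y) := by
        intro h1
        apply hw
        refine hle _ _ (hfD.union hY) ?_ w e1
        intro u hu
        rcases mem_insert.mp hu with rfl | hu
        · exact h1
        rcases mem_insert.mp hu with rfl | hu
        · exact hsub _ _ (mem_union.mpr (Or.inr hy))
        · exact hsub _ _ (mem_union.mpr (Or.inl hu))
      have hzX : z ∈ cl Γ (insert w (D ∪ Y)) \ Y := by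
        refine mem_sdiff.mpr ⟨hmono _ _ ?_ z hz1, fun h' => hzn (hsub _ _ (mem_union.mpr (Or.inr h')))⟩
        intro u hu
        rcases mem_insert.mp hu with rfl | hu
        · exact mem_insert.mpr (Or.inl rfl)
        rcases mem_insert.mp hu with rfl | hu
        · exact mem_insert.mpr (Or.inr (mem_union.mpr (Or.inr hy)))
        · exact mem_insert.mpr (Or.inr (mem_union.mpr (Or.inl hu)))
      have hz1' : z ∈ cl Γ (insert y (insert w D)) := by
        refine hmono _ _ ?_ z hz1
        intro u hu
        rcases mem_insert.mp hu with rfl | hu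
        · exact mem_insert.mpr (Or.inr (mem_insert.mpr (Or.inl rfl)))
        rcases mem_insert.mp hu with rfl | hu
        · exact mem_insert.mpr (Or.inl rfl)
        · exact mem_insert.mpr (Or.inr (mem_insert.mpr (Or.inr hu)))
      have e2 := hE (insert w D) z y hfwD hz3 hz1'
      refine hmono _ _ ?_ y e2
      intro u hu
      rcases mem_insert.mp hu with rfl | hu
      · exact mem_union.mpr (Or.inr hzX)
      rcases mem_insert.mp hu with rfl | hu
      · exact mem_union.mpr (Or.inr hwX)
      · exact mem_union.mpr (Or.inl hu)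
  have key2 : ∀ (Y : IPow M α) w, IFin Y → w ∉ cl Γ (D ∪ Y) →
      h (cl Γ (insert w (D ∪ Y)) \ Y) = Y := by
    intro Y w hY hw
    have hfinW : IFin (cl Γ (insert w (D ∪ Y))) := hH.clf _ ((hfD.union hY).insert w)
    rw [hh1 _ (hfinW.subset (subset_def.mpr fun x hx => (mem_sdiff.mp hx).1)), key Y w hY hw]
    apply IPow.ext'
    intro x
    rw [mem_sdiff, mem_sdiff]
    constructor
    · rintro ⟨h1, h2⟩
      by_contra h3
      exact h2 ⟨h1, h3⟩
    · intro h1
      exact ⟨hsub _ _ (mem_insert.mpr (Or.inr (mem_union.mpr (Or.inr h1)))), fun h2 => h2.2 h1⟩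
  refine ⟨h, hint, ?_, ?_⟩
  · intro Y
    by_cases hY : IFin Y
    · obtain ⟨w, hw⟩ := exists_out hA (hH.clf _ (hfD.union hY))
      exact ⟨_, key2 Y w hY hw⟩
    · exact ⟨Y, hh2 Y hY⟩
  · intro hinj
    have hfe : IFin (D ∪ (∅ : IPow M α)) := hfD.union IFin.empty
    obtain ⟨w, hw⟩ := exists_out hA (hH.clf _ hfe)
    obtain ⟨w', hw'⟩ := exists_out hA ((hH.clf _ (hfe.insert w)).union (hH.clf _ hfe))
    have h1 := key2 ∅ w IFin.empty hw
    have h2 := key2 ∅ w' IFin.empty (fun h' => hw' (mem_union.mpr (Or.inr h')))
    have h3 := hinj (h1.trans h2.symm)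
    apply hw'
    apply mem_union.mpr
    left
    have h4 : w' ∈ cl Γ (insert w' (D ∪ (∅ : IPow M α))) \ (∅ : IPow M α) :=
      mem_sdiff.mpr ⟨hsub _ _ (mem_insert.mpr (Or.inl rfl)), fun h' => mem_empty.mp h'⟩
    rw [← h3] at h4
    exact (mem_sdiff.mp h4).1

end Pool.Agent.R602.AM
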