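import Pool.Agent.R602.AM.Stm

/-!
# Piece RHO: the rank by trace types
-/

set_option autoImplicit false
set_option linter.all false

namespace Pool.Agent.R602.AM

open FirstOrder FirstOrder.Language Pool.Agent.Helper672.ZFA

universe u

variable {M : Type u} [L.Structure M] [hM : IsModel M] {α β γ ν : Type u}
  [ITy M α] [ITy M β] [ITy M γ] [ITy M ν]

/-- The traces of `X` on the block of `x`. -/
noncomputable def trs (Γ : IPow M (IPow M (α × α))) (D b0 : IPow M α) (X : IPow M (ν × α))
    (x : α) : IPow M (IPow M (ν × α)) :=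
  sep M fun t => ∃ h : IPow M (α × α), idm D ∪ h ∈ Γ ∧ dm h = Bk Γ D x ∧ rn h = b0 ∧
    ∀ v b, (v, b) ∈ t ↔ ∃ a, (a, b) ∈ h ∧ (v, a) ∈ X

theorem mem_trs {Γ : IPow M (IPow M (α × α))} {D b0 : IPow M α} {X : IPow M (ν × α)} {x : α}
    {t : IPow M (ν × α)} : t ∈ trs Γ D b0 X x ↔ ∃ h : IPow M (α × α), idm D ∪ h ∈ Γ ∧
      dm h = Bk Γ D x ∧ rn h = b0 ∧ ∀ v b, (v, b) ∈ t ↔ ∃ a, (a, b) ∈ h ∧ (v, a) ∈ X :=
  mem_sep (by
      (repeat' first
        | (with_reducible assumption)
        | (with_reducible exact IntF.id) | (with_reducible exact IntF.fst')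
        | (with_reducible exact IntF.snd') | (with_reducible exact IntF.const _)
        | (with_reducible exact Int.const _)
        | (with_reducible apply IntF.fst) | (with_reducible apply IntF.snd)
        | (with_reducible apply Int.and) | (with_reducible apply Int.or) | (with_reducible apply Int.not)
        | (with_reducible apply Int.ne) | (with_reducible apply Int.iff) | (with_reducible apply Int.imp)
        | (with_reducible apply Int.ex) | (with_reducible apply Int.all) | (with_reducible apply Int.eq)
        | (with_reducible apply Int.mem) | (with_reducible apply Int.subset) | (with_reducible apply Int.fin)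
        | (with_reducible_and_instances apply Int.leN) | (with_reducible_and_instances apply Int.ltN)
        | (with_reducible apply IntF.pair) | (with_reducible apply IntF.succ) | (with_reducible apply IntF.sep)
        | (with_reducible apply IntF.insert) | (with_reducible apply IntF.singleton)
        | (with_reducible apply IntF.union) | (with_reducible apply IntF.inter) | (with_reducible apply IntF.sdiff)
        | (with_reducible apply int_dm) | (with_reducible apply int_rn) | (with_reducible apply int_idm)
        | (with_reducible apply int_ivr) | (with_reducible apply int_cmp) | (with_reducible apply int_img)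
        | (with_reducible apply int_cl) | (with_reducible apply int_Bk)
        | (with_reducible ((refine IntF.comp₂ ?_ ?_ ?_); assumption))
        | (with_reducible ((refine Int.comp₂ ?_ ?_ ?_); assumption))
        | (with_reducible ((refine IntF.comp ?_ ?_); assumption))
        | (with_reducible ((refine Int.comp ?_ ?_); assumption))
        | (with_reducible apply IntF.app)))

theorem int_trs (Γ : IPow M (IPow M (α × α))) (D b0 : IPow M α) {X : γ → IPow M (ν × α)}
    {x : γ → α} (hX : IntF M X) (hx : IntF M x) :
    IntF M (fun c => trs Γ D b0 (X c) (x c)) := by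
  unfold trs
  exact (by
      (repeat' first
        | (with_reducible assumption)
        | (with_reducible exact IntF.id) | (with_reducible exact IntF.fst')
        | (with_reducible exact IntF.snd') | (with_reducible exact IntF.const _)
        | (with_reducible exact Int.const _)
        | (with_reducible apply IntF.fst) | (with_reducible apply IntF.snd)
        | (with_reducible apply Int.and) | (with_reducible apply Int.or) | (with_reducible apply Int.not)
        | (with_reducible apply Int.ne) | (with_reducible apply Int.iff) | (with_reducible apply Int.imp)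
        | (with_reducible apply Int.ex) | (with_reducible apply Int.all) | (with_reducible apply Int.eq)
        | (with_reducible apply Int.mem) | (with_reducible apply Int.subset) | (with_reducible apply Int.fin)
        | (with_reducible_and_instances apply Int.leN) | (with_reducible_and_instances apply Int.ltN)
        | (with_reducible apply IntF.pair) | (with_reducible apply IntF.succ) | (with_reducible apply IntF.sep)
        | (with_reducible apply IntF.insert) | (with_reducible apply IntF.singleton)
        | (with_reducible apply IntF.union) | (with_reducible apply IntF.inter) | (with_reducible apply IntF.sdiff)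
        | (with_reducible apply int_dm) | (with_reducible apply int_rn) | (with_reducible apply int_idm)
        | (with_reducible apply int_ivr) | (with_reducible apply int_cmp) | (with_reducible apply int_img)
        | (with_reducible apply int_cl) | (with_reducible apply int_Bk)
        | (with_reducible ((refine IntF.comp₂ ?_ ?_ ?_); assumption))
        | (with_reducible ((refine Int.comp₂ ?_ ?_ ?_); assumption))
        | (with_reducible ((refine IntF.comp ?_ ?_); assumption))
        | (with_reducible ((refine Int.comp ?_ ?_); assumption))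
        | (with_reducible apply IntF.app)))

/-- The set of the traces of `X` on the blocks of the elements of `S`. -/
noncomputable def ths (Γ : IPow M (IPow M (α × α))) (D b0 S : IPow M α) (X : IPow M (ν × α)) :
    IPow M (IPow M (IPow M (ν × α))) :=
  sep M fun t => ∃ x, x ∈ S ∧ x ∉ D ∧ t = trs Γ D b0 X x

theorem mem_ths {Γ : IPow M (IPow M (α × α))} {D b0 S : IPow M α} {X : IPow M (ν × α)}
    {t : IPow M (IPow M (ν × α))} : t ∈ ths Γ D b0 S X ↔
      ∃ x, x ∈ S ∧ x ∉ D ∧ t = trs Γ D b0 X x :=
  mem_sep (by
      (repeat' first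
        | (with_reducible (refine int_trs _ _ _ ?_ ?_))
        | (with_reducible assumption)
        | (with_reducible exact IntF.id) | (with_reducible exact IntF.fst')
        | (with_reducible exact IntF.snd') | (with_reducible exact IntF.const _)
        | (with_reducible exact Int.const _)
        | (with_reducible apply IntF.fst) | (with_reducible apply IntF.snd)
        | (with_reducible apply Int.and) | (with_reducible apply Int.or) | (with_reducible apply Int.not)
        | (with_reducible apply Int.ne) | (with_reducible apply Int.iff) | (with_reducible apply Int.imp)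
        | (with_reducible apply Int.ex) | (with_reducible apply Int.all) | (with_reducible apply Int.eq)
        | (with_reducible apply Int.mem) | (with_reducible apply Int.subset) | (with_reducible apply Int.fin)
        | (with_reducible_and_instances apply Int.leN) | (with_reducible_and_instances apply Int.ltN)
        | (with_reducible apply IntF.pair) | (with_reducible apply IntF.succ) | (with_reducible apply IntF.sep)
        | (with_reducible apply IntF.insert) | (with_reducible apply IntF.singleton)
        | (with_reducible apply IntF.union) | (with_reducible apply IntF.inter) | (with_reducible apply IntF.sdiff)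
        | (with_reducible apply int_dm) | (with_reducible apply int_rn) | (with_reducible apply int_idm)
        | (with_reducible apply int_ivr) | (with_reducible apply int_cmp) | (with_reducible apply int_img)
        | (with_reducible apply int_cl) | (with_reducible apply int_Bk)
        | (with_reducible ((refine IntF.comp₂ ?_ ?_ ?_); assumption))
        | (with_reducible ((refine Int.comp₂ ?_ ?_ ?_); assumption))
        | (with_reducible ((refine IntF.comp ?_ ?_); assumption))
        | (with_reducible ((refine Int.comp ?_ ?_); assumption))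
        | (with_reducible apply IntF.app)))

theorem int_ths (Γ : IPow M (IPow M (α × α))) (D b0 : IPow M α) {S : γ → IPow M α}
    {X : γ → IPow M (ν × α)} (hS : IntF M S) (hX : IntF M X) :
    IntF M (fun c => ths Γ D b0 (S c) (X c)) := by
  unfold ths
  exact (by
      (repeat' first
        | (with_reducible (refine int_trs _ _ _ ?_ ?_))
        | (with_reducible assumption)
        | (with_reducible exact IntF.id) | (with_reducible exact IntF.fst')
        | (with_reducible exact IntF.snd') | (with_reducible exact IntF.const _)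
        | (with_reducible exact Int.const _)
        | (with_reducible apply IntF.fst) | (with_reducible apply IntF.snd)
        | (with_reducible apply Int.and) | (with_reducible apply Int.or) | (with_reducible apply Int.not)
        | (with_reducible apply Int.ne) | (with_reducible apply Int.iff) | (with_reducible apply Int.imp)
        | (with_reducible apply Int.ex) | (with_reducible apply Int.all) | (with_reducible apply Int.eq)
        | (with_reducible apply Int.mem) | (with_reducible apply Int.subset) | (with_reducible apply Int.fin)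
        | (with_reducible_and_instances apply Int.leN) | (with_reducible_and_instances apply Int.ltN)
        | (with_reducible apply IntF.pair) | (with_reducible apply IntF.succ) | (with_reducible apply IntF.sep)
        | (with_reducible apply IntF.insert) | (with_reducible apply IntF.singleton)
        | (with_reducible apply IntF.union) | (with_reducible apply IntF.inter) | (with_reducible apply IntF.sdiff)
        | (with_reducible apply int_dm) | (with_reducible apply int_rn) | (with_reducible apply int_idm)
        | (with_reducible apply int_ivr) | (with_reducible apply int_cmp) | (with_reducible apply int_img)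
        | (with_reducible apply int_cl) | (with_reducible apply int_Bk)
        | (with_reducible ((refine IntF.comp₂ ?_ ?_ ?_); assumption))
        | (with_reducible ((refine Int.comp₂ ?_ ?_ ?_); assumption))
        | (with_reducible ((refine IntF.comp ?_ ?_); assumption))
        | (with_reducible ((refine Int.comp ?_ ?_); assumption))
        | (with_reducible apply IntF.app)))

theorem dm_idm (s : IPow M α) : dm (idm s) = s := by
  refine IPow.ext' fun a => ?_
  rw [mem_dm]
  constructor
  · rintro ⟨b, hb⟩
    exact (mem_idm.1 hb).1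
  · intro h
    exact ⟨a, mem_idm.2 ⟨h, rfl⟩⟩

theorem rn_idm (s : IPow M α) : rn (idm s) = s := by
  refine IPow.ext' fun a => ?_
  rw [mem_rn]
  constructor
  · rintro ⟨b, hb⟩
    have h := mem_idm.1 hb
    have h2 : b = a := h.2
    rw [← h2]
    exact h.1
  · intro h
    exact ⟨a, mem_idm.2 ⟨h, rfl⟩⟩

theorem dm_insert (a b : α) (s : IPow M (α × α)) : dm (insert (a, b) s) = insert a (dm s) := by
  refine IPow.ext' fun x => ?_
  rw [mem_dm, mem_insert, mem_dm]
  constructor
  · rintro ⟨y, hy⟩
    rcases mem_insert.1 hy with h | h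
    · exact Or.inl (congrArg Prod.fst h)
    · exact Or.inr ⟨y, h⟩
  · rintro (h | ⟨y, h⟩)
    · exact ⟨b, mem_insert.2 (Or.inl (by rw [h]))⟩
    · exact ⟨y, mem_insert.2 (Or.inr h)⟩

theorem rn_insert (a b : α) (s : IPow M (α × α)) : rn (insert (a, b) s) = insert b (rn s) := by
  refine IPow.ext' fun x => ?_
  rw [mem_rn, mem_insert, mem_rn]
  constructor
  · rintro ⟨y, hy⟩
    rcases mem_insert.1 hy with h | h
    · exact Or.inl (congrArg Prod.snd h)
    · exact Or.inr ⟨y, h⟩
  · rintro (h | ⟨y, h⟩)
    · exact ⟨a, mem_insert.2 (Or.inl (by rw [h]))⟩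
    · exact ⟨y, mem_insert.2 (Or.inr h)⟩

theorem mem_ivr' {σ : IPow M (α × α)} {a b : α} : (a, b) ∈ ivr σ ↔ (b, a) ∈ σ := mem_ivr

theorem dm_ivr (σ : IPow M (α × α)) : dm (ivr σ) = rn σ := by
  refine IPow.ext' fun a => ?_
  rw [mem_dm, mem_rn]
  exact exists_congr fun b => mem_ivr

theorem rn_ivr (σ : IPow M (α × α)) : rn (ivr σ) = dm σ := by
  refine IPow.ext' fun a => ?_
  rw [mem_dm, mem_rn]
  exact exists_congr fun b => mem_ivr

section

variable {Γ : IPow M (IPow M (α × α))} {D : IPow M α}

/-- Between any two blocks there is a map in `Γ`. -/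
theorem exists_block (H : HSys Γ) (hc : ClP Γ) (hD : IFin D) (hcD : cl Γ D = D) {x x0 : α}
    (hx : x ∉ D) (hx0 : x0 ∉ D) : ∃ h : IPow M (α × α), idm D ∪ h ∈ Γ ∧ dm h = Bk Γ D x ∧
      rn h = Bk Γ D x0 := by
  have h1 : insert (x, x0) (idm D) ∈ Γ := H.gen (idm D) x x0 (H.idm D hD)
    (by rw [dm_idm, hcD]; exact hx) (by rw [rn_idm, hcD]; exact hx0)
  obtain ⟨τ, hτ, hs, hd, hr⟩ := hc.extcl _ h1
  rw [dm_insert, dm_idm] at hd
  rw [rn_insert, rn_idm] at hr
  have hdd : ∀ a, a ∈ D → (a, a) ∈ τ := fun a ha =>
    hs _ (mem_insert.2 (Or.inr (mem_idm.2 ⟨ha, rfl⟩)))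
  have hm : ∀ p : α × α, p ∈ (sep M fun p : α × α => p ∈ τ ∧ p.1 ∉ D) ↔ p ∈ τ ∧ p.1 ∉ D :=
    fun p => mem_sep (by
        (repeat' first
          | (with_reducible assumption)
          | (with_reducible exact IntF.id) | (with_reducible exact IntF.fst')
          | (with_reducible exact IntF.snd') | (with_reducible exact IntF.const _)
          | (with_reducible exact Int.const _)
          | (with_reducible apply IntF.fst) | (with_reducible apply IntF.snd)
          | (with_reducible apply Int.and) | (with_reducible apply Int.or) | (with_reducible apply Int.not)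
          | (with_reducible apply Int.ne) | (with_reducible apply Int.iff) | (with_reducible apply Int.imp)
          | (with_reducible apply Int.ex) | (with_reducible apply Int.all) | (with_reducible apply Int.eq)
          | (with_reducible apply Int.mem) | (with_reducible apply Int.subset) | (with_reducible apply Int.fin)
          | (with_reducible_and_instances apply Int.leN) | (with_reducible_and_instances apply Int.ltN)
          | (with_reducible apply IntF.pair) | (with_reducible apply IntF.succ) | (with_reducible apply IntF.sep)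
          | (with_reducible apply IntF.insert) | (with_reducible apply IntF.singleton)
          | (with_reducible apply IntF.union) | (with_reducible apply IntF.inter) | (with_reducible apply IntF.sdiff)
          | (with_reducible apply int_dm) | (with_reducible apply int_rn) | (with_reducible apply int_idm)
          | (with_reducible apply int_ivr) | (with_reducible apply int_cmp) | (with_reducible apply int_img)
          | (with_reducible apply int_cl) | (with_reducible apply int_Bk)
          | (with_reducible ((refine IntF.comp₂ ?_ ?_ ?_); assumption))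
          | (with_reducible ((refine Int.comp₂ ?_ ?_ ?_); assumption))
          | (with_reducible ((refine IntF.comp ?_ ?_); assumption))
          | (with_reducible ((refine Int.comp ?_ ?_); assumption))
          | (with_reducible apply IntF.app)))
  refine ⟨sep M fun p : α × α => p ∈ τ ∧ p.1 ∉ D, ?_, ?_, ?_⟩
  · refine H.sub τ _ hτ fun p hp => ?_
    rcases mem_union.1 hp with h | h
    · obtain ⟨a, b⟩ := p
      have h2 := mem_idm.1 h
      have h3 : a = b := h2.2
      rw [← h3]
      exact hdd a h2.1
    · exact ((hm p).1 h).1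
  · refine IPow.ext' fun a => ?_
    rw [mem_dm, mem_Bk, ← hd, mem_dm]
    constructor
    · rintro ⟨b, hb⟩
      exact ⟨⟨b, ((hm _).1 hb).1⟩, ((hm _).1 hb).2⟩
    · rintro ⟨⟨b, hb⟩, h⟩
      exact ⟨b, (hm _).2 ⟨hb, h⟩⟩
  · refine IPow.ext' fun b => ?_
    rw [mem_rn, mem_Bk, ← hr, mem_rn]
    constructor
    · rintro ⟨a, ha⟩
      refine ⟨⟨a, ((hm _).1 ha).1⟩, fun hb => ?_⟩
      have h4 : a = b := (H.inj τ hτ a b b b ((hm _).1 ha).1 (hdd b hb)).2 rfl
      exact ((hm _).1 ha).2 (by rw [show (a, b).1 = b from h4]; exact hb)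
    · rintro ⟨⟨a, ha⟩, h⟩
      refine ⟨a, (hm _).2 ⟨ha, fun haD => h ?_⟩⟩
      have h4 : a = b := (H.inj τ hτ a a a b (hdd a haD) ha).1 rfl
      rw [← h4]
      exact haD

/-- Composition of block maps. -/
theorem cmp_block (H : HSys Γ) {g k : IPow M (α × α)} {A B C : IPow M α} (hg : idm D ∪ g ∈ Γ)
    (hk : idm D ∪ k ∈ Γ) (h1 : dm g = A) (h2 : rn g = B) (h3 : dm k = B) (h4 : rn k = C) :
    idm D ∪ cmp g k ∈ Γ ∧ dm (cmp g k) = A ∧ rn (cmp g k) = C := by
  refine ⟨?_, ?_, ?_⟩
  · refine H.sub _ _ (H.cmp _ _ hg hk) fun p hp => ?_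
    obtain ⟨a, b⟩ := p
    rw [mem_cmp]
    rcases mem_union.1 hp with h | h
    · have h5 := mem_idm.1 h
      have h6 : a = b := h5.2
      subst h6
      exact ⟨a, mem_union.2 (Or.inl (mem_idm.2 ⟨h5.1, rfl⟩)),
        mem_union.2 (Or.inl (mem_idm.2 ⟨h5.1, rfl⟩))⟩
    · obtain ⟨c, hc1, hc2⟩ := mem_cmp.1 h
      exact ⟨c, mem_union.2 (Or.inr hc1), mem_union.2 (Or.inr hc2)⟩
  · refine IPow.ext' fun a => ?_
    rw [mem_dm, ← h1, mem_dm]
    constructor
    · rintro ⟨b, hb⟩
      obtain ⟨c, hc1, hc2⟩ := mem_cmp.1 hb
      exact ⟨c, hc1⟩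
    · rintro ⟨c, hc⟩
      have h5 : c ∈ dm k := by rw [h3, ← h2]; exact mem_rn.2 ⟨a, hc⟩
      obtain ⟨b, hb⟩ := mem_dm.1 h5
      exact ⟨b, mem_cmp.2 ⟨c, hc, hb⟩⟩
  · refine IPow.ext' fun b => ?_
    rw [mem_rn, ← h4, mem_rn]
    constructor
    · rintro ⟨a, ha⟩
      obtain ⟨c, hc1, hc2⟩ := mem_cmp.1 ha
      exact ⟨c, hc2⟩
    · rintro ⟨c, hc⟩
      have h5 : c ∈ rn g := by rw [h2, ← h3]; exact mem_dm.2 ⟨b, hc⟩
      obtain ⟨a, ha⟩ := mem_rn.1 h5
      exact ⟨a, mem_cmp.2 ⟨c, ha, hc⟩⟩

theorem ivr_block (H : HSys Γ) {g : IPow M (α × α)} (hg : idm D ∪ g ∈ Γ) :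
    idm D ∪ ivr g ∈ Γ := by
  refine H.sub _ _ (H.ivr _ hg) fun p hp => ?_
  obtain ⟨a, b⟩ := p
  rw [mem_ivr']
  rcases mem_union.1 hp with h | h
  · have h5 := mem_idm.1 h
    have h6 : a = b := h5.2
    subst h6
    exact mem_union.2 (Or.inl (mem_idm.2 ⟨h5.1, rfl⟩))
  · exact mem_union.2 (Or.inr (mem_ivr'.1 h))

theorem trs_mono (H : HSys Γ) {b0 : IPow M α} {Y : IPow M (ν × α)} {x x' : α}
    {g : IPow M (α × α)} (hg : idm D ∪ g ∈ Γ) (h1 : dm g = Bk Γ D x) (h2 : rn g = Bk Γ D x')
    (hY : ∀ v a b, (a, b) ∈ g → ((v, a) ∈ Y ↔ (v, b) ∈ Y)) {t : IPow M (ν × α)}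
    (ht : t ∈ trs Γ D b0 Y x) : t ∈ trs Γ D b0 Y x' := by
  obtain ⟨k, hk, hk1, hk2, hk3⟩ := mem_trs.1 ht
  have hi := ivr_block H hg
  obtain ⟨ha, hb, hc⟩ := cmp_block H hi hk (by rw [dm_ivr, h2]) (by rw [rn_ivr, h1]) hk1 hk2
  refine mem_trs.2 ⟨_, ha, hb, hc, fun v c => ?_⟩
  rw [hk3]
  constructor
  · rintro ⟨a, hac, hva⟩
    have h5 : a ∈ dm g := by rw [h1, ← hk1]; exact mem_dm.2 ⟨c, hac⟩
    obtain ⟨b, hab⟩ := mem_dm.1 h5
    exact ⟨b, mem_cmp.2 ⟨a, mem_ivr'.2 hab, hac⟩, (hY v a b hab).1 hva⟩
  · rintro ⟨b, hbc, hvb⟩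
    obtain ⟨a, ha1, ha2⟩ := mem_cmp.1 hbc
    exact ⟨a, ha2, (hY v a b (mem_ivr'.1 ha1)).2 hvb⟩

/-- Elements of one block belong to the same closed sets. -/
theorem mem_closed_iff (hc : ClP Γ) (hdeg : DegP Γ) (hD : IFin D) (hcD : cl Γ D = D)
    {T : IPow M α} (hT : cl Γ T = T) (hDT : D ⊆ T) {x y : α} (hx : x ∉ D) (hy : y ∈ Bk Γ D x) :
    x ∈ T ↔ y ∈ T := by
  have key : ∀ a b, b ∈ Bk Γ D a → a ∈ T → b ∈ T := by
    intro a b hb ha
    have h1 : insert a D ⊆ T := by
      intro z hz
      rcases mem_insert.1 hz with h | h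
      · rw [h]; exact ha
      · exact hDT z h
    rw [← hT]
    exact hc.mono _ _ h1 b (mem_Bk.1 hb).1
  refine ⟨key x y hy, key y x ?_⟩
  rw [hdeg.eq D x y hD hcD hx hy]
  exact hdeg.self D x hcD hx

theorem union_comm_mem {p : α × α} {s t : IPow M (α × α)} : p ∈ s ∪ t ↔ p ∈ t ∪ s := by
  rw [mem_union, mem_union, or_comm]

/-- The main lemma. -/
theorem rho_key (H : HSys Γ) (hc : ClP Γ) (hdeg : DegP Γ)
    {f : IPow M (ν × α) → IPow M (ν × α)} (hcf : Cpt Γ f) (hsp : SpP Γ f) (hD : IFin D)
    (hcD : cl Γ D = D) (hsw : Swap Γ D) {x0 : α} (hx0 : x0 ∉ D) {X : IPow M (ν × α)}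
    (hTT : cl Γ (D ∪ sp (f X)) ⊆ cl Γ (D ∪ sp X)) {x x' : α} (hx : x ∈ cl Γ (D ∪ sp X))
    (hx' : x' ∈ cl Γ (D ∪ sp X)) (hxD : x ∉ D) (hxD' : x' ∉ D)
    (ht : trs Γ D (Bk Γ D x0) X x = trs Γ D (Bk Γ D x0) X x') :
    (x ∈ cl Γ (D ∪ sp (f X)) ↔ x' ∈ cl Γ (D ∪ sp (f X))) ∧
      trs Γ D (Bk Γ D x0) (f X) x = trs Γ D (Bk Γ D x0) (f X) x' := by
  have hfs : ∀ Z : IPow M (ν × α), IFin (D ∪ sp Z) := fun Z => hD.union (hsp.fin Z)
  have hDs : ∀ Z : IPow M (ν × α), D ⊆ cl Γ (D ∪ sp Z) := fun Z a ha =>
    hc.sub _ a (mem_union.2 (Or.inl ha))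
  have hss : ∀ Z : IPow M (ν × α), sp Z ⊆ cl Γ (D ∪ sp Z) := fun Z a ha =>
    hc.sub _ a (mem_union.2 (Or.inr ha))
  by_cases hxx : x' ∈ Bk Γ D x
  · refine ⟨mem_closed_iff hc hdeg hD hcD (hc.idem _ (hfs _)) (hDs _) hxD hxx, ?_⟩
    refine IPow.ext' fun t => ?_
    rw [mem_trs, mem_trs, hdeg.eq D x x' hD hcD hxD hxx]
  obtain ⟨h0, h01, h02, h03⟩ := exists_block H hc hD hcD hxD hx0
  have hm : ∀ p : ν × α, p ∈ (sep M fun p : ν × α => ∃ a, (a, p.2) ∈ h0 ∧ (p.1, a) ∈ X) ↔
      ∃ a, (a, p.2) ∈ h0 ∧ (p.1, a) ∈ X := fun p => mem_sep (by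
          (repeat' first
            | (with_reducible assumption)
            | (with_reducible exact IntF.id) | (with_reducible exact IntF.fst')
            | (with_reducible exact IntF.snd') | (with_reducible exact IntF.const _)
            | (with_reducible exact Int.const _)
            | (with_reducible apply IntF.fst) | (with_reducible apply IntF.snd)
            | (with_reducible apply Int.and) | (with_reducible apply Int.or) | (with_reducible apply Int.not)
            | (with_reducible apply Int.ne) | (with_reducible apply Int.iff) | (with_reducible apply Int.imp)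
            | (with_reducible apply Int.ex) | (with_reducible apply Int.all) | (with_reducible apply Int.eq)
            | (with_reducible apply Int.mem) | (with_reducible apply Int.subset) | (with_reducible apply Int.fin)
            | (with_reducible_and_instances apply Int.leN) | (with_reducible_and_instances apply Int.ltN)
            | (with_reducible apply IntF.pair) | (with_reducible apply IntF.succ) | (with_reducible apply IntF.sep)
            | (with_reducible apply IntF.insert) | (with_reducible apply IntF.singleton)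
            | (with_reducible apply IntF.union) | (with_reducible apply IntF.inter) | (with_reducible apply IntF.sdiff)
            | (with_reducible apply int_dm) | (with_reducible apply int_rn) | (with_reducible apply int_idm)
            | (with_reducible apply int_ivr) | (with_reducible apply int_cmp) | (with_reducible apply int_img)
            | (with_reducible apply int_cl) | (with_reducible apply int_Bk)
            | (with_reducible ((refine IntF.comp₂ ?_ ?_ ?_); assumption))
            | (with_reducible ((refine Int.comp₂ ?_ ?_ ?_); assumption))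
            | (with_reducible ((refine IntF.comp ?_ ?_); assumption))
            | (with_reducible ((refine Int.comp ?_ ?_); assumption))
            | (with_reducible apply IntF.app)))
  have htr : (sep M fun p : ν × α => ∃ a, (a, p.2) ∈ h0 ∧ (p.1, a) ∈ X) ∈
      trs Γ D (Bk Γ D x0) X x := mem_trs.2 ⟨h0, h01, h02, h03, fun v b => hm (v, b)⟩
  have htr' := htr
  rw [ht] at htr'
  obtain ⟨h, h1, h2, h3, h4⟩ := mem_trs.1 htr
  obtain ⟨h', h1', h2', h3', h4'⟩ := mem_trs.1 htr'
  have hTX : cl Γ (cl Γ (D ∪ sp X)) = cl Γ (D ∪ sp X) := hc.idem _ (hfs X)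
  have hTXf : IFin (cl Γ (D ∪ sp X)) := H.clf _ (hfs X)
  obtain ⟨g1, g2, g3⟩ := cmp_block H h1 (ivr_block H h1') h2 h3 (by rw [dm_ivr, h3'])
    (by rw [rn_ivr, h2'])
  have hgX : ∀ v a b, (a, b) ∈ cmp h (ivr h') → ((v, a) ∈ X ↔ (v, b) ∈ X) := by
    intro v a b hab
    obtain ⟨c, hc1, hc2⟩ := mem_cmp.1 hab
    have hc1' : (a, c) ∈ h := hc1
    have hc2' : (b, c) ∈ h' := mem_ivr'.1 hc2
    have e1 : (v, a) ∈ X ↔ ∃ a', (a', c) ∈ h ∧ (v, a') ∈ X := by
      constructor
      · intro h; exact ⟨a, hc1', h⟩
      · rintro ⟨a', ha', hva⟩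
        have h5 : a' = a := (H.inj _ h1 a' c a c (mem_union.2 (Or.inr ha'))
          (mem_union.2 (Or.inr hc1'))).2 rfl
        rw [← h5]; exact hva
    have e2 : (v, b) ∈ X ↔ ∃ a', (a', c) ∈ h' ∧ (v, a') ∈ X := by
      constructor
      · intro h; exact ⟨b, hc2', h⟩
      · rintro ⟨a', ha', hva⟩
        have h5 : a' = b := (H.inj _ h1' a' c b c (mem_union.2 (Or.inr ha'))
          (mem_union.2 (Or.inr hc2'))).2 rfl
        rw [← h5]; exact hva
    rw [e1, e2, ← h4, ← h4']
  generalize cmp h (ivr h') = g at g1 g2 g3 hgX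
  have hBT : ∀ y, y ∈ cl Γ (D ∪ sp X) → Bk Γ D y ⊆ cl Γ (D ∪ sp X) := by
    intro y hy z hz
    rw [← hTX]
    refine hc.mono _ _ ?_ z (mem_Bk.1 hz).1
    intro w hw
    rcases mem_insert.1 hw with h | h
    · rw [h]; exact hy
    · exact hDs X w h
  have E1f : IFin (cl Γ (D ∪ sp X) \ Bk Γ D x) := hTXf.subset fun z hz => (mem_sdiff.1 hz).1
  have E1c : cl Γ (cl Γ (D ∪ sp X) \ Bk Γ D x) = cl Γ (D ∪ sp X) \ Bk Γ D x :=
    hdeg.rem D _ x hD hTXf hcD hTX (hDs X) hxD
  have E1D : D ⊆ cl Γ (D ∪ sp X) \ Bk Γ D x := fun z hz =>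
    mem_sdiff.2 ⟨hDs X z hz, fun hz' => (mem_Bk.1 hz').2 hz⟩
  have E2f : IFin ((cl Γ (D ∪ sp X) \ Bk Γ D x) \ Bk Γ D x') :=
    E1f.subset fun z hz => (mem_sdiff.1 hz).1
  have E2c : cl Γ ((cl Γ (D ∪ sp X) \ Bk Γ D x) \ Bk Γ D x') =
      (cl Γ (D ∪ sp X) \ Bk Γ D x) \ Bk Γ D x' :=
    hdeg.rem D _ x' hD E1f hcD E1c E1D hxD'
  have E2D : D ⊆ (cl Γ (D ∪ sp X) \ Bk Γ D x) \ Bk Γ D x' := fun z hz =>
    mem_sdiff.2 ⟨E1D z hz, fun hz' => (mem_Bk.1 hz').2 hz⟩
  have hE : ∀ z, z ∈ (cl Γ (D ∪ sp X) \ Bk Γ D x) \ Bk Γ D x' ↔
      z ∈ cl Γ (D ∪ sp X) ∧ z ∉ Bk Γ D x ∧ z ∉ Bk Γ D x' := by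
    intro z
    rw [mem_sdiff, mem_sdiff, and_assoc]
  generalize (cl Γ (D ∪ sp X) \ Bk Γ D x) \ Bk Γ D x' = E at E2f E2c E2D hE
  have hσ : idm E ∪ (g ∪ ivr g) ∈ Γ := hsw E x x' g E2f E2c E2D
    (fun h => ((hE x).1 h).2.1 (hdeg.self D x hcD hxD))
    (fun h => ((hE x').1 h).2.2 (hdeg.self D x' hcD hxD')) hxx g2 g3 g1
  have hσm : ∀ a b, (a, b) ∈ idm E ∪ (g ∪ ivr g) ↔ (a ∈ E ∧ a = b) ∨ (a, b) ∈ g ∨ (b, a) ∈ g := by
    intro a b
    rw [mem_union, mem_union, mem_ivr', mem_idm]
  have hdσ : dm (idm E ∪ (g ∪ ivr g)) = cl Γ (D ∪ sp X) := by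
    refine IPow.ext' fun a => ?_
    rw [mem_dm]
    constructor
    · rintro ⟨b, hb⟩
      rcases (hσm a b).1 hb with h | h | h
      · exact ((hE a).1 h.1).1
      · exact hBT x hx a (by rw [← g2]; exact mem_dm.2 ⟨b, h⟩)
      · exact hBT x' hx' a (by rw [← g3]; exact mem_rn.2 ⟨b, h⟩)
    · intro ha
      by_cases c1 : a ∈ Bk Γ D x
      · rw [← g2] at c1
        obtain ⟨b, hb⟩ := mem_dm.1 c1
        exact ⟨b, (hσm a b).2 (Or.inr (Or.inl hb))⟩
      by_cases c2 : a ∈ Bk Γ D x'
      · rw [← g3] at c2
        obtain ⟨b, hb⟩ := mem_rn.1 c2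
        exact ⟨b, (hσm a b).2 (Or.inr (Or.inr hb))⟩
      exact ⟨a, (hσm a a).2 (Or.inl ⟨(hE a).2 ⟨ha, c1, c2⟩, rfl⟩)⟩
  have hrσ : rn (idm E ∪ (g ∪ ivr g)) = cl Γ (D ∪ sp X) := by
    rw [← hdσ]
    refine IPow.ext' fun a => ?_
    rw [mem_dm, mem_rn]
    refine exists_congr fun b => ?_
    rw [hσm, hσm]
    constructor
    · rintro (⟨h, h'⟩ | h | h)
      · exact Or.inl ⟨by rw [← h']; exact h, h'.symm⟩
      · exact Or.inr (Or.inr h)
      · exact Or.inr (Or.inl h)
    · rintro (⟨h, h'⟩ | h | h)
      · exact Or.inl ⟨by rw [← h']; exact h, h'.symm⟩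
      · exact Or.inr (Or.inr h)
      · exact Or.inr (Or.inl h)
  have hAX : Act (idm E ∪ (g ∪ ivr g)) X X := by
    intro v a b hab
    rcases hab with h | ⟨ha, hb⟩
    · rcases (hσm a b).1 h with h | h | h
      · rw [h.2]
      · exact hgX v a b h
      · exact (hgX v b a h).symm
    · rw [hdσ] at ha
      rw [hrσ] at hb
      exact hsp.out X v a b (fun h => ha (hss X a h)) (fun h => hb (hss X b h))
  have hsY : sp (f X) ⊆ dm (idm E ∪ (g ∪ ivr g)) := fun a ha => by
    rw [hdσ]; exact hTT a (hss (f X) a ha)
  obtain ⟨Y', hY'⟩ := hsp.act _ (f X) hσ hsY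
  have hYY : f X = Y' := (hcf _ hσ X X (f X) Y' hAX hY').1 rfl
  rw [← hYY] at hY'
  have hgY : ∀ v a b, (a, b) ∈ g → ((v, a) ∈ f X ↔ (v, b) ∈ f X) := fun v a b hab =>
    hY' v a b (Or.inl ((hσm a b).2 (Or.inr (Or.inl hab))))
  refine ⟨?_, ?_⟩
  · have hgx : x ∈ dm g := by rw [g2]; exact hdeg.self D x hcD hxD
    obtain ⟨y, hxy⟩ := mem_dm.1 hgx
    have hy : y ∈ Bk Γ D x' := by rw [← g3]; exact mem_rn.2 ⟨x, hxy⟩
    rw [mem_closed_iff hc hdeg hD hcD (hc.idem _ (hfs (f X))) (hDs (f X)) hxD' hy]
    have hsub : D ∪ sp (f X) ⊆ dm (idm E ∪ (g ∪ ivr g)) := by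
      intro z hz
      rcases mem_union.1 hz with h | h
      · rw [hdσ]; exact hDs X z h
      · exact hsY z h
    have him : img (idm E ∪ (g ∪ ivr g)) (D ∪ sp (f X)) = D ∪ sp (f X) := by
      have hinv : ∀ a b, (a, b) ∈ idm E ∪ (g ∪ ivr g) → (a ∈ D ∪ sp (f X) ↔ b ∈ D ∪ sp (f X)) := by
        intro a b hab
        have i1 : a ∈ sp (f X) ↔ b ∈ sp (f X) := by
          rw [mem_sp, mem_sp]
          refine exists_congr fun v => not_congr (exists_congr fun U => and_congr_right fun hU => ?_)
          rw [hY' v a b (Or.inl hab)]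
        have i2 : a ∈ D ↔ b ∈ D := by
          rcases (hσm a b).1 hab with h | h | h
          · rw [h.2]
          · have j1 : a ∉ D := by
              have : a ∈ Bk Γ D x := by rw [← g2]; exact mem_dm.2 ⟨b, h⟩
              exact (mem_Bk.1 this).2
            have j2 : b ∉ D := by
              have : b ∈ Bk Γ D x' := by rw [← g3]; exact mem_rn.2 ⟨a, h⟩
              exact (mem_Bk.1 this).2
            exact ⟨fun h => absurd h j1, fun h => absurd h j2⟩
          · have j1 : b ∉ D := by
              have : b ∈ Bk Γ D x := by rw [← g2]; exact mem_dm.2 ⟨a, h⟩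
              exact (mem_Bk.1 this).2
            have j2 : a ∉ D := by
              have : a ∈ Bk Γ D x' := by rw [← g3]; exact mem_rn.2 ⟨b, h⟩
              exact (mem_Bk.1 this).2
            exact ⟨fun h => absurd h j2, fun h => absurd h j1⟩
        rw [mem_union, mem_union, i1, i2]
      refine IPow.ext' fun b => ?_
      rw [mem_img]
      constructor
      · rintro ⟨a, ha, hab⟩
        exact (hinv a b hab).1 ha
      · intro hb
        have hb' : b ∈ rn (idm E ∪ (g ∪ ivr g)) := by
          rw [hrσ, ← hdσ]; exact hsub b hb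
        obtain ⟨a, hab⟩ := mem_rn.1 hb'
        exact ⟨a, (hinv a b hab).2 hb, hab⟩
    have := hc.tr _ hσ (D ∪ sp (f X)) hsub x y ((hσm x y).2 (Or.inr (Or.inl hxy)))
    rw [him] at this
    exact this
  · refine IPow.ext' fun t => ?_
    constructor
    · exact fun h => trs_mono H g1 g2 g3 hgY h
    · exact fun h => trs_mono H (ivr_block H g1) (by rw [dm_ivr, g3]) (by rw [rn_ivr, g2])
        (fun v a b hab => (hgY v b a (mem_ivr'.1 hab)).symm) h

end

/-- Piece RHO. -/
theorem rho_main (hC : S_CARD M) : S_RHO M := by
  intro α ν _ _ Γ f hA hν hf H hc hex hdeg hcf hsp D hD hcD hsw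
  obtain ⟨x0, hx0⟩ : ∃ x0, x0 ∉ D := by
    by_contra hn
    refine hA.1 (hD.subset fun a _ => ?_)
    by_contra ha
    exact hn ⟨a, ha⟩
  obtain ⟨c, hcI, hcard⟩ := hC (IPow M (IPow M (ν × α)))
  have hb0 : IFin (Bk Γ D x0) :=
    (H.clf _ (hD.insert x0)).subset fun z hz => (mem_Bk.1 hz).1
  have hBf : IFin (ipow (ipow (iprod (iuniv M ν) (Bk Γ D x0)))) := ((hν.prod hb0).pow).pow
  have hsubB : ∀ (S : IPow M α) (X : IPow M (ν × α)),
      ths Γ D (Bk Γ D x0) S X ⊆ ipow (ipow (iprod (iuniv M ν) (Bk Γ D x0))) := by
    intro S X t ht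
    obtain ⟨x, hx, hxD, rfl⟩ := mem_ths.1 ht
    rw [mem_ipow]
    intro s hs
    rw [mem_ipow]
    obtain ⟨h, h1, h2, h3, h4⟩ := mem_trs.1 hs
    rintro ⟨v, b⟩ hvb
    rw [mem_iprod]
    refine ⟨mem_iuniv.2 trivial, ?_⟩
    obtain ⟨a, ha, _⟩ := (h4 v b).1 hvb
    show b ∈ Bk Γ D x0
    rw [← h3]
    exact mem_rn.2 ⟨a, ha⟩
  have hfs : ∀ Z : IPow M (ν × α), IFin (D ∪ sp Z) := fun Z => hD.union (hsp.fin Z)
  have hDs : ∀ Z : IPow M (ν × α), D ⊆ cl Γ (D ∪ sp Z) := fun Z a ha =>
    hc.sub _ a (mem_union.2 (Or.inl ha))
  have hTT : ∀ X, cl Γ (D ∪ sp (f X)) ⊆ cl Γ (D ∪ sp X) := by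
    intro X z hz
    rw [← hc.idem _ (hfs X)]
    refine hc.mono _ _ ?_ z hz
    intro w hw
    rcases mem_union.1 hw with h | h
    · exact hDs X w h
    · exact hc.mono _ _ (fun a ha => mem_union.2 (Or.inr ha)) w (hsp.f X w h)
  refine ⟨fun X => c (ths Γ D (Bk Γ D x0) (cl Γ (D ∪ sp X)) X),
    c (ipow (ipow (iprod (iuniv M ν) (Bk Γ D x0)))), ?_, ?_, ?_⟩
  · exact (by
      (repeat' first
        | (with_reducible (refine int_ths _ _ _ ?_ ?_))
        | (with_reducible (refine int_sp ?_))
        | (with_reducible assumption)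
        | (with_reducible exact IntF.id) | (with_reducible exact IntF.fst')
        | (with_reducible exact IntF.snd') | (with_reducible exact IntF.const _)
        | (with_reducible exact Int.const _)
        | (with_reducible apply IntF.fst) | (with_reducible apply IntF.snd)
        | (with_reducible apply Int.and) | (with_reducible apply Int.or) | (with_reducible apply Int.not)
        | (with_reducible apply Int.ne) | (with_reducible apply Int.iff) | (with_reducible apply Int.imp)
        | (with_reducible apply Int.ex) | (with_reducible apply Int.all) | (with_reducible apply Int.eq)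
        | (with_reducible apply Int.mem) | (with_reducible apply Int.subset) | (with_reducible apply Int.fin)
        | (with_reducible_and_instances apply Int.leN) | (with_reducible_and_instances apply Int.ltN)
        | (with_reducible apply IntF.pair) | (with_reducible apply IntF.succ) | (with_reducible apply IntF.sep)
        | (with_reducible apply IntF.insert) | (with_reducible apply IntF.singleton)
        | (with_reducible apply IntF.union) | (with_reducible apply IntF.inter) | (with_reducible apply IntF.sdiff)
        | (with_reducible apply int_dm) | (with_reducible apply int_rn) | (with_reducible apply int_idm)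
        | (with_reducible apply int_ivr) | (with_reducible apply int_cmp) | (with_reducible apply int_img)
        | (with_reducible apply int_cl) | (with_reducible apply int_Bk)
        | (with_reducible ((refine IntF.comp₂ ?_ ?_ ?_); assumption))
        | (with_reducible ((refine Int.comp₂ ?_ ?_ ?_); assumption))
        | (with_reducible ((refine IntF.comp ?_ ?_); assumption))
        | (with_reducible ((refine Int.comp ?_ ?_); assumption))
        | (with_reducible apply IntF.app)))
  · intro X
    have hid : ∀ p : IPow M (IPow M (ν × α)) × IPow M (IPow M (ν × α)),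
        p ∈ (sep M fun p : IPow M (IPow M (ν × α)) × IPow M (IPow M (ν × α)) => p.1 = p.2) ↔
          p.1 = p.2 := fun p => mem_sep (by
              (repeat' first
                | (with_reducible assumption)
                | (with_reducible exact IntF.id) | (with_reducible exact IntF.fst')
                | (with_reducible exact IntF.snd') | (with_reducible exact IntF.const _)
                | (with_reducible exact Int.const _)
                | (with_reducible apply IntF.fst) | (with_reducible apply IntF.snd)
                | (with_reducible apply Int.and) | (with_reducible apply Int.or) | (with_reducible apply Int.not)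
                | (with_reducible apply Int.ne) | (with_reducible apply Int.iff) | (with_reducible apply Int.imp)
                | (with_reducible apply Int.ex) | (with_reducible apply Int.all) | (with_reducible apply Int.eq)
                | (with_reducible apply Int.mem) | (with_reducible apply Int.subset) | (with_reducible apply Int.fin)
                | (with_reducible_and_instances apply Int.leN) | (with_reducible_and_instances apply Int.ltN)
                | (with_reducible apply IntF.pair) | (with_reducible apply IntF.succ) | (with_reducible apply IntF.sep)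
                | (with_reducible apply IntF.insert) | (with_reducible apply IntF.singleton)
                | (with_reducible apply IntF.union) | (with_reducible apply IntF.inter) | (with_reducible apply IntF.sdiff)
                | (with_reducible apply int_dm) | (with_reducible apply int_rn) | (with_reducible apply int_idm)
                | (with_reducible apply int_ivr) | (with_reducible apply int_cmp) | (with_reducible apply int_img)
                | (with_reducible apply int_cl) | (with_reducible apply int_Bk)
                | (with_reducible ((refine IntF.comp₂ ?_ ?_ ?_); assumption))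
                | (with_reducible ((refine Int.comp₂ ?_ ?_ ?_); assumption))
                | (with_reducible ((refine IntF.comp ?_ ?_); assumption))
                | (with_reducible ((refine Int.comp ?_ ?_); assumption))
                | (with_reducible apply IntF.app)))
    refine (hcard _ (ths Γ D (Bk Γ D x0) (cl Γ (D ∪ sp X)) X) _
      (sep M fun p : IPow M (IPow M (ν × α)) × IPow M (IPow M (ν × α)) => p.1 = p.2) hBf
      (hsubB _ X) (fun y hy => ⟨y, hy, (hid _).2 rfl⟩) ?_).1
    intro a b b' ha hb hb'
    have e1 : a = b := (hid _).1 hb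
    have e2 : a = b' := (hid _).1 hb'
    rw [← e1, ← e2]
  · intro X
    have hφ : ∀ p : IPow M (IPow M (ν × α)) × IPow M (IPow M (ν × α)),
        p ∈ (sep M fun p : IPow M (IPow M (ν × α)) × IPow M (IPow M (ν × α)) =>
          ∃ x, x ∈ cl Γ (D ∪ sp (f X)) ∧ x ∉ D ∧ p.1 = trs Γ D (Bk Γ D x0) X x ∧
            p.2 = trs Γ D (Bk Γ D x0) (f X) x) ↔
          ∃ x, x ∈ cl Γ (D ∪ sp (f X)) ∧ x ∉ D ∧ p.1 = trs Γ D (Bk Γ D x0) X x ∧
            p.2 = trs Γ D (Bk Γ D x0) (f X) x := fun p => mem_sep (by
                (repeat' first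
                  | (with_reducible (refine int_trs _ _ _ ?_ ?_))
                  | (with_reducible assumption)
                  | (with_reducible exact IntF.id) | (with_reducible exact IntF.fst')
                  | (with_reducible exact IntF.snd') | (with_reducible exact IntF.const _)
                  | (with_reducible exact Int.const _)
                  | (with_reducible apply IntF.fst) | (with_reducible apply IntF.snd)
                  | (with_reducible apply Int.and) | (with_reducible apply Int.or) | (with_reducible apply Int.not)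
                  | (with_reducible apply Int.ne) | (with_reducible apply Int.iff) | (with_reducible apply Int.imp)
                  | (with_reducible apply Int.ex) | (with_reducible apply Int.all) | (with_reducible apply Int.eq)
                  | (with_reducible apply Int.mem) | (with_reducible apply Int.subset) | (with_reducible apply Int.fin)
                  | (with_reducible_and_instances apply Int.leN) | (with_reducible_and_instances apply Int.ltN)
                  | (with_reducible apply IntF.pair) | (with_reducible apply IntF.succ) | (with_reducible apply IntF.sep)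
                  | (with_reducible apply IntF.insert) | (with_reducible apply IntF.singleton)
                  | (with_reducible apply IntF.union) | (with_reducible apply IntF.inter) | (with_reducible apply IntF.sdiff)
                  | (with_reducible apply int_dm) | (with_reducible apply int_rn) | (with_reducible apply int_idm)
                  | (with_reducible apply int_ivr) | (with_reducible apply int_cmp) | (with_reducible apply int_img)
                  | (with_reducible apply int_cl) | (with_reducible apply int_Bk)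
                  | (with_reducible ((refine IntF.comp₂ ?_ ?_ ?_); assumption))
                  | (with_reducible ((refine Int.comp₂ ?_ ?_ ?_); assumption))
                  | (with_reducible ((refine IntF.comp ?_ ?_); assumption))
                  | (with_reducible ((refine Int.comp ?_ ?_); assumption))
                  | (with_reducible apply IntF.app)))
    have main := hcard (ths Γ D (Bk Γ D x0) (cl Γ (D ∪ sp X)) X)
      (ths Γ D (Bk Γ D x0) (cl Γ (D ∪ sp (f X))) X)
      (ths Γ D (Bk Γ D x0) (cl Γ (D ∪ sp (f X))) (f X))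
      (sep M fun p : IPow M (IPow M (ν × α)) × IPow M (IPow M (ν × α)) =>
          ∃ x, x ∈ cl Γ (D ∪ sp (f X)) ∧ x ∉ D ∧ p.1 = trs Γ D (Bk Γ D x0) X x ∧
            p.2 = trs Γ D (Bk Γ D x0) (f X) x)
      (hBf.subset (hsubB _ X)) ?_ ?_ ?_
    · refine ⟨main.1, fun he => ?_⟩
      have h5 := main.2 he
      refine IPow.ext' fun z => ⟨hTT X z, fun hz => ?_⟩
      by_cases hzD : z ∈ D
      · exact hDs (f X) z hzD
      have h6 : trs Γ D (Bk Γ D x0) X z ∈ ths Γ D (Bk Γ D x0) (cl Γ (D ∪ sp (f X))) X := by
        rw [h5]
        exact mem_ths.2 ⟨z, hz, hzD, rfl⟩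
      obtain ⟨z', hz', hzD', h7⟩ := mem_ths.1 h6
      exact (rho_key H hc hdeg hcf hsp hD hcD hsw hx0 (hTT X) hz (hTT X z' hz') hzD hzD' h7).1.2 hz'
    · intro t ht
      obtain ⟨x, hx, hxD, hxt⟩ := mem_ths.1 ht
      exact mem_ths.2 ⟨x, hTT X x hx, hxD, hxt⟩
    · intro t ht
      obtain ⟨x, hx, hxD, hxt⟩ := mem_ths.1 ht
      exact ⟨trs Γ D (Bk Γ D x0) X x, mem_ths.2 ⟨x, hx, hxD, rfl⟩, (hφ _).2 ⟨x, hx, hxD, rfl, hxt⟩⟩
    · intro a b b' _ hb hb'
      obtain ⟨x, hx, hxD, e1, e2⟩ := (hφ _).1 hb
      obtain ⟨x', hx', hxD', e1', e2'⟩ := (hφ _).1 hb'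
      have e3 : trs Γ D (Bk Γ D x0) X x = trs Γ D (Bk Γ D x0) X x' := by
        have a1 : a = trs Γ D (Bk Γ D x0) X x := e1
        have a2 : a = trs Γ D (Bk Γ D x0) X x' := e1'
        rw [← a1, ← a2]
      have e4 := (rho_key H hc hdeg hcf hsp hD hcD hsw hx0 (hTT X) (hTT X x hx) (hTT X x' hx')
        hxD hxD' e3).2
      have a1 : b = trs Γ D (Bk Γ D x0) (f X) x := e2
      have a2 : b' = trs Γ D (Bk Γ D x0) (f X) x' := e2'
      rw [a1, a2, e4]

end Pool.Agent.R602.AM
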