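import Pool.Agent.R602.AM.Stm

/-!
# Piece RP: symmetry, transitivity, monotonicity and reindexing of the relations `R k`
-/

set_option autoImplicit false
set_option linter.all false

namespace Pool.Agent.R602.AM

open FirstOrder FirstOrder.Language Pool.Agent.Helper672.ZFA

universe u

variable {M : Type u} [L.Structure M] [hM : IsModel M] {α β γ ν : Type u}
  [ITy M α] [ITy M β] [ITy M γ] [ITy M ν]

/-- The same pattern of equalities. -/
def Pat (n : INat M) (s t : IFun M (INat M) α) : Prop :=
  ∀ i j, i < n → j < n → (s i = s j ↔ t i = t j)

/-- Replace the value `c` by `d` in a tuple. -/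
theorem exists_repl (t : IFun M (INat M) α) (c d : α) :
    ∃ t' : IFun M (INat M) α, (∀ i, t i = c → t' i = d) ∧ ∀ i, t i ≠ c → t' i = t i := by
  classical
  have ht : IntF M (fun i => t i) := t.int
  have h1 : Int M (fun i : INat M => t i = c) := (by
      (repeat' first
        | (with_reducible assumption)
        | (with_reducible exact IntF.id) | (with_reducible exact IntF.fst')
        | (with_reducible exact IntF.snd') | (with_reducible exact IntF.const _)
        | (with_reducible exact Int.const _)
        | (with_reducible apply IntF.fst) | (with_reducible apply IntF.snd)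
        | (with_reducible apply Int.and) | (with_reducible apply Int.or) | (with_reducible apply Int.not)
        | (with_reducible apply Int.ne) | (with_reducible apply Int.iff) | (with_reducible apply Int.imp)
        | (with_reducible apply Int.ex) | (with_reducible apply Int.all) | (with_reducible apply Int.eq)
        | (with_reducible apply Int.mem) | (with_reducible apply Int.subset) | (with_reducible apply Int.fin)
        | (with_reducible_and_instances apply Int.leN) | (with_reducible_and_instances apply Int.ltN)
        | (with_reducible apply IntF.pair) | (with_reducible apply IntF.succ) | (with_reducible apply IntF.sep)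
        | (with_reducible apply IntF.insert) | (with_reducible apply IntF.singleton)
        | (with_reducible apply IntF.union) | (with_reducible apply IntF.inter) | (with_reducible apply IntF.sdiff)
        | (with_reducible apply int_dm) | (with_reducible apply int_rn) | (with_reducible apply int_idm)
        | (with_reducible apply int_ivr) | (with_reducible apply int_cmp) | (with_reducible apply int_img)
        | (with_reducible apply int_cl) | (with_reducible apply int_Bk)
        | (with_reducible ((refine IntF.comp₂ ?_ ?_ ?_); assumption))
        | (with_reducible ((refine Int.comp₂ ?_ ?_ ?_); assumption))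
        | (with_reducible ((refine IntF.comp ?_ ?_); assumption))
        | (with_reducible ((refine Int.comp ?_ ?_); assumption))
        | (with_reducible apply IntF.app)))
  have h2 : IntF M (fun _ : INat M => d) := (by
      (repeat' first
        | (with_reducible assumption)
        | (with_reducible exact IntF.id) | (with_reducible exact IntF.fst')
        | (with_reducible exact IntF.snd') | (with_reducible exact IntF.const _)
        | (with_reducible exact Int.const _)
        | (with_reducible apply IntF.fst) | (with_reducible apply IntF.snd)
        | (with_reducible apply Int.and) | (with_reducible apply Int.or) | (with_reducible apply Int.not)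
        | (with_reducible apply Int.ne) | (with_reducible apply Int.iff) | (with_reducible apply Int.imp)
        | (with_reducible apply Int.ex) | (with_reducible apply Int.all) | (with_reducible apply Int.eq)
        | (with_reducible apply Int.mem) | (with_reducible apply Int.subset) | (with_reducible apply Int.fin)
        | (with_reducible_and_instances apply Int.leN) | (with_reducible_and_instances apply Int.ltN)
        | (with_reducible apply IntF.pair) | (with_reducible apply IntF.succ) | (with_reducible apply IntF.sep)
        | (with_reducible apply IntF.insert) | (with_reducible apply IntF.singleton)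
        | (with_reducible apply IntF.union) | (with_reducible apply IntF.inter) | (with_reducible apply IntF.sdiff)
        | (with_reducible apply int_dm) | (with_reducible apply int_rn) | (with_reducible apply int_idm)
        | (with_reducible apply int_ivr) | (with_reducible apply int_cmp) | (with_reducible apply int_img)
        | (with_reducible apply int_cl) | (with_reducible apply int_Bk)
        | (with_reducible ((refine IntF.comp₂ ?_ ?_ ?_); assumption))
        | (with_reducible ((refine Int.comp₂ ?_ ?_ ?_); assumption))
        | (with_reducible ((refine IntF.comp ?_ ?_); assumption))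
        | (with_reducible ((refine Int.comp ?_ ?_); assumption))
        | (with_reducible apply IntF.app)))
  refine ⟨⟨fun i => if t i = c then d else t i, IntF.ite h1 h2 t.int⟩, fun i h => ?_, fun i h => ?_⟩
  · exact if_pos h
  · exact if_neg h

/-- The pigeonhole principle. -/
theorem pig : ∀ (n : INat M) (s t : IFun M (INat M) α) (S : IPow M α), Pat n s t →
    (∀ i, i < n → s i ∈ S) → (∀ a, a ∈ S → ∃ i, i < n ∧ a = t i) →
    ∀ a, a ∈ S → ∃ i, i < n ∧ a = s i := by
  intro n
  refine INat.ind (p := fun n => ∀ (s t : IFun M (INat M) α) (S : IPow M α), Pat n s t →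
    (∀ i, i < n → s i ∈ S) → (∀ a, a ∈ S → ∃ i, i < n ∧ a = t i) →
    ∀ a, a ∈ S → ∃ i, i < n ∧ a = s i) ?_ ?_ ?_ n
  · unfold Pat
    exact (by
        (repeat' first
          | (with_reducible assumption)
          | (with_reducible exact IntF.id) | (with_reducible exact IntF.fst')
          | (with_reducible exact IntF.snd') | (with_reducible exact IntF.const _)
          | (with_reducible exact Int.const _)
          | (with_reducible apply IntF.fst) | (with_reducible apply IntF.snd)
          | (with_reducible apply Int.and) | (with_reducible apply Int.or) | (with_reducible apply Int.not)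
          | (with_reducible apply Int.ne) | (with_reducible apply Int.iff) | (with_reducible apply Int.imp)
          | (with_reducible apply Int.ex) | (with_reducible apply Int.all) | (with_reducible apply Int.eq)
          | (with_reducible apply Int.mem) | (with_reducible apply Int.subset) | (with_reducible apply Int.fin)
          | (with_reducible_and_instances apply Int.leN) | (with_reducible_and_instances apply Int.ltN)
          | (with_reducible apply IntF.pair) | (with_reducible apply IntF.succ) | (with_reducible apply IntF.sep)
          | (with_reducible apply IntF.insert) | (with_reducible apply IntF.singleton)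
          | (with_reducible apply IntF.union) | (with_reducible apply IntF.inter) | (with_reducible apply IntF.sdiff)
          | (with_reducible apply int_dm) | (with_reducible apply int_rn) | (with_reducible apply int_idm)
          | (with_reducible apply int_ivr) | (with_reducible apply int_cmp) | (with_reducible apply int_img)
          | (with_reducible apply int_cl) | (with_reducible apply int_Bk)
          | (with_reducible ((refine IntF.comp₂ ?_ ?_ ?_); assumption))
          | (with_reducible ((refine Int.comp₂ ?_ ?_ ?_); assumption))
          | (with_reducible ((refine IntF.comp ?_ ?_); assumption))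
          | (with_reducible ((refine Int.comp ?_ ?_); assumption))
          | (with_reducible apply IntF.app)))
  · intro s t S _ _ h a ha
    obtain ⟨i, hi, _⟩ := h a ha
    exact absurd hi INat.not_lt_zero
  · intro n IH s t S hP hs ht a ha
    have lts : ∀ {i : INat M}, i < n → i < n.succ := fun h => h.trans (INat.lt_succ_self n)
    have hlt : ∀ i : INat M, i < n.succ → i ≠ n → i < n := fun i h h' =>
      lt_of_le_of_ne (INat.lt_succ_iff.1 h) h'
    have hP' : Pat n s t := fun i j hi hj => hP i j (lts hi) (lts hj)
    by_cases hrep : ∃ i, i < n ∧ s n = s i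
    · obtain ⟨i0, hi0, he⟩ := hrep
      have he' : t n = t i0 := (hP n i0 (INat.lt_succ_self n) (lts hi0)).1 he
      obtain ⟨i, hi, hai⟩ := IH s t S hP' (fun i hi => hs i (lts hi)) (fun b hb => by
        obtain ⟨j, hj, hbj⟩ := ht b hb
        by_cases hjn : j = n
        · exact ⟨i0, hi0, by rw [hbj, hjn, he']⟩
        · exact ⟨j, hlt j hj hjn, hbj⟩) a ha
      exact ⟨i, lts hi, hai⟩
    · have hsn : ∀ i, i < n → s n ≠ s i := fun i hi h => hrep ⟨i, hi, h⟩
      have htn : ∀ i, i < n → t n ≠ t i := fun i hi h =>
        hsn i hi ((hP n i (INat.lt_succ_self n) (lts hi)).2 h)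
      by_cases han : a = s n
      · exact ⟨n, INat.lt_succ_self n, han⟩
      obtain ⟨t', ht1, ht2⟩ := exists_repl t (s n) (t n)
      have hm : ∀ b, b ∈ S \ {s n} ↔ b ∈ S ∧ b ≠ s n := fun b => by
        rw [mem_sdiff, mem_singleton]
      obtain ⟨i, hi, hai⟩ := IH s t' (S \ {s n}) (fun i j hi hj => by
        rw [hP' i j hi hj]
        by_cases h1 : t i = s n
        · by_cases h2 : t j = s n
          · rw [ht1 i h1, ht1 j h2, h1, h2]
            exact iff_of_true rfl rfl
          · rw [ht1 i h1, ht2 j h2, h1]
            exact ⟨fun h => absurd h.symm h2, fun h => absurd h (htn j hj)⟩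
        · by_cases h2 : t j = s n
          · rw [ht2 i h1, ht1 j h2, h2]
            exact ⟨fun h => absurd h h1, fun h => absurd h.symm (htn i hi)⟩
          · rw [ht2 i h1, ht2 j h2]) (fun i hi => (hm _).2 ⟨hs i (lts hi), (hsn i hi).symm⟩)
        (fun b hb => by
          obtain ⟨hb1, hb2⟩ := (hm b).1 hb
          obtain ⟨j, hj, hbj⟩ := ht b hb1
          by_cases hjn : j = n
          · obtain ⟨j', hj', hsj⟩ := ht (s n) (hs n (INat.lt_succ_self n))
            have hjn' : j' ≠ n := by
              rintro rfl
              exact hb2 (by rw [hbj, hjn, ← hsj])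
            exact ⟨j', hlt j' hj' hjn', by rw [ht1 j' hsj.symm, hbj, hjn]⟩
          · exact ⟨j, hlt j hj hjn, by rw [ht2 j (by rw [← hbj]; exact hb2), ← hbj]⟩) a
        ((hm a).2 ⟨ha, han⟩)
      exact ⟨i, lts hi, hai⟩

/-- If some element is outside of `s`, then some element is outside of `t`. -/
theorem out_of {n : INat M} {s t : IFun M (INat M) α} (h : Pat n s t) {a : α}
    (ha : ∀ i, i < n → a ≠ s i) : ∃ b, ∀ i, i < n → b ≠ t i := by
  by_contra hc
  push Not at hc
  obtain ⟨i, hi, hai⟩ := pig n s t (iuniv M α) h (fun i _ => mem_iuniv.2 trivial)
    (fun b _ => hc b) a (mem_iuniv.2 trivial)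
  exact ha i hi hai

theorem Pat.symm {n : INat M} {s t : IFun M (INat M) α} (h : Pat n s t) : Pat n t s :=
  fun i j hi hj => (h i j hi hj).symm

theorem Pat.trans {n : INat M} {s t r : IFun M (INat M) α} (h : Pat n s t) (h' : Pat n t r) :
    Pat n s r :=
  fun i j hi hj => (h i j hi hj).trans (h' i j hi hj)

theorem mid {n : INat M} {s s' s'' : IFun M (INat M) α} (h : Pat n s s') (h' : Pat n s' s'')
    {X X'' : IPow M (ν × α)} (hX : ActT n s s'' X X'') :
    ∃ X', ActT n s s' X X' ∧ ActT n s' s'' X' X'' := by
  have hI : Int M (fun p : ν × α => (∃ i, i < n ∧ p.2 = s' i ∧ (p.1, s i) ∈ X) ∨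
    ((∀ i, i < n → p.2 ≠ s' i) ∧ ∃ a, (∀ i, i < n → a ≠ s i) ∧ (p.1, a) ∈ X)) := (by
        (repeat' first
          | (with_reducible assumption)
          | (with_reducible exact IntF.id) | (with_reducible exact IntF.fst')
          | (with_reducible exact IntF.snd') | (with_reducible exact IntF.const _)
          | (with_reducible exact Int.const _)
          | (with_reducible apply IntF.fst) | (with_reducible apply IntF.snd)
          | (with_reducible apply Int.and) | (with_reducible apply Int.or) | (with_reducible apply Int.not)
          | (with_reducible apply Int.ne) | (with_reducible apply Int.iff) | (with_reducible apply Int.imp)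
          | (with_reducible apply Int.ex) | (with_reducible apply Int.all) | (with_reducible apply Int.eq)
          | (with_reducible apply Int.mem) | (with_reducible apply Int.subset) | (with_reducible apply Int.fin)
          | (with_reducible_and_instances apply Int.leN) | (with_reducible_and_instances apply Int.ltN)
          | (with_reducible apply IntF.pair) | (with_reducible apply IntF.succ) | (with_reducible apply IntF.sep)
          | (with_reducible apply IntF.insert) | (with_reducible apply IntF.singleton)
          | (with_reducible apply IntF.union) | (with_reducible apply IntF.inter) | (with_reducible apply IntF.sdiff)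
          | (with_reducible apply int_dm) | (with_reducible apply int_rn) | (with_reducible apply int_idm)
          | (with_reducible apply int_ivr) | (with_reducible apply int_cmp) | (with_reducible apply int_img)
          | (with_reducible apply int_cl) | (with_reducible apply int_Bk)
          | (with_reducible ((refine IntF.comp₂ ?_ ?_ ?_); assumption))
          | (with_reducible ((refine Int.comp₂ ?_ ?_ ?_); assumption))
          | (with_reducible ((refine IntF.comp ?_ ?_); assumption))
          | (with_reducible ((refine Int.comp ?_ ?_); assumption))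
          | (with_reducible apply IntF.app)))
  have hC : ∀ v a a', (∀ i, i < n → a ≠ s i) → (∀ i, i < n → a' ≠ s i) →
      ((v, a) ∈ X ↔ (v, a') ∈ X) := by
    intro v a a' ha ha'
    obtain ⟨c, hc⟩ := out_of (h.trans h') ha
    exact ((hX v).2 a c ha hc).trans ((hX v).2 a' c ha' hc).symm
  have hm : ∀ v b, (v, b) ∈ sep M (fun p : ν × α => (∃ i, i < n ∧ p.2 = s' i ∧ (p.1, s i) ∈ X) ∨
    ((∀ i, i < n → p.2 ≠ s' i) ∧ ∃ a, (∀ i, i < n → a ≠ s i) ∧ (p.1, a) ∈ X)) ↔
      ((∃ i, i < n ∧ b = s' i ∧ (v, s i) ∈ X) ∨
    ((∀ i, i < n → b ≠ s' i) ∧ ∃ a, (∀ i, i < n → a ≠ s i) ∧ (v, a) ∈ X)) := fun v b => mem_sep hI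
  have h1 : ∀ v i, i < n → ((v, s i) ∈ X ↔ (v, s' i) ∈ sep M (fun p : ν × α =>
      (∃ i, i < n ∧ p.2 = s' i ∧ (p.1, s i) ∈ X) ∨
      ((∀ i, i < n → p.2 ≠ s' i) ∧ ∃ a, (∀ i, i < n → a ≠ s i) ∧ (p.1, a) ∈ X))) := by
    intro v i hi
    rw [hm]
    constructor
    · intro hx
      exact Or.inl ⟨i, hi, rfl, hx⟩
    · rintro (⟨j, hj, he, hx⟩ | ⟨hn, _⟩)
      · rw [(h i j hi hj).2 he]
        exact hx
      · exact absurd rfl (hn i hi)
  have h2 : ∀ v b, (∀ i, i < n → b ≠ s' i) → ((v, b) ∈ sep M (fun p : ν × α =>
      (∃ i, i < n ∧ p.2 = s' i ∧ (p.1, s i) ∈ X) ∨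
      ((∀ i, i < n → p.2 ≠ s' i) ∧ ∃ a, (∀ i, i < n → a ≠ s i) ∧ (p.1, a) ∈ X)) ↔
        ∃ a, (∀ i, i < n → a ≠ s i) ∧ (v, a) ∈ X) := by
    intro v b hb
    rw [hm]
    constructor
    · rintro (⟨j, hj, he, hx⟩ | ⟨_, hx⟩)
      · exact absurd he (hb j hj)
      · exact hx
    · intro hx
      exact Or.inr ⟨hb, hx⟩
  refine ⟨_, fun v => ⟨fun i hi => h1 v i hi, fun a b ha hb => ?_⟩,
    fun v => ⟨fun i hi => (h1 v i hi).symm.trans ((hX v).1 i hi), fun b c hb hc => ?_⟩⟩
  · rw [h2 v b hb]
    constructor
    · intro hx
      exact ⟨a, ha, hx⟩
    · rintro ⟨a', ha', hx⟩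
      exact (hC v a a' ha ha').2 hx
  · rw [h2 v b hb]
    constructor
    · rintro ⟨a, ha, hx⟩
      exact ((hX v).2 a c ha hc).1 hx
    · intro hx
      obtain ⟨a, ha⟩ := out_of (h.trans h').symm hc
      exact ⟨a, ha, ((hX v).2 a c ha hc).2 hx⟩

theorem ActT.symm {n : INat M} {s s' : IFun M (INat M) α} {X X' : IPow M (ν × α)}
    (h : ActT n s s' X X') : ActT n s' s X' X :=
  fun v => ⟨fun i hi => ((h v).1 i hi).symm, fun a b ha hb => ((h v).2 b a hb ha).symm⟩

variable {f : IPow M (ν × α) → IPow M (ν × α)}

theorem Rb.symm {n : INat M} {s s' : IFun M (INat M) α} (h : Rb f n s s') : Rb f n s' s :=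
  ⟨fun i j hi hj => (h.1 i j hi hj).symm, fun X X' Y Y' hX hY => (h.2 X' X Y' Y hX.symm hY.symm).symm⟩

theorem Rb.trans {n : INat M} {s s' s'' : IFun M (INat M) α} (h : Rb f n s s')
    (h' : Rb f n s' s'') : Rb f n s s'' := by
  refine ⟨Pat.trans h.1 h'.1, fun X X'' Y Y'' hX hY => ?_⟩
  obtain ⟨X', hX1, hX2⟩ := mid h.1 h'.1 hX
  obtain ⟨Y', hY1, hY2⟩ := mid h.1 h'.1 hY
  exact (h.2 X X' Y Y' hX1 hY1).trans (h'.2 X' X'' Y' Y'' hX2 hY2)

theorem Rb.re {n m : INat M} {s s' t t' : IFun M (INat M) α} (h : Rb f n s s')
    (hi : ∀ i, i < m → ∃ j, j < n ∧ t i = s j ∧ t' i = s' j) : Rb f m t t' := by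
  have hA : ∀ X X' : IPow M (ν × α), ActT m t t' X X' → ActT n s s' X X' := by
    intro X X' hX v
    refine ⟨fun j hj => ?_, fun a b ha hb => ?_⟩
    · by_cases hx : ∃ i, i < m ∧ s j = t i
      · obtain ⟨i, him, he⟩ := hx
        obtain ⟨j0, hj0, h1, h2⟩ := hi i him
        have h3 : s' j = t' i := by
          rw [h2]
          exact (h.1 j j0 hj hj0).1 (he.trans h1)
        rw [he, h3]
        exact (hX v).1 i him
      · refine (hX v).2 _ _ (fun i him he => hx ⟨i, him, he⟩) fun i him he => ?_
        obtain ⟨j0, hj0, h1, h2⟩ := hi i him
        exact hx ⟨i, him, ((h.1 j j0 hj hj0).2 (he.trans h2)).trans h1.symm⟩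
    · refine (hX v).2 _ _ (fun i him he => ?_) fun i him he => ?_
      · obtain ⟨j0, hj0, h1, h2⟩ := hi i him
        exact ha j0 hj0 (he.trans h1)
      · obtain ⟨j0, hj0, h1, h2⟩ := hi i him
        exact hb j0 hj0 (he.trans h2)
  refine ⟨fun i j him hjm => ?_, fun X X' Y Y' hX hY => h.2 X X' Y Y' (hA X X' hX) (hA Y Y' hY)⟩
  obtain ⟨i0, hi0, h1, h2⟩ := hi i him
  obtain ⟨j0, hj0, h3, h4⟩ := hi j hjm
  rw [h1, h2, h3, h4]
  exact h.1 i0 j0 hi0 hj0

theorem R_symm (hf : IntF M f) : ∀ (k n : INat M) (s s' : IFun M (INat M) α),
    R f k n s s' → R f k n s' s := by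
  intro k
  refine INat.ind (p := fun k => ∀ (n : INat M) (s s' : IFun M (INat M) α),
    R f k n s s' → R f k n s' s) ?_ ?_ ?_ k
  · exact (by
      (repeat' first
        | (with_reducible (refine int_R f ?_ ?_ ?_ ?_))
        | (with_reducible assumption)
        | (with_reducible exact IntF.id) | (with_reducible exact IntF.fst')
        | (with_reducible exact IntF.snd') | (with_reducible exact IntF.const _)
        | (with_reducible exact Int.const _)
        | (with_reducible apply IntF.fst) | (with_reducible apply IntF.snd)
        | (with_reducible apply Int.and) | (with_reducible apply Int.or) | (with_reducible apply Int.not)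
        | (with_reducible apply Int.ne) | (with_reducible apply Int.iff) | (with_reducible apply Int.imp)
        | (with_reducible apply Int.ex) | (with_reducible apply Int.all) | (with_reducible apply Int.eq)
        | (with_reducible apply Int.mem) | (with_reducible apply Int.subset) | (with_reducible apply Int.fin)
        | (with_reducible_and_instances apply Int.leN) | (with_reducible_and_instances apply Int.ltN)
        | (with_reducible apply IntF.pair) | (with_reducible apply IntF.succ) | (with_reducible apply IntF.sep)
        | (with_reducible apply IntF.insert) | (with_reducible apply IntF.singleton)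
        | (with_reducible apply IntF.union) | (with_reducible apply IntF.inter) | (with_reducible apply IntF.sdiff)
        | (with_reducible apply int_dm) | (with_reducible apply int_rn) | (with_reducible apply int_idm)
        | (with_reducible apply int_ivr) | (with_reducible apply int_cmp) | (with_reducible apply int_img)
        | (with_reducible apply int_cl) | (with_reducible apply int_Bk)
        | (with_reducible ((refine IntF.comp₂ ?_ ?_ ?_); assumption))
        | (with_reducible ((refine Int.comp₂ ?_ ?_ ?_); assumption))
        | (with_reducible ((refine IntF.comp ?_ ?_); assumption))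
        | (with_reducible ((refine Int.comp ?_ ?_); assumption))
        | (with_reducible apply IntF.app)))
  · intro n s s' h
    exact (R_zero hf).2 ((R_zero hf).1 h).symm
  · intro k IH n s s' h
    obtain ⟨h0, h1, h2, U, hU, h3⟩ := R_succ.1 h
    refine R_succ.2 ⟨IH _ _ _ h0, fun a => ?_, fun b => ?_, U, hU, fun a b ha hb =>
      IH _ _ _ (h3 b a hb ha)⟩
    · obtain ⟨b, hb⟩ := h2 a
      exact ⟨b, IH _ _ _ hb⟩
    · obtain ⟨a, ha⟩ := h1 b
      exact ⟨a, IH _ _ _ ha⟩

theorem R_trans (hf : IntF M f) : ∀ (k n : INat M) (s s' s'' : IFun M (INat M) α),
    R f k n s s' → R f k n s' s'' → R f k n s s'' := by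
  intro k
  refine INat.ind (p := fun k => ∀ (n : INat M) (s s' s'' : IFun M (INat M) α),
    R f k n s s' → R f k n s' s'' → R f k n s s'') ?_ ?_ ?_ k
  · exact (by
      (repeat' first
        | (with_reducible (refine int_R f ?_ ?_ ?_ ?_))
        | (with_reducible assumption)
        | (with_reducible exact IntF.id) | (with_reducible exact IntF.fst')
        | (with_reducible exact IntF.snd') | (with_reducible exact IntF.const _)
        | (with_reducible exact Int.const _)
        | (with_reducible apply IntF.fst) | (with_reducible apply IntF.snd)
        | (with_reducible apply Int.and) | (with_reducible apply Int.or) | (with_reducible apply Int.not)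
        | (with_reducible apply Int.ne) | (with_reducible apply Int.iff) | (with_reducible apply Int.imp)
        | (with_reducible apply Int.ex) | (with_reducible apply Int.all) | (with_reducible apply Int.eq)
        | (with_reducible apply Int.mem) | (with_reducible apply Int.subset) | (with_reducible apply Int.fin)
        | (with_reducible_and_instances apply Int.leN) | (with_reducible_and_instances apply Int.ltN)
        | (with_reducible apply IntF.pair) | (with_reducible apply IntF.succ) | (with_reducible apply IntF.sep)
        | (with_reducible apply IntF.insert) | (with_reducible apply IntF.singleton)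
        | (with_reducible apply IntF.union) | (with_reducible apply IntF.inter) | (with_reducible apply IntF.sdiff)
        | (with_reducible apply int_dm) | (with_reducible apply int_rn) | (with_reducible apply int_idm)
        | (with_reducible apply int_ivr) | (with_reducible apply int_cmp) | (with_reducible apply int_img)
        | (with_reducible apply int_cl) | (with_reducible apply int_Bk)
        | (with_reducible ((refine IntF.comp₂ ?_ ?_ ?_); assumption))
        | (with_reducible ((refine Int.comp₂ ?_ ?_ ?_); assumption))
        | (with_reducible ((refine IntF.comp ?_ ?_); assumption))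
        | (with_reducible ((refine Int.comp ?_ ?_); assumption))
        | (with_reducible apply IntF.app)))
  · intro n s s' s'' h h'
    exact (R_zero hf).2 (((R_zero hf).1 h).trans ((R_zero hf).1 h'))
  · intro k IH n s s' s'' h h'
    obtain ⟨h0, h1, h2, U, hU, h3⟩ := R_succ.1 h
    obtain ⟨g0, g1, g2, V, hV, g3⟩ := R_succ.1 h'
    refine R_succ.2 ⟨IH _ _ _ _ h0 g0, fun a => ?_, fun c => ?_, U ∪ V, hU.union hV,
      fun a c ha hc => ?_⟩
    · obtain ⟨b, hb⟩ := h1 a
      obtain ⟨c, hc⟩ := g1 b
      exact ⟨c, IH _ _ _ _ hb hc⟩
    · obtain ⟨b, hb⟩ := g2 c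
      obtain ⟨a, ha⟩ := h2 b
      exact ⟨a, IH _ _ _ _ ha hb⟩
    · rw [mem_union, not_or] at ha hc
      exact IH _ _ _ _ (h3 a a ha.1 ha.1) (g3 a c ha.2 hc.2)

theorem R_mono (f : IPow M (ν × α) → IPow M (ν × α)) :
    ∀ (l k n : INat M) (s s' : IFun M (INat M) α),
    k ≤ l → R f l n s s' → R f k n s s' := by
  intro l
  refine INat.ind (p := fun l => ∀ (k n : INat M) (s s' : IFun M (INat M) α),
    k ≤ l → R f l n s s' → R f k n s s') ?_ ?_ ?_ l
  · exact (by
      (repeat' first
        | (with_reducible (refine int_R f ?_ ?_ ?_ ?_))
        | (with_reducible assumption)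
        | (with_reducible exact IntF.id) | (with_reducible exact IntF.fst')
        | (with_reducible exact IntF.snd') | (with_reducible exact IntF.const _)
        | (with_reducible exact Int.const _)
        | (with_reducible apply IntF.fst) | (with_reducible apply IntF.snd)
        | (with_reducible apply Int.and) | (with_reducible apply Int.or) | (with_reducible apply Int.not)
        | (with_reducible apply Int.ne) | (with_reducible apply Int.iff) | (with_reducible apply Int.imp)
        | (with_reducible apply Int.ex) | (with_reducible apply Int.all) | (with_reducible apply Int.eq)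
        | (with_reducible apply Int.mem) | (with_reducible apply Int.subset) | (with_reducible apply Int.fin)
        | (with_reducible_and_instances apply Int.leN) | (with_reducible_and_instances apply Int.ltN)
        | (with_reducible apply IntF.pair) | (with_reducible apply IntF.succ) | (with_reducible apply IntF.sep)
        | (with_reducible apply IntF.insert) | (with_reducible apply IntF.singleton)
        | (with_reducible apply IntF.union) | (with_reducible apply IntF.inter) | (with_reducible apply IntF.sdiff)
        | (with_reducible apply int_dm) | (with_reducible apply int_rn) | (with_reducible apply int_idm)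
        | (with_reducible apply int_ivr) | (with_reducible apply int_cmp) | (with_reducible apply int_img)
        | (with_reducible apply int_cl) | (with_reducible apply int_Bk)
        | (with_reducible ((refine IntF.comp₂ ?_ ?_ ?_); assumption))
        | (with_reducible ((refine Int.comp₂ ?_ ?_ ?_); assumption))
        | (with_reducible ((refine IntF.comp ?_ ?_); assumption))
        | (with_reducible ((refine Int.comp ?_ ?_); assumption))
        | (with_reducible apply IntF.app)))
  · intro k n s s' hk h
    have : k = 0 := le_antisymm hk (INat.zero_le k)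
    rw [this]
    exact h
  · intro l IH k n s s' hk h
    rcases eq_or_lt_of_le hk with he | hl
    · rw [he]
      exact h
    · exact IH k n s s' (INat.lt_succ_iff.1 hl) (R_succ.1 h).1

theorem R_re (hf : IntF M f) : ∀ (k n m : INat M) (s s' t t' : IFun M (INat M) α),
    R f k n s s' → (∀ i, i < m → ∃ j, j < n ∧ t i = s j ∧ t' i = s' j) → R f k m t t' := by
  intro k
  refine INat.ind (p := fun k => ∀ (n m : INat M) (s s' t t' : IFun M (INat M) α),
    R f k n s s' → (∀ i, i < m → ∃ j, j < n ∧ t i = s j ∧ t' i = s' j) →
      R f k m t t') ?_ ?_ ?_ k
  · exact (by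
      (repeat' first
        | (with_reducible (refine int_R f ?_ ?_ ?_ ?_))
        | (with_reducible assumption)
        | (with_reducible exact IntF.id) | (with_reducible exact IntF.fst')
        | (with_reducible exact IntF.snd') | (with_reducible exact IntF.const _)
        | (with_reducible exact Int.const _)
        | (with_reducible apply IntF.fst) | (with_reducible apply IntF.snd)
        | (with_reducible apply Int.and) | (with_reducible apply Int.or) | (with_reducible apply Int.not)
        | (with_reducible apply Int.ne) | (with_reducible apply Int.iff) | (with_reducible apply Int.imp)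
        | (with_reducible apply Int.ex) | (with_reducible apply Int.all) | (with_reducible apply Int.eq)
        | (with_reducible apply Int.mem) | (with_reducible apply Int.subset) | (with_reducible apply Int.fin)
        | (with_reducible_and_instances apply Int.leN) | (with_reducible_and_instances apply Int.ltN)
        | (with_reducible apply IntF.pair) | (with_reducible apply IntF.succ) | (with_reducible apply IntF.sep)
        | (with_reducible apply IntF.insert) | (with_reducible apply IntF.singleton)
        | (with_reducible apply IntF.union) | (with_reducible apply IntF.inter) | (with_reducible apply IntF.sdiff)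
        | (with_reducible apply int_dm) | (with_reducible apply int_rn) | (with_reducible apply int_idm)
        | (with_reducible apply int_ivr) | (with_reducible apply int_cmp) | (with_reducible apply int_img)
        | (with_reducible apply int_cl) | (with_reducible apply int_Bk)
        | (with_reducible ((refine IntF.comp₂ ?_ ?_ ?_); assumption))
        | (with_reducible ((refine Int.comp₂ ?_ ?_ ?_); assumption))
        | (with_reducible ((refine IntF.comp ?_ ?_); assumption))
        | (with_reducible ((refine Int.comp ?_ ?_); assumption))
        | (with_reducible apply IntF.app)))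
  · intro n m s s' t t' h hi
    exact (R_zero hf).2 (((R_zero hf).1 h).re hi)
  · intro k IH n m s s' t t' h hi
    obtain ⟨h0, h1, h2, U, hU, h3⟩ := R_succ.1 h
    have hup : ∀ a b, ∀ i, i < m.succ → ∃ j, j < n.succ ∧ up t m a i = up s n a j ∧
        up t' m b i = up s' n b j := by
      intro a b i him
      by_cases hime : i = m
      · refine ⟨n, INat.lt_succ_self n, ?_, ?_⟩
        · rw [hime, up_same, up_same]
        · rw [hime, up_same, up_same]
      · obtain ⟨j, hj, h4, h5⟩ := hi i (lt_of_le_of_ne (INat.lt_succ_iff.1 him) hime)
        refine ⟨j, hj.trans (INat.lt_succ_self n), ?_, ?_⟩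
        · rw [up_ne _ _ hime, up_ne _ _ hj.ne, h4]
        · rw [up_ne _ _ hime, up_ne _ _ hj.ne, h5]
    refine R_succ.2 ⟨IH _ _ _ _ _ _ h0 hi, fun a => ?_, fun b => ?_, U, hU, fun a b ha hb => ?_⟩
    · obtain ⟨b, hb⟩ := h1 a
      exact ⟨b, IH _ _ _ _ _ _ hb (hup a b)⟩
    · obtain ⟨a, ha⟩ := h2 b
      exact ⟨a, IH _ _ _ _ _ _ ha (hup a b)⟩
    · exact IH _ _ _ _ _ _ (h3 a b ha hb) (hup a b)

/-- Piece RP. -/
theorem rp_main : S_RP M := by
  intro α ν _ _ f hf
  exact {
    symm := R_symm hf
    trans := R_trans hf
    mono := fun k l n s s' h h' => R_mono f l k n s s' h h'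
    re := R_re hf }

end Pool.Agent.R602.AM
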