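import Pool.Agent.R602.AM.Stm

/-!
# Amorphous sets in a model of set theory: piece SP (supports of subsets)
-/

set_option autoImplicit false
set_option linter.all false

namespace Pool.Agent.R602.AM

open FirstOrder FirstOrder.Language Pool.Agent.Helper672.ZFA

universe u

variable {M : Type u} [L.Structure M] [hM : IsModel M]

namespace SpAux

variable {α ν : Type u} [ITy M α] [ITy M ν]

theorem exists_notMem (hA : Amor M α) {U : IPow M α} (hU : IFin U) : ∃ b, b ∉ U := by
  by_contra h
  push Not at h
  exact hA.1 (hU.subset fun x _ => h x)

theorem sp_fin (hA : Amor M α) (hν : IFin (iuniv M ν)) (X : IPow M (ν × α)) : IFin (sp X) := by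
  have hbad : IntF M (fun v : ν => sep M fun a : α =>
      ¬ ∃ U : IPow M α, IFin U ∧ ∀ b, b ∉ U → ((v, a) ∈ X ↔ (v, b) ∈ X)) := (by
          (repeat' first
            | (with_reducible assumption)
            | (with_reducible exact IntF.id) | (with_reducible exact IntF.fst')
            | (with_reducible exact IntF.snd') | (with_reducible exact IntF.const _)
            | (with_reducible exact Int.const _)
            | (with_reducible apply IntF.fst) | (with_reducible apply IntF.snd)
            | (with_reducible apply Int.and) | (with_reducible apply Int.or) | (with_reducible apply Int.not)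
            | (with_reducible apply Int.ne) | (with_reducible apply Int.iff) | (with_reducible apply Int.imp)
            | (with_reducible apply Int.ex) | (with_reducible apply Int.all) | (with_reducible apply Int.eq)
            | (with_reducible apply Int.mem) | (with_reducible apply Int.subset) | (with_reducible apply Int.fin)
            | (with_reducible_and_instances apply Int.leN) | (with_reducible_and_instances apply Int.ltN)
            | (with_reducible apply IntF.pair) | (with_reducible apply IntF.succ) | (with_reducible apply IntF.sep)
            | (with_reducible apply IntF.insert) | (with_reducible apply IntF.singleton)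
            | (with_reducible apply IntF.union) | (with_reducible apply IntF.inter) | (with_reducible apply IntF.sdiff)
            | (with_reducible apply int_dm) | (with_reducible apply int_rn) | (with_reducible apply int_idm)
            | (with_reducible apply int_ivr) | (with_reducible apply int_cmp) | (with_reducible apply int_img)
            | (with_reducible apply int_cl) | (with_reducible apply int_Bk)
            | (with_reducible ((refine IntF.comp₂ ?_ ?_ ?_); assumption))
            | (with_reducible ((refine Int.comp₂ ?_ ?_ ?_); assumption))
            | (with_reducible ((refine IntF.comp ?_ ?_); assumption))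
            | (with_reducible ((refine Int.comp ?_ ?_); assumption))
            | (with_reducible apply IntF.app)))
  have hmb : ∀ (v : ν) (a : α), a ∈ (sep M fun a : α =>
      ¬ ∃ U : IPow M α, IFin U ∧ ∀ b, b ∉ U → ((v, a) ∈ X ↔ (v, b) ∈ X)) ↔
      ¬ ∃ U : IPow M α, IFin U ∧ ∀ b, b ∉ U → ((v, a) ∈ X ↔ (v, b) ∈ X) := fun v a =>
    mem_sep (by
        (repeat' first
          | (with_reducible assumption)
          | (with_reducible exact IntF.id) | (with_reducible exact IntF.fst')
          | (with_reducible exact IntF.snd') | (with_reducible exact IntF.const _)
          | (with_reducible exact Int.const _)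
          | (with_reducible apply IntF.fst) | (with_reducible apply IntF.snd)
          | (with_reducible apply Int.and) | (with_reducible apply Int.or) | (with_reducible apply Int.not)
          | (with_reducible apply Int.ne) | (with_reducible apply Int.iff) | (with_reducible apply Int.imp)
          | (with_reducible apply Int.ex) | (with_reducible apply Int.all) | (with_reducible apply Int.eq)
          | (with_reducible apply Int.mem) | (with_reducible apply Int.subset) | (with_reducible apply Int.fin)
          | (with_reducible_and_instances apply Int.leN) | (with_reducible_and_instances apply Int.ltN)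
          | (with_reducible apply IntF.pair) | (with_reducible apply IntF.succ) | (with_reducible apply IntF.sep)
          | (with_reducible apply IntF.insert) | (with_reducible apply IntF.singleton)
          | (with_reducible apply IntF.union) | (with_reducible apply IntF.inter) | (with_reducible apply IntF.sdiff)
          | (with_reducible apply int_dm) | (with_reducible apply int_rn) | (with_reducible apply int_idm)
          | (with_reducible apply int_ivr) | (with_reducible apply int_cmp) | (with_reducible apply int_img)
          | (with_reducible apply int_cl) | (with_reducible apply int_Bk)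
          | (with_reducible ((refine IntF.comp₂ ?_ ?_ ?_); assumption))
          | (with_reducible ((refine Int.comp₂ ?_ ?_ ?_); assumption))
          | (with_reducible ((refine IntF.comp ?_ ?_); assumption))
          | (with_reducible ((refine Int.comp ?_ ?_); assumption))
          | (with_reducible apply IntF.app)))
  have hfin : ∀ v : ν, IFin (sep M fun a : α =>
      ¬ ∃ U : IPow M α, IFin U ∧ ∀ b, b ∉ U → ((v, a) ∈ X ↔ (v, b) ∈ X)) := by
    intro v
    have hms : ∀ a : α, a ∈ (sep M fun a : α => (v, a) ∈ X) ↔ (v, a) ∈ X := fun a =>
      mem_sep (by
          (repeat' first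
            | (with_reducible assumption)
            | (with_reducible exact IntF.id) | (with_reducible exact IntF.fst')
            | (with_reducible exact IntF.snd') | (with_reducible exact IntF.const _)
            | (with_reducible exact Int.const _)
            | (with_reducible apply IntF.fst) | (with_reducible apply IntF.snd)
            | (with_reducible apply Int.and) | (with_reducible apply Int.or) | (with_reducible apply Int.not)
            | (with_reducible apply Int.ne) | (with_reducible apply Int.iff) | (with_reducible apply Int.imp)
            | (with_reducible apply Int.ex) | (with_reducible apply Int.all) | (with_reducible apply Int.eq)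
            | (with_reducible apply Int.mem) | (with_reducible apply Int.subset) | (with_reducible apply Int.fin)
            | (with_reducible_and_instances apply Int.leN) | (with_reducible_and_instances apply Int.ltN)
            | (with_reducible apply IntF.pair) | (with_reducible apply IntF.succ) | (with_reducible apply IntF.sep)
            | (with_reducible apply IntF.insert) | (with_reducible apply IntF.singleton)
            | (with_reducible apply IntF.union) | (with_reducible apply IntF.inter) | (with_reducible apply IntF.sdiff)
            | (with_reducible apply int_dm) | (with_reducible apply int_rn) | (with_reducible apply int_idm)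
            | (with_reducible apply int_ivr) | (with_reducible apply int_cmp) | (with_reducible apply int_img)
            | (with_reducible apply int_cl) | (with_reducible apply int_Bk)
            | (with_reducible ((refine IntF.comp₂ ?_ ?_ ?_); assumption))
            | (with_reducible ((refine Int.comp₂ ?_ ?_ ?_); assumption))
            | (with_reducible ((refine IntF.comp ?_ ?_); assumption))
            | (with_reducible ((refine Int.comp ?_ ?_); assumption))
            | (with_reducible apply IntF.app)))
    rcases hA.2 (sep M fun a : α => (v, a) ∈ X) with h | h
    · refine h.subset fun a ha => ?_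
      rw [hmb] at ha
      by_contra hc
      refine ha ⟨_, h, fun b hb => ?_⟩
      rw [hms] at hc hb
      exact ⟨fun h => absurd h hc, fun h => absurd h hb⟩
    · refine h.subset fun a ha => ?_
      rw [hmb] at ha
      by_contra hc
      refine ha ⟨_, h, fun b hb => ?_⟩
      rw [mem_sdiff, hms] at hc hb
      have h1 : (v, a) ∈ X := by
        by_contra h2
        exact hc ⟨by simp, h2⟩
      have h2 : (v, b) ∈ X := by
        by_contra h2
        exact hb ⟨by simp, h2⟩
      exact ⟨fun _ => h2, fun _ => h1⟩
  refine (IFin.isUnion (hν.image hbad) ?_).subset fun a ha => ?_
  · intro s hs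
    rw [mem_iimage hbad] at hs
    obtain ⟨v, _, rfl⟩ := hs
    exact hfin v
  · rw [mem_sp] at ha
    obtain ⟨v, hv⟩ := ha
    rw [mem_isUnion]
    refine ⟨_, (mem_iimage hbad).2 ⟨v, by simp, rfl⟩, (hmb v a).2 hv⟩

theorem sp_out (hA : Amor M α) (X : IPow M (ν × α)) (v : ν) (a b : α) (ha : a ∉ sp X)
    (hb : b ∉ sp X) : (v, a) ∈ X ↔ (v, b) ∈ X := by
  rw [mem_sp] at ha hb
  push Not at ha hb
  obtain ⟨U, hU, h1⟩ := ha v
  obtain ⟨V, hV, h2⟩ := hb v
  obtain ⟨c, hc⟩ := exists_notMem hA (hU.union hV)
  rw [mem_union, not_or] at hc
  exact (h1 c hc.1).trans (h2 c hc.2).symm

theorem sp_act (hA : Amor M α) {Γ : IPow M (IPow M (α × α))} (hΓ : HSys Γ) (σ : IPow M (α × α))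
    (X : IPow M (ν × α)) (hσ : σ ∈ Γ) (hX : sp X ⊆ dm σ) : ∃ X', Act σ X X' := by
  have hm : ∀ q : ν × α, q ∈ (sep M fun q : ν × α => (∃ a, (a, q.2) ∈ σ ∧ (q.1, a) ∈ X) ∨
      (q.2 ∉ rn σ ∧ ∃ a, a ∉ dm σ ∧ (q.1, a) ∈ X)) ↔
      ((∃ a, (a, q.2) ∈ σ ∧ (q.1, a) ∈ X) ∨ (q.2 ∉ rn σ ∧ ∃ a, a ∉ dm σ ∧ (q.1, a) ∈ X)) :=
    fun q => mem_sep (by
        (repeat' first
          | (with_reducible assumption)
          | (with_reducible exact IntF.id) | (with_reducible exact IntF.fst')
          | (with_reducible exact IntF.snd') | (with_reducible exact IntF.const _)
          | (with_reducible exact Int.const _)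
          | (with_reducible apply IntF.fst) | (with_reducible apply IntF.snd)
          | (with_reducible apply Int.and) | (with_reducible apply Int.or) | (with_reducible apply Int.not)
          | (with_reducible apply Int.ne) | (with_reducible apply Int.iff) | (with_reducible apply Int.imp)
          | (with_reducible apply Int.ex) | (with_reducible apply Int.all) | (with_reducible apply Int.eq)
          | (with_reducible apply Int.mem) | (with_reducible apply Int.subset) | (with_reducible apply Int.fin)
          | (with_reducible_and_instances apply Int.leN) | (with_reducible_and_instances apply Int.ltN)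
          | (with_reducible apply IntF.pair) | (with_reducible apply IntF.succ) | (with_reducible apply IntF.sep)
          | (with_reducible apply IntF.insert) | (with_reducible apply IntF.singleton)
          | (with_reducible apply IntF.union) | (with_reducible apply IntF.inter) | (with_reducible apply IntF.sdiff)
          | (with_reducible apply int_dm) | (with_reducible apply int_rn) | (with_reducible apply int_idm)
          | (with_reducible apply int_ivr) | (with_reducible apply int_cmp) | (with_reducible apply int_img)
          | (with_reducible apply int_cl) | (with_reducible apply int_Bk)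
          | (with_reducible ((refine IntF.comp₂ ?_ ?_ ?_); assumption))
          | (with_reducible ((refine Int.comp₂ ?_ ?_ ?_); assumption))
          | (with_reducible ((refine IntF.comp ?_ ?_); assumption))
          | (with_reducible ((refine Int.comp ?_ ?_); assumption))
          | (with_reducible apply IntF.app)))
  refine ⟨sep M fun q : ν × α => (∃ a, (a, q.2) ∈ σ ∧ (q.1, a) ∈ X) ∨
      (q.2 ∉ rn σ ∧ ∃ a, a ∉ dm σ ∧ (q.1, a) ∈ X), ?_⟩
  intro v a b hab
  rw [hm]
  rcases hab with hab | ⟨ha, hb⟩
  · constructor
    · intro h
      exact Or.inl ⟨a, hab, h⟩
    · rintro (⟨a', h1, h2⟩ | ⟨h1, _⟩)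
      · have h3 : a' = a := (hΓ.inj σ hσ a' b a b h1 hab).2 rfl
        rw [← h3]
        exact h2
      · exact absurd (mem_rn.2 ⟨a, hab⟩) h1
  · constructor
    · intro h
      exact Or.inr ⟨hb, a, ha, h⟩
    · rintro (⟨a', h1, _⟩ | ⟨_, a', h1, h2⟩)
      · exact absurd (mem_rn.2 ⟨a', h1⟩) hb
      · exact (sp_out hA X v a a' (fun h => ha (hX _ h)) (fun h => h1 (hX _ h))).2 h2

theorem dm_idm (s : IPow M α) : dm (idm s) = s := by
  refine IPow.ext' fun x => ?_
  rw [mem_dm]
  constructor
  · rintro ⟨b, hb⟩
    rw [mem_idm] at hb
    exact hb.1
  · intro h
    exact ⟨x, mem_idm.2 ⟨h, rfl⟩⟩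

theorem rn_idm (s : IPow M α) : rn (idm s) = s := by
  refine IPow.ext' fun x => ?_
  rw [mem_rn]
  constructor
  · rintro ⟨b, hb⟩
    rw [mem_idm] at hb
    have h1 : b = x := hb.2
    rw [← h1]
    exact hb.1
  · intro h
    exact ⟨x, mem_idm.2 ⟨h, rfl⟩⟩

theorem sp_f (hA : Amor M α) (hν : IFin (iuniv M ν)) {Γ : IPow M (IPow M (α × α))}
    {f : IPow M (ν × α) → IPow M (ν × α)} (hΓ : HSys Γ) (hC : ClP Γ) (hf : Cpt Γ f)
    (X : IPow M (ν × α)) : sp (f X) ⊆ cl Γ (sp X) := by
  intro y hy
  by_contra hy'
  have key : ∀ y' : α, y' ∉ cl Γ (sp X) → y' ∈ sp (f X) := by
    intro y' hy''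
    have h1 : insert (y, y') (idm (sp X)) ∈ Γ := by
      refine hΓ.gen _ y y' (hΓ.idm _ (sp_fin hA hν X)) ?_ ?_
      · rw [dm_idm]
        exact hy'
      · rw [rn_idm]
        exact hy''
    obtain ⟨τ, hτ, h2, h3, _⟩ := hC.ext _ (sp (f X)) ∅ h1 (sp_fin hA hν (f X)) IFin.empty
    have hid : ∀ a, a ∈ sp X → (a, a) ∈ τ := fun a ha =>
      h2 _ (mem_insert.2 (Or.inr (mem_idm.2 ⟨ha, rfl⟩)))
    have hactX : Act τ X X := by
      intro v a b hab
      rcases hab with hab | ⟨ha, hb⟩
      · by_cases ha : a ∈ sp X
        · have h4 : a = b := (hΓ.inj τ hτ a a a b (hid a ha) hab).1 rfl
          rw [h4]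
        · refine sp_out hA X v a b ha fun hb => ?_
          have h4 : a = b := (hΓ.inj τ hτ a b b b hab (hid b hb)).2 rfl
          exact ha (h4 ▸ hb)
      · refine sp_out hA X v a b (fun h => ha (mem_dm.2 ⟨a, hid a h⟩))
          (fun h => hb (mem_rn.2 ⟨b, hid b h⟩))
    obtain ⟨Y', hY'⟩ := sp_act hA hΓ τ (f X) hτ h3
    have h5 : f X = Y' := (hf τ hτ X X (f X) Y' hactX hY').1 rfl
    rw [← h5] at hY'
    have h6 : (y, y') ∈ τ := h2 _ (mem_insert.2 (Or.inl rfl))
    rw [mem_sp] at hy ⊢
    obtain ⟨v, hv⟩ := hy
    refine ⟨v, fun ⟨U, hU, h7⟩ => hv ⟨U, hU, fun b hb => ?_⟩⟩
    exact (hY' v y y' (Or.inl h6)).trans (h7 b hb)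
  refine hA.1 (((hΓ.clf _ (sp_fin hA hν X)).union (sp_fin hA hν (f X))).subset fun z _ => ?_)
  rw [mem_union]
  by_cases hz : z ∈ cl Γ (sp X)
  · exact Or.inl hz
  · exact Or.inr (key z hz)

theorem sp_fib (hA : Amor M α) (hν : IFin (iuniv M ν)) (t : IPow M α) (ht : IFin t) :
    IFin (sep M fun X : IPow M (ν × α) => sp X ⊆ t) := by
  have hg : IntF M (fun q : IPow M (ν × α) × IPow M ν => sep M fun p : ν × α =>
      (p ∈ q.1 ∧ p.2 ∈ t) ∨ (p.2 ∉ t ∧ p.1 ∈ q.2)) := (by
          (repeat' first
            | (with_reducible assumption)
            | (with_reducible exact IntF.id) | (with_reducible exact IntF.fst')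
            | (with_reducible exact IntF.snd') | (with_reducible exact IntF.const _)
            | (with_reducible exact Int.const _)
            | (with_reducible apply IntF.fst) | (with_reducible apply IntF.snd)
            | (with_reducible apply Int.and) | (with_reducible apply Int.or) | (with_reducible apply Int.not)
            | (with_reducible apply Int.ne) | (with_reducible apply Int.iff) | (with_reducible apply Int.imp)
            | (with_reducible apply Int.ex) | (with_reducible apply Int.all) | (with_reducible apply Int.eq)
            | (with_reducible apply Int.mem) | (with_reducible apply Int.subset) | (with_reducible apply Int.fin)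
            | (with_reducible_and_instances apply Int.leN) | (with_reducible_and_instances apply Int.ltN)
            | (with_reducible apply IntF.pair) | (with_reducible apply IntF.succ) | (with_reducible apply IntF.sep)
            | (with_reducible apply IntF.insert) | (with_reducible apply IntF.singleton)
            | (with_reducible apply IntF.union) | (with_reducible apply IntF.inter) | (with_reducible apply IntF.sdiff)
            | (with_reducible apply int_dm) | (with_reducible apply int_rn) | (with_reducible apply int_idm)
            | (with_reducible apply int_ivr) | (with_reducible apply int_cmp) | (with_reducible apply int_img)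
            | (with_reducible apply int_cl) | (with_reducible apply int_Bk)
            | (with_reducible ((refine IntF.comp₂ ?_ ?_ ?_); assumption))
            | (with_reducible ((refine Int.comp₂ ?_ ?_ ?_); assumption))
            | (with_reducible ((refine IntF.comp ?_ ?_); assumption))
            | (with_reducible ((refine Int.comp ?_ ?_); assumption))
            | (with_reducible apply IntF.app)))
  have hgm : ∀ (q : IPow M (ν × α) × IPow M ν) (p : ν × α), p ∈ (sep M fun p : ν × α =>
      (p ∈ q.1 ∧ p.2 ∈ t) ∨ (p.2 ∉ t ∧ p.1 ∈ q.2)) ↔
      ((p ∈ q.1 ∧ p.2 ∈ t) ∨ (p.2 ∉ t ∧ p.1 ∈ q.2)) := fun q p => mem_sep (by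
          (repeat' first
            | (with_reducible assumption)
            | (with_reducible exact IntF.id) | (with_reducible exact IntF.fst')
            | (with_reducible exact IntF.snd') | (with_reducible exact IntF.const _)
            | (with_reducible exact Int.const _)
            | (with_reducible apply IntF.fst) | (with_reducible apply IntF.snd)
            | (with_reducible apply Int.and) | (with_reducible apply Int.or) | (with_reducible apply Int.not)
            | (with_reducible apply Int.ne) | (with_reducible apply Int.iff) | (with_reducible apply Int.imp)
            | (with_reducible apply Int.ex) | (with_reducible apply Int.all) | (with_reducible apply Int.eq)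
            | (with_reducible apply Int.mem) | (with_reducible apply Int.subset) | (with_reducible apply Int.fin)
            | (with_reducible_and_instances apply Int.leN) | (with_reducible_and_instances apply Int.ltN)
            | (with_reducible apply IntF.pair) | (with_reducible apply IntF.succ) | (with_reducible apply IntF.sep)
            | (with_reducible apply IntF.insert) | (with_reducible apply IntF.singleton)
            | (with_reducible apply IntF.union) | (with_reducible apply IntF.inter) | (with_reducible apply IntF.sdiff)
            | (with_reducible apply int_dm) | (with_reducible apply int_rn) | (with_reducible apply int_idm)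
            | (with_reducible apply int_ivr) | (with_reducible apply int_cmp) | (with_reducible apply int_img)
            | (with_reducible apply int_cl) | (with_reducible apply int_Bk)
            | (with_reducible ((refine IntF.comp₂ ?_ ?_ ?_); assumption))
            | (with_reducible ((refine Int.comp₂ ?_ ?_ ?_); assumption))
            | (with_reducible ((refine IntF.comp ?_ ?_); assumption))
            | (with_reducible ((refine Int.comp ?_ ?_); assumption))
            | (with_reducible apply IntF.app)))
  refine (((((hν.prod ht).pow).prod hν.pow).image hg)).subset fun X hX => ?_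
  have hX' : sp X ⊆ t := (mem_sep (p := fun X : IPow M (ν × α) => sp X ⊆ t) (by
      (repeat' first
        | (with_reducible (refine int_sp ?_))
        | (with_reducible assumption)
        | (with_reducible exact IntF.id) | (with_reducible exact IntF.fst')
        | (with_reducible exact IntF.snd') | (with_reducible exact IntF.const _)
        | (with_reducible exact Int.const _)
        | (with_reducible apply IntF.fst) | (with_reducible apply IntF.snd)
        | (with_reducible apply Int.and) | (with_reducible apply Int.or) | (with_reducible apply Int.not)
        | (with_reducible apply Int.ne) | (with_reducible apply Int.iff) | (with_reducible apply Int.imp)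
        | (with_reducible apply Int.ex) | (with_reducible apply Int.all) | (with_reducible apply Int.eq)
        | (with_reducible apply Int.mem) | (with_reducible apply Int.subset) | (with_reducible apply Int.fin)
        | (with_reducible_and_instances apply Int.leN) | (with_reducible_and_instances apply Int.ltN)
        | (with_reducible apply IntF.pair) | (with_reducible apply IntF.succ) | (with_reducible apply IntF.sep)
        | (with_reducible apply IntF.insert) | (with_reducible apply IntF.singleton)
        | (with_reducible apply IntF.union) | (with_reducible apply IntF.inter) | (with_reducible apply IntF.sdiff)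
        | (with_reducible apply int_dm) | (with_reducible apply int_rn) | (with_reducible apply int_idm)
        | (with_reducible apply int_ivr) | (with_reducible apply int_cmp) | (with_reducible apply int_img)
        | (with_reducible apply int_cl) | (with_reducible apply int_Bk)
        | (with_reducible ((refine IntF.comp₂ ?_ ?_ ?_); assumption))
        | (with_reducible ((refine Int.comp₂ ?_ ?_ ?_); assumption))
        | (with_reducible ((refine IntF.comp ?_ ?_); assumption))
        | (with_reducible ((refine Int.comp ?_ ?_); assumption))
        | (with_reducible apply IntF.app)))).1 hX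
  rw [mem_iimage hg]
  have hG : ∀ v : ν, v ∈ (sep M fun v : ν => ∃ a, a ∉ t ∧ (v, a) ∈ X) ↔
      ∃ a, a ∉ t ∧ (v, a) ∈ X := fun v => mem_sep (by
          (repeat' first
            | (with_reducible assumption)
            | (with_reducible exact IntF.id) | (with_reducible exact IntF.fst')
            | (with_reducible exact IntF.snd') | (with_reducible exact IntF.const _)
            | (with_reducible exact Int.const _)
            | (with_reducible apply IntF.fst) | (with_reducible apply IntF.snd)
            | (with_reducible apply Int.and) | (with_reducible apply Int.or) | (with_reducible apply Int.not)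
            | (with_reducible apply Int.ne) | (with_reducible apply Int.iff) | (with_reducible apply Int.imp)
            | (with_reducible apply Int.ex) | (with_reducible apply Int.all) | (with_reducible apply Int.eq)
            | (with_reducible apply Int.mem) | (with_reducible apply Int.subset) | (with_reducible apply Int.fin)
            | (with_reducible_and_instances apply Int.leN) | (with_reducible_and_instances apply Int.ltN)
            | (with_reducible apply IntF.pair) | (with_reducible apply IntF.succ) | (with_reducible apply IntF.sep)
            | (with_reducible apply IntF.insert) | (with_reducible apply IntF.singleton)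
            | (with_reducible apply IntF.union) | (with_reducible apply IntF.inter) | (with_reducible apply IntF.sdiff)
            | (with_reducible apply int_dm) | (with_reducible apply int_rn) | (with_reducible apply int_idm)
            | (with_reducible apply int_ivr) | (with_reducible apply int_cmp) | (with_reducible apply int_img)
            | (with_reducible apply int_cl) | (with_reducible apply int_Bk)
            | (with_reducible ((refine IntF.comp₂ ?_ ?_ ?_); assumption))
            | (with_reducible ((refine Int.comp₂ ?_ ?_ ?_); assumption))
            | (with_reducible ((refine IntF.comp ?_ ?_); assumption))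
            | (with_reducible ((refine Int.comp ?_ ?_); assumption))
            | (with_reducible apply IntF.app)))
  refine ⟨(X ∩ iprod (iuniv M ν) t, sep M fun v : ν => ∃ a, a ∉ t ∧ (v, a) ∈ X), ?_, ?_⟩
  · rw [mem_iprod]
    refine ⟨mem_ipow.2 fun x hx => ?_, mem_ipow.2 fun x _ => by simp⟩
    exact (mem_inter.1 hx).2
  · refine IPow.ext' ?_
    rintro ⟨v, a⟩
    rw [hgm]
    constructor
    · rintro (⟨h1, _⟩ | ⟨h1, h2⟩)
      · exact (mem_inter.1 h1).1
      · obtain ⟨a', ha', h3⟩ := (hG v).1 h2
        exact (sp_out hA X v a a' (fun h => h1 (hX' _ h)) (fun h => ha' (hX' _ h))).2 h3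
    · intro h
      by_cases ha : a ∈ t
      · exact Or.inl ⟨mem_inter.2 ⟨h, mem_iprod.2 ⟨by simp, ha⟩⟩, ha⟩
      · exact Or.inr ⟨ha, (hG v).2 ⟨a, ha, h⟩⟩

end SpAux

/-- Piece SP. -/
theorem sp_main : S_SP M := by
  intro α ν _ _ Γ f hA hν hf hΓ hC hcpt
  exact ⟨SpAux.sp_fin hA hν, SpAux.sp_out hA, SpAux.sp_act hA hΓ, SpAux.sp_f hA hν hΓ hC hcpt,
    SpAux.sp_fib hA hν⟩

end Pool.Agent.R602.AM
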