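import Pool.Agent.R602.AM.Stm

/-!
# Amorphous sets: existence of a stable finite closed set (piece STAB)
-/

set_option autoImplicit false
set_option linter.all false

namespace Pool.Agent.R602.AM

open FirstOrder FirstOrder.Language Pool.Agent.Helper672.ZFA

universe u

variable {M : Type u} [L.Structure M] [hM : IsModel M]

theorem st_fin_dm {α : Type u} [ITy M α] {σ : IPow M (α × α)} (h : IFin σ) : IFin (dm σ) := by
  have h1 : IntF M (fun q : α × α => q.1) := IntF.fst'
  refine (h.image h1).subset ?_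
  intro x hx
  obtain ⟨b, hb⟩ := mem_dm.1 hx
  exact (mem_iimage h1).2 ⟨_, hb, rfl⟩

theorem st_fin_rn {α : Type u} [ITy M α] {σ : IPow M (α × α)} (h : IFin σ) : IFin (rn σ) := by
  have h1 : IntF M (fun q : α × α => q.2) := IntF.snd'
  refine (h.image h1).subset ?_
  intro x hx
  obtain ⟨b, hb⟩ := mem_rn.1 hx
  exact (mem_iimage h1).2 ⟨_, hb, rfl⟩

theorem st_mem_idm {α : Type u} [ITy M α] {s : IPow M α} {a : α} (h : a ∈ s) :
    (a, a) ∈ idm s := mem_idm.2 ⟨h, rfl⟩

theorem st_dm_idm {α : Type u} [ITy M α] (s : IPow M α) : dm (idm s) = s := by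
  refine IPow.ext' fun a => ?_
  rw [mem_dm]
  constructor
  · rintro ⟨b, hb⟩
    exact (mem_idm.1 hb).1
  · intro h
    exact ⟨a, st_mem_idm h⟩

theorem st_rn_idm {α : Type u} [ITy M α] (s : IPow M α) : rn (idm s) = s := by
  refine IPow.ext' fun a => ?_
  rw [mem_rn]
  constructor
  · rintro ⟨b, hb⟩
    have h := mem_idm.1 hb
    have h2 : b = a := h.2
    exact h2 ▸ h.1
  · intro h
    exact ⟨a, st_mem_idm h⟩

/-- A map of `Γ` moving `x` to `x0` over `D`, with closed domain and range, defined on `E`. -/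
theorem st_move {α : Type u} [ITy M α] {Γ : IPow M (IPow M (α × α))} (hΓ : HSys Γ) (hC : ClP Γ)
    {D E : IPow M α} {x x0 : α} (hDf : IFin D) (hDc : cl Γ D = D) (hEf : IFin E)
    (hx : x ∉ D) (hx0 : x0 ∉ D) :
    ∃ τ, τ ∈ Γ ∧ (x, x0) ∈ τ ∧ idm D ⊆ τ ∧ E ⊆ dm τ ∧ cl Γ (dm τ) = dm τ ∧
      cl Γ (rn τ) = rn τ := by
  have h1 : insert (x, x0) (idm D) ∈ Γ := by
    refine hΓ.gen _ _ _ (hΓ.idm _ hDf) ?_ ?_
    · rw [st_dm_idm, hDc]; exact hx
    · rw [st_rn_idm, hDc]; exact hx0
  obtain ⟨τ, h2, h3, h4, h5⟩ := hC.ext _ E D h1 hEf hDf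
  obtain ⟨ρ, h6, h7, h8, h9⟩ := hC.extcl τ h2
  have hf := hΓ.fin _ h2
  refine ⟨ρ, h6, h7 _ (h3 _ (by simp)), fun p hp => h7 _ (h3 _ (mem_insert.2 (Or.inr hp))), ?_, ?_, ?_⟩
  · intro e he
    rw [h8]
    exact hC.sub _ _ (h4 _ he)
  · rw [h8]; exact hC.idem _ (st_fin_dm hf)
  · rw [h9]; exact hC.idem _ (st_fin_rn hf)

/-- Such a map moves the block of `x` over `D` onto the block of `x0` over `D`. -/
theorem st_block {α : Type u} [ITy M α] {Γ : IPow M (IPow M (α × α))} (hΓ : HSys Γ) (hC : ClP Γ)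
    {D : IPow M α} {x x0 : α} {τ : IPow M (α × α)} (hτ : τ ∈ Γ) (h0 : (x, x0) ∈ τ)
    (hD : idm D ⊆ τ) {a b : α} (hab : (a, b) ∈ τ) : a ∈ Bk Γ D x ↔ b ∈ Bk Γ D x0 := by
  have h1 : insert x D ⊆ dm τ := by
    intro y hy
    rcases mem_insert.1 hy with rfl | hy
    · exact mem_dm.2 ⟨_, h0⟩
    · exact mem_dm.2 ⟨_, hD _ (st_mem_idm hy)⟩
  have h2 : img τ (insert x D) = insert x0 D := by
    refine IPow.ext' fun y => ?_
    rw [mem_img, mem_insert]
    constructor
    · rintro ⟨c, hc, hcy⟩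
      rcases mem_insert.1 hc with rfl | hc
      · exact Or.inl ((hΓ.inj _ hτ _ _ _ _ hcy h0).1 rfl)
      · right
        have := (hΓ.inj _ hτ _ _ _ _ hcy (hD _ (st_mem_idm hc))).1 rfl
        exact this ▸ hc
    · rintro (rfl | hy)
      · exact ⟨x, by simp, h0⟩
      · exact ⟨y, mem_insert.2 (Or.inr hy), hD _ (st_mem_idm hy)⟩
  have h3 := hC.tr τ hτ _ h1 a b hab
  rw [h2] at h3
  have h4 : a ∈ D ↔ b ∈ D := by
    constructor
    · intro ha
      have := (hΓ.inj _ hτ _ _ _ _ hab (hD _ (st_mem_idm ha))).1 rfl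
      exact this ▸ ha
    · intro hb
      have := (hΓ.inj _ hτ _ _ _ _ hab (hD _ (st_mem_idm hb))).2 rfl
      exact this ▸ hb
  rw [mem_Bk, mem_Bk, h3, h4]

theorem stab_main : S_STAB M := by
  intro α _ Γ hA hΓ hC hE hD
  have hfc : IFin (cl Γ (∅ : IPow M α)) := hΓ.clf _ IFin.empty
  obtain ⟨x0, hx0⟩ : ∃ x0 : α, x0 ∉ cl Γ (∅ : IPow M α) := by
    by_contra h
    push_neg at h
    exact hA.1 (hfc.subset fun x _ => h x)
  have hCC : cl Γ (cl Γ (∅ : IPow M α)) = cl Γ ∅ := hC.idem _ IFin.empty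
  have hsubC : ∀ E : IPow M α, cl Γ E = E → cl Γ (∅ : IPow M α) ⊆ E := fun E hE' => by
    have := hC.mono (∅ : IPow M α) E (fun x hx => absurd hx (by simp))
    rwa [hE'] at this
  generalize cl Γ (∅ : IPow M α) = C at hfc hx0 hCC hsubC
  obtain ⟨b0, hb0⟩ : ∃ b0, b0 = Bk Γ C x0 := ⟨_, rfl⟩
  have hbk : ∀ E : IPow M α, IFin E → cl Γ E = E → x0 ∉ E → Bk Γ E x0 = b0 := by
    intro E h1 h2 h3
    rw [hb0]
    refine IPow.ext' fun z => ?_
    rw [mem_Bk, hD.bk C E x0 hfc h1 hCC h2 (hsubC E h2) h3, mem_union]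
    constructor
    · rintro ⟨h4 | h4, h5⟩
      · exact absurd h4 h5
      · exact h4
    · intro h4
      exact ⟨Or.inr h4, hD.dis C E x0 hfc h1 hCC h2 (hsubC E h2) h3 z h4⟩
  have hb0f : IFin b0 := by
    rw [hb0]
    refine (hΓ.clf _ (hfc.insert x0)).subset ?_
    intro z hz
    exact (mem_Bk.1 hz).1
  obtain ⟨𝒢, h𝒢⟩ : ∃ 𝒢 : IPow M (IPow M (IPow M (α × α))), ∀ G, G ∈ 𝒢 ↔
      ∃ E : IPow M α, IFin E ∧ cl Γ E = E ∧ ¬ x0 ∈ E ∧ ∀ μ : IPow M (α × α), μ ∈ G ↔
        (dm μ = b0 ∧ rn μ = b0 ∧ idm E ∪ μ ∈ Γ) :=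
    ⟨sep M fun G : IPow M (IPow M (α × α)) =>
      ∃ E : IPow M α, IFin E ∧ cl Γ E = E ∧ ¬ x0 ∈ E ∧ ∀ μ : IPow M (α × α), μ ∈ G ↔
        (dm μ = b0 ∧ rn μ = b0 ∧ idm E ∪ μ ∈ Γ), fun G => mem_sep (by
            (repeat' first
              | (with_reducible assumption)
              | (with_reducible exact IntF.id) | (with_reducible exact IntF.fst')
              | (with_reducible exact IntF.snd') | (with_reducible exact IntF.const _)
              | (with_reducible exact Int.const _)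
              | (with_reducible apply IntF.fst) | (with_reducible apply IntF.snd)
              | (with_reducible apply Int.and) | (with_reducible apply Int.or) | (with_reducible apply Int.not)
              | (with_reducible apply Int.ne) | (with_reducible apply Int.iff) | (with_reducible apply Int.imp)
              | (with_reducible apply Int.ex) | (with_reducible apply Int.all) | (with_reducible apply Int.eq)
              | (with_reducible apply Int.mem) | (with_reducible apply Int.subset) | (with_reducible apply Int.fin)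
              | (with_reducible_and_instances apply Int.leN) | (with_reducible_and_instances apply Int.ltN)
              | (with_reducible apply IntF.pair) | (with_reducible apply IntF.succ) | (with_reducible apply IntF.sep)
              | (with_reducible apply IntF.insert) | (with_reducible apply IntF.singleton)
              | (with_reducible apply IntF.union) | (with_reducible apply IntF.inter) | (with_reducible apply IntF.sdiff)
              | (with_reducible apply int_dm) | (with_reducible apply int_rn) | (with_reducible apply int_idm)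
              | (with_reducible apply int_ivr) | (with_reducible apply int_cmp) | (with_reducible apply int_img)
              | (with_reducible apply int_cl) | (with_reducible apply int_Bk)
              | (with_reducible ((refine IntF.comp₂ ?_ ?_ ?_); assumption))
              | (with_reducible ((refine Int.comp₂ ?_ ?_ ?_); assumption))
              | (with_reducible ((refine IntF.comp ?_ ?_); assumption))
              | (with_reducible ((refine Int.comp ?_ ?_); assumption))
              | (with_reducible apply IntF.app)))⟩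
  have hGE : ∀ E : IPow M α, ∃ G : IPow M (IPow M (α × α)), ∀ μ : IPow M (α × α), μ ∈ G ↔
        (dm μ = b0 ∧ rn μ = b0 ∧ idm E ∪ μ ∈ Γ) := fun E =>
    ⟨sep M fun μ : IPow M (α × α) => dm μ = b0 ∧ rn μ = b0 ∧ idm E ∪ μ ∈ Γ,
      fun μ => mem_sep (by
          (repeat' first
            | (with_reducible assumption)
            | (with_reducible exact IntF.id) | (with_reducible exact IntF.fst')
            | (with_reducible exact IntF.snd') | (with_reducible exact IntF.const _)
            | (with_reducible exact Int.const _)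
            | (with_reducible apply IntF.fst) | (with_reducible apply IntF.snd)
            | (with_reducible apply Int.and) | (with_reducible apply Int.or) | (with_reducible apply Int.not)
            | (with_reducible apply Int.ne) | (with_reducible apply Int.iff) | (with_reducible apply Int.imp)
            | (with_reducible apply Int.ex) | (with_reducible apply Int.all) | (with_reducible apply Int.eq)
            | (with_reducible apply Int.mem) | (with_reducible apply Int.subset) | (with_reducible apply Int.fin)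
            | (with_reducible_and_instances apply Int.leN) | (with_reducible_and_instances apply Int.ltN)
            | (with_reducible apply IntF.pair) | (with_reducible apply IntF.succ) | (with_reducible apply IntF.sep)
            | (with_reducible apply IntF.insert) | (with_reducible apply IntF.singleton)
            | (with_reducible apply IntF.union) | (with_reducible apply IntF.inter) | (with_reducible apply IntF.sdiff)
            | (with_reducible apply int_dm) | (with_reducible apply int_rn) | (with_reducible apply int_idm)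
            | (with_reducible apply int_ivr) | (with_reducible apply int_cmp) | (with_reducible apply int_img)
            | (with_reducible apply int_cl) | (with_reducible apply int_Bk)
            | (with_reducible ((refine IntF.comp₂ ?_ ?_ ?_); assumption))
            | (with_reducible ((refine Int.comp₂ ?_ ?_ ?_); assumption))
            | (with_reducible ((refine IntF.comp ?_ ?_); assumption))
            | (with_reducible ((refine Int.comp ?_ ?_); assumption))
            | (with_reducible apply IntF.app)))⟩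
  have h𝒢f : IFin 𝒢 := by
    refine ((hb0f.prod hb0f).pow.pow).subset ?_
    intro G hG
    obtain ⟨E, -, -, -, h1⟩ := (h𝒢 G).1 hG
    rw [mem_ipow]
    intro μ hμ
    rw [mem_ipow]
    rintro ⟨a, b⟩ hab
    obtain ⟨h2, h3, -⟩ := (h1 μ).1 hμ
    rw [mem_iprod]
    refine ⟨?_, ?_⟩
    · rw [← h2]; exact mem_dm.2 ⟨_, hab⟩
    · rw [← h3]; exact mem_rn.2 ⟨_, hab⟩
  have h𝒢n : ∃ G, G ∈ 𝒢 := by
    obtain ⟨G, hG⟩ := hGE C
    exact ⟨G, (h𝒢 G).2 ⟨C, hfc, hCC, hx0, hG⟩⟩
  obtain ⟨G, hG, hmin⟩ := IFin.exists_min (lt := fun G G' : IPow M (IPow M (α × α)) =>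
    G ⊆ G' ∧ G ≠ G') (by
        (repeat' first
          | (with_reducible assumption)
          | (with_reducible exact IntF.id) | (with_reducible exact IntF.fst')
          | (with_reducible exact IntF.snd') | (with_reducible exact IntF.const _)
          | (with_reducible exact Int.const _)
          | (with_reducible apply IntF.fst) | (with_reducible apply IntF.snd)
          | (with_reducible apply Int.and) | (with_reducible apply Int.or) | (with_reducible apply Int.not)
          | (with_reducible apply Int.ne) | (with_reducible apply Int.iff) | (with_reducible apply Int.imp)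
          | (with_reducible apply Int.ex) | (with_reducible apply Int.all) | (with_reducible apply Int.eq)
          | (with_reducible apply Int.mem) | (with_reducible apply Int.subset) | (with_reducible apply Int.fin)
          | (with_reducible_and_instances apply Int.leN) | (with_reducible_and_instances apply Int.ltN)
          | (with_reducible apply IntF.pair) | (with_reducible apply IntF.succ) | (with_reducible apply IntF.sep)
          | (with_reducible apply IntF.insert) | (with_reducible apply IntF.singleton)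
          | (with_reducible apply IntF.union) | (with_reducible apply IntF.inter) | (with_reducible apply IntF.sdiff)
          | (with_reducible apply int_dm) | (with_reducible apply int_rn) | (with_reducible apply int_idm)
          | (with_reducible apply int_ivr) | (with_reducible apply int_cmp) | (with_reducible apply int_img)
          | (with_reducible apply int_cl) | (with_reducible apply int_Bk)
          | (with_reducible ((refine IntF.comp₂ ?_ ?_ ?_); assumption))
          | (with_reducible ((refine Int.comp₂ ?_ ?_ ?_); assumption))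
          | (with_reducible ((refine IntF.comp ?_ ?_); assumption))
          | (with_reducible ((refine Int.comp ?_ ?_); assumption))
          | (with_reducible apply IntF.app))) (fun a h => h.2 rfl)
    (fun a b c h1 h2 => ⟨fun x hx => h2.1 x (h1.1 x hx), fun h => h1.2 (by
      refine IPow.ext' fun x => ⟨h1.1 x, fun hx => ?_⟩
      rw [h]
      exact h2.1 x hx)⟩) h𝒢f h𝒢n
  obtain ⟨D, hDf, hDc, hxD, hGD⟩ := (h𝒢 G).1 hG
  have key : ∀ E : IPow M α, IFin E → cl Γ E = E → D ⊆ E → x0 ∉ E → ∀ μ : IPow M (α × α),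
      dm μ = b0 → rn μ = b0 → idm D ∪ μ ∈ Γ → idm E ∪ μ ∈ Γ := by
    intro E h1 h2 h3 h4 μ h5 h6 h7
    obtain ⟨G', hG'⟩ := hGE E
    have h8 : G' ∈ 𝒢 := (h𝒢 G').2 ⟨E, h1, h2, h4, hG'⟩
    have h9 : G' ⊆ G := by
      intro ρ hρ
      obtain ⟨h10, h11, h12⟩ := (hG' ρ).1 hρ
      refine (hGD ρ).2 ⟨h10, h11, hΓ.sub _ _ h12 ?_⟩
      intro p hp
      rcases mem_union.1 hp with hp | hp
      · exact mem_union.2 (Or.inl (mem_idm.2 ⟨h3 _ (mem_idm.1 hp).1, (mem_idm.1 hp).2⟩))
      · exact mem_union.2 (Or.inr hp)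
    have h13 : G' = G := by
      by_contra h
      exact hmin G' h8 ⟨h9, h⟩
    have h14 : μ ∈ G' := by
      rw [h13]
      exact (hGD μ).2 ⟨h5, h6, h7⟩
    exact ((hG' μ).1 h14).2.2
  refine ⟨D, hDf, hDc, ?_⟩
  intro E x μ hEf hEc hDE hxE hμ1 hμ2 hμ3
  have hxD' : x ∉ D := fun h => hxE (hDE _ h)
  obtain ⟨τ, t1, t2, t3, t4, t5, t6⟩ := st_move hΓ hC hDf hDc hEf hxD' hxD
  have htD : ∀ d, d ∈ D → (d, d) ∈ τ := fun d hd => t3 _ (st_mem_idm hd)
  have hb0' : Bk Γ D x0 = b0 := hbk D hDf hDc hxD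
  -- the image of E
  have hE'f : IFin (img τ E) := by
    refine (st_fin_rn (hΓ.fin _ t1)).subset ?_
    intro z hz
    obtain ⟨a, -, h⟩ := mem_img.1 hz
    exact mem_rn.2 ⟨_, h⟩
  have hE'c : cl Γ (img τ E) = img τ E := by
    refine IPow.ext' fun b => ⟨fun hb => ?_, fun hb => hC.sub _ _ hb⟩
    have h1 : b ∈ rn τ := by
      rw [← t6]
      refine hC.mono _ _ ?_ _ hb
      intro z hz
      obtain ⟨a, -, h⟩ := mem_img.1 hz
      exact mem_rn.2 ⟨_, h⟩
    obtain ⟨a, hab⟩ := mem_rn.1 h1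
    have h2 := (hC.tr τ t1 E t4 a b hab).2 hb
    rw [hEc] at h2
    exact mem_img.2 ⟨a, h2, hab⟩
  have hDE' : D ⊆ img τ E := fun d hd => mem_img.2 ⟨d, hDE _ hd, htD d hd⟩
  have hxE' : x0 ∉ img τ E := by
    intro h
    obtain ⟨a, ha, h1⟩ := mem_img.1 h
    have h2 : a = x := (hΓ.inj _ t1 _ _ _ _ h1 t2).2 rfl
    exact hxE (h2 ▸ ha)
  have hins : insert x D ⊆ dm τ := by
    intro y hy
    rcases mem_insert.1 hy with rfl | hy
    · exact mem_dm.2 ⟨_, t2⟩
    · exact mem_dm.2 ⟨_, htD y hy⟩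
  have hins0 : insert x0 D ⊆ rn τ := by
    intro y hy
    rcases mem_insert.1 hy with rfl | hy
    · exact mem_rn.2 ⟨_, t2⟩
    · exact mem_rn.2 ⟨_, htD y hy⟩
  have hBd : ∀ a, a ∈ Bk Γ D x → a ∈ dm τ := by
    intro a ha
    rw [← t5]
    exact hC.mono _ _ hins _ (mem_Bk.1 ha).1
  have hBr : ∀ a, a ∈ Bk Γ D x0 → a ∈ rn τ := by
    intro a ha
    rw [← t6]
    exact hC.mono _ _ hins0 _ (mem_Bk.1 ha).1
  have hBB : ∀ a b, (a, b) ∈ τ → (a ∈ Bk Γ D x ↔ b ∈ b0) := by
    intro a b hab
    rw [← hb0']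
    exact st_block hΓ hC t1 t2 t3 hab
  -- conjugation
  have hμd : ∀ a c, (a, c) ∈ μ → a ∈ Bk Γ D x := fun a c h => by
    rw [← hμ1]; exact mem_dm.2 ⟨_, h⟩
  have hμr : ∀ a c, (a, c) ∈ μ → c ∈ Bk Γ D x := fun a c h => by
    rw [← hμ2]; exact mem_rn.2 ⟨_, h⟩
  obtain ⟨μ', hμ'⟩ : ∃ μ' : IPow M (α × α), μ' = cmp (ivr τ) (cmp μ τ) := ⟨_, rfl⟩
  have hm' : ∀ b d, (b, d) ∈ μ' ↔ ∃ a c, (a, b) ∈ τ ∧ (a, c) ∈ μ ∧ (c, d) ∈ τ := by
    intro b d
    rw [hμ', mem_cmp]
    constructor
    · rintro ⟨a, h1, h2⟩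
      obtain ⟨c, h3, h4⟩ := mem_cmp.1 h2
      exact ⟨a, c, mem_ivr.1 h1, h3, h4⟩
    · rintro ⟨a, c, h1, h2, h3⟩
      exact ⟨a, mem_ivr.2 h1, mem_cmp.2 ⟨c, h2, h3⟩⟩
  have h1 : dm μ' = b0 := by
    refine IPow.ext' fun b => ?_
    rw [mem_dm]
    constructor
    · rintro ⟨d, hd⟩
      obtain ⟨a, c, h1, h2, h3⟩ := (hm' b d).1 hd
      exact (hBB a b h1).1 (hμd _ _ h2)
    · intro hb
      obtain ⟨a, ha⟩ := mem_rn.1 (hBr b (hb0' ▸ hb))
      have h2 : a ∈ dm μ := by rw [hμ1]; exact (hBB a b ha).2 hb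
      obtain ⟨c, hc⟩ := mem_dm.1 h2
      obtain ⟨d, hd⟩ := mem_dm.1 (hBd c (hμr _ _ hc))
      exact ⟨d, (hm' b d).2 ⟨a, c, ha, hc, hd⟩⟩
  have h2 : rn μ' = b0 := by
    refine IPow.ext' fun d => ?_
    rw [mem_rn]
    constructor
    · rintro ⟨b, hb⟩
      obtain ⟨a, c, h1, h2, h3⟩ := (hm' b d).1 hb
      exact (hBB c d h3).1 (hμr _ _ h2)
    · intro hd
      obtain ⟨c, hc⟩ := mem_rn.1 (hBr d (hb0' ▸ hd))
      have h2 : c ∈ rn μ := by rw [hμ2]; exact (hBB c d hc).2 hd
      obtain ⟨a, ha⟩ := mem_rn.1 h2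
      obtain ⟨b, hb⟩ := mem_dm.1 (hBd a (hμd _ _ ha))
      exact ⟨b, (hm' b d).2 ⟨a, c, hb, ha, hc⟩⟩
  have h3 : idm D ∪ μ' ∈ Γ := by
    refine hΓ.sub _ _ (hΓ.cmp _ _ (hΓ.ivr _ t1) (hΓ.cmp _ _ hμ3 t1)) ?_
    rintro ⟨b, d⟩ hp
    rcases mem_union.1 hp with hp | hp
    · obtain ⟨h4, h5⟩ := mem_idm.1 hp
      have h5' : b = d := h5
      subst h5'
      exact mem_cmp.2 ⟨b, mem_ivr.2 (htD b h4),
        mem_cmp.2 ⟨b, mem_union.2 (Or.inl (st_mem_idm h4)), htD b h4⟩⟩
    · obtain ⟨a, c, h4, h5, h6⟩ := (hm' b d).1 hp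
      exact mem_cmp.2 ⟨a, mem_ivr.2 h4, mem_cmp.2 ⟨c, mem_union.2 (Or.inr h5), h6⟩⟩
  have h4 := key (img τ E) hE'f hE'c hDE' hxE' μ' h1 h2 h3
  refine hΓ.sub _ _ (hΓ.cmp _ _ t1 (hΓ.cmp _ _ h4 (hΓ.ivr _ t1))) ?_
  rintro ⟨a, c⟩ hp
  rcases mem_union.1 hp with hp | hp
  · obtain ⟨h5, h6⟩ := mem_idm.1 hp
    have h6' : a = c := h6
    subst h6'
    obtain ⟨b, hb⟩ := mem_dm.1 (t4 a h5)
    exact mem_cmp.2 ⟨b, hb, mem_cmp.2 ⟨b, mem_union.2 (Or.inl (st_mem_idm
      (mem_img.2 ⟨a, h5, hb⟩))), mem_ivr.2 hb⟩⟩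
  · obtain ⟨b, hb⟩ := mem_dm.1 (hBd a (hμd _ _ hp))
    obtain ⟨d, hd⟩ := mem_dm.1 (hBd c (hμr _ _ hp))
    exact mem_cmp.2 ⟨b, hb, mem_cmp.2 ⟨d, mem_union.2 (Or.inr ((hm' b d).2
      ⟨a, c, hb, hp, hd⟩)), mem_ivr.2 hd⟩⟩

end Pool.Agent.R602.AM
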