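import Pool.Agent.R602.AM.Stm

/-!
# Amorphous sets: stable sets have the swap property (piece SWAP)
-/

set_option autoImplicit false
set_option linter.all false

namespace Pool.Agent.R602.AM

open FirstOrder FirstOrder.Language Pool.Agent.Helper672.ZFA

universe u

variable {M : Type u} [L.Structure M] [hM : IsModel M]

theorem sw_mem_idm {α : Type u} [ITy M α] {s : IPow M α} {a : α} (h : a ∈ s) :
    (a, a) ∈ idm s := mem_idm.2 ⟨h, rfl⟩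

theorem sw_dm_idm {α : Type u} [ITy M α] (s : IPow M α) : dm (idm s) = s := by
  refine IPow.ext' fun a => ?_
  rw [mem_dm]
  constructor
  · rintro ⟨b, hb⟩
    exact (mem_idm.1 hb).1
  · intro h
    exact ⟨a, sw_mem_idm h⟩

theorem sw_rn_idm {α : Type u} [ITy M α] (s : IPow M α) : rn (idm s) = s := by
  refine IPow.ext' fun a => ?_
  rw [mem_rn]
  constructor
  · rintro ⟨b, hb⟩
    have h := mem_idm.1 hb
    have h2 : b = a := h.2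
    exact h2 ▸ h.1
  · intro h
    exact ⟨a, sw_mem_idm h⟩

theorem sw_dm_insert {α : Type u} [ITy M α] (σ : IPow M (α × α)) (a b : α) :
    dm (insert (a, b) σ) = insert a (dm σ) := by
  refine IPow.ext' fun c => ?_
  rw [mem_dm, mem_insert, mem_dm]
  constructor
  · rintro ⟨d, hd⟩
    rcases mem_insert.1 hd with h | h
    · exact Or.inl (congrArg Prod.fst h)
    · exact Or.inr ⟨d, h⟩
  · rintro (rfl | ⟨d, hd⟩)
    · exact ⟨b, by simp⟩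
    · exact ⟨d, mem_insert.2 (Or.inr hd)⟩

theorem sw_rn_insert {α : Type u} [ITy M α] (σ : IPow M (α × α)) (a b : α) :
    rn (insert (a, b) σ) = insert b (rn σ) := by
  refine IPow.ext' fun c => ?_
  rw [mem_rn, mem_insert, mem_rn]
  constructor
  · rintro ⟨d, hd⟩
    rcases mem_insert.1 hd with h | h
    · exact Or.inl (congrArg Prod.snd h)
    · exact Or.inr ⟨d, h⟩
  · rintro (rfl | ⟨d, hd⟩)
    · exact ⟨a, by simp⟩
    · exact ⟨d, mem_insert.2 (Or.inr hd)⟩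

theorem sw_block {α : Type u} [ITy M α] {Γ : IPow M (IPow M (α × α))} (hΓ : HSys Γ)
    {ρ : IPow M (α × α)} (hρ : ρ ∈ Γ) {F F' B B' : IPow M α} (h1 : dm ρ = F ∪ B)
    (h2 : rn ρ = F' ∪ B') (hB : ∀ z, z ∈ B → z ∉ F) (hB' : ∀ z, z ∈ B' → z ∉ F')
    (h3 : ∀ a, a ∈ F → ∃ b, b ∈ F' ∧ (a, b) ∈ ρ) (h4 : ∀ b, b ∈ F' → ∃ a, a ∈ F ∧ (a, b) ∈ ρ)
    {a b : α} (hab : (a, b) ∈ ρ) : a ∈ B ↔ b ∈ B' := by
  have ha : a ∈ F ∪ B := by rw [← h1]; exact mem_dm.2 ⟨_, hab⟩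
  have hb : b ∈ F' ∪ B' := by rw [← h2]; exact mem_rn.2 ⟨_, hab⟩
  have hF : a ∈ F ↔ b ∈ F' := by
    constructor
    · intro h
      obtain ⟨b', h5, h6⟩ := h3 a h
      exact ((hΓ.inj _ hρ _ _ _ _ hab h6).1 rfl) ▸ h5
    · intro h
      obtain ⟨a', h5, h6⟩ := h4 b h
      exact ((hΓ.inj _ hρ _ _ _ _ hab h6).2 rfl) ▸ h5
  constructor
  · intro h
    exact (mem_union.1 hb).resolve_left fun h5 => hB _ h (hF.2 h5)
  · intro h
    exact (mem_union.1 ha).resolve_left fun h5 => hB' _ h (hF.1 h5)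

theorem swap_main : S_SWAP M := by
  intro α _ Γ hA hΓ hC hEx hD D hDf hDc hSt E x y g hEf hEc hDE hxE hyE hyx hg1 hg2 hg3
  have hxD : x ∉ D := fun h => hxE (hDE _ h)
  have hyD : y ∉ D := fun h => hyE (hDE _ h)
  have hxx : x ∈ Bk Γ D x := hD.self D x hDc hxD
  have hyy : y ∈ Bk Γ D y := hD.self D y hDc hyD
  have hxy : x ∉ Bk Γ D y := fun h => hyx (by rw [hD.eq D y x hDf hDc hyD h]; exact hyy)
  have hdx : ∀ z, z ∈ Bk Γ D x → z ∉ E := hD.dis D E x hDf hEf hDc hEc hDE hxE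
  have hdy : ∀ z, z ∈ Bk Γ D y → z ∉ E := hD.dis D E y hDf hEf hDc hEc hDE hyE
  have hcx : cl Γ (insert x E) = E ∪ Bk Γ D x := hD.bk D E x hDf hEf hDc hEc hDE hxE
  have hcy : cl Γ (insert y E) = E ∪ Bk Γ D y := hD.bk D E y hDf hEf hDc hEc hDE hyE
  have hgd : ∀ a b, (a, b) ∈ g → a ∈ Bk Γ D x := fun a b h => by
    rw [← hg1]; exact mem_dm.2 ⟨_, h⟩
  have hgr : ∀ a b, (a, b) ∈ g → b ∈ Bk Γ D y := fun a b h => by
    rw [← hg2]; exact mem_rn.2 ⟨_, h⟩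
  -- (A)
  have hA1 : idm E ∪ g ∈ Γ := by
    obtain ⟨y', hy'⟩ := mem_dm.1 (show x ∈ dm g by rw [hg1]; exact hxx)
    have hy'B : y' ∈ Bk Γ D y := hgr _ _ hy'
    have hy'E := hdy y' hy'B
    have hBy' : Bk Γ D y' = Bk Γ D y := hD.eq D y y' hDf hDc hyD hy'B
    have hcy' : cl Γ (insert y' E) = E ∪ Bk Γ D y := by
      rw [hD.bk D E y' hDf hEf hDc hEc hDE hy'E, hBy']
    have h1 : insert (x, y') (idm E) ∈ Γ := hΓ.gen _ _ _ (hΓ.idm _ hEf)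
      (by rw [sw_dm_idm, hEc]; exact hxE) (by rw [sw_rn_idm, hEc]; exact hy'E)
    obtain ⟨ρ, r1, r2, r3, r4⟩ := hC.extcl _ h1
    rw [sw_dm_insert, sw_dm_idm, hcx] at r3
    rw [sw_rn_insert, sw_rn_idm, hcy'] at r4
    have rE : ∀ e, e ∈ E → (e, e) ∈ ρ := fun e he =>
      r2 _ (mem_insert.2 (Or.inr (sw_mem_idm he)))
    have rB : ∀ a b, (a, b) ∈ ρ → (a ∈ Bk Γ D x ↔ b ∈ Bk Γ D y) := fun a b hab =>
      sw_block hΓ r1 r3 r4 hdx hdy (fun a ha => ⟨a, ha, rE a ha⟩)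
        (fun b hb => ⟨b, hb, rE b hb⟩) hab
    have rx : ∀ a, a ∈ Bk Γ D x → ∃ b, (a, b) ∈ ρ := fun a ha =>
      mem_dm.1 (by rw [r3]; exact mem_union.2 (Or.inr ha))
    have ry : ∀ b, b ∈ Bk Γ D y → ∃ a, (a, b) ∈ ρ := fun b hb =>
      mem_rn.1 (by rw [r4]; exact mem_union.2 (Or.inr hb))
    have hm : ∀ a c, (a, c) ∈ cmp g (ivr ρ) ↔ ∃ b, (a, b) ∈ g ∧ (c, b) ∈ ρ := by
      intro a c
      rw [mem_cmp]
      exact ⟨fun ⟨b, h1, h2⟩ => ⟨b, h1, mem_ivr.1 h2⟩, fun ⟨b, h1, h2⟩ => ⟨b, h1, mem_ivr.2 h2⟩⟩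
    have h2 : dm (cmp g (ivr ρ)) = Bk Γ D x := by
      refine IPow.ext' fun a => ?_
      rw [mem_dm]
      constructor
      · rintro ⟨c, hc⟩
        obtain ⟨b, h1, h2⟩ := (hm a c).1 hc
        exact hgd _ _ h1
      · intro ha
        obtain ⟨b, hb⟩ := mem_dm.1 (show a ∈ dm g by rw [hg1]; exact ha)
        obtain ⟨c, hc⟩ := ry b (hgr _ _ hb)
        exact ⟨c, (hm a c).2 ⟨b, hb, hc⟩⟩
    have h3 : rn (cmp g (ivr ρ)) = Bk Γ D x := by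
      refine IPow.ext' fun c => ?_
      rw [mem_rn]
      constructor
      · rintro ⟨a, ha⟩
        obtain ⟨b, h1, h2⟩ := (hm a c).1 ha
        exact (rB _ _ h2).2 (hgr _ _ h1)
      · intro hc
        obtain ⟨b, hb⟩ := rx c hc
        obtain ⟨a, ha⟩ := mem_rn.1 (show b ∈ rn g by rw [hg2]; exact (rB _ _ hb).1 hc)
        exact ⟨a, (hm a c).2 ⟨b, ha, hb⟩⟩
    have h4 : idm D ∪ cmp g (ivr ρ) ∈ Γ := by
      refine hΓ.sub _ _ (hΓ.cmp _ _ hg3 (hΓ.ivr _ r1)) ?_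
      rintro ⟨a, c⟩ hp
      rcases mem_union.1 hp with hp | hp
      · obtain ⟨h5, h6⟩ := mem_idm.1 hp
        have h6' : a = c := h6
        subst h6'
        exact mem_cmp.2 ⟨a, mem_union.2 (Or.inl (sw_mem_idm h5)), mem_ivr.2 (rE a (hDE _ h5))⟩
      · obtain ⟨b, h5, h6⟩ := (hm a c).1 hp
        exact mem_cmp.2 ⟨b, mem_union.2 (Or.inr h5), mem_ivr.2 h6⟩
    have h5 := hSt E x _ hEf hEc hDE hxE h2 h3 h4
    refine hΓ.sub _ _ (hΓ.cmp _ _ h5 r1) ?_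
    rintro ⟨a, b⟩ hp
    rcases mem_union.1 hp with hp | hp
    · obtain ⟨h6, h7⟩ := mem_idm.1 hp
      have h7' : a = b := h7
      subst h7'
      exact mem_cmp.2 ⟨a, mem_union.2 (Or.inl (sw_mem_idm h6)), rE a h6⟩
    · obtain ⟨c, hc⟩ := ry b (hgr _ _ hp)
      exact mem_cmp.2 ⟨c, mem_union.2 (Or.inr ((hm a c).2 ⟨b, hp, hc⟩)), hc⟩
  -- (B)
  have hdA : dm (idm E ∪ g) = E ∪ Bk Γ D x := by
    refine IPow.ext' fun a => ?_
    rw [mem_dm, mem_union]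
    constructor
    · rintro ⟨b, hb⟩
      rcases mem_union.1 hb with hb | hb
      · exact Or.inl (mem_idm.1 hb).1
      · exact Or.inr (hgd _ _ hb)
    · rintro (h | h)
      · exact ⟨a, mem_union.2 (Or.inl (sw_mem_idm h))⟩
      · obtain ⟨b, hb⟩ := mem_dm.1 (show a ∈ dm g by rw [hg1]; exact h)
        exact ⟨b, mem_union.2 (Or.inr hb)⟩
  have hrA : rn (idm E ∪ g) = E ∪ Bk Γ D y := by
    refine IPow.ext' fun b => ?_
    rw [mem_rn, mem_union]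
    constructor
    · rintro ⟨a, ha⟩
      rcases mem_union.1 ha with ha | ha
      · obtain ⟨h1, h2⟩ := mem_idm.1 ha
        have h2' : a = b := h2
        exact Or.inl (h2' ▸ h1)
      · exact Or.inr (hgr _ _ ha)
    · rintro (h | h)
      · exact ⟨b, mem_union.2 (Or.inl (sw_mem_idm h))⟩
      · obtain ⟨a, ha⟩ := mem_rn.1 (show b ∈ rn g by rw [hg2]; exact h)
        exact ⟨a, mem_union.2 (Or.inr ha)⟩
  obtain ⟨F, hF⟩ : ∃ F : IPow M α, F = E ∪ Bk Γ D x := ⟨_, rfl⟩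
  obtain ⟨F', hF'⟩ : ∃ F' : IPow M α, F' = E ∪ Bk Γ D y := ⟨_, rfl⟩
  have hFf : IFin F := by rw [hF, ← hcx]; exact hΓ.clf _ (hEf.insert x)
  have hFf' : IFin F' := by rw [hF', ← hcy]; exact hΓ.clf _ (hEf.insert y)
  have hFc : cl Γ F = F := by rw [hF, ← hcx]; exact hC.idem _ (hEf.insert x)
  have hFc' : cl Γ F' = F' := by rw [hF', ← hcy]; exact hC.idem _ (hEf.insert y)
  have hDF : D ⊆ F := fun d hd => by rw [hF]; exact mem_union.2 (Or.inl (hDE _ hd))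
  have hDF' : D ⊆ F' := fun d hd => by rw [hF']; exact mem_union.2 (Or.inl (hDE _ hd))
  have hyF : y ∉ F := by
    rw [hF, mem_union]
    rintro (h | h)
    · exact hyE h
    · exact hyx h
  have hxF : x ∉ F' := by
    rw [hF', mem_union]
    rintro (h | h)
    · exact hxE h
    · exact hxy h
  have hcyF : cl Γ (insert y F) = F ∪ Bk Γ D y := hD.bk D F y hDf hFf hDc hFc hDF hyF
  have hcxF : cl Γ (insert x F') = F' ∪ Bk Γ D x := hD.bk D F' x hDf hFf' hDc hFc' hDF' hxF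
  have hdyF : ∀ z, z ∈ Bk Γ D y → z ∉ F := hD.dis D F y hDf hFf hDc hFc hDF hyF
  have hdxF : ∀ z, z ∈ Bk Γ D x → z ∉ F' := hD.dis D F' x hDf hFf' hDc hFc' hDF' hxF
  have h1 : insert (y, x) (idm E ∪ g) ∈ Γ := by
    refine hΓ.gen _ _ _ hA1 ?_ ?_
    · rw [hdA, ← hF, hFc]; exact hyF
    · rw [hrA, ← hF', hFc']; exact hxF
  obtain ⟨ρ, r1, r2, r3, r4⟩ := hC.extcl _ h1
  rw [sw_dm_insert, hdA, ← hF, hcyF] at r3
  rw [sw_rn_insert, hrA, ← hF', hcxF] at r4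
  have rE : ∀ e, e ∈ E → (e, e) ∈ ρ := fun e he =>
    r2 _ (mem_insert.2 (Or.inr (mem_union.2 (Or.inl (sw_mem_idm he)))))
  have rg : ∀ a b, (a, b) ∈ g → (a, b) ∈ ρ := fun a b h =>
    r2 _ (mem_insert.2 (Or.inr (mem_union.2 (Or.inr h))))
  have rB : ∀ a b, (a, b) ∈ ρ → (a ∈ Bk Γ D y ↔ b ∈ Bk Γ D x) := by
    intro a b hab
    refine sw_block hΓ r1 r3 r4 hdyF hdxF ?_ ?_ hab
    · intro a ha
      rw [hF] at ha
      obtain ⟨b, hb⟩ := mem_dm.1 (show a ∈ dm (idm E ∪ g) by rw [hdA]; exact ha)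
      refine ⟨b, ?_, r2 _ (mem_insert.2 (Or.inr hb))⟩
      rw [hF', ← hrA]; exact mem_rn.2 ⟨_, hb⟩
    · intro b hb
      rw [hF'] at hb
      obtain ⟨a, ha⟩ := mem_rn.1 (show b ∈ rn (idm E ∪ g) by rw [hrA]; exact hb)
      refine ⟨a, ?_, r2 _ (mem_insert.2 (Or.inr ha))⟩
      rw [hF, ← hdA]; exact mem_dm.2 ⟨_, ha⟩
  have ry : ∀ a, a ∈ Bk Γ D y → ∃ b, (a, b) ∈ ρ := fun a ha =>
    mem_dm.1 (by rw [r3]; exact mem_union.2 (Or.inr ha))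
  have rx : ∀ b, b ∈ Bk Γ D x → ∃ a, (a, b) ∈ ρ ∧ a ∈ Bk Γ D y := fun b hb => by
    obtain ⟨a, ha⟩ := mem_rn.1 (show b ∈ rn ρ by rw [r4]; exact mem_union.2 (Or.inr hb))
    exact ⟨a, ha, (rB _ _ ha).2 hb⟩
  -- the permutation of the block of x
  obtain ⟨μ, hμ⟩ : ∃ μ : IPow M (α × α), μ = cmp (ivr ρ) (ivr g) := ⟨_, rfl⟩
  have hm : ∀ c a, (c, a) ∈ μ ↔ ∃ b, (b, c) ∈ ρ ∧ (a, b) ∈ g := by
    intro c a
    rw [hμ, mem_cmp]
    exact ⟨fun ⟨b, h1, h2⟩ => ⟨b, mem_ivr.1 h1, mem_ivr.1 h2⟩,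
      fun ⟨b, h1, h2⟩ => ⟨b, mem_ivr.2 h1, mem_ivr.2 h2⟩⟩
  have h2 : dm μ = Bk Γ D x := by
    refine IPow.ext' fun c => ?_
    rw [mem_dm]
    constructor
    · rintro ⟨a, ha⟩
      obtain ⟨b, h1, h2⟩ := (hm c a).1 ha
      exact (rB _ _ h1).1 (hgr _ _ h2)
    · intro hc
      obtain ⟨b, hb, hb'⟩ := rx c hc
      obtain ⟨a, ha⟩ := mem_rn.1 (show b ∈ rn g by rw [hg2]; exact hb')
      exact ⟨a, (hm c a).2 ⟨b, hb, ha⟩⟩
  have h3 : rn μ = Bk Γ D x := by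
    refine IPow.ext' fun a => ?_
    rw [mem_rn]
    constructor
    · rintro ⟨c, hc⟩
      obtain ⟨b, h1, h2⟩ := (hm c a).1 hc
      exact hgd _ _ h2
    · intro ha
      obtain ⟨b, hb⟩ := mem_dm.1 (show a ∈ dm g by rw [hg1]; exact ha)
      obtain ⟨c, hc⟩ := ry b (hgr _ _ hb)
      exact ⟨c, (hm c a).2 ⟨b, hc, hb⟩⟩
  have h4 : idm D ∪ μ ∈ Γ := by
    refine hΓ.sub _ _ (hΓ.cmp _ _ (hΓ.ivr _ r1) (hΓ.ivr _ hg3)) ?_
    rintro ⟨c, a⟩ hp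
    rcases mem_union.1 hp with hp | hp
    · obtain ⟨h5, h6⟩ := mem_idm.1 hp
      have h6' : c = a := h6
      subst h6'
      exact mem_cmp.2 ⟨c, mem_ivr.2 (rE c (hDE _ h5)),
        mem_ivr.2 (mem_union.2 (Or.inl (sw_mem_idm h5)))⟩
    · obtain ⟨b, h5, h6⟩ := (hm c a).1 hp
      exact mem_cmp.2 ⟨b, mem_ivr.2 h5, mem_ivr.2 (mem_union.2 (Or.inr h6))⟩
  have h5 := hSt F' x μ hFf' hFc' hDF' hxF h2 h3 h4
  refine hΓ.sub _ _ (hΓ.cmp _ _ r1 h5) ?_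
  rintro ⟨a, b⟩ hp
  rcases mem_union.1 hp with hp | hp
  · obtain ⟨h6, h7⟩ := mem_idm.1 hp
    have h7' : a = b := h7
    subst h7'
    exact mem_cmp.2 ⟨a, rE a h6, mem_union.2 (Or.inl (sw_mem_idm
      (by rw [hF']; exact mem_union.2 (Or.inl h6))))⟩
  rcases mem_union.1 hp with hp | hp
  · exact mem_cmp.2 ⟨b, rg _ _ hp, mem_union.2 (Or.inl (sw_mem_idm
      (by rw [hF']; exact mem_union.2 (Or.inr (hgr _ _ hp)))))⟩
  · have hp' : (b, a) ∈ g := mem_ivr.1 hp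
    obtain ⟨c, hc⟩ := ry a (hgr _ _ hp')
    exact mem_cmp.2 ⟨c, hc, mem_union.2 (Or.inr ((hm c b).2 ⟨a, hc, hp'⟩))⟩

end Pool.Agent.R602.AM
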