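import Pool.Agent.R602.AM.Main
import Pool.Agent.R602.AM.Card
import Pool.Agent.R602.AM.Amu
import Pool.Agent.R602.AM.Finj
import Pool.Agent.R602.AM.Cl
import Pool.Agent.R602.AM.Ex
import Pool.Agent.R602.AM.Lh
import Pool.Agent.R602.AM.Deg
import Pool.Agent.R602.AM.Stab
import Pool.Agent.R602.AM.Swap
import Pool.Agent.R602.AM.Sp
import Pool.Agent.R602.AM.Rho
import Pool.Agent.R602.AM.Nd
import Pool.Agent.R602.AM.Rp
import Pool.Agent.R602.AM.Idx0
import Pool.Agent.R602.AM.Idx
import Pool.Agent.R602.AM.Inf
import Pool.Agent.R602.AM.Gam

/-!
# The pieces of the proof put together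
-/

set_option autoImplicit false
set_option linter.all false

namespace Pool.Agent.R602.AM

open FirstOrder FirstOrder.Language Pool.Agent.Helper672.ZFA

universe u

/-- All the pieces hold in every model. -/
theorem pcs {M : Type u} [L.Structure M] [hM : IsModel M] : Pcs M where
  card := card_main
  finj := finj_main card_main
  cl := cl_main
  ex := ex_main card_main
  lh := lh_main card_main
  deg := deg_main
  stab := stab_main
  swap := swap_main
  sp := sp_main
  rho := rho_main card_main
  nd := nd_main
  gam := gam_main rp_main (idx_main idx0_main rp_main)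
    (inf_main amu_main rp_main (idx_main idx0_main rp_main))

end Pool.Agent.R602.AM
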