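import Pool.Agent.R602.AM.Base

/-!
# Amorphous sets in a model of set theory: definitions for the final statements

`M` is a model of Zermelo set theory with atoms (`ZermeloAtoms M`), for instance a model of ZF. The
internal types of `Pool.Agent.Helper672.ZFA.Types` and `Pool.Agent.Helper672.ZFA.Power` are used:
`El A` is the type of the elements of the element `A` of `M`, `IPow M α` is the type of the subsets of
`α` that are in `M`, `IFun M α β` is the type of the functions from `α` to `β` that are in `M`,
`IntF M f` says that the function `f` is in `M`, `IFin s` says that `s` is (Kuratowski) finite in `M`.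
-/

set_option autoImplicit false
set_option linter.all false

namespace Pool.Agent.R602.AM

open FirstOrder FirstOrder.Language Pool.Agent.Helper672.ZFA

universe u

/-- Models of Zermelo set theory with atoms have internal types. -/
instance (priority := 100) instModel {M : Type u} [L.Structure M] [ZermeloAtoms M] : IsModel M :=
  ZermeloAtoms.isModel

/-- The elements of an element of the model form an internal type. -/
noncomputable instance instEl {M : Type u} [L.Structure M] [hM : IsModel M] (X : M) :
    ITy M (El X) where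
  code a := a.1
  inj _ _ h := Subtype.ext h
  small := by
    by_cases hX : IsSet X
    · exact ⟨X, hX, fun z => ⟨fun h => ⟨⟨z, h⟩, rfl⟩, fun ⟨a, ha⟩ => ha ▸ a.2⟩⟩
    · obtain ⟨e, he, h⟩ := small_empty (M := M)
      refine ⟨e, he, fun z => (h z).trans ⟨fun h1 => absurd h1 (Set.notMem_empty _), ?_⟩⟩
      rintro ⟨a, rfl⟩
      exact absurd (hM.atoms _ _ a.2) hX

/-- In the model, the set `α` is dually Dedekind finite: every function of the model from `α` onto
`α` is injective. -/
def DDFin (M : Type u) [L.Structure M] [IsModel M] (α : Type u) [ITy M α] : Prop :=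
  ∀ f : α → α, IntF M f → Function.Surjective f → Function.Injective f

variable {M : Type u} [L.Structure M] [IsModel M] {α : Type u} [ITy M α]

/-- `π` is (the graph of) a permutation of `T`. -/
structure IsPerm (T : IPow M α) (π : IPow M (α × α)) : Prop where
  dom : ∀ a b, (a, b) ∈ π → a ∈ T ∧ b ∈ T
  fn : ∀ a, a ∈ T → ∃! b, (a, b) ∈ π
  bij : ∀ b, b ∈ T → ∃! a, (a, b) ∈ π

/-- The permutation `π` of `T` preserves `c` on the subsets of `T`: if `R' = π[R]`, then
`c R' = π[c R]`. -/
def Pres (c : IPow M α → IPow M α) (T : IPow M α) (π : IPow M (α × α)) : Prop :=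
  ∀ R R' : IPow M α, R ⊆ T → R' ⊆ T → (∀ a b, (a, b) ∈ π → (a ∈ R ↔ b ∈ R')) →
    ∀ a b, (a, b) ∈ π → (a ∈ c R ↔ b ∈ c R')

/-- `c` (restricted to the finite sets) is a pregeometry in the model. -/
structure IsPregeometry (c : IPow M α → IPow M α) : Prop where
  int : IntF M c
  fin : ∀ s, IFin s → IFin (c s)
  sub : ∀ s, IFin s → s ⊆ c s
  idem : ∀ s, IFin s → c (c s) = c s
  mono : ∀ s t, IFin s → IFin t → s ⊆ t → c s ⊆ c t
  exch : ∀ s a b, IFin s → a ∉ c s → b ∉ c s → (a ∈ c (s ∪ {b}) ↔ b ∈ c (s ∪ {a}))
  hom : ∀ S T a b, IFin S → IFin T → c S = S → c T = T → S ⊆ T → a ∈ T → a ∉ S → b ∈ T → b ∉ S →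
    ∃ π, IsPerm T π ∧ (a, b) ∈ π ∧ (∀ x, x ∈ S → (x, x) ∈ π) ∧ Pres c T π ∧
      ∀ U, IFin U → c U = U → T ⊆ U → ∃ π', IsPerm U π' ∧ π ⊆ π' ∧ Pres c U π'

/-- The pregeometry `c` is degenerate. -/
def IsDegenerate (c : IPow M α → IPow M α) : Prop :=
  ∀ s, IFin s → (∃ a, a ∈ s) → ∀ x, x ∈ c s ↔ ∃ a, a ∈ s ∧ x ∈ c {a}

variable (M) in
/-- In the model, the set `α` is of projective type: it has a non-degenerate pregeometry. -/
def ProjType (α : Type u) [ITy M α] : Prop := ∃ c : IPow M α → IPow M α,
  IsPregeometry c ∧ ¬ IsDegenerate c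

end Pool.Agent.R602.AM
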