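import Pool.Agent.R602.AM.Stm
import Pool.Agent.R602.AM.Stat

/-!
# Amorphous sets: assembly
-/

set_option autoImplicit false
set_option linter.all false

namespace Pool.Agent.R602.AM

open FirstOrder FirstOrder.Language Pool.Agent.Helper672.ZFA

universe u

/-- All pieces. -/
structure Pcs (M : Type u) [L.Structure M] [IsModel M] : Prop where
  card : S_CARD M
  finj : S_FINJ M
  cl : S_CL M
  ex : S_EX M
  lh : S_LH M
  deg : S_DEG M
  stab : S_STAB M
  swap : S_SWAP M
  sp : S_SP M
  rho : S_RHO M
  nd : S_ND M
  gam : S_GAM M

variable {M : Type u} [L.Structure M] [hM : IsModel M] {α β γ ν : Type u}
  [ITy M α] [ITy M β] [ITy M γ] [ITy M ν]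

/-- The main dichotomy. -/
theorem core (hP : Pcs M) (hA : Amor M α) (hν : IFin (iuniv M ν))
    {f : IPow M (ν × α) → IPow M (ν × α)} (hf : IntF M f) (hs : Function.Surjective f)
    (hi : ¬ Function.Injective f) : ∃ Γ : IPow M (IPow M (α × α)), HSys Γ ∧ ClP Γ ∧ Exch Γ ∧
      ¬ Deg Γ := by
  obtain ⟨Γ, hΓ, hc⟩ := hP.gam α ν f hA hν hf
  have hcl := hP.cl α Γ hA hΓ
  have hex := hP.ex α Γ hA hΓ hcl
  refine ⟨Γ, hΓ, hcl, hex, fun hD => hi ?_⟩
  have hdp := hP.deg α Γ hA hΓ hcl hex hD
  obtain ⟨D, hDf, hDc, hst⟩ := hP.stab α Γ hA hΓ hcl hex hdp
  have hsw := hP.swap α Γ hA hΓ hcl hex hdp D hDf hDc hst
  have hsp := hP.sp α ν Γ f hA hν hf hΓ hcl hc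
  obtain ⟨ρ, N, hρ, hN, h1⟩ := hP.rho α ν Γ f hA hν hf hΓ hcl hex hdp hc hsp D hDf hDc hsw
  have hT : IntF M (fun X : IPow M (ν × α) => cl Γ (D ∪ sp X)) := (by
      (repeat' first
        | (with_reducible (refine int_sp ?_))
        | (with_reducible assumption)
        | (with_reducible exact IntF.id) | (with_reducible exact IntF.fst')
        | (with_reducible exact IntF.snd') | (with_reducible exact IntF.const _)
        | (with_reducible exact Int.const _)
        | (with_reducible apply IntF.fst) | (with_reducible apply IntF.snd)
        | (with_reducible apply Int.and) | (with_reducible apply Int.or) | (with_reducible apply Int.not)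
        | (with_reducible apply Int.ne) | (with_reducible apply Int.iff) | (with_reducible apply Int.imp)
        | (with_reducible apply Int.ex) | (with_reducible apply Int.all) | (with_reducible apply Int.eq)
        | (with_reducible apply Int.mem) | (with_reducible apply Int.subset) | (with_reducible apply Int.fin)
        | (with_reducible_and_instances apply Int.leN) | (with_reducible_and_instances apply Int.ltN)
        | (with_reducible apply IntF.pair) | (with_reducible apply IntF.succ) | (with_reducible apply IntF.sep)
        | (with_reducible apply IntF.insert) | (with_reducible apply IntF.singleton)
        | (with_reducible apply IntF.union) | (with_reducible apply IntF.inter) | (with_reducible apply IntF.sdiff)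
        | (with_reducible apply int_dm) | (with_reducible apply int_rn) | (with_reducible apply int_idm)
        | (with_reducible apply int_ivr) | (with_reducible apply int_cmp) | (with_reducible apply int_img)
        | (with_reducible apply int_cl) | (with_reducible apply int_Bk)
        | (with_reducible ((refine IntF.comp₂ ?_ ?_ ?_); assumption))
        | (with_reducible ((refine Int.comp₂ ?_ ?_ ?_); assumption))
        | (with_reducible ((refine IntF.comp ?_ ?_); assumption))
        | (with_reducible ((refine Int.comp ?_ ?_); assumption))
        | (with_reducible apply IntF.app)))
  refine hP.finj (IPow M (ν × α)) (IPow M α) f ρ (fun X => cl Γ (D ∪ sp X)) N hf hρ hT hs hN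
    (fun X => (h1 X).1) (fun X => (h1 X).2) fun t => ?_
  have hI : Int M (fun X : IPow M (ν × α) => cl Γ (D ∪ sp X) = t) := (by
      (repeat' first
        | (with_reducible (refine int_sp ?_))
        | (with_reducible assumption)
        | (with_reducible exact IntF.id) | (with_reducible exact IntF.fst')
        | (with_reducible exact IntF.snd') | (with_reducible exact IntF.const _)
        | (with_reducible exact Int.const _)
        | (with_reducible apply IntF.fst) | (with_reducible apply IntF.snd)
        | (with_reducible apply Int.and) | (with_reducible apply Int.or) | (with_reducible apply Int.not)
        | (with_reducible apply Int.ne) | (with_reducible apply Int.iff) | (with_reducible apply Int.imp)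
        | (with_reducible apply Int.ex) | (with_reducible apply Int.all) | (with_reducible apply Int.eq)
        | (with_reducible apply Int.mem) | (with_reducible apply Int.subset) | (with_reducible apply Int.fin)
        | (with_reducible_and_instances apply Int.leN) | (with_reducible_and_instances apply Int.ltN)
        | (with_reducible apply IntF.pair) | (with_reducible apply IntF.succ) | (with_reducible apply IntF.sep)
        | (with_reducible apply IntF.insert) | (with_reducible apply IntF.singleton)
        | (with_reducible apply IntF.union) | (with_reducible apply IntF.inter) | (with_reducible apply IntF.sdiff)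
        | (with_reducible apply int_dm) | (with_reducible apply int_rn) | (with_reducible apply int_idm)
        | (with_reducible apply int_ivr) | (with_reducible apply int_cmp) | (with_reducible apply int_img)
        | (with_reducible apply int_cl) | (with_reducible apply int_Bk)
        | (with_reducible ((refine IntF.comp₂ ?_ ?_ ?_); assumption))
        | (with_reducible ((refine Int.comp₂ ?_ ?_ ?_); assumption))
        | (with_reducible ((refine IntF.comp ?_ ?_); assumption))
        | (with_reducible ((refine Int.comp ?_ ?_); assumption))
        | (with_reducible apply IntF.app)))
  have hI' : Int M (fun X : IPow M (ν × α) => sp X ⊆ t) := (by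
      (repeat' first
        | (with_reducible (refine int_sp ?_))
        | (with_reducible assumption)
        | (with_reducible exact IntF.id) | (with_reducible exact IntF.fst')
        | (with_reducible exact IntF.snd') | (with_reducible exact IntF.const _)
        | (with_reducible exact Int.const _)
        | (with_reducible apply IntF.fst) | (with_reducible apply IntF.snd)
        | (with_reducible apply Int.and) | (with_reducible apply Int.or) | (with_reducible apply Int.not)
        | (with_reducible apply Int.ne) | (with_reducible apply Int.iff) | (with_reducible apply Int.imp)
        | (with_reducible apply Int.ex) | (with_reducible apply Int.all) | (with_reducible apply Int.eq)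
        | (with_reducible apply Int.mem) | (with_reducible apply Int.subset) | (with_reducible apply Int.fin)
        | (with_reducible_and_instances apply Int.leN) | (with_reducible_and_instances apply Int.ltN)
        | (with_reducible apply IntF.pair) | (with_reducible apply IntF.succ) | (with_reducible apply IntF.sep)
        | (with_reducible apply IntF.insert) | (with_reducible apply IntF.singleton)
        | (with_reducible apply IntF.union) | (with_reducible apply IntF.inter) | (with_reducible apply IntF.sdiff)
        | (with_reducible apply int_dm) | (with_reducible apply int_rn) | (with_reducible apply int_idm)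
        | (with_reducible apply int_ivr) | (with_reducible apply int_cmp) | (with_reducible apply int_img)
        | (with_reducible apply int_cl) | (with_reducible apply int_Bk)
        | (with_reducible ((refine IntF.comp₂ ?_ ?_ ?_); assumption))
        | (with_reducible ((refine Int.comp₂ ?_ ?_ ?_); assumption))
        | (with_reducible ((refine IntF.comp ?_ ?_); assumption))
        | (with_reducible ((refine Int.comp ?_ ?_); assumption))
        | (with_reducible apply IntF.app)))
  by_cases ht : IFin t
  · refine (hsp.fib t ht).subset fun X hX => ?_
    rw [mem_sep hI] at hX
    rw [mem_sep hI', ← hX]
    intro x hx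
    exact hcl.sub _ x (mem_union.2 (Or.inr hx))
  · refine IFin.empty.subset fun X hX => ?_
    rw [mem_sep hI] at hX
    refine absurd ?_ ht
    rw [← hX]
    exact hΓ.clf _ (hDf.union (hsp.fin X))

/-! ### Tuples of subsets -/

/-- The code of a tuple of subsets. -/
noncomputable def cd (X : IFun M ν (IPow M α)) : IPow M (ν × α) := sep M fun p => p.2 ∈ X p.1

/-- The tuple with the given code. -/
noncomputable def dc (Y : IPow M (ν × α)) : IFun M ν (IPow M α) :=
  ⟨fun v => sep M fun a => (v, a) ∈ Y, (by
      (repeat' first
        | (with_reducible assumption)
        | (with_reducible exact IntF.id) | (with_reducible exact IntF.fst')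
        | (with_reducible exact IntF.snd') | (with_reducible exact IntF.const _)
        | (with_reducible exact Int.const _)
        | (with_reducible apply IntF.fst) | (with_reducible apply IntF.snd)
        | (with_reducible apply Int.and) | (with_reducible apply Int.or) | (with_reducible apply Int.not)
        | (with_reducible apply Int.ne) | (with_reducible apply Int.iff) | (with_reducible apply Int.imp)
        | (with_reducible apply Int.ex) | (with_reducible apply Int.all) | (with_reducible apply Int.eq)
        | (with_reducible apply Int.mem) | (with_reducible apply Int.subset) | (with_reducible apply Int.fin)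
        | (with_reducible_and_instances apply Int.leN) | (with_reducible_and_instances apply Int.ltN)
        | (with_reducible apply IntF.pair) | (with_reducible apply IntF.succ) | (with_reducible apply IntF.sep)
        | (with_reducible apply IntF.insert) | (with_reducible apply IntF.singleton)
        | (with_reducible apply IntF.union) | (with_reducible apply IntF.inter) | (with_reducible apply IntF.sdiff)
        | (with_reducible apply int_dm) | (with_reducible apply int_rn) | (with_reducible apply int_idm)
        | (with_reducible apply int_ivr) | (with_reducible apply int_cmp) | (with_reducible apply int_img)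
        | (with_reducible apply int_cl) | (with_reducible apply int_Bk)
        | (with_reducible ((refine IntF.comp₂ ?_ ?_ ?_); assumption))
        | (with_reducible ((refine Int.comp₂ ?_ ?_ ?_); assumption))
        | (with_reducible ((refine IntF.comp ?_ ?_); assumption))
        | (with_reducible ((refine Int.comp ?_ ?_); assumption))
        | (with_reducible apply IntF.app)))⟩

theorem mem_cd {X : IFun M ν (IPow M α)} {p : ν × α} : p ∈ cd X ↔ p.2 ∈ X p.1 :=
  mem_sep (by
      (repeat' first
        | (with_reducible assumption)
        | (with_reducible exact IntF.id) | (with_reducible exact IntF.fst')
        | (with_reducible exact IntF.snd') | (with_reducible exact IntF.const _)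
        | (with_reducible exact Int.const _)
        | (with_reducible apply IntF.fst) | (with_reducible apply IntF.snd)
        | (with_reducible apply Int.and) | (with_reducible apply Int.or) | (with_reducible apply Int.not)
        | (with_reducible apply Int.ne) | (with_reducible apply Int.iff) | (with_reducible apply Int.imp)
        | (with_reducible apply Int.ex) | (with_reducible apply Int.all) | (with_reducible apply Int.eq)
        | (with_reducible apply Int.mem) | (with_reducible apply Int.subset) | (with_reducible apply Int.fin)
        | (with_reducible_and_instances apply Int.leN) | (with_reducible_and_instances apply Int.ltN)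
        | (with_reducible apply IntF.pair) | (with_reducible apply IntF.succ) | (with_reducible apply IntF.sep)
        | (with_reducible apply IntF.insert) | (with_reducible apply IntF.singleton)
        | (with_reducible apply IntF.union) | (with_reducible apply IntF.inter) | (with_reducible apply IntF.sdiff)
        | (with_reducible apply int_dm) | (with_reducible apply int_rn) | (with_reducible apply int_idm)
        | (with_reducible apply int_ivr) | (with_reducible apply int_cmp) | (with_reducible apply int_img)
        | (with_reducible apply int_cl) | (with_reducible apply int_Bk)
        | (with_reducible ((refine IntF.comp₂ ?_ ?_ ?_); assumption))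
        | (with_reducible ((refine Int.comp₂ ?_ ?_ ?_); assumption))
        | (with_reducible ((refine IntF.comp ?_ ?_); assumption))
        | (with_reducible ((refine Int.comp ?_ ?_); assumption))
        | (with_reducible apply IntF.app)))

theorem mem_dc {Y : IPow M (ν × α)} {v : ν} {a : α} : a ∈ dc Y v ↔ (v, a) ∈ Y :=
  mem_sep (by
      (repeat' first
        | (with_reducible assumption)
        | (with_reducible exact IntF.id) | (with_reducible exact IntF.fst')
        | (with_reducible exact IntF.snd') | (with_reducible exact IntF.const _)
        | (with_reducible exact Int.const _)
        | (with_reducible apply IntF.fst) | (with_reducible apply IntF.snd)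
        | (with_reducible apply Int.and) | (with_reducible apply Int.or) | (with_reducible apply Int.not)
        | (with_reducible apply Int.ne) | (with_reducible apply Int.iff) | (with_reducible apply Int.imp)
        | (with_reducible apply Int.ex) | (with_reducible apply Int.all) | (with_reducible apply Int.eq)
        | (with_reducible apply Int.mem) | (with_reducible apply Int.subset) | (with_reducible apply Int.fin)
        | (with_reducible_and_instances apply Int.leN) | (with_reducible_and_instances apply Int.ltN)
        | (with_reducible apply IntF.pair) | (with_reducible apply IntF.succ) | (with_reducible apply IntF.sep)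
        | (with_reducible apply IntF.insert) | (with_reducible apply IntF.singleton)
        | (with_reducible apply IntF.union) | (with_reducible apply IntF.inter) | (with_reducible apply IntF.sdiff)
        | (with_reducible apply int_dm) | (with_reducible apply int_rn) | (with_reducible apply int_idm)
        | (with_reducible apply int_ivr) | (with_reducible apply int_cmp) | (with_reducible apply int_img)
        | (with_reducible apply int_cl) | (with_reducible apply int_Bk)
        | (with_reducible ((refine IntF.comp₂ ?_ ?_ ?_); assumption))
        | (with_reducible ((refine Int.comp₂ ?_ ?_ ?_); assumption))
        | (with_reducible ((refine IntF.comp ?_ ?_); assumption))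
        | (with_reducible ((refine Int.comp ?_ ?_); assumption))
        | (with_reducible apply IntF.app)))

theorem cd_dc (Y : IPow M (ν × α)) : cd (dc Y) = Y :=
  IPow.ext' fun p => by
    rw [mem_cd, mem_dc]

theorem dc_cd (X : IFun M ν (IPow M α)) : dc (cd X) = X :=
  IFun.ext' fun v => IPow.ext' fun a => by
    rw [mem_dc, mem_cd]

theorem int_cd : IntF M (fun X : IFun M ν (IPow M α) => cd X) := by
  unfold cd
  exact (by
      (repeat' first
        | (with_reducible assumption)
        | (with_reducible exact IntF.id) | (with_reducible exact IntF.fst')
        | (with_reducible exact IntF.snd') | (with_reducible exact IntF.const _)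
        | (with_reducible exact Int.const _)
        | (with_reducible apply IntF.fst) | (with_reducible apply IntF.snd)
        | (with_reducible apply Int.and) | (with_reducible apply Int.or) | (with_reducible apply Int.not)
        | (with_reducible apply Int.ne) | (with_reducible apply Int.iff) | (with_reducible apply Int.imp)
        | (with_reducible apply Int.ex) | (with_reducible apply Int.all) | (with_reducible apply Int.eq)
        | (with_reducible apply Int.mem) | (with_reducible apply Int.subset) | (with_reducible apply Int.fin)
        | (with_reducible_and_instances apply Int.leN) | (with_reducible_and_instances apply Int.ltN)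
        | (with_reducible apply IntF.pair) | (with_reducible apply IntF.succ) | (with_reducible apply IntF.sep)
        | (with_reducible apply IntF.insert) | (with_reducible apply IntF.singleton)
        | (with_reducible apply IntF.union) | (with_reducible apply IntF.inter) | (with_reducible apply IntF.sdiff)
        | (with_reducible apply int_dm) | (with_reducible apply int_rn) | (with_reducible apply int_idm)
        | (with_reducible apply int_ivr) | (with_reducible apply int_cmp) | (with_reducible apply int_img)
        | (with_reducible apply int_cl) | (with_reducible apply int_Bk)
        | (with_reducible ((refine IntF.comp₂ ?_ ?_ ?_); assumption))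
        | (with_reducible ((refine Int.comp₂ ?_ ?_ ?_); assumption))
        | (with_reducible ((refine IntF.comp ?_ ?_); assumption))
        | (with_reducible ((refine Int.comp ?_ ?_); assumption))
        | (with_reducible apply IntF.app)))

theorem int_dc : IntF M (fun Y : IPow M (ν × α) => dc Y) := by
  refine IntF.of_rel (r := fun Y X => ∀ v a, a ∈ X v ↔ (v, a) ∈ Y) (by
      (repeat' first
        | (with_reducible assumption)
        | (with_reducible exact IntF.id) | (with_reducible exact IntF.fst')
        | (with_reducible exact IntF.snd') | (with_reducible exact IntF.const _)
        | (with_reducible exact Int.const _)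
        | (with_reducible apply IntF.fst) | (with_reducible apply IntF.snd)
        | (with_reducible apply Int.and) | (with_reducible apply Int.or) | (with_reducible apply Int.not)
        | (with_reducible apply Int.ne) | (with_reducible apply Int.iff) | (with_reducible apply Int.imp)
        | (with_reducible apply Int.ex) | (with_reducible apply Int.all) | (with_reducible apply Int.eq)
        | (with_reducible apply Int.mem) | (with_reducible apply Int.subset) | (with_reducible apply Int.fin)
        | (with_reducible_and_instances apply Int.leN) | (with_reducible_and_instances apply Int.ltN)
        | (with_reducible apply IntF.pair) | (with_reducible apply IntF.succ) | (with_reducible apply IntF.sep)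
        | (with_reducible apply IntF.insert) | (with_reducible apply IntF.singleton)
        | (with_reducible apply IntF.union) | (with_reducible apply IntF.inter) | (with_reducible apply IntF.sdiff)
        | (with_reducible apply int_dm) | (with_reducible apply int_rn) | (with_reducible apply int_idm)
        | (with_reducible apply int_ivr) | (with_reducible apply int_cmp) | (with_reducible apply int_img)
        | (with_reducible apply int_cl) | (with_reducible apply int_Bk)
        | (with_reducible ((refine IntF.comp₂ ?_ ?_ ?_); assumption))
        | (with_reducible ((refine Int.comp₂ ?_ ?_ ?_); assumption))
        | (with_reducible ((refine IntF.comp ?_ ?_); assumption))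
        | (with_reducible ((refine Int.comp ?_ ?_); assumption))
        | (with_reducible apply IntF.app))) fun Y X => ?_
  constructor
  · intro h
    exact IFun.ext' fun v => IPow.ext' fun a => by rw [mem_dc, h]
  · rintro rfl v a
    exact mem_dc

theorem core' (hP : Pcs M) (hA : Amor M α) (hν : IFin (iuniv M ν))
    (hn : ¬ DDFin M (IFun M ν (IPow M α))) : ∃ Γ : IPow M (IPow M (α × α)), HSys Γ ∧ ClP Γ ∧
      Exch Γ ∧ ¬ Deg Γ := by
  unfold DDFin at hn
  push Not at hn
  obtain ⟨f, hf, hs, hi⟩ := hn
  have h1 : IntF M (fun Y : IPow M (ν × α) => cd (f (dc Y))) :=
    int_cd.comp (IntF.comp hf int_dc)
  refine core hP hA hν h1 (fun Y => ?_) fun hinj => hi fun X X' h => ?_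
  · obtain ⟨X, hX⟩ := hs (dc Y)
    exact ⟨cd X, by rw [dc_cd, hX, cd_dc]⟩
  · have h2 : cd X = cd X' := hinj (by
      change cd (f (dc (cd X))) = cd (f (dc (cd X')))
      rw [dc_cd, dc_cd, h])
    rw [← dc_cd X, h2, dc_cd]

open Classical in
/-- The tuple with the value at `v` changed by `h`. -/
noncomputable def chg (h : β → β) (v : ν) (X : IFun M ν β) : IFun M ν β :=
  if hh : IntF M (fun w => if w = v then h (X v) else X w) then ⟨_, hh⟩ else X

open Classical in
theorem chg_apply {h : β → β} (v : ν) (X : IFun M ν β) (w : ν) :
    chg h v X w = if w = v then h (X v) else X w := by
  have hh : IntF M (fun w => if w = v then h (X v) else X w) := by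
    have h1 : Int M (fun w : ν => w = v) := (by
        (repeat' first
          | (with_reducible assumption)
          | (with_reducible exact IntF.id) | (with_reducible exact IntF.fst')
          | (with_reducible exact IntF.snd') | (with_reducible exact IntF.const _)
          | (with_reducible exact Int.const _)
          | (with_reducible apply IntF.fst) | (with_reducible apply IntF.snd)
          | (with_reducible apply Int.and) | (with_reducible apply Int.or) | (with_reducible apply Int.not)
          | (with_reducible apply Int.ne) | (with_reducible apply Int.iff) | (with_reducible apply Int.imp)
          | (with_reducible apply Int.ex) | (with_reducible apply Int.all) | (with_reducible apply Int.eq)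
          | (with_reducible apply Int.mem) | (with_reducible apply Int.subset) | (with_reducible apply Int.fin)
          | (with_reducible_and_instances apply Int.leN) | (with_reducible_and_instances apply Int.ltN)
          | (with_reducible apply IntF.pair) | (with_reducible apply IntF.succ) | (with_reducible apply IntF.sep)
          | (with_reducible apply IntF.insert) | (with_reducible apply IntF.singleton)
          | (with_reducible apply IntF.union) | (with_reducible apply IntF.inter) | (with_reducible apply IntF.sdiff)
          | (with_reducible apply int_dm) | (with_reducible apply int_rn) | (with_reducible apply int_idm)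
          | (with_reducible apply int_ivr) | (with_reducible apply int_cmp) | (with_reducible apply int_img)
          | (with_reducible apply int_cl) | (with_reducible apply int_Bk)
          | (with_reducible ((refine IntF.comp₂ ?_ ?_ ?_); assumption))
          | (with_reducible ((refine Int.comp₂ ?_ ?_ ?_); assumption))
          | (with_reducible ((refine IntF.comp ?_ ?_); assumption))
          | (with_reducible ((refine Int.comp ?_ ?_); assumption))
          | (with_reducible apply IntF.app)))
    exact IntF.ite h1 (IntF.const _) X.int
  unfold chg
  rw [dif_pos hh]

theorem ddfin_pow {h : β → β} (hh : IntF M h) (hs : Function.Surjective h)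
    (hi : ¬ Function.Injective h) (v : ν) : ¬ DDFin M (IFun M ν β) := by
  classical
  intro hD
  refine hi fun a b hab => ?_
  have h1 : IntF M (fun X : IFun M ν β => chg h v X) := by
    refine IntF.of_rel (r := fun X Y => ∀ w, (w = v → Y w = h (X v)) ∧ (w ≠ v → Y w = X w)) (by
        (repeat' first
          | (with_reducible assumption)
          | (with_reducible exact IntF.id) | (with_reducible exact IntF.fst')
          | (with_reducible exact IntF.snd') | (with_reducible exact IntF.const _)
          | (with_reducible exact Int.const _)
          | (with_reducible apply IntF.fst) | (with_reducible apply IntF.snd)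
          | (with_reducible apply Int.and) | (with_reducible apply Int.or) | (with_reducible apply Int.not)
          | (with_reducible apply Int.ne) | (with_reducible apply Int.iff) | (with_reducible apply Int.imp)
          | (with_reducible apply Int.ex) | (with_reducible apply Int.all) | (with_reducible apply Int.eq)
          | (with_reducible apply Int.mem) | (with_reducible apply Int.subset) | (with_reducible apply Int.fin)
          | (with_reducible_and_instances apply Int.leN) | (with_reducible_and_instances apply Int.ltN)
          | (with_reducible apply IntF.pair) | (with_reducible apply IntF.succ) | (with_reducible apply IntF.sep)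
          | (with_reducible apply IntF.insert) | (with_reducible apply IntF.singleton)
          | (with_reducible apply IntF.union) | (with_reducible apply IntF.inter) | (with_reducible apply IntF.sdiff)
          | (with_reducible apply int_dm) | (with_reducible apply int_rn) | (with_reducible apply int_idm)
          | (with_reducible apply int_ivr) | (with_reducible apply int_cmp) | (with_reducible apply int_img)
          | (with_reducible apply int_cl) | (with_reducible apply int_Bk)
          | (with_reducible ((refine IntF.comp₂ ?_ ?_ ?_); assumption))
          | (with_reducible ((refine Int.comp₂ ?_ ?_ ?_); assumption))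
          | (with_reducible ((refine IntF.comp ?_ ?_); assumption))
          | (with_reducible ((refine Int.comp ?_ ?_); assumption))
          | (with_reducible apply IntF.app)))
      fun X Y => ?_
    constructor
    · intro h2
      refine IFun.ext' fun w => ?_
      rw [chg_apply]
      split_ifs with hw
      · exact ((h2 w).1 hw).symm
      · exact ((h2 w).2 hw).symm
    · rintro rfl w
      refine ⟨fun hw => ?_, fun hw => ?_⟩
      · rw [chg_apply, if_pos hw]
      · rw [chg_apply, if_neg hw]
  have h2 : Function.Surjective (fun X : IFun M ν β => chg h v X) := by
    intro Y
    obtain ⟨b, hb⟩ := hs (Y v)
    have h3 : IntF M (fun w => if w = v then b else Y w) := by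
      have h4 : Int M (fun w : ν => w = v) := (by
          (repeat' first
            | (with_reducible assumption)
            | (with_reducible exact IntF.id) | (with_reducible exact IntF.fst')
            | (with_reducible exact IntF.snd') | (with_reducible exact IntF.const _)
            | (with_reducible exact Int.const _)
            | (with_reducible apply IntF.fst) | (with_reducible apply IntF.snd)
            | (with_reducible apply Int.and) | (with_reducible apply Int.or) | (with_reducible apply Int.not)
            | (with_reducible apply Int.ne) | (with_reducible apply Int.iff) | (with_reducible apply Int.imp)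
            | (with_reducible apply Int.ex) | (with_reducible apply Int.all) | (with_reducible apply Int.eq)
            | (with_reducible apply Int.mem) | (with_reducible apply Int.subset) | (with_reducible apply Int.fin)
            | (with_reducible_and_instances apply Int.leN) | (with_reducible_and_instances apply Int.ltN)
            | (with_reducible apply IntF.pair) | (with_reducible apply IntF.succ) | (with_reducible apply IntF.sep)
            | (with_reducible apply IntF.insert) | (with_reducible apply IntF.singleton)
            | (with_reducible apply IntF.union) | (with_reducible apply IntF.inter) | (with_reducible apply IntF.sdiff)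
            | (with_reducible apply int_dm) | (with_reducible apply int_rn) | (with_reducible apply int_idm)
            | (with_reducible apply int_ivr) | (with_reducible apply int_cmp) | (with_reducible apply int_img)
            | (with_reducible apply int_cl) | (with_reducible apply int_Bk)
            | (with_reducible ((refine IntF.comp₂ ?_ ?_ ?_); assumption))
            | (with_reducible ((refine Int.comp₂ ?_ ?_ ?_); assumption))
            | (with_reducible ((refine IntF.comp ?_ ?_); assumption))
            | (with_reducible ((refine Int.comp ?_ ?_); assumption))
            | (with_reducible apply IntF.app)))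
      exact IntF.ite h4 (IntF.const _) Y.int
    refine ⟨⟨_, h3⟩, IFun.ext' fun w => ?_⟩
    rw [chg_apply]
    change (if w = v then h (if v = v then b else Y v) else if w = v then b else Y w) = Y w
    by_cases hw : w = v
    · rw [if_pos hw, if_pos rfl, hb, hw]
    · rw [if_neg hw, if_neg hw]
  have h3 := hD _ h1 h2
  have h4 : (⟨fun _ => a, IntF.const a⟩ : IFun M ν β) = ⟨fun w => if w = v then b else a, by
      have h4 : Int M (fun w : ν => w = v) := (by
          (repeat' first
            | (with_reducible assumption)
            | (with_reducible exact IntF.id) | (with_reducible exact IntF.fst')
            | (with_reducible exact IntF.snd') | (with_reducible exact IntF.const _)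
            | (with_reducible exact Int.const _)
            | (with_reducible apply IntF.fst) | (with_reducible apply IntF.snd)
            | (with_reducible apply Int.and) | (with_reducible apply Int.or) | (with_reducible apply Int.not)
            | (with_reducible apply Int.ne) | (with_reducible apply Int.iff) | (with_reducible apply Int.imp)
            | (with_reducible apply Int.ex) | (with_reducible apply Int.all) | (with_reducible apply Int.eq)
            | (with_reducible apply Int.mem) | (with_reducible apply Int.subset) | (with_reducible apply Int.fin)
            | (with_reducible_and_instances apply Int.leN) | (with_reducible_and_instances apply Int.ltN)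
            | (with_reducible apply IntF.pair) | (with_reducible apply IntF.succ) | (with_reducible apply IntF.sep)
            | (with_reducible apply IntF.insert) | (with_reducible apply IntF.singleton)
            | (with_reducible apply IntF.union) | (with_reducible apply IntF.inter) | (with_reducible apply IntF.sdiff)
            | (with_reducible apply int_dm) | (with_reducible apply int_rn) | (with_reducible apply int_idm)
            | (with_reducible apply int_ivr) | (with_reducible apply int_cmp) | (with_reducible apply int_img)
            | (with_reducible apply int_cl) | (with_reducible apply int_Bk)
            | (with_reducible ((refine IntF.comp₂ ?_ ?_ ?_); assumption))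
            | (with_reducible ((refine Int.comp₂ ?_ ?_ ?_); assumption))
            | (with_reducible ((refine IntF.comp ?_ ?_); assumption))
            | (with_reducible ((refine Int.comp ?_ ?_); assumption))
            | (with_reducible apply IntF.app)))
      exact IntF.ite h4 (IntF.const _) (IntF.const _)⟩ := by
    refine h3 (IFun.ext' fun w => ?_)
    rw [chg_apply, chg_apply]
    change (if w = v then h a else a) = if w = v then h (if v = v then b else a) else
      if w = v then b else a
    by_cases hw : w = v
    · rw [if_pos hw, if_pos hw, if_pos rfl, hab]
    · rw [if_neg hw, if_neg hw, if_neg hw]
  have h5 := congrArg (fun X : IFun M ν β => X v) h4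
  change a = if v = v then b else a at h5
  rwa [if_pos rfl] at h5

/-! ### The natural numbers -/

theorem fin_nat (n : INat M) : IFin (iuniv M (El n.val)) := by
  have key : ∀ n : INat M, IFin (sep M fun i : INat M => i < n) := by
    refine INat.ind (p := fun n : INat M => IFin (sep M fun i : INat M => i < n)) (by
        (repeat' first
          | (with_reducible assumption)
          | (with_reducible exact IntF.id) | (with_reducible exact IntF.fst')
          | (with_reducible exact IntF.snd') | (with_reducible exact IntF.const _)
          | (with_reducible exact Int.const _)
          | (with_reducible apply IntF.fst) | (with_reducible apply IntF.snd)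
          | (with_reducible apply Int.and) | (with_reducible apply Int.or) | (with_reducible apply Int.not)
          | (with_reducible apply Int.ne) | (with_reducible apply Int.iff) | (with_reducible apply Int.imp)
          | (with_reducible apply Int.ex) | (with_reducible apply Int.all) | (with_reducible apply Int.eq)
          | (with_reducible apply Int.mem) | (with_reducible apply Int.subset) | (with_reducible apply Int.fin)
          | (with_reducible_and_instances apply Int.leN) | (with_reducible_and_instances apply Int.ltN)
          | (with_reducible apply IntF.pair) | (with_reducible apply IntF.succ) | (with_reducible apply IntF.sep)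
          | (with_reducible apply IntF.insert) | (with_reducible apply IntF.singleton)
          | (with_reducible apply IntF.union) | (with_reducible apply IntF.inter) | (with_reducible apply IntF.sdiff)
          | (with_reducible apply int_dm) | (with_reducible apply int_rn) | (with_reducible apply int_idm)
          | (with_reducible apply int_ivr) | (with_reducible apply int_cmp) | (with_reducible apply int_img)
          | (with_reducible apply int_cl) | (with_reducible apply int_Bk)
          | (with_reducible ((refine IntF.comp₂ ?_ ?_ ?_); assumption))
          | (with_reducible ((refine Int.comp₂ ?_ ?_ ?_); assumption))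
          | (with_reducible ((refine IntF.comp ?_ ?_); assumption))
          | (with_reducible ((refine Int.comp ?_ ?_); assumption))
          | (with_reducible apply IntF.app))) ?_ ?_
    · refine IFin.empty.subset fun i hi => ?_
      rw [mem_sep (by
          (repeat' first
            | (with_reducible assumption)
            | (with_reducible exact IntF.id) | (with_reducible exact IntF.fst')
            | (with_reducible exact IntF.snd') | (with_reducible exact IntF.const _)
            | (with_reducible exact Int.const _)
            | (with_reducible apply IntF.fst) | (with_reducible apply IntF.snd)
            | (with_reducible apply Int.and) | (with_reducible apply Int.or) | (with_reducible apply Int.not)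
            | (with_reducible apply Int.ne) | (with_reducible apply Int.iff) | (with_reducible apply Int.imp)
            | (with_reducible apply Int.ex) | (with_reducible apply Int.all) | (with_reducible apply Int.eq)
            | (with_reducible apply Int.mem) | (with_reducible apply Int.subset) | (with_reducible apply Int.fin)
            | (with_reducible_and_instances apply Int.leN) | (with_reducible_and_instances apply Int.ltN)
            | (with_reducible apply IntF.pair) | (with_reducible apply IntF.succ) | (with_reducible apply IntF.sep)
            | (with_reducible apply IntF.insert) | (with_reducible apply IntF.singleton)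
            | (with_reducible apply IntF.union) | (with_reducible apply IntF.inter) | (with_reducible apply IntF.sdiff)
            | (with_reducible apply int_dm) | (with_reducible apply int_rn) | (with_reducible apply int_idm)
            | (with_reducible apply int_ivr) | (with_reducible apply int_cmp) | (with_reducible apply int_img)
            | (with_reducible apply int_cl) | (with_reducible apply int_Bk)
            | (with_reducible ((refine IntF.comp₂ ?_ ?_ ?_); assumption))
            | (with_reducible ((refine Int.comp₂ ?_ ?_ ?_); assumption))
            | (with_reducible ((refine IntF.comp ?_ ?_); assumption))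
            | (with_reducible ((refine Int.comp ?_ ?_); assumption))
            | (with_reducible apply IntF.app)))] at hi
      exact absurd hi INat.not_lt_zero
    · intro n ih
      refine (ih.insert n).subset fun i hi => ?_
      rw [mem_sep (by
          (repeat' first
            | (with_reducible assumption)
            | (with_reducible exact IntF.id) | (with_reducible exact IntF.fst')
            | (with_reducible exact IntF.snd') | (with_reducible exact IntF.const _)
            | (with_reducible exact Int.const _)
            | (with_reducible apply IntF.fst) | (with_reducible apply IntF.snd)
            | (with_reducible apply Int.and) | (with_reducible apply Int.or) | (with_reducible apply Int.not)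
            | (with_reducible apply Int.ne) | (with_reducible apply Int.iff) | (with_reducible apply Int.imp)
            | (with_reducible apply Int.ex) | (with_reducible apply Int.all) | (with_reducible apply Int.eq)
            | (with_reducible apply Int.mem) | (with_reducible apply Int.subset) | (with_reducible apply Int.fin)
            | (with_reducible_and_instances apply Int.leN) | (with_reducible_and_instances apply Int.ltN)
            | (with_reducible apply IntF.pair) | (with_reducible apply IntF.succ) | (with_reducible apply IntF.sep)
            | (with_reducible apply IntF.insert) | (with_reducible apply IntF.singleton)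
            | (with_reducible apply IntF.union) | (with_reducible apply IntF.inter) | (with_reducible apply IntF.sdiff)
            | (with_reducible apply int_dm) | (with_reducible apply int_rn) | (with_reducible apply int_idm)
            | (with_reducible apply int_ivr) | (with_reducible apply int_cmp) | (with_reducible apply int_img)
            | (with_reducible apply int_cl) | (with_reducible apply int_Bk)
            | (with_reducible ((refine IntF.comp₂ ?_ ?_ ?_); assumption))
            | (with_reducible ((refine Int.comp₂ ?_ ?_ ?_); assumption))
            | (with_reducible ((refine IntF.comp ?_ ?_); assumption))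
            | (with_reducible ((refine Int.comp ?_ ?_); assumption))
            | (with_reducible apply IntF.app)))] at hi
      rw [mem_insert, mem_sep (by
          (repeat' first
            | (with_reducible assumption)
            | (with_reducible exact IntF.id) | (with_reducible exact IntF.fst')
            | (with_reducible exact IntF.snd') | (with_reducible exact IntF.const _)
            | (with_reducible exact Int.const _)
            | (with_reducible apply IntF.fst) | (with_reducible apply IntF.snd)
            | (with_reducible apply Int.and) | (with_reducible apply Int.or) | (with_reducible apply Int.not)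
            | (with_reducible apply Int.ne) | (with_reducible apply Int.iff) | (with_reducible apply Int.imp)
            | (with_reducible apply Int.ex) | (with_reducible apply Int.all) | (with_reducible apply Int.eq)
            | (with_reducible apply Int.mem) | (with_reducible apply Int.subset) | (with_reducible apply Int.fin)
            | (with_reducible_and_instances apply Int.leN) | (with_reducible_and_instances apply Int.ltN)
            | (with_reducible apply IntF.pair) | (with_reducible apply IntF.succ) | (with_reducible apply IntF.sep)
            | (with_reducible apply IntF.insert) | (with_reducible apply IntF.singleton)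
            | (with_reducible apply IntF.union) | (with_reducible apply IntF.inter) | (with_reducible apply IntF.sdiff)
            | (with_reducible apply int_dm) | (with_reducible apply int_rn) | (with_reducible apply int_idm)
            | (with_reducible apply int_ivr) | (with_reducible apply int_cmp) | (with_reducible apply int_img)
            | (with_reducible apply int_cl) | (with_reducible apply int_Bk)
            | (with_reducible ((refine IntF.comp₂ ?_ ?_ ?_); assumption))
            | (with_reducible ((refine Int.comp₂ ?_ ?_ ?_); assumption))
            | (with_reducible ((refine IntF.comp ?_ ?_); assumption))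
            | (with_reducible ((refine Int.comp ?_ ?_); assumption))
            | (with_reducible apply IntF.app)))]
      rcases INat.lt_succ_iff'.1 hi with h | h
      · exact Or.inr h
      · exact Or.inl h
  have h1 : ∀ z : M, Mem z n.val → ∃ i : INat M, i < n ∧ i.val = z := by
    intro z hz
    refine ⟨⟨z, fun i hi => ?_⟩, hz, rfl⟩
    have h2 : ∀ m : INat M, ∀ z, Mem z m.val → ∀ i, Ind i → Mem z i := by
      refine INat.ind (p := fun m : INat M => ∀ z, Mem z m.val → ∀ i, Ind i → Mem z i) ?_ ?_ ?_
      · refine Int.of_D (S := fun v => ∀ z, Mem z (v 0) → ∀ i, Ind i → Mem z i) ?_
          fun a => Iff.rfl
        exact D.all (D.imp (D.memf (DF.var _) (DF.var _)) (D.all (D.imp (D_Ind (DF.var _))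
          (D.memf (DF.var _) (DF.var _)))))
      · intro z hz
        exact absurd hz INat.not_mem_zero
      · intro m ih z hz i hi
        rcases INat.mem_succ.1 hz with h | rfl
        · exact ih z h i hi
        · exact m.prop i hi
    exact h2 n z hz i hi
  have hr : Int M (fun p : INat M × El n.val => p.1.val = p.2.1) :=
    Int.of_D₂ (S := fun v => v 0 = v 1) (D.eqf (DF.var _) (DF.var _)) fun _ _ => Iff.rfl
  by_cases hne : Nonempty (El n.val)
  · obtain ⟨x0⟩ := hne
    have hf : IntF M (fun i : INat M => the (fun x : El n.val => i.val = x.1) x0) :=
      IntF.the hr (IntF.const _)
    refine ((key n).image hf).subset fun x _ => ?_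
    rw [mem_iimage hf]
    obtain ⟨i, hi, hix⟩ := h1 x.1 x.2
    refine ⟨i, (mem_sep (by
        (repeat' first
          | (with_reducible assumption)
          | (with_reducible exact IntF.id) | (with_reducible exact IntF.fst')
          | (with_reducible exact IntF.snd') | (with_reducible exact IntF.const _)
          | (with_reducible exact Int.const _)
          | (with_reducible apply IntF.fst) | (with_reducible apply IntF.snd)
          | (with_reducible apply Int.and) | (with_reducible apply Int.or) | (with_reducible apply Int.not)
          | (with_reducible apply Int.ne) | (with_reducible apply Int.iff) | (with_reducible apply Int.imp)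
          | (with_reducible apply Int.ex) | (with_reducible apply Int.all) | (with_reducible apply Int.eq)
          | (with_reducible apply Int.mem) | (with_reducible apply Int.subset) | (with_reducible apply Int.fin)
          | (with_reducible_and_instances apply Int.leN) | (with_reducible_and_instances apply Int.ltN)
          | (with_reducible apply IntF.pair) | (with_reducible apply IntF.succ) | (with_reducible apply IntF.sep)
          | (with_reducible apply IntF.insert) | (with_reducible apply IntF.singleton)
          | (with_reducible apply IntF.union) | (with_reducible apply IntF.inter) | (with_reducible apply IntF.sdiff)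
          | (with_reducible apply int_dm) | (with_reducible apply int_rn) | (with_reducible apply int_idm)
          | (with_reducible apply int_ivr) | (with_reducible apply int_cmp) | (with_reducible apply int_img)
          | (with_reducible apply int_cl) | (with_reducible apply int_Bk)
          | (with_reducible ((refine IntF.comp₂ ?_ ?_ ?_); assumption))
          | (with_reducible ((refine Int.comp₂ ?_ ?_ ?_); assumption))
          | (with_reducible ((refine IntF.comp ?_ ?_); assumption))
          | (with_reducible ((refine Int.comp ?_ ?_); assumption))
          | (with_reducible apply IntF.app)))).2 hi, the_eq ⟨x, hix, fun y hy => Subtype.ext (hy.symm.trans hix)⟩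
      hix⟩
  · exact IFin.empty.subset fun x _ => absurd ⟨x⟩ hne

/-! ### Final theorems -/

theorem projType_of (hP : Pcs M) {Γ : IPow M (IPow M (α × α))} (hA : Amor M α) (hΓ : HSys Γ)
    (hc : ClP Γ) (hx : Exch Γ) (hD : ¬ Deg Γ) : ProjType M α := by
  have hsing : ∀ (s : IPow M α) a, s ∪ {a} = insert a s := fun s a => IPow.ext' fun x => by
    rw [mem_union, mem_insert, mem_singleton, or_comm]
  have hperm : ∀ T π, π ∈ Γ → dm π = T → rn π = T → IsPerm T π := by
    intro T π hπ h1 h2
    refine ⟨fun a b hab => ⟨?_, ?_⟩, fun a ha => ?_, fun b hb => ?_⟩
    · rw [← h1]
      exact mem_dm.2 ⟨b, hab⟩
    · rw [← h2]
      exact mem_rn.2 ⟨a, hab⟩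
    · rw [← h1] at ha
      obtain ⟨b, hb⟩ := mem_dm.1 ha
      exact ⟨b, hb, fun c hc' => ((hΓ.inj π hπ a b a c hb hc').1 rfl).symm⟩
    · rw [← h2] at hb
      obtain ⟨a, ha⟩ := mem_rn.1 hb
      exact ⟨a, ha, fun c hc' => ((hΓ.inj π hπ a b c b ha hc').2 rfl).symm⟩
  have hpres : ∀ T π, π ∈ Γ → dm π = T → rn π = T → Pres (cl Γ) T π := by
    intro T π hπ h1 h2 R R' hR hR' h3 a b hab
    have h4 : img π R = R' := by
      refine IPow.ext' fun y => ?_
      rw [mem_img]
      constructor
      · rintro ⟨x, hxR, hxy⟩
        exact (h3 x y hxy).1 hxR
      · intro hy
        have h5 := hR' y hy
        rw [← h2] at h5
        obtain ⟨x, hxy⟩ := mem_rn.1 h5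
        exact ⟨x, (h3 x y hxy).2 hy, hxy⟩
    have h5 := hc.tr π hπ R (by rw [h1]; exact hR) a b hab
    rwa [h4] at h5
  refine ⟨cl Γ, ⟨(by
      (repeat' first
        | (with_reducible assumption)
        | (with_reducible exact IntF.id) | (with_reducible exact IntF.fst')
        | (with_reducible exact IntF.snd') | (with_reducible exact IntF.const _)
        | (with_reducible exact Int.const _)
        | (with_reducible apply IntF.fst) | (with_reducible apply IntF.snd)
        | (with_reducible apply Int.and) | (with_reducible apply Int.or) | (with_reducible apply Int.not)
        | (with_reducible apply Int.ne) | (with_reducible apply Int.iff) | (with_reducible apply Int.imp)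
        | (with_reducible apply Int.ex) | (with_reducible apply Int.all) | (with_reducible apply Int.eq)
        | (with_reducible apply Int.mem) | (with_reducible apply Int.subset) | (with_reducible apply Int.fin)
        | (with_reducible_and_instances apply Int.leN) | (with_reducible_and_instances apply Int.ltN)
        | (with_reducible apply IntF.pair) | (with_reducible apply IntF.succ) | (with_reducible apply IntF.sep)
        | (with_reducible apply IntF.insert) | (with_reducible apply IntF.singleton)
        | (with_reducible apply IntF.union) | (with_reducible apply IntF.inter) | (with_reducible apply IntF.sdiff)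
        | (with_reducible apply int_dm) | (with_reducible apply int_rn) | (with_reducible apply int_idm)
        | (with_reducible apply int_ivr) | (with_reducible apply int_cmp) | (with_reducible apply int_img)
        | (with_reducible apply int_cl) | (with_reducible apply int_Bk)
        | (with_reducible ((refine IntF.comp₂ ?_ ?_ ?_); assumption))
        | (with_reducible ((refine Int.comp₂ ?_ ?_ ?_); assumption))
        | (with_reducible ((refine IntF.comp ?_ ?_); assumption))
        | (with_reducible ((refine Int.comp ?_ ?_); assumption))
        | (with_reducible apply IntF.app))), fun s hs => hΓ.clf s hs, fun s _ => hc.sub s, fun s hs => hc.idem s hs,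
    fun s t _ _ h => hc.mono s t h, fun s a b hs ha hb => ?_, ?_⟩, fun hdeg => hD ?_⟩
  · rw [hsing, hsing]
    exact ⟨fun h => hx s a b hs ha h, fun h => hx s b a hs hb h⟩
  · intro S T a b hS hT hSc hTc hST haT haS hbT hbS
    have h1 : insert (a, b) (idm S) ∈ Γ := by
      have hdS : dm (idm S) = S := IPow.ext' fun x => by
        rw [mem_dm]
        constructor
        · rintro ⟨y, hy⟩
          exact (mem_idm.1 hy).1
        · intro hx'
          exact ⟨x, mem_idm.2 ⟨hx', rfl⟩⟩
      have hrS : rn (idm S) = S := IPow.ext' fun x => by
        rw [mem_rn]
        constructor
        · rintro ⟨y, hy⟩
          have h := mem_idm.1 hy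
          rw [← show y = x from h.2]
          exact h.1
        · intro hx'
          exact ⟨x, mem_idm.2 ⟨hx', rfl⟩⟩
      refine hΓ.gen _ a b (hΓ.idm S hS) ?_ ?_
      · rw [hdS, hSc]
        exact haS
      · rw [hrS, hSc]
        exact hbS
    have hd1 : dm (insert (a, b) (idm S)) ⊆ T := fun x hx' => by
      obtain ⟨y, hy⟩ := mem_dm.1 hx'
      rcases mem_insert.1 hy with h | h
      · rw [(Prod.mk.inj h).1]
        exact haT
      · exact hST x (mem_idm.1 h).1
    have hr1 : rn (insert (a, b) (idm S)) ⊆ T := fun x hx' => by
      obtain ⟨y, hy⟩ := mem_rn.1 hx'
      rcases mem_insert.1 hy with h | h
      · rw [(Prod.mk.inj h).2]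
        exact hbT
      · have h' := mem_idm.1 h
        rw [← show y = x from h'.2]
        exact hST y h'.1
    obtain ⟨π, hπ, hsub, hdπ, hrπ⟩ := hP.lh α Γ hA hΓ hc T _ hT hTc h1 hd1 hr1
    refine ⟨π, hperm T π hπ hdπ hrπ, hsub _ (mem_insert.2 (Or.inl rfl)), fun x hxS => hsub _
      (mem_insert.2 (Or.inr (mem_idm.2 ⟨hxS, rfl⟩))), hpres T π hπ hdπ hrπ, fun U hU hUc hTU => ?_⟩
    obtain ⟨π', hπ', hsub', hdπ', hrπ'⟩ := hP.lh α Γ hA hΓ hc U π hU hUc hπ
      (by rw [hdπ]; exact hTU) (by rw [hrπ]; exact hTU)
    exact ⟨π', hperm U π' hπ' hdπ' hrπ', hsub', hpres U π' hπ' hdπ' hrπ'⟩
  · intro s a b hs x hx'
    have h1 : IFin (insert a (insert b s)) := (hs.insert b).insert a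
    obtain ⟨c, hcm, hxc⟩ := (hdeg _ h1 ⟨a, mem_insert.2 (Or.inl rfl)⟩ x).1 hx'
    have h2 : ∀ t : IPow M α, c ∈ t → x ∈ cl Γ t := fun t ht => hc.mono {c} t (fun y hy => by
      rw [mem_singleton.1 hy]
      exact ht) x hxc
    rcases mem_insert.1 hcm with rfl | h
    · exact Or.inl (h2 _ (mem_insert.2 (Or.inl rfl)))
    · rcases mem_insert.1 h with rfl | h
      · exact Or.inr (h2 _ (mem_insert.2 (Or.inl rfl)))
      · exact Or.inl (h2 _ (mem_insert.2 (Or.inr h)))

theorem one_ne : ∃ x : El (INat.succ (0 : INat M)).val, True :=
  ⟨⟨(0 : INat M).val, INat.mem_succ.2 (Or.inr rfl)⟩, trivial⟩

/-- If `P(A)` is dually Dedekind infinite, then `A` is of projective type. -/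
theorem main1 (hP : Pcs M) (hA : Amor M α) (hn : ¬ DDFin M (IPow M α)) : ProjType M α := by
  unfold DDFin at hn
  push Not at hn
  obtain ⟨f, hf, hs, hi⟩ := hn
  obtain ⟨v, -⟩ := one_ne (M := M)
  have h1 := ddfin_pow (ν := El (INat.succ (0 : INat M)).val) hf hs hi v
  obtain ⟨Γ, hΓ, hc, hx, hD⟩ := core' hP hA (fin_nat _) h1
  exact projType_of hP hA hΓ hc hx hD

/-- If some finite power of `P(A)` is dually Dedekind infinite, then so is each power with positive
exponent. -/
theorem main2 (hP : Pcs M) (hA : Amor M α) {n m : INat M} (hn : n ≠ 0)
    (hm : ¬ DDFin M (IFun M (El m.val) (IPow M α))) :
    ¬ DDFin M (IFun M (El n.val) (IPow M α)) := by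
  obtain ⟨Γ, hΓ, hc, hx, hD⟩ := core' hP hA (fin_nat m) hm
  obtain ⟨h, hh, hs, hi⟩ := hP.nd α Γ hA hΓ hc hx hD
  obtain ⟨k, rfl⟩ : ∃ k, n = INat.succ k := (INat.eq_zero_or_succ n).resolve_left hn
  exact ddfin_pow hh hs hi ⟨k.val, INat.mem_succ.2 (Or.inr rfl)⟩

end Pool.Agent.R602.AM
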