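import Pool.Agent.R602.AM.Tup

/-!
# Amorphous sets in a model of set theory: statements of the pieces
-/

set_option autoImplicit false
set_option linter.all false

namespace Pool.Agent.R602.AM

open FirstOrder FirstOrder.Language Pool.Agent.Helper672.ZFA

universe u

variable (M : Type u) [L.Structure M] [hM : IsModel M]

/-- Piece CARD. There is an internal cardinality function for finite sets. -/
def S_CARD : Prop := ∀ (κ : Type u) [ITy M κ], ∃ c : IPow M κ → INat M, IntF M c ∧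
  ∀ (s s' t : IPow M κ) (φ : IPow M (κ × κ)), IFin s → s' ⊆ s →
    (∀ y, y ∈ t → ∃ x, x ∈ s' ∧ (x, y) ∈ φ) →
    (∀ x y y', x ∈ s' → (x, y) ∈ φ → (x, y') ∈ φ → y = y') →
    c t ≤ c s ∧ (c t = c s → s' = s)

/-- Piece AMU. An increasing sequence of finite subsets of an amorphous set has a finite union. -/
def S_AMU : Prop := ∀ (α : Type u) [ITy M α], Amor M α → ∀ F : INat M → IPow M α, IntF M F →
  (∀ n, IFin (F n)) → (∀ n, F n ⊆ F n.succ) → IFin (sep M fun a => ∃ n, a ∈ F n)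

/-- Piece FINJ. An abstract criterion for injectivity of a surjection. -/
def S_FINJ : Prop := ∀ (β κ : Type u) [ITy M β] [ITy M κ] (f : β → β) (ρ : β → INat M)
  (T : β → κ) (N : INat M), IntF M f → IntF M ρ → IntF M T → Function.Surjective f →
  (∀ X, ρ X ≤ N) → (∀ X, ρ (f X) ≤ ρ X) → (∀ X, ρ (f X) = ρ X → T (f X) = T X) →
  (∀ t, IFin (sep M fun X => T X = t)) → Function.Injective f

variable {M} {α ν : Type u} [ITy M α] [ITy M ν]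

/-- Properties of the closure. -/
structure ClP (Γ : IPow M (IPow M (α × α))) : Prop where
  sub : ∀ s, s ⊆ cl Γ s
  mono : ∀ s t, s ⊆ t → cl Γ s ⊆ cl Γ t
  idem : ∀ s, IFin s → cl Γ (cl Γ s) = cl Γ s
  tr : ∀ σ, σ ∈ Γ → ∀ s, s ⊆ dm σ → ∀ a b, (a, b) ∈ σ → (a ∈ cl Γ s ↔ b ∈ cl Γ (img σ s))
  ext : ∀ σ s t, σ ∈ Γ → IFin s → IFin t → ∃ τ, τ ∈ Γ ∧ σ ⊆ τ ∧ s ⊆ dm τ ∧ t ⊆ rn τ
  extcl : ∀ σ, σ ∈ Γ → ∃ τ, τ ∈ Γ ∧ σ ⊆ τ ∧ dm τ = cl Γ (dm σ) ∧ rn τ = cl Γ (rn σ)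

/-- The exchange property. -/
def Exch (Γ : IPow M (IPow M (α × α))) : Prop := ∀ s a b, IFin s → a ∉ cl Γ s →
  a ∈ cl Γ (insert b s) → b ∈ cl Γ (insert a s)

/-- Consequences of degeneracy. -/
structure DegP (Γ : IPow M (IPow M (α × α))) : Prop where
  un : ∀ s t x, IFin s → IFin t → x ∈ cl Γ (s ∪ t) → x ∈ cl Γ t ∨ ∃ a, a ∈ s ∧ x ∈ cl Γ (insert a t)
  bk : ∀ D E x, IFin D → IFin E → cl Γ D = D → cl Γ E = E → D ⊆ E → x ∉ E →
    cl Γ (insert x E) = E ∪ Bk Γ D x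
  dis : ∀ D E x, IFin D → IFin E → cl Γ D = D → cl Γ E = E → D ⊆ E → x ∉ E →
    ∀ z, z ∈ Bk Γ D x → z ∉ E
  self : ∀ D x, cl Γ D = D → x ∉ D → x ∈ Bk Γ D x
  eq : ∀ D x y, IFin D → cl Γ D = D → x ∉ D → y ∈ Bk Γ D x → Bk Γ D y = Bk Γ D x
  rem : ∀ D E x, IFin D → IFin E → cl Γ D = D → cl Γ E = E → D ⊆ E → x ∉ D →
    cl Γ (E \ Bk Γ D x) = E \ Bk Γ D x

/-- Stability of `D`. -/
def Stab (Γ : IPow M (IPow M (α × α))) (D : IPow M α) : Prop :=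
  ∀ (E : IPow M α) (x : α) (μ : IPow M (α × α)), IFin E → cl Γ E = E → D ⊆ E → x ∉ E →
    dm μ = Bk Γ D x → rn μ = Bk Γ D x → idm D ∪ μ ∈ Γ → idm E ∪ μ ∈ Γ

/-- The swap property of `D`. -/
def Swap (Γ : IPow M (IPow M (α × α))) (D : IPow M α) : Prop :=
  ∀ (E : IPow M α) (x y : α) (g : IPow M (α × α)), IFin E → cl Γ E = E → D ⊆ E → x ∉ E →
    y ∉ E → y ∉ Bk Γ D x → dm g = Bk Γ D x → rn g = Bk Γ D y → idm D ∪ g ∈ Γ →
    idm E ∪ (g ∪ ivr g) ∈ Γ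

/-- Properties of the supports. -/
structure SpP (Γ : IPow M (IPow M (α × α))) (f : IPow M (ν × α) → IPow M (ν × α)) : Prop where
  fin : ∀ X : IPow M (ν × α), IFin (sp X)
  out : ∀ (X : IPow M (ν × α)) v a b, a ∉ sp X → b ∉ sp X → ((v, a) ∈ X ↔ (v, b) ∈ X)
  act : ∀ σ (X : IPow M (ν × α)), σ ∈ Γ → sp X ⊆ dm σ → ∃ X', Act σ X X'
  f : ∀ X, sp (f X) ⊆ cl Γ (sp X)
  fib : ∀ t : IPow M α, IFin t → IFin (sep M fun X : IPow M (ν × α) => sp X ⊆ t)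

variable (M)

/-- Piece CL. -/
def S_CL : Prop := ∀ (α : Type u) [ITy M α] (Γ : IPow M (IPow M (α × α))), Amor M α → HSys Γ →
  ClP Γ

/-- Piece EX. -/
def S_EX : Prop := ∀ (α : Type u) [ITy M α] (Γ : IPow M (IPow M (α × α))), Amor M α → HSys Γ →
  ClP Γ → Exch Γ

/-- Piece LH. -/
def S_LH : Prop := ∀ (α : Type u) [ITy M α] (Γ : IPow M (IPow M (α × α))), Amor M α → HSys Γ →
  ClP Γ → ∀ T σ, IFin T → cl Γ T = T → σ ∈ Γ → dm σ ⊆ T → rn σ ⊆ T →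
    ∃ π, π ∈ Γ ∧ σ ⊆ π ∧ dm π = T ∧ rn π = T

/-- Piece DEG. -/
def S_DEG : Prop := ∀ (α : Type u) [ITy M α] (Γ : IPow M (IPow M (α × α))), Amor M α → HSys Γ →
  ClP Γ → Exch Γ → Deg Γ → DegP Γ

/-- Piece STAB. -/
def S_STAB : Prop := ∀ (α : Type u) [ITy M α] (Γ : IPow M (IPow M (α × α))), Amor M α → HSys Γ →
  ClP Γ → Exch Γ → DegP Γ → ∃ D, IFin D ∧ cl Γ D = D ∧ Stab Γ D

/-- Piece SWAP. -/
def S_SWAP : Prop := ∀ (α : Type u) [ITy M α] (Γ : IPow M (IPow M (α × α))), Amor M α → HSys Γ →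
  ClP Γ → Exch Γ → DegP Γ → ∀ D, IFin D → cl Γ D = D → Stab Γ D → Swap Γ D

/-- Piece SP. -/
def S_SP : Prop := ∀ (α ν : Type u) [ITy M α] [ITy M ν] (Γ : IPow M (IPow M (α × α)))
  (f : IPow M (ν × α) → IPow M (ν × α)), Amor M α → IFin (iuniv M ν) → IntF M f → HSys Γ →
  ClP Γ → Cpt Γ f → SpP Γ f

/-- Piece RHO. -/
def S_RHO : Prop := ∀ (α ν : Type u) [ITy M α] [ITy M ν] (Γ : IPow M (IPow M (α × α)))
  (f : IPow M (ν × α) → IPow M (ν × α)), Amor M α → IFin (iuniv M ν) → IntF M f → HSys Γ →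
  ClP Γ → Exch Γ → DegP Γ → Cpt Γ f → SpP Γ f → ∀ D, IFin D → cl Γ D = D → Swap Γ D →
  ∃ (ρ : IPow M (ν × α) → INat M) (N : INat M), IntF M ρ ∧ (∀ X, ρ X ≤ N) ∧
    ∀ X, ρ (f X) ≤ ρ X ∧ (ρ (f X) = ρ X → cl Γ (D ∪ sp (f X)) = cl Γ (D ∪ sp X))

/-- Piece ND. -/
def S_ND : Prop := ∀ (α : Type u) [ITy M α] (Γ : IPow M (IPow M (α × α))), Amor M α → HSys Γ →
  ClP Γ → Exch Γ → ¬ Deg Γ → ∃ h : IPow M α → IPow M α, IntF M h ∧ Function.Surjective h ∧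
    ¬ Function.Injective h

/-- Properties of the relations `R k`. -/
structure RP (f : IPow M (ν × α) → IPow M (ν × α)) : Prop where
  symm : ∀ k n s s', R f k n s s' → R f k n s' s
  trans : ∀ k n s s' s'', R f k n s s' → R f k n s' s'' → R f k n s s''
  mono : ∀ k l n s s', k ≤ l → R f l n s s' → R f k n s s'
  re : ∀ k n m (s s' t t' : IFun M (INat M) α), R f k n s s' →
    (∀ i, i < m → ∃ j, j < n ∧ t i = s j ∧ t' i = s' j) → R f k m t t'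

/-- Piece RP. -/
def S_RP : Prop := ∀ (α ν : Type u) [ITy M α] [ITy M ν] (f : IPow M (ν × α) → IPow M (ν × α)),
  IntF M f → RP M f

/-- Piece IDX0: finitely many classes at level `0`. -/
def S_IDX0 : Prop := ∀ (α ν : Type u) [ITy M α] [ITy M ν] (f : IPow M (ν × α) → IPow M (ν × α)),
  Amor M α → IFin (iuniv M ν) → IntF M f → (∀ n s, R f 0 n s s) ∧
    ∀ n, ∃ Q : IPow M (IFun M (INat M) α), IFin Q ∧ ∀ s, ∃ q, q ∈ Q ∧ R f 0 n s q

/-- Piece IDX: finitely many classes at each level. -/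
def S_IDX : Prop := ∀ (α ν : Type u) [ITy M α] [ITy M ν] (f : IPow M (ν × α) → IPow M (ν × α)),
  Amor M α → IFin (iuniv M ν) → IntF M f → ∀ k, (∀ n s, R f k n s s) ∧
    ∀ n, ∃ Q : IPow M (IFun M (INat M) α), IFin Q ∧ ∀ s, ∃ q, q ∈ Q ∧ R f k n s q

/-- Piece INF: extension properties of the intersection of the relations `R k`. -/
def S_INF : Prop := ∀ (α ν : Type u) [ITy M α] [ITy M ν] (f : IPow M (ν × α) → IPow M (ν × α)),
  Amor M α → IFin (iuniv M ν) → IntF M f →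
    ∃ N : INat M × IFun M (INat M) α → IPow M α, IntF M N ∧ (∀ q, IFin (N q)) ∧
    (∀ n s a, a ∉ N (n, s) ↔ ∀ k, ∃ U : IPow M α, IFin U ∧ ∀ b, b ∉ U →
      R f k n.succ (up s n a) (up s n b)) ∧
    (∀ n s s', (∀ k, R f k n s s') →
      (∀ a b, a ∉ N (n, s) → b ∉ N (n, s') → ∀ k, R f k n.succ (up s n a) (up s' n b)) ∧
      ∀ a, ∃ b, ∀ k, R f k n.succ (up s n a) (up s' n b))

/-- Piece GAM: existence of the homogeneous system. -/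
def S_GAM : Prop := ∀ (α ν : Type u) [ITy M α] [ITy M ν] (f : IPow M (ν × α) → IPow M (ν × α)),
  Amor M α → IFin (iuniv M ν) → IntF M f → ∃ Γ : IPow M (IPow M (α × α)), HSys Γ ∧ Cpt Γ f

end Pool.Agent.R602.AM
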