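import Pool.Agent.R602.AM.Base

/-!
# Tuples and the relations `R k`
-/

set_option autoImplicit false
set_option linter.all false

namespace Pool.Agent.R602.AM

open FirstOrder FirstOrder.Language Pool.Agent.Helper672.ZFA

universe u

variable {M : Type u} [L.Structure M] [hM : IsModel M] {α β γ ν : Type u}
  [ITy M α] [ITy M β] [ITy M γ] [ITy M ν]

open Classical in
/-- The tuple `s` with the value `a` at `n`. -/
noncomputable def up (s : IFun M (INat M) α) (n : INat M) (a : α) : IFun M (INat M) α :=
  ⟨fun i => if i = n then a else s i, by
    have h1 : Int M (fun i : INat M => i = n) := (by
        (repeat' first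
          | (with_reducible assumption)
          | (with_reducible exact IntF.id) | (with_reducible exact IntF.fst')
          | (with_reducible exact IntF.snd') | (with_reducible exact IntF.const _)
          | (with_reducible exact Int.const _)
          | (with_reducible apply IntF.fst) | (with_reducible apply IntF.snd)
          | (with_reducible apply Int.and) | (with_reducible apply Int.or) | (with_reducible apply Int.not)
          | (with_reducible apply Int.ne) | (with_reducible apply Int.iff) | (with_reducible apply Int.imp)
          | (with_reducible apply Int.ex) | (with_reducible apply Int.all) | (with_reducible apply Int.eq)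
          | (with_reducible apply Int.mem) | (with_reducible apply Int.subset) | (with_reducible apply Int.fin)
          | (with_reducible_and_instances apply Int.leN) | (with_reducible_and_instances apply Int.ltN)
          | (with_reducible apply IntF.pair) | (with_reducible apply IntF.succ) | (with_reducible apply IntF.sep)
          | (with_reducible apply IntF.insert) | (with_reducible apply IntF.singleton)
          | (with_reducible apply IntF.union) | (with_reducible apply IntF.inter) | (with_reducible apply IntF.sdiff)
          | (with_reducible apply int_dm) | (with_reducible apply int_rn) | (with_reducible apply int_idm)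
          | (with_reducible apply int_ivr) | (with_reducible apply int_cmp) | (with_reducible apply int_img)
          | (with_reducible apply int_cl) | (with_reducible apply int_Bk)
          | (with_reducible ((refine IntF.comp₂ ?_ ?_ ?_); assumption))
          | (with_reducible ((refine Int.comp₂ ?_ ?_ ?_); assumption))
          | (with_reducible ((refine IntF.comp ?_ ?_); assumption))
          | (with_reducible ((refine Int.comp ?_ ?_); assumption))
          | (with_reducible apply IntF.app)))
    have h2 : IntF M (fun _ : INat M => a) := (by
        (repeat' first
          | (with_reducible assumption)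
          | (with_reducible exact IntF.id) | (with_reducible exact IntF.fst')
          | (with_reducible exact IntF.snd') | (with_reducible exact IntF.const _)
          | (with_reducible exact Int.const _)
          | (with_reducible apply IntF.fst) | (with_reducible apply IntF.snd)
          | (with_reducible apply Int.and) | (with_reducible apply Int.or) | (with_reducible apply Int.not)
          | (with_reducible apply Int.ne) | (with_reducible apply Int.iff) | (with_reducible apply Int.imp)
          | (with_reducible apply Int.ex) | (with_reducible apply Int.all) | (with_reducible apply Int.eq)
          | (with_reducible apply Int.mem) | (with_reducible apply Int.subset) | (with_reducible apply Int.fin)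
          | (with_reducible_and_instances apply Int.leN) | (with_reducible_and_instances apply Int.ltN)
          | (with_reducible apply IntF.pair) | (with_reducible apply IntF.succ) | (with_reducible apply IntF.sep)
          | (with_reducible apply IntF.insert) | (with_reducible apply IntF.singleton)
          | (with_reducible apply IntF.union) | (with_reducible apply IntF.inter) | (with_reducible apply IntF.sdiff)
          | (with_reducible apply int_dm) | (with_reducible apply int_rn) | (with_reducible apply int_idm)
          | (with_reducible apply int_ivr) | (with_reducible apply int_cmp) | (with_reducible apply int_img)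
          | (with_reducible apply int_cl) | (with_reducible apply int_Bk)
          | (with_reducible ((refine IntF.comp₂ ?_ ?_ ?_); assumption))
          | (with_reducible ((refine Int.comp₂ ?_ ?_ ?_); assumption))
          | (with_reducible ((refine IntF.comp ?_ ?_); assumption))
          | (with_reducible ((refine Int.comp ?_ ?_); assumption))
          | (with_reducible apply IntF.app)))
    exact IntF.ite h1 h2 s.int⟩

theorem up_same (s : IFun M (INat M) α) (n : INat M) (a : α) : up s n a n = a := if_pos rfl

theorem up_ne (s : IFun M (INat M) α) {n i : INat M} (a : α) (h : i ≠ n) : up s n a i = s i :=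
  if_neg h

theorem int_up {s : γ → IFun M (INat M) α} {n : γ → INat M} {a : γ → α} (hs : IntF M s)
    (hn : IntF M n) (ha : IntF M a) : IntF M (fun c => up (s c) (n c) (a c)) := by
  refine IntF.of_rel (r := fun c t => ∀ i, (i = n c → t i = a c) ∧ (i ≠ n c → t i = s c i)) (by
      (repeat' first
        | (with_reducible assumption)
        | (with_reducible exact IntF.id) | (with_reducible exact IntF.fst')
        | (with_reducible exact IntF.snd') | (with_reducible exact IntF.const _)
        | (with_reducible exact Int.const _)
        | (with_reducible apply IntF.fst) | (with_reducible apply IntF.snd)
        | (with_reducible apply Int.and) | (with_reducible apply Int.or) | (with_reducible apply Int.not)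
        | (with_reducible apply Int.ne) | (with_reducible apply Int.iff) | (with_reducible apply Int.imp)
        | (with_reducible apply Int.ex) | (with_reducible apply Int.all) | (with_reducible apply Int.eq)
        | (with_reducible apply Int.mem) | (with_reducible apply Int.subset) | (with_reducible apply Int.fin)
        | (with_reducible_and_instances apply Int.leN) | (with_reducible_and_instances apply Int.ltN)
        | (with_reducible apply IntF.pair) | (with_reducible apply IntF.succ) | (with_reducible apply IntF.sep)
        | (with_reducible apply IntF.insert) | (with_reducible apply IntF.singleton)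
        | (with_reducible apply IntF.union) | (with_reducible apply IntF.inter) | (with_reducible apply IntF.sdiff)
        | (with_reducible apply int_dm) | (with_reducible apply int_rn) | (with_reducible apply int_idm)
        | (with_reducible apply int_ivr) | (with_reducible apply int_cmp) | (with_reducible apply int_img)
        | (with_reducible apply int_cl) | (with_reducible apply int_Bk)
        | (with_reducible ((refine IntF.comp₂ ?_ ?_ ?_); assumption))
        | (with_reducible ((refine Int.comp₂ ?_ ?_ ?_); assumption))
        | (with_reducible ((refine IntF.comp ?_ ?_); assumption))
        | (with_reducible ((refine Int.comp ?_ ?_); assumption))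
        | (with_reducible apply IntF.app)))
    fun c t => ?_
  constructor
  · intro h
    refine IFun.ext' fun i => ?_
    by_cases hi : i = n c
    · rw [hi, up_same, (h _).1 rfl]
    · rw [up_ne _ _ hi, (h _).2 hi]
  · rintro rfl i
    exact ⟨fun hi => by rw [hi, up_same], fun hi => up_ne _ _ hi⟩

/-- The set `X'` is the image of `X` under `s i ↦ s' i`, `i < n`. -/
def ActT (n : INat M) (s s' : IFun M (INat M) α) (X X' : IPow M (ν × α)) : Prop :=
  ∀ v, (∀ i, i < n → ((v, s i) ∈ X ↔ (v, s' i) ∈ X')) ∧
    ∀ a b, (∀ i, i < n → a ≠ s i) → (∀ i, i < n → b ≠ s' i) → ((v, a) ∈ X ↔ (v, b) ∈ X')

/-- The basic relation on the tuples of length `n`. -/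
def Rb (f : IPow M (ν × α) → IPow M (ν × α)) (n : INat M) (s s' : IFun M (INat M) α) : Prop :=
  (∀ i j, i < n → j < n → (s i = s j ↔ s' i = s' j)) ∧
    ∀ X X' Y Y', ActT n s s' X X' → ActT n s s' Y Y' → (f X = Y ↔ f X' = Y')

/-- The extension condition. -/
def Rs (r : IPow M ((INat M × IFun M (INat M) α) × IFun M (INat M) α)) (n : INat M)
    (s s' : IFun M (INat M) α) : Prop :=
  ((n, s), s') ∈ r ∧ (∀ a, ∃ b, ((n.succ, up s n a), up s' n b) ∈ r) ∧
    (∀ b, ∃ a, ((n.succ, up s n a), up s' n b) ∈ r) ∧
    ∃ U : IPow M α, IFin U ∧ ∀ a b, a ∉ U → b ∉ U → ((n.succ, up s n a), up s' n b) ∈ r

/-- The relations `R k` on the tuples, as elements of the model. -/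
noncomputable def RR (f : IPow M (ν × α) → IPow M (ν × α)) (k : INat M) :
    IPow M ((INat M × IFun M (INat M) α) × IFun M (INat M) α) :=
  irec (sep M fun p : (INat M × IFun M (INat M) α) × IFun M (INat M) α =>
    Rb f p.1.1 p.1.2 p.2)
    (fun _ r => sep M fun p => Rs r p.1.1 p.1.2 p.2) k

/-- The relation `R k` on the tuples of length `n`. -/
def R (f : IPow M (ν × α) → IPow M (ν × α)) (k n : INat M) (s s' : IFun M (INat M) α) : Prop :=
  ((n, s), s') ∈ RR f k

theorem int_Rb {f : IPow M (ν × α) → IPow M (ν × α)} (hf : IntF M f) :
    Int M (fun p : (INat M × IFun M (INat M) α) × IFun M (INat M) α => Rb f p.1.1 p.1.2 p.2) := by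
  unfold Rb ActT
  exact (by
      (repeat' first
        | (with_reducible assumption)
        | (with_reducible exact IntF.id) | (with_reducible exact IntF.fst')
        | (with_reducible exact IntF.snd') | (with_reducible exact IntF.const _)
        | (with_reducible exact Int.const _)
        | (with_reducible apply IntF.fst) | (with_reducible apply IntF.snd)
        | (with_reducible apply Int.and) | (with_reducible apply Int.or) | (with_reducible apply Int.not)
        | (with_reducible apply Int.ne) | (with_reducible apply Int.iff) | (with_reducible apply Int.imp)
        | (with_reducible apply Int.ex) | (with_reducible apply Int.all) | (with_reducible apply Int.eq)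
        | (with_reducible apply Int.mem) | (with_reducible apply Int.subset) | (with_reducible apply Int.fin)
        | (with_reducible_and_instances apply Int.leN) | (with_reducible_and_instances apply Int.ltN)
        | (with_reducible apply IntF.pair) | (with_reducible apply IntF.succ) | (with_reducible apply IntF.sep)
        | (with_reducible apply IntF.insert) | (with_reducible apply IntF.singleton)
        | (with_reducible apply IntF.union) | (with_reducible apply IntF.inter) | (with_reducible apply IntF.sdiff)
        | (with_reducible apply int_dm) | (with_reducible apply int_rn) | (with_reducible apply int_idm)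
        | (with_reducible apply int_ivr) | (with_reducible apply int_cmp) | (with_reducible apply int_img)
        | (with_reducible apply int_cl) | (with_reducible apply int_Bk)
        | (with_reducible ((refine IntF.comp₂ ?_ ?_ ?_); assumption))
        | (with_reducible ((refine Int.comp₂ ?_ ?_ ?_); assumption))
        | (with_reducible ((refine IntF.comp ?_ ?_); assumption))
        | (with_reducible ((refine Int.comp ?_ ?_); assumption))
        | (with_reducible apply IntF.app)))

theorem int_Rs : Int M (fun q : (INat M × IPow M ((INat M × IFun M (INat M) α) ×
    IFun M (INat M) α)) × ((INat M × IFun M (INat M) α) × IFun M (INat M) α) =>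
    Rs q.1.2 q.2.1.1 q.2.1.2 q.2.2) := by
  unfold Rs
  exact (by
      (repeat' first
        | (with_reducible (refine int_up ?_ ?_ ?_))
        | (with_reducible assumption)
        | (with_reducible exact IntF.id) | (with_reducible exact IntF.fst')
        | (with_reducible exact IntF.snd') | (with_reducible exact IntF.const _)
        | (with_reducible exact Int.const _)
        | (with_reducible apply IntF.fst) | (with_reducible apply IntF.snd)
        | (with_reducible apply Int.and) | (with_reducible apply Int.or) | (with_reducible apply Int.not)
        | (with_reducible apply Int.ne) | (with_reducible apply Int.iff) | (with_reducible apply Int.imp)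
        | (with_reducible apply Int.ex) | (with_reducible apply Int.all) | (with_reducible apply Int.eq)
        | (with_reducible apply Int.mem) | (with_reducible apply Int.subset) | (with_reducible apply Int.fin)
        | (with_reducible_and_instances apply Int.leN) | (with_reducible_and_instances apply Int.ltN)
        | (with_reducible apply IntF.pair) | (with_reducible apply IntF.succ) | (with_reducible apply IntF.sep)
        | (with_reducible apply IntF.insert) | (with_reducible apply IntF.singleton)
        | (with_reducible apply IntF.union) | (with_reducible apply IntF.inter) | (with_reducible apply IntF.sdiff)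
        | (with_reducible apply int_dm) | (with_reducible apply int_rn) | (with_reducible apply int_idm)
        | (with_reducible apply int_ivr) | (with_reducible apply int_cmp) | (with_reducible apply int_img)
        | (with_reducible apply int_cl) | (with_reducible apply int_Bk)
        | (with_reducible ((refine IntF.comp₂ ?_ ?_ ?_); assumption))
        | (with_reducible ((refine Int.comp₂ ?_ ?_ ?_); assumption))
        | (with_reducible ((refine IntF.comp ?_ ?_); assumption))
        | (with_reducible ((refine Int.comp ?_ ?_); assumption))
        | (with_reducible apply IntF.app)))

theorem int_step : IntF M (fun q : INat M × IPow M ((INat M × IFun M (INat M) α) ×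
    IFun M (INat M) α) => sep M fun p : (INat M × IFun M (INat M) α) × IFun M (INat M) α =>
      Rs q.2 p.1.1 p.1.2 p.2) := IntF.sep int_Rs

theorem R_zero {f : IPow M (ν × α) → IPow M (ν × α)} (hf : IntF M f) {n : INat M}
    {s s' : IFun M (INat M) α} : R f 0 n s s' ↔ Rb f n s s' := by
  unfold R RR
  rw [irec_zero int_step, mem_sep (int_Rb hf)]

theorem R_succ {f : IPow M (ν × α) → IPow M (ν × α)} {k n : INat M}
    {s s' : IFun M (INat M) α} : R f k.succ n s s' ↔ R f k n s s' ∧
      (∀ a, ∃ b, R f k n.succ (up s n a) (up s' n b)) ∧
      (∀ b, ∃ a, R f k n.succ (up s n a) (up s' n b)) ∧
      ∃ U : IPow M α, IFin U ∧ ∀ a b, a ∉ U → b ∉ U → R f k n.succ (up s n a) (up s' n b) := by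
  have h : ∀ r : IPow M ((INat M × IFun M (INat M) α) × IFun M (INat M) α),
      Int M (fun p : (INat M × IFun M (INat M) α) × IFun M (INat M) α =>
        Rs r p.1.1 p.1.2 p.2) := fun r => by
    unfold Rs
    exact (by
        (repeat' first
          | (with_reducible (refine int_up ?_ ?_ ?_))
          | (with_reducible assumption)
          | (with_reducible exact IntF.id) | (with_reducible exact IntF.fst')
          | (with_reducible exact IntF.snd') | (with_reducible exact IntF.const _)
          | (with_reducible exact Int.const _)
          | (with_reducible apply IntF.fst) | (with_reducible apply IntF.snd)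
          | (with_reducible apply Int.and) | (with_reducible apply Int.or) | (with_reducible apply Int.not)
          | (with_reducible apply Int.ne) | (with_reducible apply Int.iff) | (with_reducible apply Int.imp)
          | (with_reducible apply Int.ex) | (with_reducible apply Int.all) | (with_reducible apply Int.eq)
          | (with_reducible apply Int.mem) | (with_reducible apply Int.subset) | (with_reducible apply Int.fin)
          | (with_reducible_and_instances apply Int.leN) | (with_reducible_and_instances apply Int.ltN)
          | (with_reducible apply IntF.pair) | (with_reducible apply IntF.succ) | (with_reducible apply IntF.sep)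
          | (with_reducible apply IntF.insert) | (with_reducible apply IntF.singleton)
          | (with_reducible apply IntF.union) | (with_reducible apply IntF.inter) | (with_reducible apply IntF.sdiff)
          | (with_reducible apply int_dm) | (with_reducible apply int_rn) | (with_reducible apply int_idm)
          | (with_reducible apply int_ivr) | (with_reducible apply int_cmp) | (with_reducible apply int_img)
          | (with_reducible apply int_cl) | (with_reducible apply int_Bk)
          | (with_reducible ((refine IntF.comp₂ ?_ ?_ ?_); assumption))
          | (with_reducible ((refine Int.comp₂ ?_ ?_ ?_); assumption))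
          | (with_reducible ((refine IntF.comp ?_ ?_); assumption))
          | (with_reducible ((refine Int.comp ?_ ?_); assumption))
          | (with_reducible apply IntF.app)))
  unfold R RR
  rw [irec_succ int_step, mem_sep (h _)]
  exact Iff.rfl

theorem int_R (f : IPow M (ν × α) → IPow M (ν × α)) {k n : γ → INat M}
    {s s' : γ → IFun M (INat M) α} (hk : IntF M k) (hn : IntF M n) (hs : IntF M s)
    (hs' : IntF M s') : Int M (fun c => R f (k c) (n c) (s c) (s' c)) := by
  have h1 : IntF M (fun k : INat M => RR f k) := by
    unfold RR
    refine IntF.irec (IntF.const _) ?_ IntF.id
    exact IntF.comp (g := fun q : INat M × IPow M ((INat M × IFun M (INat M) α) ×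
      IFun M (INat M) α) => sep M fun p : (INat M × IFun M (INat M) α) × IFun M (INat M) α =>
        Rs q.2 p.1.1 p.1.2 p.2) int_step ((IntF.snd IntF.fst').pair IntF.snd')
  have h2 : IntF M (fun c => RR f (k c)) := IntF.comp h1 hk
  unfold R
  exact Int.mem ((hn.pair hs).pair hs') h2

end Pool.Agent.R602.AM
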